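import Mathlib

set_option autoImplicit false
set_option linter.unusedSectionVars false
set_option linter.unusedSimpArgs false

/-!
Configurations: every prime of a finite set is given to one site or to none. Combinatorics of the
splitting off of one site, truncated partition functions and their exponential moments.
-/

namespace Pool.Agent.Lib_helper9.LG

open Finset

noncomputable section

variable {ι κ : Type*} [Fintype ι] [DecidableEq ι] [Fintype κ] [DecidableEq κ]

/-- Additive size (sum of the logarithms) of a set of primes. -/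
def sz (lam : ι → ℝ) (T : Finset ι) : ℝ := ∑ i ∈ T, lam i

/-- The product of the numbers `q i` over a set. -/
def ph (q : ι → ℝ) (T : Finset ι) : ℝ := ∏ i ∈ T, q i

/-- The primes given to the site `k`. -/
def blk (α : ι → Option κ) (k : κ) : Finset ι := univ.filter (fun i => α i = some k)

/-- The free primes. -/
def fre (α : ι → Option κ) : Finset ι := univ.filter (fun i => α i = none)

/-- The primes which are given to some site. -/
def spp (α : ι → Option κ) : Finset ι := univ.filter (fun i => α i ≠ none)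

/-- Give in addition the primes of `T` to the site `k`. -/
def put (α : ι → Option κ) (T : Finset ι) (k : κ) : ι → Option κ :=
  fun i => if i ∈ T then some k else α i

/-- Configurations which give nothing to the site `k`. -/
def avo (k : κ) : Finset (ι → Option κ) := univ.filter (fun α => ∀ i, α i ≠ some k)

lemma mem_blk {α : ι → Option κ} {k : κ} {i : ι} : i ∈ blk α k ↔ α i = some k := by
  simp [blk]

lemma mem_fre {α : ι → Option κ} {i : ι} : i ∈ fre α ↔ α i = none := by
  simp [fre]

lemma mem_spp {α : ι → Option κ} {i : ι} : i ∈ spp α ↔ α i ≠ none := by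
  simp [spp]

lemma mem_avo {α : ι → Option κ} {k : κ} : α ∈ avo k ↔ ∀ i, α i ≠ some k := by
  simp [avo]

lemma put_mem {α : ι → Option κ} {T : Finset ι} {k : κ} {i : ι} (h : i ∈ T) :
    put α T k i = some k := by simp [put, h]

lemma put_not_mem {α : ι → Option κ} {T : Finset ι} {k : κ} {i : ι} (h : i ∉ T) :
    put α T k i = α i := by simp [put, h]

/-- Splitting off the site `k`. -/
lemma sum_split (k : κ) (F : (ι → Option κ) → ℝ) :
    ∑ α, F α = ∑ α ∈ avo k, ∑ T ∈ (fre α).powerset, F (put α T k) := by
  rw [Finset.sum_sigma']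
  refine Finset.sum_bij' (i := fun α _ => (⟨fun i => if α i = some k then none else α i, blk α k⟩ :
      Σ _ : (ι → Option κ), Finset ι)) (j := fun p _ => put p.1 p.2 k) ?_ ?_ ?_ ?_ ?_
  · intro α _
    rw [mem_sigma, mem_avo, mem_powerset]
    refine ⟨fun i => ?_, fun i hi => ?_⟩
    · dsimp only
      split_ifs with h
      · simp
      · exact h
    · rw [mem_blk] at hi
      rw [mem_fre]
      simp [hi]
  · intro p _
    exact mem_univ _
  · intro α _
    funext i
    dsimp only [put]
    by_cases h : α i = some k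
    · rw [if_pos (mem_blk.2 h), h]
    · rw [if_neg (fun h' => h (mem_blk.1 h')), if_neg h]
  · rintro ⟨α, T⟩ h
    rw [mem_sigma, mem_avo, mem_powerset] at h
    obtain ⟨h1, h2⟩ := h
    dsimp only at h1 h2 ⊢
    have hT : blk (put α T k) k = T := by
      ext i
      rw [mem_blk]
      by_cases hi : i ∈ T
      · simp [put_mem hi, hi]
      · rw [put_not_mem hi]
        simp [hi, h1 i]
    have hα : (fun i => if put α T k i = some k then none else put α T k i) = α := by
      funext i
      by_cases hi : i ∈ T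
      · rw [put_mem hi]
        simp only [if_true]
        exact (mem_fre.1 (h2 hi)).symm
      · rw [put_not_mem hi, if_neg (h1 i)]
    rw [hT]
    congr 1
  · intro α _
    congr 1
    funext i
    dsimp only [put]
    by_cases h : α i = some k
    · rw [if_pos (mem_blk.2 h), h]
    · rw [if_neg (fun h' => h (mem_blk.1 h')), if_neg h]

section put

variable {α : ι → Option κ} {T : Finset ι} {k : κ}

lemma blk_avo (h : α ∈ avo k) : blk α k = ∅ := by
  ext i
  rw [mem_blk]
  simp [mem_avo.1 h i]

lemma blk_put_self (h : α ∈ avo k) : blk (put α T k) k = T := by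
  ext i
  rw [mem_blk]
  by_cases hi : i ∈ T
  · simp [put_mem hi, hi]
  · rw [put_not_mem hi]
    simp [hi, mem_avo.1 h i]

lemma blk_put_ne (hT : T ⊆ fre α) {j : κ} (hj : j ≠ k) : blk (put α T k) j = blk α j := by
  ext i
  rw [mem_blk, mem_blk]
  by_cases hi : i ∈ T
  · rw [put_mem hi, mem_fre.1 (hT hi)]
    simp [hj.symm]
  · rw [put_not_mem hi]

lemma spp_put : spp (put α T k) = spp α ∪ T := by
  ext i
  rw [mem_spp, mem_union, mem_spp]
  by_cases hi : i ∈ T
  · rw [put_mem hi]
    simp [hi]
  · rw [put_not_mem hi]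
    simp [hi]

lemma spp_disj (hT : T ⊆ fre α) : Disjoint (spp α) T := by
  rw [Finset.disjoint_left]
  intro i hi hiT
  exact (mem_spp.1 hi) (mem_fre.1 (hT hiT))

lemma sz_put (lam : ι → ℝ) (hT : T ⊆ fre α) :
    sz lam (spp (put α T k)) = sz lam (spp α) + sz lam T := by
  rw [spp_put, sz, Finset.sum_union (spp_disj hT)]
  rfl

end put

lemma spp_eq_biUnion (α : ι → Option κ) : spp α = univ.biUnion (fun k => blk α k) := by
  ext i
  rw [mem_spp, mem_biUnion]
  constructor
  · intro h
    obtain ⟨k, hk⟩ := Option.ne_none_iff_exists'.1 h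
    exact ⟨k, mem_univ _, mem_blk.2 hk⟩
  · rintro ⟨k, _, hk⟩
    rw [mem_blk.1 hk]
    simp

lemma blk_pairwise (α : ι → Option κ) :
    Set.PairwiseDisjoint (↑(univ : Finset κ)) (fun k => blk α k) := by
  intro k _ j _ hkj
  rw [Function.onFun, Finset.disjoint_left]
  intro i hi hij
  rw [mem_blk] at hi hij
  rw [hi] at hij
  exact hkj (Option.some_injective _ hij)

lemma sz_spp (lam : ι → ℝ) (α : ι → Option κ) : sz lam (spp α) = ∑ k, sz lam (blk α k) := by
  rw [spp_eq_biUnion, sz, Finset.sum_biUnion (blk_pairwise α)]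
  rfl

lemma ph_spp (q : ι → ℝ) (α : ι → Option κ) : ph q (spp α) = ∏ k, ph q (blk α k) := by
  rw [spp_eq_biUnion, ph, Finset.prod_biUnion (blk_pairwise α)]
  rfl

/-- Truncated product weight. -/
def wt (lam : ι → ℝ) (B : ℝ) (u : κ → Finset ι → ℝ) (α : ι → Option κ) : ℝ :=
  if sz lam (spp α) ≤ B then ∏ k, u k (blk α k) else 0

lemma prod_put {α : ι → Option κ} {T : Finset ι} {k : κ} (u : κ → Finset ι → ℝ)
    (hu : u k ∅ = 1) (h : α ∈ avo k) (hT : T ⊆ fre α) :
    ∏ j, u j (blk (put α T k) j) = (∏ j, u j (blk α j)) * u k T := by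
  rw [← Finset.mul_prod_erase univ _ (mem_univ k),
    ← Finset.mul_prod_erase univ (fun j => u j (blk α j)) (mem_univ k)]
  rw [blk_put_self h, blk_avo h, hu, one_mul, mul_comm]
  congr 1
  apply Finset.prod_congr rfl
  intro j hj
  rw [blk_put_ne hT (ne_of_mem_erase hj)]

lemma wt_put {α : ι → Option κ} {T : Finset ι} {k : κ} (lam : ι → ℝ) (B : ℝ)
    (u : κ → Finset ι → ℝ) (hu : u k ∅ = 1) (h : α ∈ avo k) (hT : T ⊆ fre α) :
    wt lam B u (put α T k) =
      if sz lam (spp α) + sz lam T ≤ B then (∏ j, u j (blk α j)) * u k T else 0 := by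
  rw [wt, sz_put lam hT, prod_put u hu h hT]

lemma sz_nonneg {lam : ι → ℝ} (hl : ∀ i, 0 ≤ lam i) (T : Finset ι) : 0 ≤ sz lam T :=
  Finset.sum_nonneg fun i _ => hl i

lemma wt_nonneg {lam : ι → ℝ} {B : ℝ} {u : κ → Finset ι → ℝ} (hu : ∀ k T, 0 ≤ u k T)
    (α : ι → Option κ) : 0 ≤ wt lam B u α := by
  unfold wt
  split_ifs
  · exact Finset.prod_nonneg fun k _ => hu _ _
  · exact le_rfl

/-- Changing the weight of one site. -/
lemma change_one {lam : ι → ℝ} (hl : ∀ i, 0 ≤ lam i) {B : ℝ} (k : κ) {u v : κ → Finset ι → ℝ}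
    (hu : ∀ j T, 0 ≤ u j T) (huv : ∀ j, j ≠ k → v j = u j) (hu1 : u k ∅ = 1) (hv1 : v k ∅ = 1)
    (hle : ∀ T, u k T ≤ v k T) :
    ∑ α, wt lam B v α ≤ (∑ α, wt lam B u α) * (1 + ∑ T, (v k T - u k T)) := by
  have hE : 0 ≤ ∑ T, (v k T - u k T) := Finset.sum_nonneg fun T _ => sub_nonneg.2 (hle T)
  have hprod : ∀ α ∈ avo (ι := ι) k, ∏ j, v j (blk α j) = ∏ j, u j (blk α j) := by
    intro α hα
    apply Finset.prod_congr rfl
    intro j _
    by_cases hj : j = k
    · subst hj
      rw [blk_avo hα, hu1, hv1]
    · rw [huv j hj]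
  have h1 : ∑ α, wt lam B v α - ∑ α, wt lam B u α ≤
      (∑ α ∈ avo k, wt lam B u α) * ∑ T, (v k T - u k T) := by
    rw [sum_split k (wt lam B v), sum_split k (wt lam B u), ← Finset.sum_sub_distrib,
      Finset.sum_mul]
    apply Finset.sum_le_sum
    intro α hα
    rw [← Finset.sum_sub_distrib]
    have h2 : ∀ T ∈ (fre α).powerset, wt lam B v (put α T k) - wt lam B u (put α T k) ≤
        wt lam B u α * (v k T - u k T) := by
      intro T hT
      rw [mem_powerset] at hT
      rw [wt_put lam B v hv1 hα hT, wt_put lam B u hu1 hα hT, hprod α hα]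
      have hP : 0 ≤ ∏ j, u j (blk α j) := Finset.prod_nonneg fun j _ => hu _ _
      have hd : 0 ≤ v k T - u k T := sub_nonneg.2 (hle T)
      have hs := sz_nonneg hl T
      by_cases hc : sz lam (spp α) + sz lam T ≤ B
      · rw [if_pos hc, if_pos hc, wt, if_pos (by linarith)]
        apply le_of_eq
        ring
      · rw [if_neg hc, if_neg hc, sub_zero]
        exact mul_nonneg (wt_nonneg hu α) hd
    calc ∑ T ∈ (fre α).powerset, (wt lam B v (put α T k) - wt lam B u (put α T k)) ≤
        ∑ T ∈ (fre α).powerset, wt lam B u α * (v k T - u k T) := Finset.sum_le_sum h2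
      _ ≤ ∑ T, wt lam B u α * (v k T - u k T) := by
          apply Finset.sum_le_sum_of_subset_of_nonneg (subset_univ _)
          intro T _ _
          exact mul_nonneg (wt_nonneg hu α) (sub_nonneg.2 (hle T))
      _ = _ := by rw [← Finset.mul_sum]
  have h3 : ∑ α ∈ avo k, wt lam B u α ≤ ∑ α, wt lam B u α :=
    Finset.sum_le_sum_of_subset_of_nonneg (subset_univ _) fun α _ _ => wt_nonneg hu α
  nlinarith [mul_le_mul_of_nonneg_right h3 hE]

/-- Changing the weights of all sites. -/
lemma change_all {lam : ι → ℝ} (hl : ∀ i, 0 ≤ lam i) {B : ℝ} {u v : Finset ι → ℝ}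
    (hu : ∀ T, 0 ≤ u T) (hu1 : u ∅ = 1) (hv1 : v ∅ = 1) (hle : ∀ T, u T ≤ v T) :
    ∑ α : ι → Option κ, wt lam B (fun _ => v) α ≤
      (∑ α : ι → Option κ, wt lam B (fun _ => u) α) * (1 + ∑ T, (v T - u T)) ^ (Fintype.card κ) := by
  have hE : 0 ≤ ∑ T, (v T - u T) := Finset.sum_nonneg fun T _ => sub_nonneg.2 (hle T)
  have key : ∀ J : Finset κ, ∑ α : ι → Option κ, wt lam B (fun k => if k ∈ J then v else u) α ≤
      (∑ α : ι → Option κ, wt lam B (fun _ => u) α) * (1 + ∑ T, (v T - u T)) ^ J.card := by
    intro J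
    induction J using Finset.induction_on with
    | empty => simp
    | insert k J hk ih =>
      have h1 := change_one (lam := lam) hl (B := B) k
        (u := fun j => if j ∈ J then v else u) (v := fun j => if j ∈ insert k J then v else u)
        (by
          intro j T
          split_ifs
          · exact (hu T).trans (hle T)
          · exact hu T)
        (by
          intro j hj
          simp [mem_insert, hj])
        (by simp [hk, hu1]) (by simp [hv1])
        (by
          intro T
          simp [hk, hle T])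
      rw [card_insert_of_notMem hk, pow_succ, ← mul_assoc]
      refine h1.trans ?_
      have h2 : (1 + ∑ T, ((fun j => if j ∈ insert k J then v else u) k T -
          (fun j => if j ∈ J then v else u) k T)) = 1 + ∑ T, (v T - u T) := by
        simp [hk]
      rw [h2]
      exact mul_le_mul_of_nonneg_right ih (by linarith)
  have h := key univ
  simpa using h

end

end Pool.Agent.Lib_helper9.LG
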