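import Mathlib
import Pool.Agent.Lib_helper9.LG.Conf

set_option autoImplicit false
set_option linter.unusedSectionVars false
set_option linter.unusedSimpArgs false

/-!
Almost orthogonality of the local products.
-/

namespace Pool.Agent.Lib_helper9.LG

open Finset

noncomputable section

variable {ι κ σ : Type*} [Fintype ι] [DecidableEq ι] [Fintype κ] [DecidableEq κ]

/-- Local correlations. -/
def gl (q : ℝ) : Option κ → Option κ → ℝ
  | none, none => 1
  | none, some _ => 0
  | some _, none => 0
  | some k, some j => if k = j then 1 / q else -1 / q ^ 2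

lemma sum_abs_gl_none (q : ℝ) : ∑ β : Option κ, |gl q (none : Option κ) β| = 1 := by
  rw [Fintype.sum_option]
  simp [gl]

lemma sum_abs_gl_some {q : ℝ} (hq : 0 < q) (k : κ) : ∑ β : Option κ, |gl q (some k) β| =
    (1 / q) * (1 + ((Fintype.card κ : ℝ) - 1) / q) := by
  rw [Fintype.sum_option]
  have h1 : ∑ j : κ, |gl q (some k) (some j)| = ∑ j : κ, (if k = j then 1 / q else 1 / q ^ 2) := by
    apply Finset.sum_congr rfl
    intro j _
    simp only [gl]
    split_ifs
    · rw [abs_of_pos (by positivity)]
    · rw [abs_div, abs_neg, abs_one, abs_of_pos (by positivity)]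
  have h2 : ∑ j : κ, (if k = j then 1 / q else 1 / q ^ 2) =
      ∑ j : κ, (1 / q ^ 2 + if k = j then 1 / q - 1 / q ^ 2 else 0) := by
    apply Finset.sum_congr rfl
    intro j _
    split_ifs <;> ring
  rw [h1, h2, Finset.sum_add_distrib, Finset.sum_const, Finset.sum_ite_eq]
  simp only [gl, abs_zero, zero_add, Finset.mem_univ, if_true, nsmul_eq_mul, Finset.card_univ]
  field_simp
  ring

/-- Correlations of configurations. -/
def gram (q : ι → ℝ) (α β : ι → Option κ) : ℝ := ∏ i, gl (q i) (α i) (β i)

lemma prod_ite_none (α : ι → Option κ) (f : ι → ℝ) :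
    ∏ i, (if α i = none then 1 else f i) = ∏ i ∈ spp α, f i := by
  rw [spp, Finset.prod_filter]
  apply Finset.prod_congr rfl
  intro i _
  by_cases h : α i = none
  · simp [h]
  · simp [h]

lemma gram_self (q : ι → ℝ) (α : ι → Option κ) : gram q α α = 1 / ph q (spp α) := by
  rw [gram, ph, one_div, ← Finset.prod_inv_distrib, ← prod_ite_none]
  apply Finset.prod_congr rfl
  intro i _
  cases h : α i with
  | none => simp [gl]
  | some k => simp [gl]

lemma sum_abs_gram {q : ι → ℝ} (hq : ∀ i, 0 < q i) (α : ι → Option κ) :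
    ∑ β, |gram q α β| =
      (1 / ph q (spp α)) * ∏ i ∈ spp α, (1 + ((Fintype.card κ : ℝ) - 1) / q i) := by
  have h1 : ∀ β : ι → Option κ, |gram q α β| = ∏ i, |gl (q i) (α i) (β i)| := by
    intro β
    rw [gram, Finset.abs_prod]
  have h2 : ∑ β : ι → Option κ, ∏ i, |gl (q i) (α i) (β i)| =
      ∏ i, ∑ b : Option κ, |gl (q i) (α i) b| := by
    rw [Finset.prod_univ_sum]
    simp
  rw [Finset.sum_congr rfl fun β _ => h1 β, h2]
  have h3 : ∀ i, ∑ b : Option κ, |gl (q i) (α i) b| = if α i = none then 1 else
      (1 / q i) * (1 + ((Fintype.card κ : ℝ) - 1) / q i) := by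
    intro i
    cases h : α i with
    | none => simpa using sum_abs_gl_none (κ := κ) (q i)
    | some k => simpa using sum_abs_gl_some (hq i) k
  rw [Finset.prod_congr rfl fun i _ => h3 i, prod_ite_none, Finset.prod_mul_distrib, ph, one_div,
    ← Finset.prod_inv_distrib]
  congr 1
  apply Finset.prod_congr rfl
  intro i _
  rw [one_div]

/-- Schur test. -/
lemma schur {q : ι → ℝ} (hq : ∀ i, 0 < q i) (y : (ι → Option κ) → ℝ) {ε : ℝ}
    (hε : ∀ α, y α ≠ 0 → ∏ i ∈ spp α, (1 + ((Fintype.card κ : ℝ) - 1) / q i) ≤ 1 + ε) :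
    |∑ α, ∑ β, y α * y β * gram q α β - ∑ α, y α ^ 2 / ph q (spp α)| ≤
      ε * ∑ α, y α ^ 2 / ph q (spp α) := by
  classical
  have hsymm : ∀ α β : ι → Option κ, gram q α β = gram q β α := by
    intro α β
    unfold gram
    apply Finset.prod_congr rfl
    intro i _
    cases α i <;> cases β i <;> simp [gl, eq_comm]
  have hdiag : ∑ α, y α ^ 2 / ph q (spp α) =
      ∑ α, ∑ β, (if α = β then y α * y β * gram q α β else 0) := by
    apply Finset.sum_congr rfl
    intro α _
    rw [Finset.sum_ite_eq]
    simp only [Finset.mem_univ, if_true]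
    rw [gram_self]
    ring
  have hoff : ∀ α : ι → Option κ, y α ^ 2 * ∑ β, (if α = β then 0 else |gram q α β|) ≤
      ε * (y α ^ 2 / ph q (spp α)) := by
    intro α
    by_cases hy : y α = 0
    · simp [hy]
    · have hph : 0 < ph q (spp α) := Finset.prod_pos fun i _ => hq i
      have h1 : ∑ β, (if α = β then 0 else |gram q α β|) =
          ∑ β, |gram q α β| - |gram q α α| := by
        rw [eq_sub_iff_add_eq]
        have h2 : |gram q α α| = ∑ β, (if α = β then |gram q α β| else 0) := by
          rw [Finset.sum_ite_eq]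
          simp
        rw [h2, ← Finset.sum_add_distrib]
        apply Finset.sum_congr rfl
        intro β _
        split_ifs <;> simp
      rw [h1, sum_abs_gram hq, gram_self, abs_of_pos (by positivity)]
      have h3 := hε α hy
      have h4 : 1 / ph q (spp α) * ∏ i ∈ spp α, (1 + ((Fintype.card κ : ℝ) - 1) / q i) -
          1 / ph q (spp α) ≤ ε * (1 / ph q (spp α)) := by
        have : 0 < 1 / ph q (spp α) := by positivity
        nlinarith
      calc _ ≤ y α ^ 2 * (ε * (1 / ph q (spp α))) := by gcongr
        _ = _ := by ring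
  calc |∑ α, ∑ β, y α * y β * gram q α β - ∑ α, y α ^ 2 / ph q (spp α)|
      = |∑ α, ∑ β, (if α = β then 0 else y α * y β * gram q α β)| := by
        rw [hdiag, ← Finset.sum_sub_distrib]
        congr 1
        apply Finset.sum_congr rfl
        intro α _
        rw [← Finset.sum_sub_distrib]
        apply Finset.sum_congr rfl
        intro β _
        split_ifs <;> simp
    _ ≤ ∑ α, ∑ β, |if α = β then 0 else y α * y β * gram q α β| := by
        refine (Finset.abs_sum_le_sum_abs _ _).trans ?_
        exact Finset.sum_le_sum fun α _ => Finset.abs_sum_le_sum_abs _ _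
    _ ≤ ∑ α, ∑ β, ((y α ^ 2 * (if α = β then 0 else |gram q α β|)) / 2 +
          (y β ^ 2 * (if β = α then 0 else |gram q β α|)) / 2) := by
        apply Finset.sum_le_sum
        intro α _
        apply Finset.sum_le_sum
        intro β _
        by_cases h : α = β
        · simp [h]
        · rw [if_neg h, if_neg h, if_neg (Ne.symm h), abs_mul, abs_mul, hsymm β α]
          have h1 : 2 * (|y α| * |y β|) ≤ y α ^ 2 + y β ^ 2 := by
            rw [← sq_abs (y α), ← sq_abs (y β)]
            nlinarith [sq_nonneg (|y α| - |y β|)]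
          have h2 := abs_nonneg (gram q α β)
          nlinarith
    _ = ∑ α, y α ^ 2 * ∑ β, (if α = β then 0 else |gram q α β|) := by
        simp_rw [Finset.sum_add_distrib]
        rw [Finset.sum_comm (f := fun α β => (y β ^ 2 * (if β = α then 0 else |gram q β α|)) / 2),
          ← Finset.sum_add_distrib]
        apply Finset.sum_congr rfl
        intro α _
        rw [← Finset.sum_add_distrib, Finset.mul_sum]
        apply Finset.sum_congr rfl
        intro β _
        ring
    _ ≤ ∑ α, ε * (y α ^ 2 / ph q (spp α)) := Finset.sum_le_sum fun α _ => hoff α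
    _ = _ := by rw [← Finset.mul_sum]

/-- The value of a configuration. -/
def vl (x : ι → κ → σ → ℝ) (α : ι → Option κ) (ω : σ) : ℝ :=
  ∏ i, (α i).elim 1 (fun k => x i k ω)

/-- Mean square of a combination of the values. -/
lemma mean_square {q : ι → ℝ} (hq : ∀ i, 0 < q i) (x : ι → κ → σ → ℝ) (Ω : Finset σ) {M : ℝ}
    (lam : ι → ℝ) {B ε η C : ℝ} (hη : 0 ≤ η) (hC : ∑ α : ι → Option κ,
      Real.exp (-2 * sz lam (spp α)) ≤ C)
    (hε : ∀ α : ι → Option κ, sz lam (spp α) ≤ B →
      ∏ i ∈ spp α, (1 + ((Fintype.card κ : ℝ) - 1) / q i) ≤ 1 + ε)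
    (herr : ∀ α β : ι → Option κ, sz lam (spp α) ≤ B → sz lam (spp β) ≤ B →
      |(∑ ω ∈ Ω, vl x α ω * vl x β ω) / M - gram q α β| ≤
        η * (Real.exp (sz lam (spp α)) * Real.exp (sz lam (spp β))))
    (y : (ι → Option κ) → ℝ) (hy1 : ∀ α, |y α| ≤ 1) (hy : ∀ α, y α ≠ 0 → sz lam (spp α) ≤ B) :
    |(∑ ω ∈ Ω, (∑ α, y α * vl x α ω) ^ 2) / M - ∑ α, y α ^ 2 / ph q (spp α)| ≤
      ε * ∑ α, y α ^ 2 / ph q (spp α) + η * (Real.exp (3 * B) * C) ^ 2 := by
  have h1 : (∑ ω ∈ Ω, (∑ α, y α * vl x α ω) ^ 2) / M =
      ∑ α, ∑ β, y α * y β * ((∑ ω ∈ Ω, vl x α ω * vl x β ω) / M) := by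
    have h2 : ∀ ω, (∑ α, y α * vl x α ω) ^ 2 =
        ∑ α, ∑ β, y α * y β * (vl x α ω * vl x β ω) := by
      intro ω
      rw [sq, Finset.sum_mul_sum]
      apply Finset.sum_congr rfl
      intro α _
      apply Finset.sum_congr rfl
      intro β _
      ring
    rw [Finset.sum_congr rfl fun ω _ => h2 ω, Finset.sum_comm, Finset.sum_div]
    apply Finset.sum_congr rfl
    intro α _
    rw [Finset.sum_comm, Finset.sum_div]
    apply Finset.sum_congr rfl
    intro β _
    rw [← Finset.mul_sum, mul_div_assoc]
  have h2 := schur hq y (ε := ε) (fun α hα => hε α (hy α hα))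
  have h3 : |∑ α, ∑ β, y α * y β * ((∑ ω ∈ Ω, vl x α ω * vl x β ω) / M) -
      ∑ α, ∑ β, y α * y β * gram q α β| ≤ η * (Real.exp (3 * B) * C) ^ 2 := by
    have hsum : ∑ α, |y α| * Real.exp (sz lam (spp α)) ≤ Real.exp (3 * B) * C := by
      calc ∑ α, |y α| * Real.exp (sz lam (spp α)) ≤
            ∑ α, Real.exp (3 * B) * Real.exp (-2 * sz lam (spp α)) := by
            apply Finset.sum_le_sum
            intro α _
            by_cases h : y α = 0
            · rw [h, abs_zero, zero_mul]
              positivity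
            · have h4 := hy α h
              calc |y α| * Real.exp (sz lam (spp α)) ≤ 1 * Real.exp (sz lam (spp α)) := by
                    gcongr
                    exact hy1 α
                _ ≤ Real.exp (3 * B + -2 * sz lam (spp α)) := by
                    rw [one_mul]
                    apply Real.exp_le_exp.2
                    linarith
                _ = _ := by rw [Real.exp_add]
        _ = Real.exp (3 * B) * ∑ α : ι → Option κ, Real.exp (-2 * sz lam (spp α)) := by
            rw [← Finset.mul_sum]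
        _ ≤ _ := by gcongr
    calc _ = |∑ α, ∑ β, y α * y β * ((∑ ω ∈ Ω, vl x α ω * vl x β ω) / M - gram q α β)| := by
          rw [← Finset.sum_sub_distrib]
          congr 1
          apply Finset.sum_congr rfl
          intro α _
          rw [← Finset.sum_sub_distrib]
          apply Finset.sum_congr rfl
          intro β _
          ring
      _ ≤ ∑ α, ∑ β, |y α * y β * ((∑ ω ∈ Ω, vl x α ω * vl x β ω) / M - gram q α β)| := by
          refine (Finset.abs_sum_le_sum_abs _ _).trans ?_
          exact Finset.sum_le_sum fun α _ => Finset.abs_sum_le_sum_abs _ _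
      _ ≤ ∑ α, ∑ β, η * ((|y α| * Real.exp (sz lam (spp α))) *
            (|y β| * Real.exp (sz lam (spp β)))) := by
          apply Finset.sum_le_sum
          intro α _
          apply Finset.sum_le_sum
          intro β _
          rw [abs_mul, abs_mul]
          by_cases hα : y α = 0
          · rw [hα]
            simp
          by_cases hβ : y β = 0
          · rw [hβ]
            simp
          have h4 := herr α β (hy α hα) (hy β hβ)
          calc |y α| * |y β| * |(∑ ω ∈ Ω, vl x α ω * vl x β ω) / M - gram q α β| ≤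
                |y α| * |y β| * (η * (Real.exp (sz lam (spp α)) * Real.exp (sz lam (spp β)))) := by
                gcongr
            _ = _ := by ring
      _ = η * (∑ α, |y α| * Real.exp (sz lam (spp α))) ^ 2 := by
          simp_rw [← Finset.mul_sum]
          rw [← Finset.sum_mul, sq]
      _ ≤ _ := by
          have : 0 ≤ ∑ α, |y α| * Real.exp (sz lam (spp α)) :=
            Finset.sum_nonneg fun α _ => by positivity
          gcongr
  rw [h1]
  have h4 := abs_sub_le (∑ α, ∑ β, y α * y β * ((∑ ω ∈ Ω, vl x α ω * vl x β ω) / M))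
    (∑ α, ∑ β, y α * y β * gram q α β) (∑ α, y α ^ 2 / ph q (spp α))
  linarith

/-- The number of configurations, weighted. -/
lemma sum_exp_neg (lam : ι → ℝ) : ∑ α : ι → Option κ, Real.exp (-2 * sz lam (spp α)) ≤
    Real.exp ((Fintype.card κ : ℝ) * ∑ i, Real.exp (-2 * lam i)) := by
  have h1 : ∀ α : ι → Option κ, Real.exp (-2 * sz lam (spp α)) =
      ∏ i, (α i).elim 1 (fun _ => Real.exp (-2 * lam i)) := by
    intro α
    have h2 : ∏ i, (α i).elim 1 (fun _ => Real.exp (-2 * lam i)) =
        ∏ i, (if α i = none then 1 else Real.exp (-2 * lam i)) := by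
      apply Finset.prod_congr rfl
      intro i _
      cases α i <;> simp
    rw [h2, prod_ite_none, ← Real.exp_sum, sz, Finset.mul_sum]
  have h3 : ∑ α : ι → Option κ, ∏ i, (α i).elim 1 (fun _ => Real.exp (-2 * lam i)) =
      ∏ i, ∑ b : Option κ, b.elim 1 (fun _ => Real.exp (-2 * lam i)) := by
    rw [Finset.prod_univ_sum]
    simp
  rw [Finset.sum_congr rfl fun α _ => h1 α, h3, Finset.mul_sum, Real.exp_sum]
  apply Finset.prod_le_prod
  · intro i _
    apply Finset.sum_nonneg
    intro b _
    cases b <;> simp [Real.exp_nonneg]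
  · intro i _
    rw [Fintype.sum_option]
    simp only [Option.elim, Finset.sum_const, Finset.card_univ, nsmul_eq_mul]
    have := Real.add_one_le_exp ((Fintype.card κ : ℝ) * Real.exp (-2 * lam i))
    linarith

end

end Pool.Agent.Lib_helper9.LG
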