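import Mathlib
import Pool.Agent.Lib_helper9.LG.Gram

set_option autoImplicit false
set_option linter.unusedSectionVars false
set_option linter.unusedSimpArgs false

/-!
The weights which vanish at primes, and the main inequality.
-/

namespace Pool.Agent.Lib_helper9.LG

open Finset

noncomputable section

variable {ι κ σ : Type*} [Fintype ι] [DecidableEq ι] [Fintype κ] [DecidableEq κ]

/-- The summand `1 / (phi(r) log r)`. -/
def s0 (lam q : ι → ℝ) (B1 : ℝ) (T : Finset ι) : ℝ :=
  if T = ∅ then 0 else if sz lam T ≤ B1 then 1 / (ph q T * sz lam T) else 0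

/-- The amplitude. -/
def hh (lam : ι → ℝ) (a B1 : ℝ) (T : Finset ι) : ℝ :=
  if T = ∅ then 1 else if sz lam T ≤ B1 then -a / sz lam T else 0

/-- The weight. -/
def ww (lam q : ι → ℝ) (a B1 : ℝ) (T : Finset ι) : ℝ := hh lam a B1 T ^ 2 / ph q T

/-- The remaining amplitude at a prime. -/
def AA (lam q : ι → ℝ) (a B B1 : ℝ) (α : ι → Option κ) : ℝ :=
  ∑ T ∈ (fre α).powerset, if sz lam (spp α) + sz lam T ≤ B then hh lam a B1 T / ph q T else 0

section basic

variable {lam q : ι → ℝ} {a B B1 : ℝ}

lemma ph_pos (hq : ∀ i, 0 < q i) (T : Finset ι) : 0 < ph q T := Finset.prod_pos fun i _ => hq i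

lemma ph_empty : ph q ∅ = 1 := by simp [ph]

lemma sz_empty : sz lam ∅ = 0 := by simp [sz]

lemma sz_pos (hl : ∀ i, 0 < lam i) {T : Finset ι} (hT : T ≠ ∅) : 0 < sz lam T :=
  Finset.sum_pos (fun i _ => hl i) (Finset.nonempty_iff_ne_empty.2 hT)

lemma s0_nonneg (hl : ∀ i, 0 < lam i) (hq : ∀ i, 0 < q i) (T : Finset ι) :
    0 ≤ s0 lam q B1 T := by
  unfold s0
  split_ifs with h1 h2
  · exact le_rfl
  · have := sz_pos hl h1
    have := ph_pos hq T
    positivity
  · exact le_rfl

lemma s0_empty : s0 lam q B1 ∅ = 0 := by simp [s0]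

lemma hh_empty : hh lam a B1 ∅ = 1 := by simp [hh]

lemma ww_empty : ww lam q a B1 ∅ = 1 := by simp [ww, hh_empty, ph_empty]

lemma ww_nonneg (hq : ∀ i, 0 < q i) (T : Finset ι) : 0 ≤ ww lam q a B1 T :=
  div_nonneg (sq_nonneg _) (ph_pos hq T).le

lemma hh_div (T : Finset ι) :
    hh lam a B1 T / ph q T = (if T = ∅ then 1 else 0) - a * s0 lam q B1 T := by
  unfold hh s0
  split_ifs with h1 h2
  · simp [h1, ph_empty]
  · rw [zero_sub, mul_one_div, neg_div, neg_div, div_div, mul_comm (ph q T)]
  · simp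

lemma sz_mono (hl : ∀ i, 0 ≤ lam i) {S T : Finset ι} (h : S ⊆ T) : sz lam S ≤ sz lam T :=
  Finset.sum_le_sum_of_subset_of_nonneg h fun i _ _ => hl i

lemma abs_hh_le (hl : ∀ i, 0 < lam i) (ha : 0 ≤ a) (hal : ∀ i, a ≤ lam i) (T : Finset ι) :
    |hh lam a B1 T| ≤ 1 := by
  unfold hh
  split_ifs with h1 h2
  · simp
  · have h3 := sz_pos hl h1
    rw [abs_div, abs_neg, abs_of_nonneg ha, abs_of_pos h3, div_le_one h3]
    obtain ⟨i, hi⟩ := Finset.nonempty_iff_ne_empty.2 h1
    refine (hal i).trans ?_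
    have h4 := sz_mono (lam := lam) (fun i => (hl i).le) (Finset.singleton_subset_iff.2 hi)
    simpa [sz] using h4
  · simp

/-- `w(r) log r` summed. -/
lemma ww_mul_sz (hl : ∀ i, 0 < lam i) (hq : ∀ i, 0 < q i) (T : Finset ι) :
    ww lam q a B1 T * sz lam T = a ^ 2 * s0 lam q B1 T := by
  unfold ww hh s0
  split_ifs with h1 h2
  · simp [h1, sz_empty]
  · have h3 := sz_pos hl h1
    have h4 := ph_pos hq T
    field_simp
  · simp

end basic

section single

variable {lam q : ι → ℝ} {a B B1 : ℝ}

/-- The sum over the sets containing a given prime. -/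
lemma sum_mem_s0 (hl : ∀ i, 0 < lam i) (hq : ∀ i, 0 < q i) (i : ι) :
    ∑ T ∈ univ.filter (fun T : Finset ι => i ∈ T), s0 lam q B1 T ≤
      (1 / q i) * (1 / lam i + ∑ T, s0 lam q B1 T) := by
  have h1 : ∑ T ∈ univ.filter (fun T : Finset ι => i ∈ T), s0 lam q B1 T ≤
      ∑ T ∈ univ.filter (fun T : Finset ι => i ∈ T),
        (1 / q i) * ((if T.erase i = ∅ then 1 / lam i else 0) + s0 lam q B1 (T.erase i)) := by
    apply Finset.sum_le_sum
    intro T hT
    rw [mem_filter] at hT
    have hiT := hT.2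
    have hTne : T ≠ ∅ := Finset.nonempty_iff_ne_empty.1 ⟨i, hiT⟩
    have hph : ph q T = q i * ph q (T.erase i) := by
      rw [ph, ph, Finset.mul_prod_erase _ _ hiT]
    have hsz : sz lam T = lam i + sz lam (T.erase i) := by
      rw [sz, sz, Finset.add_sum_erase _ _ hiT]
    have hqi := hq i
    have hli := hl i
    have hphe := ph_pos hq (T.erase i)
    by_cases hc : sz lam T ≤ B1
    · rw [s0, if_neg hTne, if_pos hc, hph, hsz]
      by_cases he : T.erase i = ∅
      · rw [if_pos he, he, s0_empty, sz_empty, ph_empty]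
        apply le_of_eq
        field_simp
        ring
      · have hse := sz_pos hl he
        rw [if_neg he, zero_add, s0, if_neg he, if_pos (by linarith)]
        rw [one_div_mul_one_div, ← mul_assoc]
        apply one_div_le_one_div_of_le (by positivity)
        gcongr
        linarith
    · rw [s0, if_neg hTne, if_neg hc]
      have h2 := s0_nonneg (B1 := B1) hl hq (T.erase i)
      split_ifs <;> positivity
  refine h1.trans ?_
  rw [← Finset.mul_sum]
  have h2 : 0 ≤ 1 / q i := by
    have := hq i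
    positivity
  apply mul_le_mul_of_nonneg_left _ h2
  have h3 : ∑ T ∈ univ.filter (fun T : Finset ι => i ∈ T),
      ((if T.erase i = ∅ then 1 / lam i else 0) + s0 lam q B1 (T.erase i)) =
      ∑ T ∈ univ.filter (fun T : Finset ι => i ∉ T),
        ((if T = ∅ then 1 / lam i else 0) + s0 lam q B1 T) := by
    refine Finset.sum_bij' (i := fun T _ => T.erase i) (j := fun T _ => insert i T) ?_ ?_ ?_ ?_ ?_
    · intro T _
      simp
    · intro T _
      simp
    · intro T hT
      rw [mem_filter] at hT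
      exact Finset.insert_erase hT.2
    · intro T hT
      rw [mem_filter] at hT
      exact Finset.erase_insert hT.2
    · intro T _
      rfl
  rw [h3]
  calc _ ≤ ∑ T : Finset ι, ((if T = ∅ then 1 / lam i else 0) + s0 lam q B1 T) := by
        apply Finset.sum_le_sum_of_subset_of_nonneg (subset_univ _)
        intro T _ _
        have h2 := s0_nonneg (B1 := B1) hl hq T
        have h4 := hl i
        split_ifs <;> positivity
    _ = _ := by
        rw [Finset.sum_add_distrib, Finset.sum_ite_eq']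
        simp

end single

section AA

variable {lam q : ι → ℝ} {a B B1 : ℝ}

lemma AA_eq (α : ι → Option κ) (hα : sz lam (spp α) ≤ B) :
    AA lam q a B B1 α = 1 - a * ∑ T ∈ (fre α).powerset,
      (if sz lam (spp α) + sz lam T ≤ B then s0 lam q B1 T else 0) := by
  unfold AA
  have h1 : ∀ T ∈ (fre α).powerset,
      (if sz lam (spp α) + sz lam T ≤ B then hh lam a B1 T / ph q T else 0) =
      (if T = ∅ then 1 else 0) -
        a * (if sz lam (spp α) + sz lam T ≤ B then s0 lam q B1 T else 0) := by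
    intro T _
    by_cases hT : T = ∅
    · subst hT
      rw [sz_empty, add_zero, if_pos hα, if_pos hα, hh_div]
    · rw [if_neg hT]
      split_ifs with hc
      · rw [hh_div, if_neg hT]
      · simp
  rw [Finset.sum_congr rfl h1, Finset.sum_sub_distrib, ← Finset.mul_sum, Finset.sum_ite_eq']
  simp

lemma AA_le_one (hl : ∀ i, 0 < lam i) (hq : ∀ i, 0 < q i) (ha : 0 ≤ a) (α : ι → Option κ)
    (hα : sz lam (spp α) ≤ B) : AA lam q a B B1 α ≤ 1 := by
  rw [AA_eq α hα]
  have : 0 ≤ ∑ T ∈ (fre α).powerset,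
      (if sz lam (spp α) + sz lam T ≤ B then s0 lam q B1 T else 0) := by
    apply Finset.sum_nonneg
    intro T _
    split_ifs
    · exact s0_nonneg hl hq T
    · exact le_rfl
  nlinarith

lemma AA_nonneg (hl : ∀ i, 0 < lam i) (hq : ∀ i, 0 < q i) (ha : 0 ≤ a)
    (hnorm : a * ∑ T, s0 lam q B1 T = 1) (α : ι → Option κ)
    (hα : sz lam (spp α) ≤ B) : 0 ≤ AA lam q a B B1 α := by
  rw [AA_eq α hα, sub_nonneg, ← hnorm]
  apply mul_le_mul_of_nonneg_left _ ha
  calc _ ≤ ∑ T ∈ (fre α).powerset, s0 lam q B1 T := by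
        apply Finset.sum_le_sum
        intro T _
        split_ifs
        · exact le_rfl
        · exact s0_nonneg hl hq T
    _ ≤ _ := Finset.sum_le_sum_of_subset_of_nonneg (subset_univ _)
        fun T _ _ => s0_nonneg hl hq T

lemma AA_small (hl : ∀ i, 0 < lam i) (hq : ∀ i, 0 < q i) (ha : 0 ≤ a) (hal : ∀ i, a ≤ lam i)
    (hnorm : a * ∑ T, s0 lam q B1 T = 1) (α : ι → Option κ) (hB1 : 0 ≤ B1)
    (hα : sz lam (spp α) ≤ B - B1) {δ : ℝ} (hδ : ∑ i ∈ spp α, 2 / q i ≤ δ) :
    AA lam q a B B1 α ≤ δ := by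
  rw [AA_eq α (by linarith)]
  have h1 : ∑ T ∈ (fre α).powerset,
      (if sz lam (spp α) + sz lam T ≤ B then s0 lam q B1 T else 0) =
      ∑ T ∈ (fre α).powerset, s0 lam q B1 T := by
    apply Finset.sum_congr rfl
    intro T _
    split_ifs with hc
    · rfl
    · unfold s0
      split_ifs with h2 h3
      · rfl
      · exact absurd (by linarith) hc
      · rfl
  rw [h1]
  have h2 : ∑ T, s0 lam q B1 T ≤ ∑ T ∈ (fre α).powerset, s0 lam q B1 T +
      ∑ i ∈ spp α, ∑ T ∈ univ.filter (fun T : Finset ι => i ∈ T), s0 lam q B1 T := by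
    have h3 : ∀ T : Finset ι, s0 lam q B1 T ≤
        (if T ∈ (fre α).powerset then s0 lam q B1 T else 0) +
        ∑ i ∈ spp α, (if i ∈ T then s0 lam q B1 T else 0) := by
      intro T
      have h0 := s0_nonneg (B1 := B1) hl hq T
      by_cases hT : T ∈ (fre α).powerset
      · rw [if_pos hT]
        have : 0 ≤ ∑ i ∈ spp α, (if i ∈ T then s0 lam q B1 T else 0) := by
          apply Finset.sum_nonneg
          intro i _
          split_ifs
          · exact h0
          · exact le_rfl
        linarith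
      · rw [if_neg hT, zero_add]
        rw [mem_powerset, Finset.not_subset] at hT
        obtain ⟨i, hi, hif⟩ := hT
        have hi2 : i ∈ spp α := by
          rw [mem_spp]
          intro h
          exact hif (mem_fre.2 h)
        calc s0 lam q B1 T = (if i ∈ T then s0 lam q B1 T else 0) := by rw [if_pos hi]
          _ ≤ _ := Finset.single_le_sum (f := fun i => if i ∈ T then s0 lam q B1 T else 0)
              (fun j _ => by
                split_ifs
                · exact h0
                · exact le_rfl) hi2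
    calc ∑ T, s0 lam q B1 T ≤ ∑ T, ((if T ∈ (fre α).powerset then s0 lam q B1 T else 0) +
        ∑ i ∈ spp α, (if i ∈ T then s0 lam q B1 T else 0)) := Finset.sum_le_sum fun T _ => h3 T
      _ = _ := by
          rw [Finset.sum_add_distrib, Finset.sum_comm]
          congr 1
          · rw [← Finset.sum_filter]
            congr 1
            ext T
            simp
          · apply Finset.sum_congr rfl
            intro i _
            rw [← Finset.sum_filter]
  have h4 : a * ∑ i ∈ spp α, ∑ T ∈ univ.filter (fun T : Finset ι => i ∈ T), s0 lam q B1 T ≤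
      ∑ i ∈ spp α, 2 / q i := by
    rw [Finset.mul_sum]
    apply Finset.sum_le_sum
    intro i _
    have h5 := mul_le_mul_of_nonneg_left (sum_mem_s0 (B1 := B1) hl hq i) ha
    refine h5.trans ?_
    have hqi := hq i
    have hli := hl i
    have h6 : a * (1 / lam i) ≤ 1 := by
      rw [mul_one_div, div_le_one hli]
      exact hal i
    calc a * (1 / q i * (1 / lam i + ∑ T, s0 lam q B1 T)) =
          (1 / q i) * (a * (1 / lam i) + a * ∑ T, s0 lam q B1 T) := by ring
      _ ≤ (1 / q i) * (1 + 1) := by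
          rw [hnorm]
          gcongr
      _ = 2 / q i := by ring
  have h5 := mul_le_mul_of_nonneg_left h2 ha
  rw [hnorm, mul_add] at h5
  linarith

end AA

section tail

variable {lam q : ι → ℝ} {a B B1 : ℝ}

lemma exp_sub_one_le {u : ℝ} (h0 : 0 ≤ u) (h1 : u ≤ 1) : Real.exp u - 1 ≤ 2 * u := by
  have h := Real.exp_bound_div_one_sub_of_interval h0
  have h2 := Real.abs_exp_sub_one_le (x := u) (by rw [abs_of_nonneg h0]; exact h1)
  rw [abs_of_nonneg h0] at h2
  exact (le_abs_self _).trans h2

lemma tail_le (hl : ∀ i, 0 < lam i) (hq : ∀ i, 0 < q i)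
    (hnorm : a * ∑ T, s0 lam q B1 T = 1) (hB1 : 0 < B1) (B' : ℝ) :
    ∑ α : ι → Option κ, (if B' < sz lam (spp α) then wt lam B (fun _ => ww lam q a B1) α else 0) ≤
      (∑ α : ι → Option κ, wt lam B (fun _ => ww lam q a B1) α) *
        Real.exp ((2 * a * Fintype.card κ - B') / B1) := by
  set v : Finset ι → ℝ := fun T => ww lam q a B1 T * Real.exp (sz lam T / B1) with hv
  have h1 : ∀ α : ι → Option κ,
      (if B' < sz lam (spp α) then wt lam B (fun _ => ww lam q a B1) α else 0) ≤
      Real.exp (-B' / B1) * wt lam B (fun _ => v) α := by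
    intro α
    have hw : wt lam B (fun _ => v) α =
        wt lam B (fun _ => ww lam q a B1) α * Real.exp (sz lam (spp α) / B1) := by
      unfold wt
      split_ifs
      · rw [hv, Finset.prod_mul_distrib, ← Real.exp_sum, sz_spp, Finset.sum_div]
      · simp
    have h0 := wt_nonneg (lam := lam) (B := B) (u := fun _ : κ => ww lam q a B1)
      (fun _ T => ww_nonneg hq T) α
    rw [hw]
    split_ifs with hc
    · have h2 : 1 ≤ Real.exp (-B' / B1) * Real.exp (sz lam (spp α) / B1) := by
        rw [← Real.exp_add]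
        apply Real.one_le_exp
        rw [← add_div]
        apply div_nonneg _ hB1.le
        linarith
      nlinarith
    · positivity
  have h2 := change_all (κ := κ) (lam := lam) (fun i => (hl i).le) (B := B)
    (u := ww lam q a B1) (v := v) (fun T => ww_nonneg hq T) ww_empty
    (by simp [hv, ww_empty, sz_empty])
    (by
      intro T
      rw [hv]
      have h3 := ww_nonneg (lam := lam) (a := a) (B1 := B1) hq T
      have h4 : 1 ≤ Real.exp (sz lam T / B1) :=
        Real.one_le_exp (div_nonneg (sz_nonneg (fun i => (hl i).le) T) hB1.le)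
      nlinarith)
  have h3 : ∑ T, (v T - ww lam q a B1 T) ≤ 2 * a / B1 := by
    have h4 : ∀ T, v T - ww lam q a B1 T ≤ (2 / B1) * (a ^ 2 * s0 lam q B1 T) := by
      intro T
      rw [← ww_mul_sz hl hq T, hv]
      have h5 := ww_nonneg (lam := lam) (a := a) (B1 := B1) hq T
      by_cases hT : T = ∅
      · simp [hT, sz_empty]
      by_cases hc : sz lam T ≤ B1
      · have h6 := sz_pos hl hT
        have h7 := exp_sub_one_le (u := sz lam T / B1) (by positivity)
          ((div_le_one hB1).2 hc)
        calc ww lam q a B1 T * Real.exp (sz lam T / B1) - ww lam q a B1 T =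
              ww lam q a B1 T * (Real.exp (sz lam T / B1) - 1) := by ring
          _ ≤ ww lam q a B1 T * (2 * (sz lam T / B1)) := by gcongr
          _ = _ := by ring
      · have h6 : ww lam q a B1 T = 0 := by
          simp [ww, hh, hT, hc]
        simp [h6]
    calc ∑ T, (v T - ww lam q a B1 T) ≤ ∑ T, (2 / B1) * (a ^ 2 * s0 lam q B1 T) :=
          Finset.sum_le_sum fun T _ => h4 T
      _ = (2 / B1) * a * (a * ∑ T, s0 lam q B1 T) := by
          rw [← Finset.mul_sum, ← Finset.mul_sum]
          ring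
      _ = _ := by
          rw [hnorm]
          ring
  have h5 : (1 + ∑ T, (v T - ww lam q a B1 T)) ^ (Fintype.card κ) ≤
      Real.exp (2 * a * Fintype.card κ / B1) := by
    have h6 : 0 ≤ ∑ T, (v T - ww lam q a B1 T) := by
      apply Finset.sum_nonneg
      intro T _
      rw [hv]
      have h3 := ww_nonneg (lam := lam) (a := a) (B1 := B1) hq T
      have h4 : 1 ≤ Real.exp (sz lam T / B1) :=
        Real.one_le_exp (div_nonneg (sz_nonneg (fun i => (hl i).le) T) hB1.le)
      nlinarith
    calc (1 + ∑ T, (v T - ww lam q a B1 T)) ^ (Fintype.card κ) ≤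
          (Real.exp (2 * a / B1)) ^ (Fintype.card κ) := by
          apply pow_le_pow_left₀ (by linarith)
          have := Real.add_one_le_exp (2 * a / B1)
          linarith
      _ = _ := by
          rw [← Real.exp_nat_mul]
          congr 1
          ring
  have hZ : 0 ≤ ∑ α : ι → Option κ, wt lam B (fun _ => ww lam q a B1) α :=
    Finset.sum_nonneg fun α _ => wt_nonneg (fun _ T => ww_nonneg hq T) α
  calc _ ≤ ∑ α : ι → Option κ, Real.exp (-B' / B1) * wt lam B (fun _ => v) α :=
        Finset.sum_le_sum fun α _ => h1 α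
    _ = Real.exp (-B' / B1) * ∑ α : ι → Option κ, wt lam B (fun _ => v) α := by
        rw [Finset.mul_sum]
    _ ≤ Real.exp (-B' / B1) * ((∑ α : ι → Option κ, wt lam B (fun _ => ww lam q a B1) α) *
          Real.exp (2 * a * Fintype.card κ / B1)) := by
        apply mul_le_mul_of_nonneg_left _ (Real.exp_nonneg _)
        exact h2.trans (mul_le_mul_of_nonneg_left h5 hZ)
    _ = _ := by
        rw [show (2 * a * Fintype.card κ - B') / B1 = -B' / B1 + 2 * a * Fintype.card κ / B1 by ring,
          Real.exp_add]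
        ring

end tail

section main

variable {lam q : ι → ℝ} {a B B1 : ℝ}

/-- The coefficients of `G`. -/
def yy (lam : ι → ℝ) (a B B1 : ℝ) (α : ι → Option κ) : ℝ := wt lam B (fun _ => hh lam a B1) α

/-- The coefficients of `H_k`. -/
def yk (lam q : ι → ℝ) (a B B1 : ℝ) (k : κ) (α : ι → Option κ) : ℝ :=
  if α ∈ avo k then yy lam a B B1 α * AA lam q a B B1 α else 0

lemma vl_put (x : ι → κ → σ → ℝ) {α : ι → Option κ} {T : Finset ι} (hT : T ⊆ fre α) (k : κ)
    (ω : σ) : vl x (put α T k) ω = vl x α ω * ∏ i ∈ T, x i k ω := by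
  unfold vl
  rw [← Finset.prod_mul_prod_compl T (fun i => (put α T k i).elim 1 (fun k => x i k ω)),
    ← Finset.prod_mul_prod_compl T (fun i => (α i).elim 1 (fun k => x i k ω))]
  have h1 : ∏ i ∈ T, (put α T k i).elim 1 (fun k => x i k ω) = ∏ i ∈ T, x i k ω := by
    apply Finset.prod_congr rfl
    intro i hi
    rw [put_mem hi]
    rfl
  have h2 : ∏ i ∈ T, (α i).elim 1 (fun k => x i k ω) = 1 := by
    apply Finset.prod_eq_one
    intro i hi
    rw [mem_fre.1 (hT hi)]
    rfl
  have h3 : ∏ i ∈ Tᶜ, (put α T k i).elim 1 (fun k => x i k ω) =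
      ∏ i ∈ Tᶜ, (α i).elim 1 (fun k => x i k ω) := by
    apply Finset.prod_congr rfl
    intro i hi
    rw [put_not_mem (Finset.mem_compl.1 hi)]
  rw [h1, h2, h3]
  ring

/-- At a prime the sum `G` equals `H_k`. -/
lemma G_eq_H (hl : ∀ i, 0 < lam i) (x : ι → κ → σ → ℝ) (k : κ) (ω : σ)
    (hx : ∀ i, x i k ω = 1 / q i) :
    ∑ α, yy lam a B B1 α * vl x α ω = ∑ α, yk lam q a B B1 k α * vl x α ω := by
  rw [sum_split k]
  have h1 : ∑ α, yk lam q a B B1 k α * vl x α ω =
      ∑ α ∈ avo k, yy lam a B B1 α * AA lam q a B B1 α * vl x α ω := by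
    rw [avo, Finset.sum_filter]
    apply Finset.sum_congr rfl
    intro α _
    unfold yk
    by_cases h : α ∈ avo k
    · rw [if_pos h, if_pos (mem_avo.1 h)]
    · rw [if_neg h, if_neg (fun h' => h (mem_avo.2 h')), zero_mul]
  rw [h1]
  apply Finset.sum_congr rfl
  intro α hα
  rw [AA, Finset.mul_sum, Finset.sum_mul]
  apply Finset.sum_congr rfl
  intro T hT
  rw [mem_powerset] at hT
  have hprod : ∏ i ∈ T, x i k ω = 1 / ph q T := by
    rw [ph, one_div, ← Finset.prod_inv_distrib]
    apply Finset.prod_congr rfl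
    intro i _
    rw [hx i, one_div]
  rw [vl_put x hT, hprod, yy, wt_put lam B (fun _ => hh lam a B1) hh_empty hα hT, yy, wt]
  have hs := sz_nonneg (fun i => (hl i).le) T
  by_cases hc : sz lam (spp α) + sz lam T ≤ B
  · rw [if_pos hc, if_pos hc, if_pos (by linarith)]
    ring
  · rw [if_neg hc, if_neg hc]
    ring

lemma yy_sq (α : ι → Option κ) :
    yy lam a B B1 α ^ 2 / ph q (spp α) = wt lam B (fun _ => ww lam q a B1) α := by
  unfold yy wt
  split_ifs with hc
  · rw [ph_spp, ← Finset.prod_pow, ← Finset.prod_div_distrib]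
    rfl
  · simp

lemma abs_yy_le (hl : ∀ i, 0 < lam i) (ha : 0 ≤ a) (hal : ∀ i, a ≤ lam i)
    (α : ι → Option κ) : |yy lam a B B1 α| ≤ 1 := by
  unfold yy wt
  split_ifs with hc
  · rw [Finset.abs_prod]
    apply Finset.prod_le_one
    · intro k _
      exact abs_nonneg _
    · intro k _
      exact abs_hh_le hl ha hal _
  · simp

/-- The main inequality: some `ω` has a value different from `1 / q i` at every site. -/
theorem core {q lam : ι → ℝ} {a B B1 : ℝ} (hl : ∀ i, 0 < lam i) (hq : ∀ i, 0 < q i)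
    (ha : 0 ≤ a) (hal : ∀ i, a ≤ lam i) (hB1 : 0 < B1) (hB : 0 ≤ B)
    (hnorm : a * ∑ T, s0 lam q B1 T = 1)
    (x : ι → κ → σ → ℝ) (Ω : Finset σ) {M ε η C δ : ℝ} (hM : 0 < M) (hη : 0 ≤ η)
    (hε0 : 0 ≤ ε) (hε1 : ε ≤ 1 / 4)
    (hC : ∑ α : ι → Option κ, Real.exp (-2 * sz lam (spp α)) ≤ C)
    (hε : ∀ α : ι → Option κ, sz lam (spp α) ≤ B →
      ∏ i ∈ spp α, (1 + ((Fintype.card κ : ℝ) - 1) / q i) ≤ 1 + ε)
    (hδ0 : 0 ≤ δ) (hδ : ∀ α : ι → Option κ, sz lam (spp α) ≤ B → ∑ i ∈ spp α, 2 / q i ≤ δ)
    (herr : ∀ α β : ι → Option κ, sz lam (spp α) ≤ B → sz lam (spp β) ≤ B →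
      |(∑ ω ∈ Ω, vl x α ω * vl x β ω) / M - gram q α β| ≤
        η * (Real.exp (sz lam (spp α)) * Real.exp (sz lam (spp β))))
    (h1 : (Fintype.card κ : ℝ) *
      (δ ^ 2 + Real.exp ((2 * a * Fintype.card κ - (B - B1)) / B1)) ≤ 1 / 8)
    (h2 : ((Fintype.card κ : ℝ) + 1) * (η * (Real.exp (3 * B) * C) ^ 2) ≤ 1 / 4) :
    ∃ ω ∈ Ω, ∀ k, ∃ i, x i k ω ≠ 1 / q i := by
  by_contra hcon
  push Not at hcon
  set Z : ℝ := ∑ α : ι → Option κ, wt lam B (fun _ => ww lam q a B1) α with hZ
  set τ : ℝ := Real.exp ((2 * a * Fintype.card κ - (B - B1)) / B1) with hτ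
  set e : ℝ := η * (Real.exp (3 * B) * C) ^ 2 with he
  have hw0 : ∀ α : ι → Option κ, 0 ≤ wt lam B (fun _ => ww lam q a B1) α :=
    fun α => wt_nonneg (fun _ T => ww_nonneg hq T) α
  have he0 : 0 ≤ e := by positivity
  have hZ1 : 1 ≤ Z := by
    have h3 : wt lam B (fun _ => ww lam q a B1) (fun _ : ι => (none : Option κ)) = 1 := by
      have h4 : spp (fun _ : ι => (none : Option κ)) = ∅ := by
        ext i
        simp [mem_spp]
      have h5 : ∀ k : κ, blk (fun _ : ι => (none : Option κ)) k = ∅ := by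
        intro k
        ext i
        simp [mem_blk]
      rw [wt, h4, sz_empty, if_pos hB]
      apply Finset.prod_eq_one
      intro k _
      rw [h5, ww_empty]
    rw [← h3, hZ]
    exact Finset.single_le_sum (f := fun α : ι → Option κ => wt lam B (fun _ => ww lam q a B1) α)
      (fun α _ => hw0 α) (mem_univ _)
  -- the mean square of `G`
  have hG := mean_square hq x Ω (M := M) lam (B := B) hη hC hε herr (yy lam a B B1)
    (abs_yy_le hl ha hal) (by
      intro α hα
      by_contra h
      exact hα (by rw [yy, wt, if_neg h]))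
  rw [Finset.sum_congr rfl fun α _ => yy_sq α, ← hZ, ← he] at hG
  -- the mean square of `H_k`
  have hH : ∀ k : κ, (∑ ω ∈ Ω, (∑ α, yk lam q a B B1 k α * vl x α ω) ^ 2) / M ≤
      (1 + ε) * ((δ ^ 2 + τ) * Z) + e := by
    intro k
    have hH1 := mean_square hq x Ω (M := M) lam (B := B) hη hC hε herr (yk lam q a B B1 k)
      (by
        intro α
        unfold yk
        split_ifs with h
        · by_cases hα : sz lam (spp α) ≤ B
          · rw [abs_mul]
            have h3 := abs_yy_le (B := B) (B1 := B1) hl ha hal α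
            have h4 : |AA lam q a B B1 α| ≤ 1 := by
              rw [abs_of_nonneg (AA_nonneg hl hq ha hnorm α hα)]
              exact AA_le_one hl hq ha α hα
            exact mul_le_one₀ h3 (abs_nonneg _) h4
          · rw [yy, wt, if_neg hα]
            simp
        · simp)
      (by
        intro α hα
        by_contra h
        apply hα
        rw [yk, yy, wt, if_neg h]
        simp)
    have hS : ∑ α, yk lam q a B B1 k α ^ 2 / ph q (spp α) ≤ (δ ^ 2 + τ) * Z := by
      have h3 : ∀ α : ι → Option κ, yk lam q a B B1 k α ^ 2 / ph q (spp α) ≤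
          δ ^ 2 * wt lam B (fun _ => ww lam q a B1) α +
          (if B - B1 < sz lam (spp α) then wt lam B (fun _ => ww lam q a B1) α else 0) := by
        intro α
        have h0 := hw0 α
        by_cases hα : sz lam (spp α) ≤ B
        · unfold yk
          by_cases hav : α ∈ avo k
          · rw [if_pos hav, mul_pow, mul_div_right_comm, yy_sq α]
            have hA0 := AA_nonneg hl hq ha hnorm α hα
            have hA1 := AA_le_one (B1 := B1) hl hq ha α hα
            split_ifs with hc
            · have h4 : AA lam q a B B1 α ^ 2 ≤ 1 := by nlinarith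
              have h5 : 0 ≤ δ ^ 2 * wt lam B (fun _ => ww lam q a B1) α := by positivity
              nlinarith
            · rw [add_zero]
              have h4 := AA_small (B := B) hl hq ha hal hnorm α hB1.le (by linarith) (hδ α hα)
              have h5 : AA lam q a B B1 α ^ 2 ≤ δ ^ 2 := by nlinarith
              nlinarith
          · rw [if_neg hav]
            split_ifs
            · have h5 : 0 ≤ δ ^ 2 * wt lam B (fun _ => ww lam q a B1) α := by positivity
              simp only [ne_eq, OfNat.ofNat_ne_zero, not_false_eq_true, zero_pow, zero_div]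
              linarith
            · have h5 : 0 ≤ δ ^ 2 * wt lam B (fun _ => ww lam q a B1) α := by positivity
              simp only [ne_eq, OfNat.ofNat_ne_zero, not_false_eq_true, zero_pow, zero_div]
              linarith
        · have h6 : yk lam q a B B1 k α = 0 := by
            rw [yk, yy, wt, if_neg hα]
            simp
          rw [h6]
          have h5 : 0 ≤ δ ^ 2 * wt lam B (fun _ => ww lam q a B1) α := by positivity
          split_ifs
          · simp only [ne_eq, OfNat.ofNat_ne_zero, not_false_eq_true, zero_pow, zero_div]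
            linarith
          · simp only [ne_eq, OfNat.ofNat_ne_zero, not_false_eq_true, zero_pow, zero_div]
            linarith
      have h4 := tail_le (κ := κ) hl hq hnorm hB1 (B := B) (B - B1)
      rw [← hZ, ← hτ] at h4
      calc _ ≤ ∑ α : ι → Option κ, (δ ^ 2 * wt lam B (fun _ => ww lam q a B1) α +
          (if B - B1 < sz lam (spp α) then wt lam B (fun _ => ww lam q a B1) α else 0)) :=
            Finset.sum_le_sum fun α _ => h3 α
        _ = δ ^ 2 * Z + ∑ α : ι → Option κ,
          (if B - B1 < sz lam (spp α) then wt lam B (fun _ => ww lam q a B1) α else 0) := by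
            rw [Finset.sum_add_distrib, ← Finset.mul_sum]
        _ ≤ δ ^ 2 * Z + Z * τ := by linarith
        _ = _ := by ring
    have h3 := (abs_le.1 hH1).2
    rw [← he] at h3
    nlinarith
  -- comparison
  have hcmp : ∑ ω ∈ Ω, (∑ α, yy lam a B B1 α * vl x α ω) ^ 2 ≤
      ∑ ω ∈ Ω, ∑ k, (∑ α, yk lam q a B B1 k α * vl x α ω) ^ 2 := by
    apply Finset.sum_le_sum
    intro ω hω
    obtain ⟨k, hk⟩ := hcon ω hω
    rw [G_eq_H (q := q) hl x k ω hk]
    exact Finset.single_le_sum
      (f := fun k => (∑ α, yk lam q a B B1 k α * vl x α ω) ^ 2) (fun k _ => sq_nonneg _)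
      (mem_univ k)
  have hcmp2 : (∑ ω ∈ Ω, (∑ α, yy lam a B B1 α * vl x α ω) ^ 2) / M ≤
      ∑ k, (∑ ω ∈ Ω, (∑ α, yk lam q a B B1 k α * vl x α ω) ^ 2) / M := by
    rw [← Finset.sum_div, Finset.sum_comm]
    exact div_le_div_of_nonneg_right hcmp hM.le
  have hcmp3 : ∑ k, (∑ ω ∈ Ω, (∑ α, yk lam q a B B1 k α * vl x α ω) ^ 2) / M ≤
      (Fintype.card κ : ℝ) * ((1 + ε) * ((δ ^ 2 + τ) * Z) + e) := by
    calc _ ≤ ∑ k : κ, ((1 + ε) * ((δ ^ 2 + τ) * Z) + e) := Finset.sum_le_sum fun k _ => hH k
      _ = _ := by rw [Finset.sum_const, Finset.card_univ, nsmul_eq_mul]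
  have h3 := (abs_le.1 hG).1
  have hK : (0 : ℝ) ≤ Fintype.card κ := Nat.cast_nonneg _
  have h4 : (Fintype.card κ : ℝ) * ((1 + ε) * ((δ ^ 2 + τ) * Z)) ≤ (5 / 4) * (1 / 8) * Z := by
    have h5 : 0 ≤ (Fintype.card κ : ℝ) * (δ ^ 2 + τ) := by positivity
    calc (Fintype.card κ : ℝ) * ((1 + ε) * ((δ ^ 2 + τ) * Z)) =
          (1 + ε) * ((Fintype.card κ : ℝ) * (δ ^ 2 + τ)) * Z := by ring
      _ ≤ (5 / 4) * (1 / 8) * Z := by
          have h6 : (1 + ε) * ((Fintype.card κ : ℝ) * (δ ^ 2 + τ)) ≤ (5 / 4) * (1 / 8) := by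
            apply mul_le_mul _ h1 h5 (by norm_num)
            linarith
          exact mul_le_mul_of_nonneg_right h6 (by linarith)
  have h5 : ε * Z ≤ 1 / 4 * Z := mul_le_mul_of_nonneg_right hε1 (by linarith)
  nlinarith

end main

end

end Pool.Agent.Lib_helper9.LG
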