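import Mathlib
import Pool.Agent.Lib_helper9.LG.Core

set_option autoImplicit false
set_option linter.unusedSectionVars false
set_option linter.unusedSimpArgs false

/-!
Positive proportion: configurations of large primes with sieve functions of the active sites.
-/

namespace Pool.Agent.Lib_helper9.LG

open Finset

noncomputable section

variable {ι κ σ : Type*} [Fintype ι] [DecidableEq ι] [Fintype κ] [DecidableEq κ]

/-- The sites used by a configuration. -/
def act (α : ι → Option κ) : Finset κ := univ.filter (fun k => blk α k ≠ ∅)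

lemma mem_act {α : ι → Option κ} {k : κ} : k ∈ act α ↔ blk α k ≠ ∅ := by simp [act]

lemma act_put_empty {α : ι → Option κ} {k : κ} : act (put α ∅ k) = act α := by
  have h : put α ∅ k = α := by
    funext i
    simp [put]
  rw [h]

lemma act_put {α : ι → Option κ} {T : Finset ι} {k : κ} (h : α ∈ avo k) (hT : T ⊆ fre α)
    (hT0 : T ≠ ∅) : act (put α T k) = insert k (act α) := by
  ext j
  rw [mem_insert, mem_act, mem_act]
  by_cases hj : j = k
  · subst hj
    rw [blk_put_self h]
    simp [hT0]
  · rw [blk_put_ne hT hj]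
    simp [hj]

lemma not_mem_act {α : ι → Option κ} {k : κ} (h : α ∈ avo k) : k ∉ act α := by
  rw [mem_act, blk_avo h]
  simp

/-- Truncated product weight with a factor depending on the number of active sites. -/
def vw (lam : ι → ℝ) (B : ℝ) (V : ℕ → ℝ) (u : κ → Finset ι → ℝ) (α : ι → Option κ) : ℝ :=
  V (act α).card * wt lam B u α

lemma vw_nonneg {lam : ι → ℝ} {B : ℝ} {V : ℕ → ℝ} (hV : ∀ j, 0 ≤ V j) {u : κ → Finset ι → ℝ}
    (hu : ∀ k T, 0 ≤ u k T) (α : ι → Option κ) : 0 ≤ vw lam B V u α :=
  mul_nonneg (hV _) (wt_nonneg hu α)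

/-- Changing the weight of one site. -/
lemma change_oneV {lam : ι → ℝ} (hl : ∀ i, 0 ≤ lam i) {B : ℝ} {V : ℕ → ℝ} (hV : ∀ j, 0 ≤ V j)
    {V1 : ℝ} (hV1 : 0 ≤ V1) (hVs : ∀ j, V (j + 1) ≤ V1 * V j) (k : κ) {u v : κ → Finset ι → ℝ}
    (hu : ∀ j T, 0 ≤ u j T) (huv : ∀ j, j ≠ k → v j = u j) (hu1 : u k ∅ = 1) (hv1 : v k ∅ = 1)
    (hle : ∀ T, u k T ≤ v k T) :
    ∑ α, vw lam B V v α ≤ (∑ α, vw lam B V u α) * (1 + V1 * ∑ T, (v k T - u k T)) := by
  have hE : 0 ≤ ∑ T, (v k T - u k T) := Finset.sum_nonneg fun T _ => sub_nonneg.2 (hle T)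
  have hprod : ∀ α ∈ avo (ι := ι) k, ∏ j, v j (blk α j) = ∏ j, u j (blk α j) := by
    intro α hα
    apply Finset.prod_congr rfl
    intro j _
    by_cases hj : j = k
    · subst hj
      rw [blk_avo hα, hu1, hv1]
    · rw [huv j hj]
  have h1 : ∑ α, vw lam B V v α - ∑ α, vw lam B V u α ≤
      (∑ α ∈ avo k, vw lam B V u α) * (V1 * ∑ T, (v k T - u k T)) := by
    rw [sum_split k (vw lam B V v), sum_split k (vw lam B V u), ← Finset.sum_sub_distrib,
      Finset.sum_mul]
    apply Finset.sum_le_sum
    intro α hα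
    rw [← Finset.sum_sub_distrib]
    have h2 : ∀ T ∈ (fre α).powerset, vw lam B V v (put α T k) - vw lam B V u (put α T k) ≤
        vw lam B V u α * (V1 * (v k T - u k T)) := by
      intro T hT
      rw [mem_powerset] at hT
      unfold vw
      rw [wt_put lam B v hv1 hα hT, wt_put lam B u hu1 hα hT, hprod α hα]
      have hP : 0 ≤ ∏ j, u j (blk α j) := Finset.prod_nonneg fun j _ => hu _ _
      have hd : 0 ≤ v k T - u k T := sub_nonneg.2 (hle T)
      have hs := sz_nonneg hl T
      by_cases hT0 : T = ∅
      · subst hT0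
        rw [hu1, hv1]
        simp
      have hact : V (act (put α T k)).card ≤ V1 * V (act α).card := by
        rw [act_put hα hT hT0, card_insert_of_notMem (not_mem_act hα)]
        exact hVs _
      by_cases hc : sz lam (spp α) + sz lam T ≤ B
      · rw [if_pos hc, if_pos hc, wt, if_pos (by linarith)]
        calc V (act (put α T k)).card * ((∏ j, u j (blk α j)) * v k T) -
              V (act (put α T k)).card * ((∏ j, u j (blk α j)) * u k T) =
              V (act (put α T k)).card * ((∏ j, u j (blk α j)) * (v k T - u k T)) := by ring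
          _ ≤ (V1 * V (act α).card) * ((∏ j, u j (blk α j)) * (v k T - u k T)) := by
              apply mul_le_mul_of_nonneg_right hact
              positivity
          _ = _ := by ring
      · rw [if_neg hc, if_neg hc]
        simp only [mul_zero, sub_zero]
        have h3 := vw_nonneg (lam := lam) (B := B) hV hu α
        unfold vw at h3
        positivity
    calc ∑ T ∈ (fre α).powerset, (vw lam B V v (put α T k) - vw lam B V u (put α T k)) ≤
        ∑ T ∈ (fre α).powerset, vw lam B V u α * (V1 * (v k T - u k T)) := Finset.sum_le_sum h2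
      _ ≤ ∑ T, vw lam B V u α * (V1 * (v k T - u k T)) := by
          apply Finset.sum_le_sum_of_subset_of_nonneg (subset_univ _)
          intro T _ _
          exact mul_nonneg (vw_nonneg hV hu α) (mul_nonneg hV1 (sub_nonneg.2 (hle T)))
      _ = _ := by rw [← Finset.mul_sum, ← Finset.mul_sum]
  have h3 : ∑ α ∈ avo k, vw lam B V u α ≤ ∑ α, vw lam B V u α :=
    Finset.sum_le_sum_of_subset_of_nonneg (subset_univ _) fun α _ _ => vw_nonneg hV hu α
  have h4 := mul_le_mul_of_nonneg_right h3 (mul_nonneg hV1 hE)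
  nlinarith

/-- Changing the weights of all sites. -/
lemma change_allV {lam : ι → ℝ} (hl : ∀ i, 0 ≤ lam i) {B : ℝ} {V : ℕ → ℝ} (hV : ∀ j, 0 ≤ V j)
    {V1 : ℝ} (hV1 : 0 ≤ V1) (hVs : ∀ j, V (j + 1) ≤ V1 * V j) {u v : Finset ι → ℝ}
    (hu : ∀ T, 0 ≤ u T) (hu1 : u ∅ = 1) (hv1 : v ∅ = 1) (hle : ∀ T, u T ≤ v T) :
    ∑ α : ι → Option κ, vw lam B V (fun _ => v) α ≤
      (∑ α : ι → Option κ, vw lam B V (fun _ => u) α) *
        (1 + V1 * ∑ T, (v T - u T)) ^ (Fintype.card κ) := by
  have hE : 0 ≤ ∑ T, (v T - u T) := Finset.sum_nonneg fun T _ => sub_nonneg.2 (hle T)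
  have key : ∀ J : Finset κ,
      ∑ α : ι → Option κ, vw lam B V (fun k => if k ∈ J then v else u) α ≤
      (∑ α : ι → Option κ, vw lam B V (fun _ => u) α) *
        (1 + V1 * ∑ T, (v T - u T)) ^ J.card := by
    intro J
    induction J using Finset.induction_on with
    | empty => simp
    | insert k J hk ih =>
      have h1 := change_oneV (lam := lam) hl (B := B) hV hV1 hVs k
        (u := fun j => if j ∈ J then v else u) (v := fun j => if j ∈ insert k J then v else u)
        (by
          intro j T
          split_ifs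
          · exact (hu T).trans (hle T)
          · exact hu T)
        (by
          intro j hj
          simp [mem_insert, hj])
        (by simp [hk, hu1]) (by simp [hv1])
        (by
          intro T
          simp [hk, hle T])
      rw [card_insert_of_notMem hk, pow_succ, ← mul_assoc]
      refine h1.trans ?_
      have h2 : (1 + V1 * ∑ T, ((fun j => if j ∈ insert k J then v else u) k T -
          (fun j => if j ∈ J then v else u) k T)) = 1 + V1 * ∑ T, (v T - u T) := by
        simp [hk]
      rw [h2]
      apply mul_le_mul_of_nonneg_right ih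
      have := mul_nonneg hV1 hE
      linarith
  have h := key univ
  simpa using h

/-- The tail with the sieve factor. -/
lemma tail_leV {lam q : ι → ℝ} {a B B1 : ℝ} (hl : ∀ i, 0 < lam i) (hq : ∀ i, 0 < q i)
    (hnorm : a * ∑ T, s0 lam q B1 T = 1) (hB1 : 0 < B1) {V : ℕ → ℝ} (hV : ∀ j, 0 ≤ V j)
    {V1 : ℝ} (hV1 : 0 ≤ V1) (hVs : ∀ j, V (j + 1) ≤ V1 * V j) (B' : ℝ) :
    ∑ α : ι → Option κ,
      (if B' < sz lam (spp α) then vw lam B V (fun _ => ww lam q a B1) α else 0) ≤
      (∑ α : ι → Option κ, vw lam B V (fun _ => ww lam q a B1) α) *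
        Real.exp ((2 * a * (V1 * Fintype.card κ) - B') / B1) := by
  set v : Finset ι → ℝ := fun T => ww lam q a B1 T * Real.exp (sz lam T / B1) with hv
  have h1 : ∀ α : ι → Option κ,
      (if B' < sz lam (spp α) then vw lam B V (fun _ => ww lam q a B1) α else 0) ≤
      Real.exp (-B' / B1) * vw lam B V (fun _ => v) α := by
    intro α
    have hw : vw lam B V (fun _ => v) α =
        vw lam B V (fun _ => ww lam q a B1) α * Real.exp (sz lam (spp α) / B1) := by
      unfold vw wt
      split_ifs
      · rw [hv, Finset.prod_mul_distrib, ← Real.exp_sum, sz_spp, Finset.sum_div]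
        ring
      · simp
    have h0 := vw_nonneg (lam := lam) (B := B) hV (u := fun _ : κ => ww lam q a B1)
      (fun _ T => ww_nonneg hq T) α
    rw [hw]
    split_ifs with hc
    · have h2 : 1 ≤ Real.exp (-B' / B1) * Real.exp (sz lam (spp α) / B1) := by
        rw [← Real.exp_add]
        apply Real.one_le_exp
        rw [← add_div]
        apply div_nonneg _ hB1.le
        linarith
      nlinarith
    · positivity
  have hle : ∀ T, ww lam q a B1 T ≤ v T := by
    intro T
    rw [hv]
    have h3 := ww_nonneg (lam := lam) (a := a) (B1 := B1) hq T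
    have h4 : 1 ≤ Real.exp (sz lam T / B1) :=
      Real.one_le_exp (div_nonneg (sz_nonneg (fun i => (hl i).le) T) hB1.le)
    nlinarith
  have h2 := change_allV (κ := κ) (lam := lam) (fun i => (hl i).le) (B := B) hV hV1 hVs
    (u := ww lam q a B1) (v := v) (fun T => ww_nonneg hq T) ww_empty
    (by simp [hv, ww_empty, sz_empty]) hle
  have h3 : ∑ T, (v T - ww lam q a B1 T) ≤ 2 * a / B1 := by
    have h4 : ∀ T, v T - ww lam q a B1 T ≤ (2 / B1) * (a ^ 2 * s0 lam q B1 T) := by
      intro T
      rw [← ww_mul_sz hl hq T, hv]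
      have h5 := ww_nonneg (lam := lam) (a := a) (B1 := B1) hq T
      by_cases hT : T = ∅
      · simp [hT, sz_empty]
      by_cases hc : sz lam T ≤ B1
      · have h6 := sz_pos hl hT
        have h7 := exp_sub_one_le (u := sz lam T / B1) (by positivity)
          ((div_le_one hB1).2 hc)
        calc ww lam q a B1 T * Real.exp (sz lam T / B1) - ww lam q a B1 T =
              ww lam q a B1 T * (Real.exp (sz lam T / B1) - 1) := by ring
          _ ≤ ww lam q a B1 T * (2 * (sz lam T / B1)) := by gcongr
          _ = _ := by ring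
      · have h6 : ww lam q a B1 T = 0 := by
          simp [ww, hh, hT, hc]
        simp [h6]
    calc ∑ T, (v T - ww lam q a B1 T) ≤ ∑ T, (2 / B1) * (a ^ 2 * s0 lam q B1 T) :=
          Finset.sum_le_sum fun T _ => h4 T
      _ = (2 / B1) * a * (a * ∑ T, s0 lam q B1 T) := by
          rw [← Finset.mul_sum, ← Finset.mul_sum]
          ring
      _ = _ := by
          rw [hnorm]
          ring
  have h6 : 0 ≤ ∑ T, (v T - ww lam q a B1 T) :=
    Finset.sum_nonneg fun T _ => sub_nonneg.2 (hle T)
  have h5 : (1 + V1 * ∑ T, (v T - ww lam q a B1 T)) ^ (Fintype.card κ) ≤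
      Real.exp (2 * a * (V1 * Fintype.card κ) / B1) := by
    have h7 : V1 * ∑ T, (v T - ww lam q a B1 T) ≤ V1 * (2 * a / B1) := by gcongr
    calc (1 + V1 * ∑ T, (v T - ww lam q a B1 T)) ^ (Fintype.card κ) ≤
          (Real.exp (V1 * (2 * a / B1))) ^ (Fintype.card κ) := by
          apply pow_le_pow_left₀ (by
            have := mul_nonneg hV1 h6
            linarith)
          have := Real.add_one_le_exp (V1 * (2 * a / B1))
          linarith
      _ = _ := by
          rw [← Real.exp_nat_mul]
          congr 1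
          ring
  have hZ : 0 ≤ ∑ α : ι → Option κ, vw lam B V (fun _ => ww lam q a B1) α :=
    Finset.sum_nonneg fun α _ => vw_nonneg hV (fun _ T => ww_nonneg hq T) α
  calc _ ≤ ∑ α : ι → Option κ, Real.exp (-B' / B1) * vw lam B V (fun _ => v) α :=
        Finset.sum_le_sum fun α _ => h1 α
    _ = Real.exp (-B' / B1) * ∑ α : ι → Option κ, vw lam B V (fun _ => v) α := by
        rw [Finset.mul_sum]
    _ ≤ Real.exp (-B' / B1) * ((∑ α : ι → Option κ, vw lam B V (fun _ => ww lam q a B1) α) *
          Real.exp (2 * a * (V1 * Fintype.card κ) / B1)) := by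
        apply mul_le_mul_of_nonneg_left _ (Real.exp_nonneg _)
        exact h2.trans (mul_le_mul_of_nonneg_left h5 hZ)
    _ = _ := by
        rw [show (2 * a * (V1 * Fintype.card κ) - B') / B1 =
          -B' / B1 + 2 * a * (V1 * Fintype.card κ) / B1 by ring, Real.exp_add]
        ring

end

end Pool.Agent.Lib_helper9.LG
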