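import Mathlib
import Pool.Agent.Lib_helper9.LG.CoreD

set_option autoImplicit false
set_option linter.unusedSectionVars false
set_option linter.unusedSimpArgs false

/-!
Positive proportion: the main inequality with sieve functions.
-/

namespace Pool.Agent.Lib_helper9.LG

open Finset

noncomputable section

variable {ι κ σ : Type*} [Fintype ι] [DecidableEq ι] [Fintype κ] [DecidableEq κ]

/-- Schur test, off-diagonal part in absolute value. -/
lemma schur_off {q : ι → ℝ} (hq : ∀ i, 0 < q i) (y : (ι → Option κ) → ℝ) {ε : ℝ}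
    (hε : ∀ α, y α ≠ 0 → ∏ i ∈ spp α, (1 + ((Fintype.card κ : ℝ) - 1) / q i) ≤ 1 + ε) :
    ∑ α, ∑ β, (if α = β then 0 else |y α| * |y β| * |gram q α β|) ≤
      ε * ∑ α, y α ^ 2 / ph q (spp α) := by
  classical
  have hsymm : ∀ α β : ι → Option κ, gram q α β = gram q β α := by
    intro α β
    unfold gram
    apply Finset.prod_congr rfl
    intro i _
    cases α i <;> cases β i <;> simp [gl, eq_comm]
  have hoff : ∀ α : ι → Option κ, y α ^ 2 * ∑ β, (if α = β then 0 else |gram q α β|) ≤
      ε * (y α ^ 2 / ph q (spp α)) := by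
    intro α
    by_cases hy : y α = 0
    · simp [hy]
    · have hph : 0 < ph q (spp α) := Finset.prod_pos fun i _ => hq i
      have h1 : ∑ β, (if α = β then 0 else |gram q α β|) =
          ∑ β, |gram q α β| - |gram q α α| := by
        rw [eq_sub_iff_add_eq]
        have h2 : |gram q α α| = ∑ β, (if α = β then |gram q α β| else 0) := by
          rw [Finset.sum_ite_eq]
          simp
        rw [h2, ← Finset.sum_add_distrib]
        apply Finset.sum_congr rfl
        intro β _
        split_ifs <;> simp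
      rw [h1, sum_abs_gram hq, gram_self, abs_of_pos (by positivity)]
      have h3 := hε α hy
      have h4 : 1 / ph q (spp α) * ∏ i ∈ spp α, (1 + ((Fintype.card κ : ℝ) - 1) / q i) -
          1 / ph q (spp α) ≤ ε * (1 / ph q (spp α)) := by
        have : 0 < 1 / ph q (spp α) := by positivity
        nlinarith
      calc _ ≤ y α ^ 2 * (ε * (1 / ph q (spp α))) := by gcongr
        _ = _ := by ring
  calc ∑ α, ∑ β, (if α = β then 0 else |y α| * |y β| * |gram q α β|)
      ≤ ∑ α, ∑ β, ((y α ^ 2 * (if α = β then 0 else |gram q α β|)) / 2 +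
          (y β ^ 2 * (if β = α then 0 else |gram q β α|)) / 2) := by
        apply Finset.sum_le_sum
        intro α _
        apply Finset.sum_le_sum
        intro β _
        by_cases h : α = β
        · simp [h]
        · rw [if_neg h, if_neg h, if_neg (Ne.symm h), hsymm β α]
          have h1 : 2 * (|y α| * |y β|) ≤ y α ^ 2 + y β ^ 2 := by
            rw [← sq_abs (y α), ← sq_abs (y β)]
            nlinarith [sq_nonneg (|y α| - |y β|)]
          have h2 := abs_nonneg (gram q α β)
          nlinarith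
    _ = ∑ α, y α ^ 2 * ∑ β, (if α = β then 0 else |gram q α β|) := by
        simp_rw [Finset.sum_add_distrib]
        rw [Finset.sum_comm (f := fun α β => (y β ^ 2 * (if β = α then 0 else |gram q β α|)) / 2),
          ← Finset.sum_add_distrib]
        apply Finset.sum_congr rfl
        intro α _
        rw [← Finset.sum_add_distrib, Finset.mul_sum]
        apply Finset.sum_congr rfl
        intro β _
        ring
    _ ≤ ∑ α, ε * (y α ^ 2 / ph q (spp α)) := Finset.sum_le_sum fun α _ => hoff α
    _ = _ := by rw [← Finset.mul_sum]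

/-- Mean square of a combination with sieve functions. -/
lemma mean_squareD {q : ι → ℝ} (hq : ∀ i, 0 < q i) (x : ι → κ → σ → ℝ) (Ω : Finset σ) {M : ℝ}
    (Lam : Finset κ → σ → ℝ) (v : Finset κ → Finset κ → ℝ)
    (S : (ι → Option κ) → Finset κ)
    (lam : ι → ℝ) {B ε η C : ℝ} (hη : 0 ≤ η) (hC : ∑ α : ι → Option κ,
      Real.exp (-2 * sz lam (spp α)) ≤ C)
    (hε : ∀ α : ι → Option κ, sz lam (spp α) ≤ B →
      ∏ i ∈ spp α, (1 + ((Fintype.card κ : ℝ) - 1) / q i) ≤ 1 + ε)
    (hv : ∀ α β : ι → Option κ, sz lam (spp α) ≤ B → sz lam (spp β) ≤ B → |v (S α) (S β)| ≤ 2)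
    (herr : ∀ α β : ι → Option κ, sz lam (spp α) ≤ B → sz lam (spp β) ≤ B →
      |(∑ ω ∈ Ω, (Lam (S α) ω * vl x α ω) * (Lam (S β) ω * vl x β ω)) / M -
        v (S α) (S β) * gram q α β| ≤
        η * (Real.exp (sz lam (spp α)) * Real.exp (sz lam (spp β))))
    (y : (ι → Option κ) → ℝ) (hy1 : ∀ α, |y α| ≤ 1) (hy : ∀ α, y α ≠ 0 → sz lam (spp α) ≤ B) :
    |(∑ ω ∈ Ω, (∑ α, y α * (Lam (S α) ω * vl x α ω)) ^ 2) / M -
      ∑ α, v (S α) (S α) * (y α ^ 2 / ph q (spp α))| ≤
      2 * ε * ∑ α, y α ^ 2 / ph q (spp α) + η * (Real.exp (3 * B) * C) ^ 2 := by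
  classical
  have h1 : (∑ ω ∈ Ω, (∑ α, y α * (Lam (S α) ω * vl x α ω)) ^ 2) / M =
      ∑ α, ∑ β, y α * y β *
        ((∑ ω ∈ Ω, (Lam (S α) ω * vl x α ω) * (Lam (S β) ω * vl x β ω)) / M) := by
    have h2 : ∀ ω, (∑ α, y α * (Lam (S α) ω * vl x α ω)) ^ 2 =
        ∑ α, ∑ β, y α * y β * ((Lam (S α) ω * vl x α ω) * (Lam (S β) ω * vl x β ω)) := by
      intro ω
      rw [sq, Finset.sum_mul_sum]
      apply Finset.sum_congr rfl
      intro α _
      apply Finset.sum_congr rfl
      intro β _
      ring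
    rw [Finset.sum_congr rfl fun ω _ => h2 ω, Finset.sum_comm, Finset.sum_div]
    apply Finset.sum_congr rfl
    intro α _
    rw [Finset.sum_comm, Finset.sum_div]
    apply Finset.sum_congr rfl
    intro β _
    rw [← Finset.mul_sum, mul_div_assoc]
  have hsum : ∑ α, |y α| * Real.exp (sz lam (spp α)) ≤ Real.exp (3 * B) * C := by
    calc ∑ α, |y α| * Real.exp (sz lam (spp α)) ≤
          ∑ α, Real.exp (3 * B) * Real.exp (-2 * sz lam (spp α)) := by
          apply Finset.sum_le_sum
          intro α _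
          by_cases h : y α = 0
          · rw [h, abs_zero, zero_mul]
            positivity
          · have h4 := hy α h
            calc |y α| * Real.exp (sz lam (spp α)) ≤ 1 * Real.exp (sz lam (spp α)) := by
                  gcongr
                  exact hy1 α
              _ ≤ Real.exp (3 * B + -2 * sz lam (spp α)) := by
                  rw [one_mul]
                  apply Real.exp_le_exp.2
                  linarith
              _ = _ := by rw [Real.exp_add]
      _ = Real.exp (3 * B) * ∑ α : ι → Option κ, Real.exp (-2 * sz lam (spp α)) := by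
          rw [← Finset.mul_sum]
      _ ≤ _ := by gcongr
  have h3 : |∑ α, ∑ β, y α * y β *
        ((∑ ω ∈ Ω, (Lam (S α) ω * vl x α ω) * (Lam (S β) ω * vl x β ω)) / M) -
      ∑ α, ∑ β, y α * y β * (v (S α) (S β) * gram q α β)| ≤ η * (Real.exp (3 * B) * C) ^ 2 := by
    calc _ = |∑ α, ∑ β, y α * y β *
          ((∑ ω ∈ Ω, (Lam (S α) ω * vl x α ω) * (Lam (S β) ω * vl x β ω)) / M -
            v (S α) (S β) * gram q α β)| := by
          rw [← Finset.sum_sub_distrib]
          congr 1
          apply Finset.sum_congr rfl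
          intro α _
          rw [← Finset.sum_sub_distrib]
          apply Finset.sum_congr rfl
          intro β _
          ring
      _ ≤ ∑ α, ∑ β, |y α * y β *
          ((∑ ω ∈ Ω, (Lam (S α) ω * vl x α ω) * (Lam (S β) ω * vl x β ω)) / M -
            v (S α) (S β) * gram q α β)| := by
          refine (Finset.abs_sum_le_sum_abs _ _).trans ?_
          exact Finset.sum_le_sum fun α _ => Finset.abs_sum_le_sum_abs _ _
      _ ≤ ∑ α, ∑ β, η * ((|y α| * Real.exp (sz lam (spp α))) *
            (|y β| * Real.exp (sz lam (spp β)))) := by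
          apply Finset.sum_le_sum
          intro α _
          apply Finset.sum_le_sum
          intro β _
          rw [abs_mul, abs_mul]
          by_cases hα : y α = 0
          · rw [hα]
            simp
          by_cases hβ : y β = 0
          · rw [hβ]
            simp
          have h4 := herr α β (hy α hα) (hy β hβ)
          calc |y α| * |y β| * |(∑ ω ∈ Ω, (Lam (S α) ω * vl x α ω) *
                (Lam (S β) ω * vl x β ω)) / M - v (S α) (S β) * gram q α β| ≤
                |y α| * |y β| * (η * (Real.exp (sz lam (spp α)) * Real.exp (sz lam (spp β)))) := by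
                gcongr
            _ = _ := by ring
      _ = η * (∑ α, |y α| * Real.exp (sz lam (spp α))) ^ 2 := by
          simp_rw [← Finset.mul_sum]
          rw [← Finset.sum_mul, sq]
      _ ≤ _ := by
          have : 0 ≤ ∑ α, |y α| * Real.exp (sz lam (spp α)) :=
            Finset.sum_nonneg fun α _ => by positivity
          gcongr
  have h5 : |∑ α, ∑ β, y α * y β * (v (S α) (S β) * gram q α β) -
      ∑ α, v (S α) (S α) * (y α ^ 2 / ph q (spp α))| ≤
      2 * ε * ∑ α, y α ^ 2 / ph q (spp α) := by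
    have hdiag : ∑ α, v (S α) (S α) * (y α ^ 2 / ph q (spp α)) =
        ∑ α, ∑ β, (if α = β then y α * y β * (v (S α) (S β) * gram q α β) else 0) := by
      apply Finset.sum_congr rfl
      intro α _
      rw [Finset.sum_ite_eq]
      simp only [Finset.mem_univ, if_true]
      rw [gram_self]
      ring
    have h6 := schur_off hq y (ε := ε) (fun α hα => hε α (hy α hα))
    calc _ = |∑ α, ∑ β, (if α = β then 0 else y α * y β * (v (S α) (S β) * gram q α β))| := by
          rw [hdiag, ← Finset.sum_sub_distrib]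
          congr 1
          apply Finset.sum_congr rfl
          intro α _
          rw [← Finset.sum_sub_distrib]
          apply Finset.sum_congr rfl
          intro β _
          split_ifs <;> simp
      _ ≤ ∑ α, ∑ β, |if α = β then 0 else y α * y β * (v (S α) (S β) * gram q α β)| := by
          refine (Finset.abs_sum_le_sum_abs _ _).trans ?_
          exact Finset.sum_le_sum fun α _ => Finset.abs_sum_le_sum_abs _ _
      _ ≤ ∑ α, ∑ β, 2 * (if α = β then 0 else |y α| * |y β| * |gram q α β|) := by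
          apply Finset.sum_le_sum
          intro α _
          apply Finset.sum_le_sum
          intro β _
          split_ifs
          · simp
          · rw [abs_mul, abs_mul, abs_mul]
            by_cases hα : y α = 0
            · rw [hα]
              simp
            by_cases hβ : y β = 0
            · rw [hβ]
              simp
            have h7 := hv α β (hy α hα) (hy β hβ)
            have h8 : 0 ≤ |y α| * |y β| * |gram q α β| := by positivity
            nlinarith
      _ = 2 * ∑ α, ∑ β, (if α = β then 0 else |y α| * |y β| * |gram q α β|) := by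
          simp_rw [Finset.mul_sum]
      _ ≤ _ := by linarith
  rw [h1]
  have h4 := abs_sub_le (∑ α, ∑ β, y α * y β *
        ((∑ ω ∈ Ω, (Lam (S α) ω * vl x α ω) * (Lam (S β) ω * vl x β ω)) / M))
    (∑ α, ∑ β, y α * y β * (v (S α) (S β) * gram q α β))
    (∑ α, v (S α) (S α) * (y α ^ 2 / ph q (spp α)))
  linarith

section main

variable {lam q : ι → ℝ} {a B B1 : ℝ}

/-- The sum `G`. -/
def GD (lam : ι → ℝ) (a B B1 : ℝ) (x : ι → κ → σ → ℝ) (Lam : Finset κ → σ → ℝ) (ω : σ) : ℝ :=
  ∑ α, yy lam a B B1 α * (Lam (act α) ω * vl x α ω)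

lemma G_eq_HD (hl : ∀ i, 0 < lam i) (x : ι → κ → σ → ℝ) (Lam : Finset κ → σ → ℝ) (k : κ) (ω : σ)
    (hx : ∀ i, x i k ω = 1 / q i) (hL : ∀ A, Lam (insert k A) ω = Lam A ω) :
    GD lam a B B1 x Lam ω =
      ∑ α, yk lam q a B B1 k α * (Lam (insert k (act α)) ω * vl x α ω) := by
  unfold GD
  rw [sum_split k]
  have h1 : ∑ α, yk lam q a B B1 k α * (Lam (insert k (act α)) ω * vl x α ω) =
      ∑ α ∈ avo k, yy lam a B B1 α * AA lam q a B B1 α *
        (Lam (insert k (act α)) ω * vl x α ω) := by
    rw [avo, Finset.sum_filter]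
    apply Finset.sum_congr rfl
    intro α _
    unfold yk
    by_cases h : α ∈ avo k
    · rw [if_pos h, if_pos (mem_avo.1 h)]
    · rw [if_neg h, if_neg (fun h' => h (mem_avo.2 h')), zero_mul]
  rw [h1]
  apply Finset.sum_congr rfl
  intro α hα
  rw [AA, Finset.mul_sum, Finset.sum_mul]
  apply Finset.sum_congr rfl
  intro T hT
  rw [mem_powerset] at hT
  have hprod : ∏ i ∈ T, x i k ω = 1 / ph q T := by
    rw [ph, one_div, ← Finset.prod_inv_distrib]
    apply Finset.prod_congr rfl
    intro i _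
    rw [hx i, one_div]
  have hact : Lam (act (put α T k)) ω = Lam (insert k (act α)) ω := by
    by_cases hT0 : T = ∅
    · rw [hT0, act_put_empty, hL]
    · rw [act_put hα hT hT0]
  rw [vl_put x hT, hprod, hact, yy, wt_put lam B (fun _ => hh lam a B1) hh_empty hα hT, yy, wt]
  have hs := sz_nonneg (fun i => (hl i).le) T
  by_cases hc : sz lam (spp α) + sz lam T ≤ B
  · rw [if_pos hc, if_pos hc, if_pos (by linarith)]
    ring
  · rw [if_neg hc, if_neg hc]
    ring

open Classical in
/-- The main inequality for the positive proportion. -/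
theorem coreD {q lam : ι → ℝ} {a B B1 : ℝ} (hl : ∀ i, 0 < lam i) (hq : ∀ i, 0 < q i)
    (ha : 0 ≤ a) (hal : ∀ i, a ≤ lam i) (hB1 : 0 < B1) (hB : 0 ≤ B)
    (hnorm : a * ∑ T, s0 lam q B1 T = 1)
    (x : ι → κ → σ → ℝ) (Ω : Finset σ) (Lam : Finset κ → σ → ℝ) (v : Finset κ → Finset κ → ℝ)
    {V : ℕ → ℝ} {V1 VJ : ℝ} {J : ℕ} (hV0 : V 0 = 1) (hV : ∀ j, 0 ≤ V j) (hV1 : 0 ≤ V1)
    (hVs : ∀ j, V (j + 1) ≤ V1 * V j) (hVJ : 0 < VJ) (hVJ2 : ∀ j ≤ J, VJ ≤ V j)
    (hJ : ∀ α : ι → Option κ, sz lam (spp α) ≤ B → (act α).card ≤ J)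
    (hv1 : ∀ A : Finset κ, A.card ≤ J → V A.card ≤ v A A)
    (hv2 : ∀ A : Finset κ, A.card ≤ J + 1 → v A A ≤ 2 * V A.card)
    (hv3 : ∀ A A' : Finset κ, A.card ≤ J + 1 → A'.card ≤ J + 1 → |v A A'| ≤ 2)
    {M ε η C δ : ℝ} (hM : 0 < M) (hη : 0 ≤ η)
    (hε0 : 0 ≤ ε)
    (hC : ∑ α : ι → Option κ, Real.exp (-2 * sz lam (spp α)) ≤ C)
    (hε : ∀ α : ι → Option κ, sz lam (spp α) ≤ B →
      ∏ i ∈ spp α, (1 + ((Fintype.card κ : ℝ) - 1) / q i) ≤ 1 + ε)
    (hδ0 : 0 ≤ δ) (hδ : ∀ α : ι → Option κ, sz lam (spp α) ≤ B → ∑ i ∈ spp α, 2 / q i ≤ δ)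
    (herr : ∀ α β : ι → Option κ, sz lam (spp α) ≤ B → sz lam (spp β) ≤ B →
      ∀ A A' : Finset κ, A.card ≤ J + 1 → A'.card ≤ J + 1 →
      |(∑ ω ∈ Ω, (Lam A ω * vl x α ω) * (Lam A' ω * vl x β ω)) / M - v A A' * gram q α β| ≤
        η * (Real.exp (sz lam (spp α)) * Real.exp (sz lam (spp β))))
    (h1 : 2 * (V1 * (Fintype.card κ : ℝ)) *
      (δ ^ 2 + Real.exp ((2 * a * (V1 * Fintype.card κ) - (B - B1)) / B1)) ≤ 1 / 8)
    (h2 : ((Fintype.card κ : ℝ) + 1) * (η * (Real.exp (3 * B) * C) ^ 2) ≤ 1 / 8)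
    (h3 : ((Fintype.card κ : ℝ) + 1) * (2 * ε / VJ) ≤ 1 / 8) :
    1 / 2 ≤ (∑ ω ∈ Ω.filter (fun ω => ¬ ∃ k, (∀ i, x i k ω = 1 / q i) ∧
      ∀ A, Lam (insert k A) ω = Lam A ω), GD lam a B B1 x Lam ω ^ 2) / M := by
  obtain ⟨Z, hZ⟩ : ∃ Z : ℝ, Z = ∑ α : ι → Option κ, vw lam B V (fun _ => ww lam q a B1) α :=
    ⟨_, rfl⟩
  obtain ⟨Y, hY⟩ : ∃ Y : ℝ, Y = ∑ α : ι → Option κ, wt lam B (fun _ => ww lam q a B1) α :=
    ⟨_, rfl⟩
  obtain ⟨τ, hτ⟩ : ∃ τ : ℝ, τ = Real.exp ((2 * a * (V1 * Fintype.card κ) - (B - B1)) / B1) :=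
    ⟨_, rfl⟩
  obtain ⟨e, he⟩ : ∃ e : ℝ, e = η * (Real.exp (3 * B) * C) ^ 2 := ⟨_, rfl⟩
  obtain ⟨ε3, hε3⟩ : ∃ ε3 : ℝ, ε3 = 2 * ε / VJ := ⟨_, rfl⟩
  rw [← hτ] at h1
  rw [← he] at h2
  rw [← hε3] at h3
  have hτ0 : 0 ≤ τ := by rw [hτ]; exact Real.exp_nonneg _
  have hw0 : ∀ α : ι → Option κ, 0 ≤ wt lam B (fun _ => ww lam q a B1) α :=
    fun α => wt_nonneg (fun _ T => ww_nonneg hq T) α
  have hvw0 : ∀ α : ι → Option κ, 0 ≤ vw lam B V (fun _ => ww lam q a B1) α :=
    fun α => vw_nonneg hV (fun _ T => ww_nonneg hq T) α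
  have he0 : 0 ≤ e := by rw [he]; positivity
  have hε30 : 0 ≤ ε3 := by rw [hε3]; positivity
  have hK : (0 : ℝ) ≤ Fintype.card κ := Nat.cast_nonneg _
  -- supports
  have hwt0 : ∀ α : ι → Option κ, B < sz lam (spp α) →
      wt lam B (fun _ => ww lam q a B1) α = 0 := by
    intro α hα
    rw [wt, if_neg (not_le.2 hα)]
  have hYZ : 2 * ε * Y ≤ ε3 * Z := by
    have h4 : VJ * Y ≤ Z := by
      rw [hY, hZ, Finset.mul_sum]
      apply Finset.sum_le_sum
      intro α _
      unfold vw
      by_cases hα : sz lam (spp α) ≤ B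
      · exact mul_le_mul_of_nonneg_right (hVJ2 _ (hJ α hα)) (hw0 α)
      · rw [hwt0 α (not_le.1 hα)]
        simp
    have h5 : ε3 * VJ = 2 * ε := by
      rw [hε3]
      field_simp
    calc 2 * ε * Y = ε3 * (VJ * Y) := by rw [← h5]; ring
      _ ≤ ε3 * Z := by gcongr
  have hZ1 : 1 ≤ Z := by
    have h3 : vw lam B V (fun _ => ww lam q a B1) (fun _ : ι => (none : Option κ)) = 1 := by
      have h4 : spp (fun _ : ι => (none : Option κ)) = ∅ := by
        ext i
        simp [mem_spp]
      have h5 : ∀ k : κ, blk (fun _ : ι => (none : Option κ)) k = ∅ := by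
        intro k
        ext i
        simp [mem_blk]
      have h6 : act (fun _ : ι => (none : Option κ)) = ∅ := by
        ext k
        simp [mem_act, h5]
      rw [vw, wt, h4, h6, sz_empty, if_pos hB, card_empty, hV0, one_mul]
      apply Finset.prod_eq_one
      intro k _
      rw [h5, ww_empty]
    rw [← h3, hZ]
    exact Finset.single_le_sum
      (f := fun α : ι → Option κ => vw lam B V (fun _ => ww lam q a B1) α)
      (fun α _ => hvw0 α) (mem_univ _)
  -- the mean square of `G`
  have hG := mean_squareD hq x Ω (M := M) Lam v (fun α => act α) lam (B := B) hη hC hε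
    (fun α β hα hβ => hv3 _ _ ((hJ α hα).trans (Nat.le_succ _)) ((hJ β hβ).trans (Nat.le_succ _)))
    (fun α β hα hβ => herr α β hα hβ _ _ ((hJ α hα).trans (Nat.le_succ _))
      ((hJ β hβ).trans (Nat.le_succ _)))
    (yy lam a B B1) (abs_yy_le hl ha hal) (by
      intro α hα
      by_contra h
      exact hα (by rw [yy, wt, if_neg h]))
  rw [← he] at hG
  have hYeq : ∑ α : ι → Option κ, yy lam a B B1 α ^ 2 / ph q (spp α) = Y := by
    rw [hY]
    exact Finset.sum_congr rfl fun α _ => yy_sq α
  rw [hYeq] at hG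
  have hG1 : Z ≤ ∑ α : ι → Option κ,
      v (act α) (act α) * (yy lam a B B1 α ^ 2 / ph q (spp α)) := by
    rw [hZ]
    apply Finset.sum_le_sum
    intro α _
    rw [yy_sq α]
    unfold vw
    by_cases hα : sz lam (spp α) ≤ B
    · exact mul_le_mul_of_nonneg_right (hv1 _ (hJ α hα)) (hw0 α)
    · rw [hwt0 α (not_le.1 hα)]
      simp
  -- the mean square of `H_k`
  have hH : ∀ k : κ,
      (∑ ω ∈ Ω, (∑ α, yk lam q a B B1 k α * (Lam (insert k (act α)) ω * vl x α ω)) ^ 2) / M ≤
      2 * V1 * ((δ ^ 2 + τ) * Z) + ε3 * Z + e := by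
    intro k
    have hcard : ∀ α : ι → Option κ, sz lam (spp α) ≤ B → (insert k (act α)).card ≤ J + 1 := by
      intro α hα
      exact (card_insert_le _ _).trans (Nat.succ_le_succ (hJ α hα))
    have hH1 := mean_squareD hq x Ω (M := M) Lam v (fun α => insert k (act α)) lam (B := B) hη hC hε
      (fun α β hα hβ => hv3 _ _ (hcard α hα) (hcard β hβ))
      (fun α β hα hβ => herr α β hα hβ _ _ (hcard α hα) (hcard β hβ))
      (yk lam q a B B1 k)
      (by
        intro α
        unfold yk
        split_ifs with h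
        · by_cases hα : sz lam (spp α) ≤ B
          · rw [abs_mul]
            have h3 := abs_yy_le (B := B) (B1 := B1) hl ha hal α
            have h4 : |AA lam q a B B1 α| ≤ 1 := by
              rw [abs_of_nonneg (AA_nonneg hl hq ha hnorm α hα)]
              exact AA_le_one hl hq ha α hα
            exact mul_le_one₀ h3 (abs_nonneg _) h4
          · rw [yy, wt, if_neg hα]
            simp
        · simp)
      (by
        intro α hα
        by_contra h
        apply hα
        rw [yk, yy, wt, if_neg h]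
        simp)
    rw [← he] at hH1
    have hyk0 : ∀ α : ι → Option κ, B < sz lam (spp α) → yk lam q a B B1 k α = 0 := by
      intro α hα
      rw [yk, yy, wt, if_neg (not_le.2 hα)]
      simp
    have hyksq : ∀ α : ι → Option κ, sz lam (spp α) ≤ B → α ∈ avo k →
        yk lam q a B B1 k α ^ 2 / ph q (spp α) =
          wt lam B (fun _ => ww lam q a B1) α * AA lam q a B B1 α ^ 2 := by
      intro α _ hav
      rw [yk, if_pos hav, mul_pow, mul_div_right_comm, yy_sq α]
    have hS1 : ∑ α, yk lam q a B B1 k α ^ 2 / ph q (spp α) ≤ Y := by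
      rw [hY]
      apply Finset.sum_le_sum
      intro α _
      by_cases hα : sz lam (spp α) ≤ B
      · by_cases hav : α ∈ avo k
        · rw [hyksq α hα hav]
          have hA0 := AA_nonneg hl hq ha hnorm α hα
          have hA1 := AA_le_one (B1 := B1) hl hq ha α hα
          have h4 : AA lam q a B B1 α ^ 2 ≤ 1 := by nlinarith
          have h5 := hw0 α
          nlinarith
        · rw [yk, if_neg hav]
          simpa using hw0 α
      · rw [hyk0 α (not_le.1 hα)]
        simpa using hw0 α
    have hS : ∑ α, v (insert k (act α)) (insert k (act α)) *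
        (yk lam q a B B1 k α ^ 2 / ph q (spp α)) ≤ 2 * V1 * ((δ ^ 2 + τ) * Z) := by
      have h3 : ∀ α : ι → Option κ, v (insert k (act α)) (insert k (act α)) *
          (yk lam q a B B1 k α ^ 2 / ph q (spp α)) ≤
          2 * V1 * (δ ^ 2 * vw lam B V (fun _ => ww lam q a B1) α +
          (if B - B1 < sz lam (spp α) then vw lam B V (fun _ => ww lam q a B1) α else 0)) := by
        intro α
        have h0 := hvw0 α
        have hrhs : 0 ≤ 2 * V1 * (δ ^ 2 * vw lam B V (fun _ => ww lam q a B1) α +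
            (if B - B1 < sz lam (spp α) then vw lam B V (fun _ => ww lam q a B1) α else 0)) := by
          have : 0 ≤ (if B - B1 < sz lam (spp α) then
              vw lam B V (fun _ => ww lam q a B1) α else 0) := by
            split_ifs
            · exact h0
            · exact le_rfl
          positivity
        by_cases hα : sz lam (spp α) ≤ B
        · by_cases hav : α ∈ avo k
          · rw [hyksq α hα hav]
            have hA0 := AA_nonneg hl hq ha hnorm α hα
            have hA1 := AA_le_one (B1 := B1) hl hq ha α hα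
            have hvv : v (insert k (act α)) (insert k (act α)) ≤ 2 * (V1 * V (act α).card) := by
              have h4 := hv2 _ (hcard α hα)
              rw [card_insert_of_notMem (not_mem_act hav)] at h4
              have h5 := hVs (act α).card
              linarith
            have hwA : 0 ≤ wt lam B (fun _ => ww lam q a B1) α * AA lam q a B B1 α ^ 2 :=
              mul_nonneg (hw0 α) (sq_nonneg _)
            refine (mul_le_mul_of_nonneg_right hvv hwA).trans ?_
            have hVw : vw lam B V (fun _ => ww lam q a B1) α =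
                V (act α).card * wt lam B (fun _ => ww lam q a B1) α := rfl
            split_ifs with hc
            · have h4 : AA lam q a B B1 α ^ 2 ≤ 1 := by nlinarith
              calc 2 * (V1 * V (act α).card) *
                    (wt lam B (fun _ => ww lam q a B1) α * AA lam q a B B1 α ^ 2) =
                    2 * V1 * (vw lam B V (fun _ => ww lam q a B1) α *
                      AA lam q a B B1 α ^ 2) := by
                    rw [hVw]
                    ring
                _ ≤ 2 * V1 * (δ ^ 2 * vw lam B V (fun _ => ww lam q a B1) α +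
                      vw lam B V (fun _ => ww lam q a B1) α) := by
                    apply mul_le_mul_of_nonneg_left _ (by positivity)
                    have h6 : 0 ≤ δ ^ 2 * vw lam B V (fun _ => ww lam q a B1) α := by
                      positivity
                    nlinarith
            · rw [add_zero]
              have h4 := AA_small (B := B) hl hq ha hal hnorm α hB1.le (by linarith) (hδ α hα)
              have h5 : AA lam q a B B1 α ^ 2 ≤ δ ^ 2 := by nlinarith
              calc 2 * (V1 * V (act α).card) *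
                    (wt lam B (fun _ => ww lam q a B1) α * AA lam q a B B1 α ^ 2) =
                    2 * V1 * (vw lam B V (fun _ => ww lam q a B1) α *
                      AA lam q a B B1 α ^ 2) := by
                    rw [hVw]
                    ring
                _ ≤ 2 * V1 * (δ ^ 2 * vw lam B V (fun _ => ww lam q a B1) α) := by
                    apply mul_le_mul_of_nonneg_left _ (by positivity)
                    nlinarith
          · rw [yk, if_neg hav]
            simpa using hrhs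
        · rw [hyk0 α (not_le.1 hα)]
          simpa using hrhs
      have h4 := tail_leV (κ := κ) hl hq hnorm hB1 (B := B) hV hV1 hVs (B - B1)
      rw [← hZ, ← hτ] at h4
      calc _ ≤ ∑ α : ι → Option κ, 2 * V1 * (δ ^ 2 * vw lam B V (fun _ => ww lam q a B1) α +
          (if B - B1 < sz lam (spp α) then vw lam B V (fun _ => ww lam q a B1) α else 0)) :=
            Finset.sum_le_sum fun α _ => h3 α
        _ = 2 * V1 * (δ ^ 2 * Z + ∑ α : ι → Option κ,
          (if B - B1 < sz lam (spp α) then vw lam B V (fun _ => ww lam q a B1) α else 0)) := by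
            rw [← Finset.mul_sum, Finset.sum_add_distrib, ← Finset.mul_sum, hZ]
        _ ≤ 2 * V1 * (δ ^ 2 * Z + Z * τ) := by gcongr
        _ = _ := by ring
    have h6 := (abs_le.1 hH1).2
    have h7 : 2 * ε * ∑ α, yk lam q a B B1 k α ^ 2 / ph q (spp α) ≤ ε3 * Z := by
      calc 2 * ε * ∑ α, yk lam q a B B1 k α ^ 2 / ph q (spp α) ≤ 2 * ε * Y := by gcongr
        _ ≤ ε3 * Z := hYZ
    linarith
  -- comparison
  have hcmp : ∑ ω ∈ Ω.filter (fun ω => ∃ k, (∀ i, x i k ω = 1 / q i) ∧
      ∀ A, Lam (insert k A) ω = Lam A ω), GD lam a B B1 x Lam ω ^ 2 ≤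
      ∑ ω ∈ Ω, ∑ k, (∑ α, yk lam q a B B1 k α * (Lam (insert k (act α)) ω * vl x α ω)) ^ 2 := by
    calc _ ≤ ∑ ω ∈ Ω.filter (fun ω => ∃ k, (∀ i, x i k ω = 1 / q i) ∧
          ∀ A, Lam (insert k A) ω = Lam A ω),
          ∑ k, (∑ α, yk lam q a B B1 k α * (Lam (insert k (act α)) ω * vl x α ω)) ^ 2 := by
          apply Finset.sum_le_sum
          intro ω hω
          obtain ⟨k, hk1, hk2⟩ := (mem_filter.1 hω).2
          rw [G_eq_HD (q := q) hl x Lam k ω hk1 hk2]
          exact Finset.single_le_sum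
            (f := fun k => (∑ α, yk lam q a B B1 k α *
              (Lam (insert k (act α)) ω * vl x α ω)) ^ 2) (fun k _ => sq_nonneg _) (mem_univ k)
      _ ≤ _ := by
          apply Finset.sum_le_sum_of_subset_of_nonneg (filter_subset _ _)
          intro ω _ _
          exact Finset.sum_nonneg fun k _ => sq_nonneg _
  have hcmp2 : (∑ ω ∈ Ω.filter (fun ω => ∃ k, (∀ i, x i k ω = 1 / q i) ∧
      ∀ A, Lam (insert k A) ω = Lam A ω), GD lam a B B1 x Lam ω ^ 2) / M ≤
      ∑ k, (∑ ω ∈ Ω, (∑ α, yk lam q a B B1 k α *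
        (Lam (insert k (act α)) ω * vl x α ω)) ^ 2) / M := by
    rw [← Finset.sum_div, Finset.sum_comm]
    exact div_le_div_of_nonneg_right hcmp hM.le
  have hcmp3 : ∑ k, (∑ ω ∈ Ω, (∑ α, yk lam q a B B1 k α *
        (Lam (insert k (act α)) ω * vl x α ω)) ^ 2) / M ≤
      (Fintype.card κ : ℝ) * (2 * V1 * ((δ ^ 2 + τ) * Z) + ε3 * Z + e) := by
    calc _ ≤ ∑ k : κ, (2 * V1 * ((δ ^ 2 + τ) * Z) + ε3 * Z + e) :=
          Finset.sum_le_sum fun k _ => hH k
      _ = _ := by rw [Finset.sum_const, Finset.card_univ, nsmul_eq_mul]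
  have hsplit : (∑ ω ∈ Ω, GD lam a B B1 x Lam ω ^ 2) / M =
      (∑ ω ∈ Ω.filter (fun ω => ∃ k, (∀ i, x i k ω = 1 / q i) ∧
        ∀ A, Lam (insert k A) ω = Lam A ω), GD lam a B B1 x Lam ω ^ 2) / M +
      (∑ ω ∈ Ω.filter (fun ω => ¬ ∃ k, (∀ i, x i k ω = 1 / q i) ∧
        ∀ A, Lam (insert k A) ω = Lam A ω), GD lam a B B1 x Lam ω ^ 2) / M := by
    rw [← add_div, Finset.sum_filter_add_sum_filter_not]
  have hG2 := (abs_le.1 hG).1
  have hG3 : Z - ε3 * Z - e ≤ (∑ ω ∈ Ω, GD lam a B B1 x Lam ω ^ 2) / M := by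
    have hG4 : (∑ ω ∈ Ω, GD lam a B B1 x Lam ω ^ 2) / M =
        (∑ ω ∈ Ω, (∑ α, yy lam a B B1 α * (Lam (act α) ω * vl x α ω)) ^ 2) / M := rfl
    rw [hG4]
    linarith
  rw [hsplit] at hG3
  have e1 : (Fintype.card κ : ℝ) * (2 * V1 * ((δ ^ 2 + τ) * Z)) ≤ 1 / 8 * Z := by
    calc (Fintype.card κ : ℝ) * (2 * V1 * ((δ ^ 2 + τ) * Z)) =
          (2 * (V1 * (Fintype.card κ : ℝ)) * (δ ^ 2 + τ)) * Z := by ring
      _ ≤ 1 / 8 * Z := mul_le_mul_of_nonneg_right h1 (by linarith)
  have e2 : ((Fintype.card κ : ℝ) + 1) * (ε3 * Z) ≤ 1 / 8 * Z := by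
    calc ((Fintype.card κ : ℝ) + 1) * (ε3 * Z) = (((Fintype.card κ : ℝ) + 1) * ε3) * Z := by ring
      _ ≤ 1 / 8 * Z := mul_le_mul_of_nonneg_right h3 (by linarith)
  nlinarith

end main

end

end Pool.Agent.Lib_helper9.LG
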