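import Mathlib
import Pool.Agent.Lib_helper9.LG.Gram
import Pool.Agent.Lib_helper9.LG.Core

set_option autoImplicit false

/-!
Interfaces of the engine.
-/

namespace Pool.Agent.Lib_helper9.LG

open Finset

noncomputable section

/-- The primes `l` with `(log X)^4 < l ≤ exp (sqrt (log X))` which do not divide `m`. -/
def PL (m : ℕ) (X : ℝ) : Finset ℕ :=
  (Icc 1 ⌊Real.exp (Real.sqrt (Real.log X))⌋₊).filter
    (fun l => l.Prime ∧ (Real.log X) ^ 4 < (l : ℝ) ∧ ¬ l ∣ m)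

/-- The local function of the prime `l` at the site `k`. -/
def xx (m l k c : ℕ) : ℝ := if l ∣ c + k * m then -1 else 1 / ((l : ℝ) - 1)

/-- Averages of products of local functions. -/
def StmtAVG : Prop := ∀ (m W b N : ℕ) (P : Finset ℕ) (F : ℕ → ℕ → ℝ), 1 ≤ m → 1 ≤ W →
  W.Coprime m → (∀ l ∈ P, l.Prime ∧ ¬ l ∣ m ∧ ¬ l ∣ W) →
  (∀ l ∈ P, ∀ c, F l (c + l) = F l c) → (∀ l ∈ P, ∀ c, |F l c| ≤ 1) →
  |∑ x ∈ (range N).filter (fun x => (b + W * x).Coprime m), ∏ l ∈ P, F l (b + W * x) -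
    (N : ℝ) * ((m.totient : ℝ) / m) * ∏ l ∈ P, ((∑ y ∈ range l, F l y) / l)| ≤
    2 ^ m.primeFactors.card * ∏ l ∈ P, (l : ℝ)

/-- Local second moments. -/
def StmtLOC : Prop := ∀ (m l : ℕ) (S : Finset ℕ) (β β' : Option {k // k ∈ S}), l.Prime →
  ¬ l ∣ m → (∀ k ∈ S, k < l) →
  (∑ y ∈ range l, (β.elim 1 (fun k => xx m l k y)) * (β'.elim 1 (fun k => xx m l k y))) / l =
    gl ((l : ℝ) - 1) β β'

/-- The hypothesis `herr` of `core`. -/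
def StmtHERR : Prop := ∀ (m W b N : ℕ) (X : ℝ) (S : Finset ℕ)
  (α β : {l // l ∈ PL m X} → Option {k // k ∈ S}), 1 ≤ m → 1 ≤ W → 1 ≤ N → W.Coprime m →
  (∀ p : ℕ, p.Prime → p ∣ W → (p : ℝ) ≤ (Real.log X) ^ 4) →
  (∀ k ∈ S, (k : ℝ) ≤ (Real.log X) ^ 4) →
  |(∑ ω ∈ (range N).filter (fun x => (b + W * x).Coprime m),
      vl (fun (i : {l // l ∈ PL m X}) (k : {k // k ∈ S}) (x : ℕ) => xx m i k (b + W * x)) α ω *
      vl (fun (i : {l // l ∈ PL m X}) (k : {k // k ∈ S}) (x : ℕ) => xx m i k (b + W * x)) β ω) /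
      ((N : ℝ) * ((m.totient : ℝ) / m)) -
    gram (fun i : {l // l ∈ PL m X} => ((i : ℕ) : ℝ) - 1) α β| ≤
    (2 ^ m.primeFactors.card / ((N : ℝ) * ((m.totient : ℝ) / m))) *
      (Real.exp (sz (fun i : {l // l ∈ PL m X} => Real.log ((i : ℕ) : ℝ)) (spp α)) *
       Real.exp (sz (fun i : {l // l ∈ PL m X} => Real.log ((i : ℕ) : ℝ)) (spp β)))

/-- The cost of a site is bounded. -/
def StmtSIGMA : Prop := ∃ s : ℝ, 0 < s ∧ ∀ A : ℕ, ∃ X₀ : ℝ, ∀ X : ℝ, X₀ ≤ X → ∀ m : ℕ, 1 ≤ m →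
  (m : ℝ) ≤ X ^ A → s ≤ ∑ T : Finset {l // l ∈ PL m X},
    s0 (fun i : {l // l ∈ PL m X} => Real.log ((i : ℕ) : ℝ))
      (fun i : {l // l ∈ PL m X} => ((i : ℕ) : ℝ) - 1) (Real.sqrt (Real.log X)) T

/-- The number of prime factors. -/
def StmtOM : Prop := ∀ A : ℕ, ∃ X₀ : ℝ, ∀ X : ℝ, X₀ ≤ X → ∀ m : ℕ, 1 ≤ m →
  (m : ℝ) ≤ X ^ A → (4 : ℝ) ^ m.primeFactors.card ≤ X ^ (1 / 10 : ℝ)

/-- The engine: any set of at most `c₁ log X` sites is hit by primes between `(log X)^4` and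
`exp (sqrt (log X))`, with `c` in a given class modulo `W` and in a given interval of length `X`. -/
def StmtE : Prop := ∃ c₁ : ℝ, 0 < c₁ ∧ ∀ A : ℕ, ∃ X₀ : ℝ, ∀ X : ℝ, X₀ ≤ X → ∀ m W b : ℕ, 1 ≤ m →
  (m : ℝ) ≤ X ^ A → 1 ≤ W → (W : ℝ) ^ 8 ≤ X → W.Coprime m →
  (∀ p : ℕ, p.Prime → p ∣ W → (p : ℝ) ≤ (Real.log X) ^ 4) →
  ∀ S : Finset ℕ, (∀ k ∈ S, (k : ℝ) ≤ (Real.log X) ^ 4) → (S.card : ℝ) ≤ c₁ * Real.log X →
  ∃ x : ℕ, ((W * x : ℕ) : ℝ) ≤ X ∧ (b + W * x).Coprime m ∧ ∀ k ∈ S, ∃ l : ℕ, l.Prime ∧ ¬ l ∣ m ∧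
    (Real.log X) ^ 4 < (l : ℝ) ∧ (l : ℝ) ≤ Real.exp (Real.sqrt (Real.log X)) ∧
    l ∣ (b + W * x) + k * m

/-- Choice of the class modulo `W`: few sites survive. -/
def StmtPIG : Prop := ∀ (m W K : ℕ), 1 ≤ W → W.Coprime m → ∃ b : ℕ, b < W ∧
  (((range K).filter (fun k => (b + k * m).Coprime W)).card : ℝ) ≤ K * ((W.totient : ℝ) / W)

/-- Theorem A (many classes): for every `ε` and every large `m`, every interval of length `m ^ ε`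
which starts above `m ^ ε` contains some `c` coprime to `m` such that none of the numbers
`c + k m` with `k ≤ c₀ ε (φ(m)/m) log m loglog m` is prime. -/
def StmtA : Prop := ∃ c₀ : ℝ, 0 < c₀ ∧ ∀ ε : ℝ, 0 < ε → ε ≤ 1 → ∃ m₀ : ℕ, ∀ m : ℕ, m₀ ≤ m →
  ∀ y : ℕ, (m : ℝ) ^ ε ≤ y → ∃ c : ℕ, y ≤ c ∧ (c : ℝ) ≤ y + (m : ℝ) ^ ε ∧ c.Coprime m ∧
    ∀ k : ℕ, (k : ℝ) ≤ c₀ * ε * ((m.totient : ℝ) / m) * Real.log m * Real.log (Real.log m) →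
      ¬ (c + k * m).Prime

end

end Pool.Agent.Lib_helper9.LG
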