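import Mathlib
import Pool.Agent.Lib_helper9.LG.Stmts
import Pool.Agent.Lib_helper9.LG.CoreD2

set_option autoImplicit false
set_option linter.unusedSectionVars false

/-!
Interfaces of the positive proportion theorem.
-/

namespace Pool.Agent.Lib_helper9.LG

open Finset

noncomputable section

/-- Small primes. -/
def SPr (m : ℕ) (L z : ℝ) : Finset ℕ :=
  (Icc 1 ⌊z⌋₊).filter (fun l => l.Prime ∧ L ^ 4 < (l : ℝ) ∧ ¬ l ∣ m)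

/-- Large primes. -/
def BPr (m : ℕ) (z R : ℝ) : Finset ℕ :=
  (Icc 1 ⌊R⌋₊).filter (fun l => l.Prime ∧ z < (l : ℝ) ∧ ¬ l ∣ m)

/-- Truncated alternating sum of binomial coefficients. -/
def FF (b n : ℕ) : ℝ := ∑ i ∈ range (2 * b + 1), (-1 : ℝ) ^ i * (n.choose i : ℝ)

/-- The number of primes of `P` which divide some `c + k m` with `k ∈ A`. -/
def om (P : Finset ℕ) (m : ℕ) (A : Finset ℕ) (c : ℕ) : ℕ :=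
  (P.filter (fun l => ∃ k ∈ A, l ∣ c + k * m)).card

/-- The sieve function of a set `A` of sites. -/
def Lm (P : ℕ → Finset ℕ) (b : ℕ → ℕ) (N m : ℕ) (A : Finset ℕ) (c : ℕ) : ℝ :=
  ∏ j ∈ range N, FF (b j) (om (P j) m A c)

/-- All primes of the blocks. -/
def SS (P : ℕ → Finset ℕ) (N : ℕ) : Finset ℕ := (range N).biUnion P

/-- The density of the integers without hits at `j` sites. -/
def VS (S : Finset ℕ) (j : ℕ) : ℝ := ∏ l ∈ S, (1 - (j : ℝ) / l)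

/-- The mean value of a product of sieve functions. -/
def vv (P : ℕ → Finset ℕ) (b : ℕ → ℕ) (N m : ℕ) {n : ℕ} (A : Fin n → Finset ℕ) : ℝ :=
  (∑ c ∈ range (∏ l ∈ SS P N, l), ∏ i, Lm P b N m (A i) c) / ((∏ l ∈ SS P N, l : ℕ) : ℝ)

/-- The level. -/
def LV (P : ℕ → Finset ℕ) (b : ℕ → ℕ) (N : ℕ) : ℝ :=
  ∏ j ∈ range N, (1 + ∑ l ∈ P j, (l : ℝ)) ^ (2 * b j)

/-- EXP: averages of products of sieve functions and local functions of other primes. -/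
def StmtEXP : Prop := ∀ (P : ℕ → Finset ℕ) (b : ℕ → ℕ) (N m W b₀ M₀ n : ℕ)
  (A : Fin n → Finset ℕ) (T : Finset ℕ) (F : ℕ → ℕ → ℝ), 1 ≤ m → 1 ≤ W → W.Coprime m →
  (∀ i < N, ∀ j < N, i ≠ j → Disjoint (P i) (P j)) →
  (∀ l ∈ SS P N ∪ T, l.Prime ∧ ¬ l ∣ m ∧ ¬ l ∣ W) → Disjoint (SS P N) T →
  (∀ l ∈ T, ∀ c, F l (c + l) = F l c) → (∀ l ∈ T, ∀ c, |F l c| ≤ 1) →
  |∑ x ∈ (range M₀).filter (fun x => (b₀ + W * x).Coprime m),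
      (∏ i, Lm P b N m (A i) (b₀ + W * x)) * ∏ l ∈ T, F l (b₀ + W * x) -
    (M₀ : ℝ) * ((m.totient : ℝ) / m) * (vv P b N m A * ∏ l ∈ T, ((∑ y ∈ range l, F l y) / l))| ≤
    2 ^ m.primeFactors.card * (LV P b N ^ n * ∏ l ∈ T, (l : ℝ))

/-- NN: the sieve functions are nonnegative, `1` for the empty set, and unchanged by a site without
hits. -/
def StmtNN : Prop := (∀ b n : ℕ, 0 ≤ FF b n) ∧ (∀ b : ℕ, FF b 0 = 1) ∧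
  (∀ b n : ℕ, 1 ≤ n → n ≤ 2 * b → FF b n = 0) ∧ (∀ b n : ℕ, FF b n ≤ 2 ^ n) ∧
  (∀ (P : ℕ → Finset ℕ) (b : ℕ → ℕ) (N m : ℕ) (A : Finset ℕ) (c : ℕ), 0 ≤ Lm P b N m A c) ∧
  (∀ (P : ℕ → Finset ℕ) (b : ℕ → ℕ) (N m : ℕ) (c : ℕ), Lm P b N m ∅ c = 1) ∧
  (∀ (P : ℕ → Finset ℕ) (b : ℕ → ℕ) (N m k : ℕ) (A : Finset ℕ) (c : ℕ),
    (∀ l ∈ SS P N, ¬ l ∣ c + k * m) → Lm P b N m (insert k A) c = Lm P b N m A c)

/-- VUP: upper bound for the mean value of four sieve functions. -/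
def StmtVUP : Prop := ∀ (P : ℕ → Finset ℕ) (b : ℕ → ℕ) (N m U : ℕ) (A : Fin 4 → Finset ℕ),
  (∀ i < N, ∀ j < N, i ≠ j → Disjoint (P i) (P j)) →
  (∀ l ∈ SS P N, l.Prime ∧ ¬ l ∣ m ∧ 4 * U + 4 ≤ l) →
  (∀ i, ∀ k ∈ A i, ∀ l ∈ SS P N, k < l) → (univ.biUnion A).card ≤ U →
  (∀ j < N, ∑ l ∈ P j, (1 : ℝ) / l ≤ 1) → (∀ j < N, 175 * U + j ≤ b j) →
  vv P b N m A ≤ 2 * VS (SS P N) (univ.biUnion A).card

/-- VLO: lower bound for the mean square of a sieve function. -/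
def StmtVLO : Prop := ∀ (P : ℕ → Finset ℕ) (b : ℕ → ℕ) (N m : ℕ) (A : Finset ℕ),
  (∀ l ∈ SS P N, l.Prime ∧ ¬ l ∣ m ∧ A.card ≤ l) → (∀ k ∈ A, ∀ l ∈ SS P N, k < l) →
  VS (SS P N) A.card ≤ vv P b N m ![A, A]

/-- MOM: the fourth moment of the sum of the sieve functions. -/
def StmtMOM : Prop := ∀ (P : ℕ → Finset ℕ) (b : ℕ → ℕ) (N m W b₀ M₀ J : ℕ) (S : Finset ℕ),
  1 ≤ m → 1 ≤ W → 1 ≤ M₀ → W.Coprime m →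
  (∀ i < N, ∀ j < N, i ≠ j → Disjoint (P i) (P j)) →
  (∀ l ∈ SS P N, l.Prime ∧ ¬ l ∣ m ∧ ¬ l ∣ W ∧ 16 * J + 4 ≤ l) →
  (∀ k ∈ S, ∀ l ∈ SS P N, k < l) →
  (∀ j < N, ∑ l ∈ P j, (1 : ℝ) / l ≤ 1) → (∀ j < N, 175 * (4 * J) + j ≤ b j) →
  (∑ x ∈ (range M₀).filter (fun x => (b₀ + W * x).Coprime m),
      (∑ A ∈ S.powerset.filter (fun A => A.card ≤ J), Lm P b N m A (b₀ + W * x)) ^ 4) /
      ((M₀ : ℝ) * ((m.totient : ℝ) / m)) ≤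
    2 * Real.exp (15 * (S.card * VS (SS P N) 1)) +
      ((S.card : ℝ) + 1) ^ (4 * J) * (2 ^ m.primeFactors.card * LV P b N ^ 4 /
        ((M₀ : ℝ) * ((m.totient : ℝ) / m)))

/-- SIGD: lower bound for `sigma`. -/
def StmtSIGD : Prop := ∃ c : ℝ, 0 < c ∧ ∀ η : ℝ, 0 < η → ∀ A I : ℕ, ∃ L₀ : ℝ, ∀ L : ℝ, L₀ ≤ L →
  ∀ m : ℕ, 1 ≤ m → Real.log m ≤ A * L → ∀ B1 : ℝ, 2 ^ I * (η * L) ≤ B1 →
  (c * I - 1) / (η * L) ≤ ∑ T : Finset {l // l ∈ BPr m (Real.exp (η * L)) (Real.exp B1)},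
    s0 (fun i : {l // l ∈ BPr m (Real.exp (η * L)) (Real.exp B1)} => Real.log ((i : ℕ) : ℝ))
      (fun i : {l // l ∈ BPr m (Real.exp (η * L)) (Real.exp B1)} => ((i : ℕ) : ℝ) - 1) B1 T

/-- BLK: the dyadic blocks of the small primes. -/
def StmtBLK : Prop := ∀ η : ℝ, 0 < η → ∀ b₀ : ℕ, ∃ L₀ : ℝ, ∀ L : ℝ, L₀ ≤ L → ∀ m : ℕ, 1 ≤ m →
  ∃ (P : ℕ → Finset ℕ) (N : ℕ), (∀ i < N, ∀ j < N, i ≠ j → Disjoint (P i) (P j)) ∧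
    SS P N = SPr m L (Real.exp (η * L)) ∧ (∀ j < N, ∑ l ∈ P j, (1 : ℝ) / l ≤ 1) ∧
    LV P (fun j => b₀ + j) N ≤ Real.exp (8 * ((b₀ : ℝ) + 2) * (η * L))

/-- VSL: lower bound for the densities. -/
def StmtVSL : Prop := ∀ η : ℝ, 0 < η → ∀ J : ℕ, ∃ L₀ : ℝ, ∀ L : ℝ, L₀ ≤ L → ∀ m : ℕ, 1 ≤ m →
  ∀ j ≤ J, 1 / L ^ (3 * J) ≤ VS (SPr m L (Real.exp (η * L))) j

/-- The primes up to `sqrt L` which do not divide `m`, multiplied. -/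
def WW (m : ℕ) (L : ℝ) : ℕ := ∏ p ∈ (Icc 1 ⌊Real.sqrt L⌋₊).filter (fun p => p.Prime ∧ ¬ p ∣ m), p

/-- KVB: the expected number of rough sites. -/
def StmtKVB : Prop := ∃ C : ℝ, 0 < C ∧ ∀ t η : ℝ, 0 < t → 0 < η → ∀ A : ℕ, ∃ L₀ : ℝ, ∀ L : ℝ,
  L₀ ≤ L → ∀ m : ℕ, 1 ≤ m → Real.log m ≤ A * L → ∀ K : ℕ,
  (K : ℝ) ≤ t * ((m.totient : ℝ) / m) * L + 1 →
  2 * K * (((WW m L).totient : ℝ) / (WW m L)) * VS (SPr m L (Real.exp (η * L))) 1 ≤ C * t / η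

/-- PIGD: at least half of the classes have few sites. -/
def StmtPIGD : Prop := ∀ (m W K : ℕ), 1 ≤ W → W.Coprime m →
  (W : ℝ) ≤ 2 * (((range W).filter (fun b =>
    (((range K).filter (fun k => (b + k * m).Coprime W)).card : ℝ) ≤
      2 * K * ((W.totient : ℝ) / W))).card : ℝ)

open Classical in
/-- The good `x`. -/
def gx (m W b n : ℕ) (L : ℝ) (S : Finset ℕ) : Finset ℕ :=
  (range n).filter (fun x => (b + W * x).Coprime m ∧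
    ∀ k ∈ S, ∃ l : ℕ, l.Prime ∧ ¬ l ∣ m ∧ (l : ℝ) ≤ Real.exp (L / 100) ∧
      l ∣ (b + W * x) + k * m)

open Classical in
/-- The good `c`. -/
def gc (m y z : ℕ) (κ : ℝ) : Finset ℕ :=
  (Icc y z).filter (fun c => c.Coprime m ∧ ∀ k : ℕ, (k : ℝ) ≤ κ → ¬ (c + k * m).Prime)

/-- ED: the engine for positive proportion in one class modulo `W`. -/
def StmtED : Prop := ∀ C₀ : ℝ, 0 < C₀ → ∀ A : ℕ, ∃ η δ : ℝ, 0 < η ∧ 0 < δ ∧ ∃ L₀ : ℝ,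
  ∀ L : ℝ, L₀ ≤ L → ∀ m W b : ℕ, 1 ≤ m → Real.log m ≤ A * L → 1 ≤ W → 1 ≤ b →
  (W : ℝ) ^ 8 ≤ Real.exp L →
  W.Coprime m → (∀ p : ℕ, p.Prime → p ∣ W → (p : ℝ) ≤ L ^ 4) →
  ∀ S : Finset ℕ, (∀ k ∈ S, (k : ℝ) ≤ L ^ 2) →
  S.card * VS (SPr m L (Real.exp (η * L))) 1 ≤ C₀ / η →
  (b : ℝ) + Real.exp L ≤ Real.exp (A * L) →
  δ * (Real.exp L / W * ((m.totient : ℝ) / m)) ≤ ((gx m W b ⌊Real.exp L / W⌋₊ L S).card : ℝ)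

/-- Theorem D: positive proportion in every interval of length `m ^ ε`. -/
def StmtD : Prop := ∀ t ε : ℝ, 0 < t → 0 < ε → ε ≤ 1 → ∃ δ : ℝ, 0 < δ ∧ ∃ m₀ : ℕ, ∀ m : ℕ,
  m₀ ≤ m → ∀ y : ℕ, (m : ℝ) ^ ε ≤ y → y ≤ m →
  δ * (((m.totient : ℝ) / m) * (m : ℝ) ^ ε) ≤
    ((gc m y ⌊(y : ℝ) + (m : ℝ) ^ ε⌋₊ (t * ((m.totient : ℝ) / m) * Real.log m)).card : ℝ)

end

end Pool.Agent.Lib_helper9.LG
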