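import Mathlib
import Pool.Agent.Lib_helper9.LG.Stmts

set_option autoImplicit false

/-!
Averages of products of periodic functions over an arithmetic progression with a coprimality
condition.
-/

namespace Pool.Agent.Lib_helper9.LG

open Finset

namespace Avg

lemma per_mul {g : ℕ → ℝ} {l : ℕ} (hg : ∀ c, g (c + l) = g c) (n c : ℕ) :
    g (c + l * n) = g c := by
  induction n with
  | zero => simp
  | succ n ih => rw [Nat.mul_succ, ← add_assoc, hg, ih]

lemma per_mod {g : ℕ → ℝ} {l : ℕ} (hg : ∀ c, g (c + l) = g c) (c : ℕ) : g (c % l) = g c := by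
  conv_rhs => rw [← Nat.mod_add_div c l]
  rw [per_mul hg]

/-- Sum over a progression with coprime difference. -/
lemma sum_lin {g : ℕ → ℝ} {l : ℕ} (hl : 0 < l) (hg : ∀ c, g (c + l) = g c) {D : ℕ}
    (hD : D.Coprime l) (z : ℕ) : ∑ t ∈ range l, g (z + D * t) = ∑ y ∈ range l, g y := by
  have hinj : Set.InjOn (fun t => (z + D * t) % l) (range l : Set ℕ) := by
    intro a ha b hb hab
    have ha' : a < l := by simpa using ha
    have hb' : b < l := by simpa using hb
    have h1 : z + D * a ≡ z + D * b [MOD l] := hab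
    have h2 : D * a ≡ D * b [MOD l] := Nat.ModEq.add_left_cancel' z h1
    have h3 : a ≡ b [MOD l] := Nat.ModEq.cancel_left_of_coprime (by
      rw [Nat.coprime_iff_gcd_eq_one.symm, Nat.coprime_comm]; exact hD) h2
    exact Nat.ModEq.eq_of_lt_of_lt h3 ha' hb'
  have hmaps : Set.MapsTo (fun t => (z + D * t) % l) (range l : Set ℕ) (range l : Set ℕ) := by
    intro a _
    simpa using Nat.mod_lt _ hl
  have hsurj : Set.SurjOn (fun t => (z + D * t) % l) (range l : Set ℕ) (range l : Set ℕ) :=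
    Finset.surjOn_of_injOn_of_card_le _ hmaps hinj le_rfl
  refine Finset.sum_nbij (fun t => (z + D * t) % l) (fun a ha => ?_) hinj hsurj fun a _ => ?_
  · exact hmaps ha
  · exact (per_mod hg _).symm

/-- A double sum. -/
lemma sum_prod {g h : ℕ → ℝ} {l D : ℕ} (hl : 0 < l) (hD0 : 0 < D)
    (hg : ∀ c, g (c + l) = g c) (hh : ∀ c, h (c + D) = h c) (hD : D.Coprime l) :
    ∑ r ∈ range (l * D), g r * h r = (∑ y ∈ range l, g y) * ∑ z ∈ range D, h z := by
  have h1 : ∑ r ∈ range (l * D), g r * h r =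
      ∑ z ∈ range D, ∑ t ∈ range l, g (z + D * t) * h (z + D * t) := by
    rw [← Finset.sum_product']
    symm
    refine Finset.sum_nbij' (fun p => p.1 + D * p.2) (fun r => (r % D, r / D)) ?_ ?_ ?_ ?_ ?_
    · rintro ⟨z, t⟩ hp
      simp only [mem_product, mem_range] at hp ⊢
      calc z + D * t < D + D * t := by omega
        _ = D * (t + 1) := by ring
        _ ≤ D * l := Nat.mul_le_mul_left _ (by omega)
        _ = l * D := Nat.mul_comm _ _
    · intro r hr
      simp only [mem_product, mem_range] at hr ⊢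
      refine ⟨Nat.mod_lt _ hD0, ?_⟩
      rw [Nat.div_lt_iff_lt_mul hD0]
      exact hr
    · rintro ⟨z, t⟩ hp
      simp only [mem_product, mem_range] at hp
      ext
      · simp [Nat.add_mul_mod_self_left, Nat.mod_eq_of_lt hp.1]
      · simp [Nat.add_mul_div_left _ _ hD0, Nat.div_eq_of_lt hp.1]
    · intro r _
      exact Nat.mod_add_div r D
    · rintro ⟨z, t⟩ _
      rfl
  rw [h1, Finset.mul_sum]
  refine Finset.sum_congr rfl fun z _ => ?_
  rw [← sum_lin hl hg hD z, Finset.sum_mul]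
  refine Finset.sum_congr rfl fun t _ => ?_
  rw [per_mul hh]

variable {b W : ℕ}

lemma per_prod {P : Finset ℕ} {F : ℕ → ℕ → ℝ} (hF : ∀ l ∈ P, ∀ c, F l (c + l) = F l c) (x : ℕ) :
    ∏ l ∈ P, F l (b + W * (x + ∏ l ∈ P, l)) = ∏ l ∈ P, F l (b + W * x) := by
  refine Finset.prod_congr rfl fun l hl => ?_
  obtain ⟨k, hk⟩ := Finset.dvd_prod_of_mem (fun l => l) hl
  have h1 : b + W * (x + ∏ l ∈ P, l) = (b + W * x) + l * (W * k) := by
    rw [hk]; ring
  rw [h1, per_mul (hF l hl)]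

/-- The complete sum. -/
lemma full_sum {P : Finset ℕ} {F : ℕ → ℕ → ℝ} (hP : ∀ l ∈ P, l.Prime ∧ ¬ l ∣ W)
    (hF : ∀ l ∈ P, ∀ c, F l (c + l) = F l c) :
    ∑ r ∈ range (∏ l ∈ P, l), ∏ l ∈ P, F l (b + W * r) = ∏ l ∈ P, ∑ y ∈ range l, F l y := by
  induction P using Finset.induction_on with
  | empty => simp
  | insert a P ha ih =>
    have hPa := hP a (mem_insert_self _ _)
    have hP' : ∀ l ∈ P, l.Prime ∧ ¬ l ∣ W := fun l hl => hP l (mem_insert_of_mem hl)
    have hF' : ∀ l ∈ P, ∀ c, F l (c + l) = F l c := fun l hl => hF l (mem_insert_of_mem hl)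
    have hD0 : 0 < ∏ l ∈ P, l := Finset.prod_pos fun l hl => (hP' l hl).1.pos
    have hcop : (∏ l ∈ P, l).Coprime a := by
      refine Nat.Coprime.prod_left fun l hl => ?_
      exact (Nat.coprime_primes (hP' l hl).1 hPa.1).2 fun h => ha (h ▸ hl)
    rw [Finset.prod_insert ha, Finset.prod_insert ha, ← ih hP' hF']
    have h1 : ∑ y ∈ range a, F a y = ∑ y ∈ range a, F a (b + W * y) :=
      (sum_lin hPa.1.pos (hF a (mem_insert_self _ _))
        (((Nat.Prime.coprime_iff_not_dvd hPa.1).2 hPa.2).symm) b).symm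
    rw [h1, ← sum_prod hPa.1.pos hD0 (g := fun r => F a (b + W * r))
      (h := fun r => ∏ l ∈ P, F l (b + W * r)) ?_ ?_ hcop]
    · refine Finset.sum_congr rfl fun r _ => ?_
      rw [Finset.prod_insert ha]
    · intro c
      have h2 : b + W * (c + a) = (b + W * c) + a * W := by ring
      show F a (b + W * (c + a)) = F a (b + W * c)
      rw [h2, per_mul (hF a (mem_insert_self _ _))]
    · intro c
      exact per_prod hF' c

/-- Counting in a residue class with primes excluded. -/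
lemma cnt (Q : Finset ℕ) (hQ : ∀ p ∈ Q, p.Prime ∧ ¬ p ∣ W) : ∀ (D r N : ℕ), 0 < D →
    (∀ p ∈ Q, ¬ p ∣ D) →
    |(((range N).filter (fun x => x ≡ r [MOD D] ∧ ∀ p ∈ Q, ¬ p ∣ b + W * x)).card : ℝ) -
      (N : ℝ) / D * ∏ p ∈ Q, (1 - (p : ℝ)⁻¹)| ≤ 2 ^ Q.card := by
  induction Q using Finset.induction_on with
  | empty =>
    intro D r N hD _
    have h1 : ((range N).filter (fun x => x ≡ r [MOD D] ∧ ∀ p ∈ (∅ : Finset ℕ),
        ¬ p ∣ b + W * x)).card = Nat.count (· ≡ r [MOD D]) N := by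
      rw [Nat.count_eq_card_filter_range]
      congr 1
      refine Finset.filter_congr fun x _ => ?_
      simp
    rw [h1, Nat.count_modEq_card _ hD]
    have hD' : (0 : ℝ) < D := by exact_mod_cast hD
    have h2 : (N : ℝ) / D = ((N / D : ℕ) : ℝ) + ((N % D : ℕ) : ℝ) / D := by
      have h3 : (N : ℝ) = ((D * (N / D) + N % D : ℕ) : ℝ) := by
        rw [Nat.div_add_mod]
      rw [h3]; push_cast; field_simp
    have h4 : (0 : ℝ) ≤ ((N % D : ℕ) : ℝ) / D := by positivity
    have h5 : ((N % D : ℕ) : ℝ) / D ≤ 1 := by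
      rw [div_le_one hD']
      exact_mod_cast (Nat.mod_lt N hD).le
    simp only [Finset.prod_empty, mul_one, Finset.card_empty, pow_zero, h2]
    split_ifs <;> push_cast <;> rw [abs_le] <;> constructor <;> linarith
  | insert a Q ha ih =>
    intro D r N hD hDQ
    have hQa := hQ a (mem_insert_self _ _)
    have hQ' : ∀ p ∈ Q, p.Prime ∧ ¬ p ∣ W := fun p hp => hQ p (mem_insert_of_mem hp)
    have haD : ¬ a ∣ D := hDQ a (mem_insert_self _ _)
    have hcopD : D.Coprime a := ((Nat.Prime.coprime_iff_not_dvd hQa.1).2 haD).symm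
    have hcopW : W.Coprime a := ((Nat.Prime.coprime_iff_not_dvd hQa.1).2 hQa.2).symm
    -- the class modulo `a`
    obtain ⟨s, hs⟩ : ∃ s, a ∣ b + W * s := by
      have h1 := Nat.exists_mul_mod_eq_one_of_coprime hcopW hQa.1.one_lt
      obtain ⟨w, _, hw⟩ := h1
      refine ⟨w * ((a - 1) * b), ?_⟩
      have h2 : W * (w * ((a - 1) * b)) ≡ (a - 1) * b [MOD a] := by
        have h3 : W * w ≡ 1 [MOD a] := by
          rw [Nat.ModEq, hw, Nat.mod_eq_of_lt hQa.1.one_lt]
        have h4 := h3.mul_right ((a - 1) * b)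
        rw [one_mul] at h4
        rw [← mul_assoc]; exact h4
      have h5 : b + W * (w * ((a - 1) * b)) ≡ b + (a - 1) * b [MOD a] := h2.add_left b
      have h6 : b + (a - 1) * b = a * b := by
        have := hQa.1.one_lt
        obtain ⟨a', rfl⟩ : ∃ a', a = a' + 1 := ⟨a - 1, by omega⟩
        simp; ring
      rw [h6] at h5
      exact (Nat.modEq_zero_iff_dvd.1 (h5.trans (by simp [Nat.ModEq])))
    set u := Nat.chineseRemainder hcopD r s with hu
    have hu1 : (u : ℕ) ≡ r [MOD D] := u.2.1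
    have hu2 : (u : ℕ) ≡ s [MOD a] := u.2.2
    have hdvd : ∀ x, a ∣ b + W * x ↔ x ≡ s [MOD a] := by
      intro x
      constructor
      · intro h
        have h1 : b + W * x ≡ b + W * s [MOD a] :=
          ((Nat.modEq_zero_iff_dvd.2 h).trans (Nat.modEq_zero_iff_dvd.2 hs).symm)
        have h2 : W * x ≡ W * s [MOD a] := Nat.ModEq.add_left_cancel' b h1
        exact Nat.ModEq.cancel_left_of_coprime (by
          rw [Nat.coprime_iff_gcd_eq_one.symm, Nat.coprime_comm]; exact hcopW) h2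
      · intro h
        have h1 : b + W * x ≡ b + W * s [MOD a] := (h.mul_left W).add_left b
        exact Nat.modEq_zero_iff_dvd.1 (h1.trans (Nat.modEq_zero_iff_dvd.2 hs))
    have hset : (range N).filter (fun x => x ≡ r [MOD D] ∧ ∀ p ∈ insert a Q, ¬ p ∣ b + W * x) =
        ((range N).filter (fun x => x ≡ r [MOD D] ∧ ∀ p ∈ Q, ¬ p ∣ b + W * x)) \
        ((range N).filter (fun x => x ≡ u [MOD (D * a)] ∧ ∀ p ∈ Q, ¬ p ∣ b + W * x)) := by
      ext x
      simp only [mem_filter, mem_sdiff, mem_insert, forall_eq_or_imp, mem_range, not_and]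
      have hiff : x ≡ (u : ℕ) [MOD (D * a)] ↔ x ≡ r [MOD D] ∧ a ∣ b + W * x := by
        rw [← Nat.modEq_and_modEq_iff_modEq_mul hcopD, hdvd x]
        constructor
        · rintro ⟨h1, h2⟩
          exact ⟨h1.trans hu1, h2.trans hu2⟩
        · rintro ⟨h1, h2⟩
          exact ⟨h1.trans hu1.symm, h2.trans hu2.symm⟩
      constructor
      · rintro ⟨h1, h2, h3, h4⟩
        exact ⟨⟨h1, h2, h4⟩, fun _ h5 => absurd (hiff.1 h5).2 h3⟩
      · rintro ⟨⟨h1, h2, h4⟩, h5⟩
        refine ⟨h1, h2, fun h6 => ?_, h4⟩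
        exact h5 h1 (hiff.2 ⟨h2, h6⟩) h4
    have hsub : ((range N).filter (fun x => x ≡ u [MOD (D * a)] ∧ ∀ p ∈ Q, ¬ p ∣ b + W * x)) ⊆
        ((range N).filter (fun x => x ≡ r [MOD D] ∧ ∀ p ∈ Q, ¬ p ∣ b + W * x)) := by
      intro x hx
      simp only [mem_filter] at hx ⊢
      exact ⟨hx.1, (hx.2.1.of_mul_right a).trans hu1, hx.2.2⟩
    rw [hset, Finset.card_sdiff_of_subset hsub, Nat.cast_sub (Finset.card_le_card hsub)]
    have e1 := ih hQ' D r N hD (fun p hp => hDQ p (mem_insert_of_mem hp))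
    have e2 := ih hQ' (D * a) u N (Nat.mul_pos hD hQa.1.pos) (fun p hp hpd => by
      rcases (Nat.Prime.dvd_mul (hQ' p hp).1).1 hpd with h | h
      · exact hDQ p (mem_insert_of_mem hp) h
      · exact ha (((Nat.prime_dvd_prime_iff_eq (hQ' p hp).1 hQa.1).1 h) ▸ hp))
    rw [Finset.prod_insert ha, Finset.card_insert_of_notMem ha, pow_succ]
    have ha0 : (a : ℝ) ≠ 0 := by exact_mod_cast hQa.1.pos.ne'
    have hD0 : (D : ℝ) ≠ 0 := by exact_mod_cast hD.ne'
    have h7 : (N : ℝ) / D * ((1 - (a : ℝ)⁻¹) * ∏ p ∈ Q, (1 - (p : ℝ)⁻¹)) =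
        (N : ℝ) / D * ∏ p ∈ Q, (1 - (p : ℝ)⁻¹) -
        (N : ℝ) / ((D * a : ℕ) : ℝ) * ∏ p ∈ Q, (1 - (p : ℝ)⁻¹) := by
      push_cast
      field_simp
    rw [h7]
    rw [abs_le] at e1 e2 ⊢
    constructor <;> linarith [e1.1, e1.2, e2.1, e2.2]

end Avg

open Avg in
theorem avg : StmtAVG := by
  intro m W b N P F hm hW hWm hP hF hF1
  set D := ∏ l ∈ P, l with hD
  have hD0 : 0 < D := Finset.prod_pos fun l hl => (hP l hl).1.pos
  have hD0' : (D : ℝ) ≠ 0 := by exact_mod_cast hD0.ne'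
  set f : ℕ → ℝ := fun x => ∏ l ∈ P, F l (b + W * x) with hf
  have hfper : ∀ c, f (c + D) = f c := fun c => per_prod hF c
  have hf1 : ∀ x, |f x| ≤ 1 := by
    intro x
    rw [hf, Finset.abs_prod]
    exact Finset.prod_le_one (fun l _ => abs_nonneg _) fun l hl => hF1 l hl _
  have hQ : ∀ p ∈ m.primeFactors, p.Prime ∧ ¬ p ∣ W := by
    intro p hp
    have hp' := Nat.prime_of_mem_primeFactors hp
    refine ⟨hp', fun h => ?_⟩
    have h1 := Nat.dvd_gcd h (Nat.dvd_of_mem_primeFactors hp)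
    rw [hWm] at h1
    exact hp'.one_lt.ne' (Nat.dvd_one.1 h1)
  have hcop : ∀ x, (b + W * x).Coprime m ↔ ∀ p ∈ m.primeFactors, ¬ p ∣ b + W * x := by
    intro x
    constructor
    · intro h p hp hd
      have hp' := Nat.prime_of_mem_primeFactors hp
      have h1 := Nat.dvd_gcd hd (Nat.dvd_of_mem_primeFactors hp)
      rw [h] at h1
      exact hp'.one_lt.ne' (Nat.dvd_one.1 h1)
    · intro h
      refine Nat.coprime_of_dvd fun p hp hd hpm => ?_
      exact h p (Nat.mem_primeFactors.2 ⟨hp, hpm, by omega⟩) hd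
  have htot : (m.totient : ℝ) / m = ∏ p ∈ m.primeFactors, (1 - (p : ℝ)⁻¹) := by
    have h1 := Nat.totient_eq_mul_prod_factors m
    have h2 : (m.totient : ℝ) = m * ∏ p ∈ m.primeFactors, (1 - (p : ℝ)⁻¹) := by
      have h3 := congrArg (fun q : ℚ => (q : ℝ)) h1
      push_cast at h3
      exact h3
    rw [h2]
    have hm' : (m : ℝ) ≠ 0 := by exact_mod_cast (by omega : m ≠ 0)
    field_simp
  -- split in classes modulo `D`
  have h1 : ∑ x ∈ (range N).filter (fun x => (b + W * x).Coprime m), ∏ l ∈ P, F l (b + W * x) =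
      ∑ r ∈ range D, f r * (((range N).filter (fun x => x ≡ r [MOD D] ∧
        ∀ p ∈ m.primeFactors, ¬ p ∣ b + W * x)).card : ℝ) := by
    rw [← Finset.sum_fiberwise_of_maps_to (t := range D) (g := fun x => x % D)
      (fun x _ => mem_range.2 (Nat.mod_lt _ hD0))]
    refine Finset.sum_congr rfl fun r hr => ?_
    have hr' : r < D := mem_range.1 hr
    rw [Finset.filter_filter]
    have h2 : ∀ x ∈ (range N).filter (fun x => (b + W * x).Coprime m ∧ x % D = r),
        ∏ l ∈ P, F l (b + W * x) = f r := by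
      intro x hx
      have h3 : x % D = r := (mem_filter.1 hx).2.2
      rw [← h3]
      exact (per_mod hfper x).symm
    rw [Finset.sum_congr rfl h2, Finset.sum_const, nsmul_eq_mul, mul_comm]
    congr 3
    refine Finset.filter_congr fun x _ => ?_
    rw [hcop x]
    have h4 : x % D = r ↔ x ≡ r [MOD D] := by
      rw [Nat.ModEq, Nat.mod_eq_of_lt hr']
    rw [h4, and_comm]
  have h5 : (N : ℝ) * ((m.totient : ℝ) / m) * ∏ l ∈ P, ((∑ y ∈ range l, F l y) / l) =
      ∑ r ∈ range D, f r * ((N : ℝ) / D * ∏ p ∈ m.primeFactors, (1 - (p : ℝ)⁻¹)) := by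
    rw [← Finset.sum_mul, full_sum (fun l hl => ⟨(hP l hl).1, (hP l hl).2.2⟩) hF,
      Finset.prod_div_distrib, htot]
    have h6 : ∏ l ∈ P, (l : ℝ) = D := by rw [hD]; push_cast; rfl
    rw [h6]
    field_simp
  rw [h1, h5, ← Finset.sum_sub_distrib]
  calc |∑ r ∈ range D, (f r * (((range N).filter (fun x => x ≡ r [MOD D] ∧
        ∀ p ∈ m.primeFactors, ¬ p ∣ b + W * x)).card : ℝ) -
        f r * ((N : ℝ) / D * ∏ p ∈ m.primeFactors, (1 - (p : ℝ)⁻¹)))|
      ≤ ∑ r ∈ range D, |(f r * (((range N).filter (fun x => x ≡ r [MOD D] ∧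
        ∀ p ∈ m.primeFactors, ¬ p ∣ b + W * x)).card : ℝ) -
        f r * ((N : ℝ) / D * ∏ p ∈ m.primeFactors, (1 - (p : ℝ)⁻¹)))| :=
        Finset.abs_sum_le_sum_abs _ _
    _ ≤ ∑ r ∈ range D, (2 : ℝ) ^ m.primeFactors.card := by
        refine Finset.sum_le_sum fun r _ => ?_
        rw [← mul_sub, abs_mul]
        calc |f r| * _ ≤ 1 * (2 : ℝ) ^ m.primeFactors.card := by
              refine mul_le_mul (hf1 r) ?_ (abs_nonneg _) zero_le_one
              refine cnt m.primeFactors hQ D r N hD0 fun p hp hpD => ?_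
              have hp' := Nat.prime_of_mem_primeFactors hp
              obtain ⟨l, hl, hpl⟩ := (Prime.dvd_finsetProd_iff hp'.prime _).1 hpD
              have h7 := (Nat.prime_dvd_prime_iff_eq hp' (hP l hl).1).1 hpl
              exact (hP l hl).2.1 (h7 ▸ Nat.dvd_of_mem_primeFactors hp)
          _ = _ := one_mul _
    _ = 2 ^ m.primeFactors.card * ∏ l ∈ P, (l : ℝ) := by
        rw [Finset.sum_const, card_range, nsmul_eq_mul, mul_comm, hD]
        push_cast
        rfl

end Pool.Agent.Lib_helper9.LG
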