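import Mathlib
import Pool.Agent.Lib_helper9.LG.StmtsD
import Pool.Agent.Lib_helper9.LG.Avg

set_option autoImplicit false

/-!
Averages of products of sieve functions.
-/

namespace Pool.Agent.Lib_helper9.LG

open Finset

namespace EXPd

/-- Functions of level at most `Λ` over `S`. -/
inductive Lev (S : Finset ℕ) : ℝ → (ℕ → ℝ) → Prop
  | base (E : Finset ℕ) (f : ℕ → ℕ → ℝ) (hE : E ⊆ S) (hp : ∀ l ∈ E, ∀ c, f l (c + l) = f l c)
      (hb : ∀ l ∈ E, ∀ c, |f l c| ≤ 1) : Lev S (∏ l ∈ E, (l : ℝ)) (fun c => ∏ l ∈ E, f l c)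
  | zero : Lev S 0 (fun _ => 0)
  | add {a b : ℝ} {g h : ℕ → ℝ} (hg : Lev S a g) (hh : Lev S b h) :
      Lev S (a + b) (fun c => g c + h c)
  | neg {a : ℝ} {g : ℕ → ℝ} (hg : Lev S a g) : Lev S a (fun c => - g c)
  | mono {a b : ℝ} {g : ℕ → ℝ} (hg : Lev S a g) (hab : a ≤ b) : Lev S b g

lemma Lev.nonneg {S : Finset ℕ} {a : ℝ} {g : ℕ → ℝ} (h : Lev S a g) : 0 ≤ a := by
  induction h with
  | base E f hE hp hb => exact Finset.prod_nonneg fun l _ => Nat.cast_nonneg l
  | zero => exact le_rfl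
  | add hg hh ih1 ih2 => exact add_nonneg ih1 ih2
  | neg hg ih => exact ih
  | mono hg hab ih => exact ih.trans hab

lemma Lev.one (S : Finset ℕ) : Lev S 1 (fun _ => 1) := by
  have h := Lev.base (S := S) ∅ (fun _ _ => 0) (by simp) (by simp) (by simp)
  simpa using h

/-- Two base functions. -/
lemma base_mul {S : Finset ℕ} (hS : ∀ l ∈ S, 1 ≤ l) (E : Finset ℕ) (f : ℕ → ℕ → ℝ) (hE : E ⊆ S)
    (hp : ∀ l ∈ E, ∀ c, f l (c + l) = f l c) (hb : ∀ l ∈ E, ∀ c, |f l c| ≤ 1)
    (E' : Finset ℕ) (f' : ℕ → ℕ → ℝ) (hE' : E' ⊆ S)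
    (hp' : ∀ l ∈ E', ∀ c, f' l (c + l) = f' l c) (hb' : ∀ l ∈ E', ∀ c, |f' l c| ≤ 1) :
    Lev S ((∏ l ∈ E, (l : ℝ)) * ∏ l ∈ E', (l : ℝ))
      (fun c => (∏ l ∈ E, f l c) * ∏ l ∈ E', f' l c) := by
  classical
  set F : ℕ → ℕ → ℝ := fun l c => (if l ∈ E then f l c else 1) * (if l ∈ E' then f' l c else 1)
    with hF
  have h1 : Lev S (∏ l ∈ E ∪ E', (l : ℝ)) (fun c => ∏ l ∈ E ∪ E', F l c) := by
    refine Lev.base _ F (Finset.union_subset hE hE') ?_ ?_
    · intro l _ c
      simp only [hF]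
      by_cases h : l ∈ E <;> by_cases h' : l ∈ E' <;> simp [h, h', hp, hp']
    · intro l _ c
      simp only [hF, abs_mul]
      by_cases h : l ∈ E <;> by_cases h' : l ∈ E'
      · simp only [h, h', if_true]
        exact mul_le_one₀ (hb l h c) (abs_nonneg _) (hb' l h' c)
      · simpa [h, h'] using hb l h c
      · simpa [h, h'] using hb' l h' c
      · simp [h, h']
  have h2 : (fun c => ∏ l ∈ E ∪ E', F l c) =
      (fun c => (∏ l ∈ E, f l c) * ∏ l ∈ E', f' l c) := by
    funext c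
    simp only [hF, Finset.prod_mul_distrib]
    congr 1
    · rw [Finset.prod_ite_mem]
      congr 1
      ext x
      simp only [mem_inter, mem_union]
      tauto
    · rw [Finset.prod_ite_mem]
      congr 1
      ext x
      simp only [mem_inter, mem_union]
      tauto
  rw [h2] at h1
  refine h1.mono ?_
  have h3 : (∏ l ∈ E, (l : ℝ)) * ∏ l ∈ E', (l : ℝ) =
      (∏ l ∈ E ∪ E', (l : ℝ)) * ∏ l ∈ E ∩ E', (l : ℝ) := (Finset.prod_union_inter).symm
  rw [h3]
  refine le_mul_of_one_le_right (Finset.prod_nonneg fun l _ => Nat.cast_nonneg l) ?_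
  have h4 : 0 < ∏ l ∈ E ∩ E', l := Finset.prod_pos fun l hl =>
    hS l (hE (Finset.mem_inter.1 hl).1)
  rw [← Nat.cast_prod]
  exact Nat.one_le_cast.2 h4

lemma Lev.base_mul_left {S : Finset ℕ} (hS : ∀ l ∈ S, 1 ≤ l) (E : Finset ℕ) (f : ℕ → ℕ → ℝ)
    (hE : E ⊆ S) (hp : ∀ l ∈ E, ∀ c, f l (c + l) = f l c) (hb : ∀ l ∈ E, ∀ c, |f l c| ≤ 1)
    {a : ℝ} {g : ℕ → ℝ} (h : Lev S a g) :
    Lev S ((∏ l ∈ E, (l : ℝ)) * a) (fun c => (∏ l ∈ E, f l c) * g c) := by
  have h0 : (0 : ℝ) ≤ ∏ l ∈ E, (l : ℝ) := Finset.prod_nonneg fun l _ => Nat.cast_nonneg l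
  induction h with
  | base E' f' hE' hp' hb' => exact base_mul hS E f hE hp hb E' f' hE' hp' hb'
  | zero => simpa using Lev.zero (S := S)
  | add hg hh ih1 ih2 => simpa [mul_add] using ih1.add ih2
  | neg hg ih => simpa [mul_neg] using ih.neg
  | mono hg hab ih => exact ih.mono (mul_le_mul_of_nonneg_left hab h0)

lemma Lev.mul {S : Finset ℕ} (hS : ∀ l ∈ S, 1 ≤ l) {a b : ℝ} {g h : ℕ → ℝ} (hg : Lev S a g)
    (hh : Lev S b h) : Lev S (a * b) (fun c => g c * h c) := by
  have hb0 : 0 ≤ b := hh.nonneg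
  induction hg with
  | base E f hE hp hb => exact hh.base_mul_left hS E f hE hp hb
  | zero => simpa using Lev.zero (S := S)
  | add hg1 hg2 ih1 ih2 => simpa [add_mul] using ih1.add ih2
  | neg hg1 ih => simpa [neg_mul] using ih.neg
  | mono hg1 hab ih => exact ih.mono (mul_le_mul_of_nonneg_right hab hb0)

lemma Lev.sum {S : Finset ℕ} {ι : Type} (s : Finset ι) {a : ι → ℝ} {g : ι → ℕ → ℝ}
    (h : ∀ i ∈ s, Lev S (a i) (g i)) : Lev S (∑ i ∈ s, a i) (fun c => ∑ i ∈ s, g i c) := by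
  classical
  induction s using Finset.induction_on with
  | empty => simpa using Lev.zero (S := S)
  | insert i s hi ih =>
    simp only [Finset.sum_insert hi]
    exact (h i (mem_insert_self _ _)).add (ih fun j hj => h j (mem_insert_of_mem hj))

lemma Lev.prod {S : Finset ℕ} (hS : ∀ l ∈ S, 1 ≤ l) {ι : Type} (s : Finset ι) {a : ι → ℝ}
    {g : ι → ℕ → ℝ} (h : ∀ i ∈ s, Lev S (a i) (g i)) :
    Lev S (∏ i ∈ s, a i) (fun c => ∏ i ∈ s, g i c) := by
  classical
  induction s using Finset.induction_on with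
  | empty => simpa using Lev.one S
  | insert i s hi ih =>
    simp only [Finset.prod_insert hi]
    exact (h i (mem_insert_self _ _)).mul hS (ih fun j hj => h j (mem_insert_of_mem hj))

lemma Lev.sign {S : Finset ℕ} {a : ℝ} {g : ℕ → ℝ} (h : Lev S a g) (i : ℕ) :
    Lev S a (fun c => (-1 : ℝ) ^ i * g c) := by
  rcases Nat.even_or_odd i with hi | hi
  · simpa [hi.neg_one_pow] using h
  · simpa [hi.neg_one_pow] using h.neg

/-- Elementary symmetric sums. -/
lemma esymm_le (P : Finset ℕ) : ∀ i : ℕ,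
    ∑ E ∈ powersetCard i P, ∏ l ∈ E, (l : ℝ) ≤ (∑ l ∈ P, (l : ℝ)) ^ i := by
  classical
  induction P using Finset.induction_on with
  | empty =>
    intro i
    rcases i with _ | i
    · simp
    · simp [Finset.powersetCard_eq_empty.2]
  | insert p P hp ih =>
    intro i
    rcases i with _ | i
    · simp
    · rw [Finset.powersetCard_succ_insert hp, Finset.sum_union, Finset.sum_image,
        Finset.sum_insert hp]
      · have h1 : ∑ E ∈ powersetCard i P, ∏ l ∈ insert p E, (l : ℝ) =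
            p * ∑ E ∈ powersetCard i P, ∏ l ∈ E, (l : ℝ) := by
          rw [Finset.mul_sum]
          refine Finset.sum_congr rfl fun E hE => ?_
          rw [Finset.prod_insert]
          intro h
          exact hp ((Finset.mem_powersetCard.1 hE).1 h)
        rw [h1]
        have h2 := ih i
        have h3 := ih (i + 1)
        have hs : (0 : ℝ) ≤ ∑ l ∈ P, (l : ℝ) := Finset.sum_nonneg fun l _ => Nat.cast_nonneg l
        have hp0 : (0 : ℝ) ≤ p := Nat.cast_nonneg p
        calc _ ≤ (∑ l ∈ P, (l : ℝ)) ^ (i + 1) + p * (∑ l ∈ P, (l : ℝ)) ^ i :=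
              add_le_add h3 (mul_le_mul_of_nonneg_left h2 hp0)
          _ = (p + ∑ l ∈ P, (l : ℝ)) * (∑ l ∈ P, (l : ℝ)) ^ i := by ring
          _ ≤ (p + ∑ l ∈ P, (l : ℝ)) * (p + ∑ l ∈ P, (l : ℝ)) ^ i := by
              refine mul_le_mul_of_nonneg_left ?_ (add_nonneg hp0 hs)
              exact pow_le_pow_left₀ hs (le_add_of_nonneg_left hp0) i
          _ = _ := by ring
      · intro E hE E' hE' h
        have h1 : p ∉ E := fun h => hp ((Finset.mem_powersetCard.1 hE).1 h)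
        have h2 : p ∉ E' := fun h => hp ((Finset.mem_powersetCard.1 hE').1 h)
        rw [← Finset.erase_insert h1, ← Finset.erase_insert h2]
        rw [h]
      · rw [Finset.disjoint_left]
        intro E hE hE'
        obtain ⟨E'', _, rfl⟩ := Finset.mem_image.1 hE'
        exact hp ((Finset.mem_powersetCard.1 hE).1 (mem_insert_self _ _))

lemma sum_esymm_le (P : Finset ℕ) (r : ℕ) :
    ∑ i ∈ range (r + 1), ∑ E ∈ powersetCard i P, ∏ l ∈ E, (l : ℝ) ≤
      (1 + ∑ l ∈ P, (l : ℝ)) ^ r := by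
  have hs : (0 : ℝ) ≤ ∑ l ∈ P, (l : ℝ) := Finset.sum_nonneg fun l _ => Nat.cast_nonneg l
  rw [add_comm (1 : ℝ), add_pow]
  refine Finset.sum_le_sum fun i hi => ?_
  refine (esymm_le P i).trans ?_
  rw [one_pow, mul_one]
  refine le_mul_of_one_le_right (pow_nonneg hs i) ?_
  have : 0 < r.choose i := Nat.choose_pos (by
    have := mem_range.1 hi
    omega)
  exact_mod_cast this

open Classical in
/-- A function of a block. -/
lemma lev_FF {S : Finset ℕ} (P : Finset ℕ) (hP : P ⊆ S) (b m : ℕ) (A : Finset ℕ) :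
    Lev S ((1 + ∑ l ∈ P, (l : ℝ)) ^ (2 * b)) (fun c => FF b (om P m A c)) := by
  have h1 : ∀ c, FF b (om P m A c) = ∑ i ∈ range (2 * b + 1), (-1 : ℝ) ^ i *
      ∑ E ∈ powersetCard i P, ∏ l ∈ E, (if ∃ k ∈ A, l ∣ c + k * m then (1 : ℝ) else 0) := by
    intro c
    unfold FF om
    refine Finset.sum_congr rfl fun i _ => ?_
    congr 1
    rw [← Finset.card_powersetCard, Finset.card_eq_sum_ones, Nat.cast_sum]
    have h2 : powersetCard i (P.filter (fun l => ∃ k ∈ A, l ∣ c + k * m)) =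
        (powersetCard i P).filter (fun E => ∀ l ∈ E, ∃ k ∈ A, l ∣ c + k * m) := by
      ext E
      simp only [mem_powersetCard, mem_filter, subset_iff]
      constructor
      · rintro ⟨h1, h2⟩
        exact ⟨⟨fun x hx => (h1 hx).1, h2⟩, fun x hx => (h1 hx).2⟩
      · rintro ⟨⟨h1, h2⟩, h3⟩
        exact ⟨fun x hx => ⟨h1 hx, h3 x hx⟩, h2⟩
    rw [h2, Finset.sum_filter]
    refine Finset.sum_congr rfl fun E _ => ?_
    rw [Finset.prod_ite_zero]
    simp
  have h3 : (fun c => FF b (om P m A c)) = fun c => ∑ i ∈ range (2 * b + 1), (-1 : ℝ) ^ i *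
      ∑ E ∈ powersetCard i P, ∏ l ∈ E, (if ∃ k ∈ A, l ∣ c + k * m then (1 : ℝ) else 0) :=
    funext h1
  rw [h3]
  refine Lev.mono ?_ (sum_esymm_le P (2 * b))
  refine Lev.sum _ fun i _ => Lev.sign (Lev.sum _ fun E hE => ?_) i
  refine Lev.base E (fun l c => if ∃ k ∈ A, l ∣ c + k * m then (1 : ℝ) else 0)
    ((Finset.mem_powersetCard.1 hE).1.trans hP) ?_ ?_
  · intro l _ c
    have h4 : ∀ k, (l ∣ c + l + k * m ↔ l ∣ c + k * m) := by
      intro k
      have : c + l + k * m = (c + k * m) + l := by ring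
      rw [this]
      exact Nat.dvd_add_self_right
    simp only [h4]
  · intro l _ c
    split_ifs <;> simp

/-- The average of a function of level `Λ`. -/
lemma main {S : Finset ℕ} {m W b₀ M₀ : ℕ} {T : Finset ℕ} {F : ℕ → ℕ → ℝ} (hm : 1 ≤ m)
    (hW : 1 ≤ W) (hWm : W.Coprime m) (hST : ∀ l ∈ S ∪ T, l.Prime ∧ ¬ l ∣ m ∧ ¬ l ∣ W)
    (hdis : Disjoint S T) (hF : ∀ l ∈ T, ∀ c, F l (c + l) = F l c)
    (hF1 : ∀ l ∈ T, ∀ c, |F l c| ≤ 1) {a : ℝ} {g : ℕ → ℝ} (h : Lev S a g) :
    |∑ x ∈ (range M₀).filter (fun x => (b₀ + W * x).Coprime m),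
      g (b₀ + W * x) * ∏ l ∈ T, F l (b₀ + W * x) -
    (M₀ : ℝ) * ((m.totient : ℝ) / m) *
      (((∑ c ∈ range (∏ l ∈ S, l), g c) / ((∏ l ∈ S, l : ℕ) : ℝ)) *
        ∏ l ∈ T, ((∑ y ∈ range l, F l y) / l))| ≤
    2 ^ m.primeFactors.card * (a * ∏ l ∈ T, (l : ℝ)) := by
  classical
  have hT0 : (0 : ℝ) ≤ ∏ l ∈ T, (l : ℝ) := Finset.prod_nonneg fun l _ => Nat.cast_nonneg l
  induction h with
  | base E f hE hp hb =>
    have hET : Disjoint E T := hdis.mono_left hE
    set G : ℕ → ℕ → ℝ := fun l c => if l ∈ E then f l c else F l c with hG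
    have hGT : ∀ l ∈ T, G l = F l := by
      intro l hl
      have : l ∉ E := fun h => (Finset.disjoint_left.1 hET) h hl
      funext c
      simp [hG, this]
    have hGE : ∀ l ∈ E, G l = f l := by
      intro l hl
      funext c
      simp [hG, hl]
    have h1 := avg m W b₀ M₀ (E ∪ T) G hm hW hWm
      (fun l hl => hST l (by
        rcases mem_union.1 hl with h | h
        · exact mem_union_left _ (hE h)
        · exact mem_union_right _ h))
      (fun l hl c => by
        rcases mem_union.1 hl with h | h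
        · rw [hGE l h]; exact hp l h c
        · rw [hGT l h]; exact hF l h c)
      (fun l hl c => by
        rcases mem_union.1 hl with h | h
        · rw [hGE l h]; exact hb l h c
        · rw [hGT l h]; exact hF1 l h c)
    have h2 : ∀ c, ∏ l ∈ E ∪ T, G l c = (∏ l ∈ E, f l c) * ∏ l ∈ T, F l c := by
      intro c
      rw [Finset.prod_union hET]
      congr 1
      · exact Finset.prod_congr rfl fun l hl => by rw [hGE l hl]
      · exact Finset.prod_congr rfl fun l hl => by rw [hGT l hl]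
    have h3 : ∏ l ∈ E ∪ T, ((∑ y ∈ range l, G l y) / l) =
        (∏ l ∈ E, ((∑ y ∈ range l, f l y) / l)) * ∏ l ∈ T, ((∑ y ∈ range l, F l y) / l) := by
      rw [Finset.prod_union hET]
      congr 1
      · exact Finset.prod_congr rfl fun l hl => by rw [hGE l hl]
      · exact Finset.prod_congr rfl fun l hl => by rw [hGT l hl]
    have hSp : ∀ l ∈ S, l.Prime := fun l hl => (hST l (mem_union_left _ hl)).1
    have h4 : (∑ c ∈ range (∏ l ∈ S, l), ∏ l ∈ E, f l c) / ((∏ l ∈ S, l : ℕ) : ℝ) =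
        ∏ l ∈ E, ((∑ y ∈ range l, f l y) / l) := by
      set f' : ℕ → ℕ → ℝ := fun l c => if l ∈ E then f l c else 1 with hf'
      have h5 := Avg.full_sum (b := 0) (W := 1) (P := S) (F := f')
        (fun l hl => ⟨hSp l hl, fun h => (hSp l hl).one_lt.ne' (Nat.dvd_one.1 h)⟩)
        (fun l hl c => by
          simp only [hf']
          split_ifs with h
          · exact hp l h c
          · rfl)
      have h6 : ∀ c, ∏ l ∈ S, f' l (0 + 1 * c) = ∏ l ∈ E, f l c := by
        intro c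
        simp only [hf', zero_add, one_mul]
        rw [Finset.prod_ite_mem, Finset.inter_eq_right.2 hE]
      rw [Finset.sum_congr rfl fun c _ => (h6 c).symm, h5, Nat.cast_prod,
        ← Finset.prod_div_distrib]
      rw [← Finset.prod_subset hE]
      · exact Finset.prod_congr rfl fun l hl => by simp [hf', hl]
      · intro l hl hlE
        have : (l : ℝ) ≠ 0 := by exact_mod_cast (hSp l hl).pos.ne'
        simp [hf', hlE, this]
    rw [h4]
    rw [h3] at h1
    have h7 : ∏ l ∈ E ∪ T, (l : ℝ) = (∏ l ∈ E, (l : ℝ)) * ∏ l ∈ T, (l : ℝ) :=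
      Finset.prod_union hET
    rw [h7] at h1
    simp only [h2] at h1
    exact h1
  | zero => simp
  | add hg hh ih1 ih2 =>
    rename_i a b g h
    have h1 : ∀ x, (g x + h x) * ∏ l ∈ T, F l x = g x * ∏ l ∈ T, F l x + h x * ∏ l ∈ T, F l x :=
      fun x => add_mul _ _ _
    simp only [h1, Finset.sum_add_distrib]
    have h2 := (abs_add_le _ _).trans (add_le_add ih1 ih2)
    calc _ = _ := by
          congr 1
          ring
      _ ≤ _ := h2
      _ = _ := by ring
  | neg hg ih =>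
    rename_i a g
    simp only [neg_mul, Finset.sum_neg_distrib]
    rw [← abs_neg] at ih
    calc _ = _ := by
          congr 1
          ring
      _ ≤ _ := ih
  | mono hg hab ih =>
    refine ih.trans ?_
    refine mul_le_mul_of_nonneg_left ?_ (by positivity)
    exact mul_le_mul_of_nonneg_right hab hT0

end EXPd

open EXPd in
theorem expd : StmtEXP := by
  classical
  intro P b N m W b₀ M₀ n A T F hm hW hWm _ hST hdis hF hF1
  have hS1 : ∀ l ∈ SS P N, 1 ≤ l := fun l hl => (hST l (mem_union_left _ hl)).1.one_lt.le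
  have h1 : ∀ i : Fin n, Lev (SS P N) (LV P b N) (fun c => Lm P b N m (A i) c) := by
    intro i
    unfold Lm LV
    refine Lev.prod hS1 _ fun j hj => ?_
    refine lev_FF (P j) ?_ (b j) m (A i)
    intro l hl
    exact Finset.mem_biUnion.2 ⟨j, hj, hl⟩
  have h2 : Lev (SS P N) (LV P b N ^ n) (fun c => ∏ i, Lm P b N m (A i) c) := by
    have h3 := Lev.prod hS1 (univ : Finset (Fin n)) (a := fun _ => LV P b N)
      (g := fun i c => Lm P b N m (A i) c) fun i _ => h1 i
    simpa using h3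
  have h3 := main (M₀ := M₀) (b₀ := b₀) hm hW hWm hST hdis hF hF1 h2
  unfold vv
  exact h3

end Pool.Agent.Lib_helper9.LG
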