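import Pool.Agent.Lib_helper9.LG.StmtsD

set_option autoImplicit false

/-!
The elementary properties of the sieve functions (module `LGD_NN`).
-/

namespace Pool.Agent.Lib_helper9.LG.NNd

open Finset

/-- Truncated alternating sums of binomial coefficients. -/
theorem alt_sum (n k : ℕ) :
    ∑ i ∈ range (k + 1), (-1 : ℝ) ^ i * ((n + 1).choose i : ℝ) = (-1) ^ k * (n.choose k : ℝ) := by
  induction k with
  | zero => simp
  | succ k ih =>
    rw [sum_range_succ, ih, Nat.choose_succ_succ, pow_succ]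
    push_cast
    ring

theorem FF_succ (b n : ℕ) : FF b (n + 1) = (n.choose (2 * b) : ℝ) := by
  unfold FF
  rw [alt_sum, pow_mul]
  norm_num

theorem FF_zero (b : ℕ) : FF b 0 = 1 := by
  unfold FF
  rw [sum_eq_single 0]
  · simp
  · intro i _ hi
    obtain ⟨j, rfl⟩ := Nat.exists_eq_succ_of_ne_zero hi
    simp
  · intro h
    exact absurd (mem_range.2 (Nat.succ_pos _)) h

theorem FF_nonneg (b n : ℕ) : 0 ≤ FF b n := by
  cases n with
  | zero => rw [FF_zero]; norm_num
  | succ n => rw [FF_succ]; positivity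

theorem FF_vanish (b n : ℕ) (h1 : 1 ≤ n) (h2 : n ≤ 2 * b) : FF b n = 0 := by
  cases n with
  | zero => omega
  | succ n =>
    rw [FF_succ, Nat.choose_eq_zero_of_lt (by omega)]
    norm_num

theorem FF_le (b n : ℕ) : FF b n ≤ 2 ^ n := by
  cases n with
  | zero => rw [FF_zero]; norm_num
  | succ n =>
    rw [FF_succ]
    have h1 : n.choose (2 * b) ≤ 2 ^ n := Nat.choose_le_two_pow n (2 * b)
    have h2 : ((n.choose (2 * b) : ℕ) : ℝ) ≤ 2 ^ n := by exact_mod_cast h1
    have h3 : (2 : ℝ) ^ (n + 1) = 2 * 2 ^ n := by ring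
    have h4 : (0 : ℝ) < 2 ^ n := by positivity
    linarith

theorem om_empty (P : Finset ℕ) (m c : ℕ) : om P m ∅ c = 0 := by
  unfold om
  simp

theorem om_insert (P : Finset ℕ) (m k : ℕ) (A : Finset ℕ) (c : ℕ)
    (h : ∀ l ∈ P, ¬ l ∣ c + k * m) : om P m (insert k A) c = om P m A c := by
  classical
  unfold om
  congr 1
  ext l
  simp only [mem_filter]
  constructor
  · rintro ⟨hl, k', hk', hd⟩
    rcases mem_insert.1 hk' with rfl | hk'
    · exact absurd hd (h l hl)
    · exact ⟨hl, k', hk', hd⟩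
  · rintro ⟨hl, k', hk', hd⟩
    exact ⟨hl, k', mem_insert_of_mem hk', hd⟩

/-- NN. -/
theorem nn : StmtNN := by
  refine ⟨FF_nonneg, FF_zero, FF_vanish, FF_le, ?_, ?_, ?_⟩
  · intro P b N m A c
    exact prod_nonneg fun j _ => FF_nonneg _ _
  · intro P b N m c
    unfold Lm
    refine prod_eq_one fun j _ => ?_
    rw [om_empty, FF_zero]
  · intro P b N m k A c h
    unfold Lm
    refine prod_congr rfl fun j hj => ?_
    rw [om_insert]
    intro l hl
    refine h l ?_
    unfold SS
    exact mem_biUnion.2 ⟨j, hj, hl⟩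

end Pool.Agent.Lib_helper9.LG.NNd
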