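import Pool.Agent.Lib_helper9.LG.Stmts

set_option autoImplicit false

/-!
Local second moments.
-/

namespace Pool.Agent.Lib_helper9.LG

open Finset

lemma loc_unique {l : ℕ} (hl : 0 < l) (a : ℕ) :
    ∃ y₀ < l, ∀ y < l, (l ∣ y + a ↔ y = y₀) := by
  refine ⟨(l - a % l) % l, Nat.mod_lt _ hl, fun y hy => ?_⟩
  have h1 : l ∣ (l - a % l) % l + a := by
    have h2 : (l - a % l) % l + a ≡ (l - a % l) + a [MOD l] :=
      (Nat.mod_modEq (l - a % l) l).add_right a
    rw [h2.dvd_iff dvd_rfl]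
    refine ⟨1 + a / l, ?_⟩
    have h3 := Nat.div_add_mod a l
    have h4 := Nat.mod_lt a hl
    have h5 : l * (1 + a / l) = l + l * (a / l) := by ring
    omega
  constructor
  · intro h
    have h2 : y + a ≡ (l - a % l) % l + a [MOD l] :=
      (Nat.modEq_zero_iff_dvd.2 h).trans (Nat.modEq_zero_iff_dvd.2 h1).symm
    exact (Nat.ModEq.add_right_cancel' a h2).eq_of_lt_of_lt hy (Nat.mod_lt _ hl)
  · rintro rfl
    exact h1

lemma loc_sum {l : ℕ} (hl : 0 < l) (a : ℕ) :
    ∑ y ∈ range l, (if l ∣ y + a then (1 : ℝ) else 0) = 1 := by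
  obtain ⟨y₀, h0, h1⟩ := loc_unique hl a
  rw [Finset.sum_eq_single y₀]
  · rw [if_pos ((h1 y₀ h0).2 rfl)]
  · intro y hy hne
    rw [if_neg]
    rw [h1 y (Finset.mem_range.1 hy)]
    exact hne
  · intro h
    exact absurd (Finset.mem_range.2 h0) h

lemma loc_sum_ne {m l k j : ℕ} (hl : l.Prime) (hm : ¬ l ∣ m) (hk : k < l) (hj : j < l)
    (hkj : k ≠ j) :
    ∑ y ∈ range l, (if l ∣ y + k * m then (1 : ℝ) else 0) *
      (if l ∣ y + j * m then (1 : ℝ) else 0) = 0 := by
  apply Finset.sum_eq_zero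
  intro y _
  by_cases h1 : l ∣ y + k * m
  · by_cases h2 : l ∣ y + j * m
    · exfalso
      have h3 : y + k * m ≡ y + j * m [MOD l] :=
        (Nat.modEq_zero_iff_dvd.2 h1).trans (Nat.modEq_zero_iff_dvd.2 h2).symm
      have h4 : k * m ≡ j * m [MOD l] := Nat.ModEq.add_left_cancel' y h3
      have h5 : k ≡ j [MOD l] :=
        Nat.ModEq.cancel_right_of_coprime ((Nat.Prime.coprime_iff_not_dvd hl).2 hm) h4
      exact hkj (h5.eq_of_lt_of_lt hk hj)
    · rw [if_neg h2, mul_zero]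
  · rw [if_neg h1, zero_mul]

lemma xx_eq {m l k c : ℕ} (hl : (1 : ℝ) < l) :
    xx m l k c = 1 / ((l : ℝ) - 1) -
      (l : ℝ) / ((l : ℝ) - 1) * (if l ∣ c + k * m then (1 : ℝ) else 0) := by
  have h : (l : ℝ) - 1 ≠ 0 := by linarith
  unfold xx
  split_ifs
  · field_simp
    ring
  · ring

lemma loc_mean {m l k : ℕ} (hl : 0 < l) (hl1 : (1 : ℝ) < l) :
    ∑ y ∈ range l, xx m l k y = 0 := by
  have h : (l : ℝ) - 1 ≠ 0 := by linarith
  rw [Finset.sum_congr rfl fun y _ => xx_eq (m := m) (k := k) (c := y) hl1,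
    Finset.sum_sub_distrib, ← Finset.mul_sum, loc_sum hl, Finset.sum_const, Finset.card_range,
    nsmul_eq_mul]
  field_simp
  ring

lemma loc_cov {m l k j : ℕ} (hl : 0 < l) (hl1 : (1 : ℝ) < l) {δ : ℝ}
    (hδ : ∑ y ∈ range l, (if l ∣ y + k * m then (1 : ℝ) else 0) *
      (if l ∣ y + j * m then (1 : ℝ) else 0) = δ) :
    ∑ y ∈ range l, xx m l k y * xx m l j y =
      (l : ℝ) / ((l : ℝ) - 1) ^ 2 * (l * δ - 1) := by
  have h : (l : ℝ) - 1 ≠ 0 := by linarith
  have h1 : ∀ y ∈ range l, xx m l k y * xx m l j y =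
      1 / ((l : ℝ) - 1) ^ 2 -
      (l : ℝ) / ((l : ℝ) - 1) ^ 2 * (if l ∣ y + k * m then (1 : ℝ) else 0) -
      (l : ℝ) / ((l : ℝ) - 1) ^ 2 * (if l ∣ y + j * m then (1 : ℝ) else 0) +
      (l : ℝ) ^ 2 / ((l : ℝ) - 1) ^ 2 * ((if l ∣ y + k * m then (1 : ℝ) else 0) *
        (if l ∣ y + j * m then (1 : ℝ) else 0)) := by
    intro y _
    rw [xx_eq hl1, xx_eq hl1]
    field_simp
    ring
  rw [Finset.sum_congr rfl h1, Finset.sum_add_distrib, Finset.sum_sub_distrib,
    Finset.sum_sub_distrib, ← Finset.mul_sum, ← Finset.mul_sum, ← Finset.mul_sum,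
    loc_sum hl, loc_sum hl, hδ, Finset.sum_const, Finset.card_range, nsmul_eq_mul]
  field_simp
  ring

theorem loc : StmtLOC := by
  intro m l S β β' hl hm hS
  have hl0 : 0 < l := hl.pos
  have hl1 : (1 : ℝ) < l := by exact_mod_cast hl.one_lt
  have hl2 : (l : ℝ) ≠ 0 := by linarith
  have h : (l : ℝ) - 1 ≠ 0 := by linarith
  cases β with
  | none =>
    cases β' with
    | none =>
      simp only [Option.elim, gl, mul_one, Finset.sum_const, Finset.card_range, nsmul_eq_mul]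
      exact div_self hl2
    | some k =>
      simp only [Option.elim, gl, one_mul]
      rw [loc_mean hl0 hl1, zero_div]
  | some k =>
    cases β' with
    | none =>
      simp only [Option.elim, gl, mul_one]
      rw [loc_mean hl0 hl1, zero_div]
    | some j =>
      simp only [Option.elim, gl]
      by_cases hkj : k = j
      · subst hkj
        rw [if_pos rfl]
        have h1 : ∑ y ∈ range l, (if l ∣ y + (k : ℕ) * m then (1 : ℝ) else 0) *
            (if l ∣ y + (k : ℕ) * m then (1 : ℝ) else 0) = 1 := by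
          refine Eq.trans ?_ (loc_sum hl0 ((k : ℕ) * m))
          apply Finset.sum_congr rfl
          intro y _
          split_ifs <;> simp
        rw [loc_cov hl0 hl1 h1]
        field_simp
      · rw [if_neg hkj]
        have hne : (k : ℕ) ≠ (j : ℕ) := fun he => hkj (Subtype.ext he)
        rw [loc_cov hl0 hl1 (loc_sum_ne hl hm (hS k k.2) (hS j j.2) hne)]
        field_simp
        ring

end Pool.Agent.Lib_helper9.LG
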