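import Mathlib
import Pool.Agent.Lib_helper9.LG.Stmts

set_option autoImplicit false

/-!
Correlations of configurations over a progression.
-/

namespace Pool.Agent.Lib_helper9.LG

open Finset

noncomputable section

lemma mem_PL {m : ℕ} {X : ℝ} {l : ℕ} (h : l ∈ PL m X) :
    l.Prime ∧ (Real.log X) ^ 4 < (l : ℝ) ∧ ¬ l ∣ m := by
  unfold PL at h
  rw [mem_filter] at h
  exact h.2

lemma xx_periodic (m l k c : ℕ) : xx m l k (c + l) = xx m l k c := by
  unfold xx
  have h : l ∣ c + l + k * m ↔ l ∣ c + k * m := by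
    rw [show c + l + k * m = (c + k * m) + l by ring]
    exact Nat.dvd_add_self_right
  simp only [h]

lemma abs_xx_le (m l k c : ℕ) (hl : l.Prime) : |xx m l k c| ≤ 1 := by
  unfold xx
  have h2 : (2 : ℝ) ≤ l := by exact_mod_cast hl.two_le
  split_ifs
  · simp
  · rw [abs_of_nonneg (by apply div_nonneg <;> linarith)]
    rw [div_le_one (by linarith)]
    linarith

/-- Both factors of a configuration pair at one prime. -/
def pairF (m : ℕ) (X : ℝ) (S : Finset ℕ) (α β : {l // l ∈ PL m X} → Option {k // k ∈ S})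
    (l c : ℕ) : ℝ :=
  if h : l ∈ PL m X then
    ((α ⟨l, h⟩).elim 1 (fun k => xx m l k c)) * ((β ⟨l, h⟩).elim 1 (fun k => xx m l k c))
  else 1

lemma pairF_coe (m : ℕ) (X : ℝ) (S : Finset ℕ) (α β : {l // l ∈ PL m X} → Option {k // k ∈ S})
    (i : {l // l ∈ PL m X}) (c : ℕ) : pairF m X S α β i c =
      ((α i).elim 1 (fun k => xx m i k c)) * ((β i).elim 1 (fun k => xx m i k c)) := by
  unfold pairF
  rw [dif_pos i.2]

theorem herr (h1 : StmtAVG) (h2 : StmtLOC) : StmtHERR := by
  intro m W b N X S α β hm hW hN hWm hWp hS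
  classical
  set D : Finset {l // l ∈ PL m X} := spp α ∪ spp β with hD
  set P : Finset ℕ := D.map (Function.Embedding.subtype _) with hP
  have hPmem : ∀ l ∈ P, l ∈ PL m X := by
    intro l hl
    rw [hP, mem_map] at hl
    obtain ⟨i, _, rfl⟩ := hl
    exact i.2
  have hM : (0 : ℝ) < (N : ℝ) * ((m.totient : ℝ) / m) := by
    have h3 : 0 < m.totient := Nat.totient_pos.2 (by omega)
    have h4 : (0 : ℝ) < m.totient := by exact_mod_cast h3
    have h5 : (0 : ℝ) < m := by exact_mod_cast (by omega : 0 < m)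
    have h6 : (0 : ℝ) < N := by exact_mod_cast (by omega : 0 < N)
    positivity
  have hprodP : ∀ f : ℕ → ℝ, ∏ l ∈ P, f l = ∏ i ∈ D, f i := by
    intro f
    rw [hP, Finset.prod_map]
    rfl
  have hnone : ∀ i : {l // l ∈ PL m X}, i ∉ D → α i = none ∧ β i = none := by
    intro i hi
    rw [hD, mem_union, not_or, mem_spp, mem_spp, not_not, not_not] at hi
    exact hi
  have key := h1 m W b N P (pairF m X S α β) hm hW hWm
    (by
      intro l hl
      obtain ⟨h3, h4, h5⟩ := mem_PL (hPmem l hl)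
      refine ⟨h3, h5, fun h6 => ?_⟩
      exact absurd (hWp l h3 h6) (not_le.2 h4))
    (by
      intro l hl c
      unfold pairF
      rw [dif_pos (hPmem l hl), dif_pos (hPmem l hl)]
      simp only [xx_periodic])
    (by
      intro l hl c
      unfold pairF
      rw [dif_pos (hPmem l hl), abs_mul]
      have hlp := (mem_PL (hPmem l hl)).1
      have h3 : ∀ γ : Option {k // k ∈ S}, |γ.elim 1 (fun k => xx m l k c)| ≤ 1 := by
        intro γ
        cases γ with
        | none => simp
        | some k => exact abs_xx_le m l k c hlp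
      exact mul_le_one₀ (h3 _) (abs_nonneg _) (h3 _))
  -- the product over the primes of `P`
  have hval : ∀ x : ℕ, ∏ l ∈ P, pairF m X S α β l (b + W * x) =
      vl (fun (i : {l // l ∈ PL m X}) (k : {k // k ∈ S}) (x : ℕ) => xx m i k (b + W * x)) α x *
      vl (fun (i : {l // l ∈ PL m X}) (k : {k // k ∈ S}) (x : ℕ) => xx m i k (b + W * x)) β x := by
    intro x
    rw [hprodP, vl, vl, ← Finset.prod_mul_distrib]
    rw [← Finset.prod_subset (subset_univ D)]
    · apply Finset.prod_congr rfl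
      intro i _
      rw [pairF_coe]
    · intro i _ hi
      obtain ⟨h3, h4⟩ := hnone i hi
      rw [h3, h4]
      simp
  have hmean : ∏ l ∈ P, ((∑ y ∈ range l, pairF m X S α β l y) / l) =
      gram (fun i : {l // l ∈ PL m X} => ((i : ℕ) : ℝ) - 1) α β := by
    rw [hprodP, gram]
    rw [← Finset.prod_subset (subset_univ D)]
    · apply Finset.prod_congr rfl
      intro i _
      obtain ⟨h3, h4, h5⟩ := mem_PL i.2
      rw [← h2 m i S (α i) (β i) h3 h5 (by
        intro k hk
        have := (hS k hk).trans_lt h4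
        exact_mod_cast this)]
      congr 1
      apply Finset.sum_congr rfl
      intro y _
      rw [pairF_coe]
    · intro i _ hi
      obtain ⟨h3, h4⟩ := hnone i hi
      rw [h3, h4]
      rfl
  have hexp : ∀ T : Finset {l // l ∈ PL m X},
      Real.exp (sz (fun i : {l // l ∈ PL m X} => Real.log ((i : ℕ) : ℝ)) T) =
        ∏ i ∈ T, ((i : ℕ) : ℝ) := by
    intro T
    rw [sz, Real.exp_sum]
    apply Finset.prod_congr rfl
    intro i _
    have := (mem_PL i.2).1.pos
    rw [Real.exp_log (by exact_mod_cast this)]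
  have hone : ∀ i : {l // l ∈ PL m X}, (1 : ℝ) ≤ ((i : ℕ) : ℝ) := by
    intro i
    exact_mod_cast (mem_PL i.2).1.one_le
  have hDle : ∏ l ∈ P, (l : ℝ) ≤ (∏ i ∈ spp α, ((i : ℕ) : ℝ)) * ∏ i ∈ spp β, ((i : ℕ) : ℝ) := by
    rw [hprodP (fun l => (l : ℝ)), hD,
      ← Finset.prod_union_inter (s₁ := spp α) (s₂ := spp β) (f := fun i => ((i : ℕ) : ℝ))]
    have h3 : (1 : ℝ) ≤ ∏ i ∈ spp α ∩ spp β, ((i : ℕ) : ℝ) :=
      Finset.one_le_prod fun i _ => hone i
    have h4 : (0 : ℝ) ≤ ∏ i ∈ spp α ∪ spp β, ((i : ℕ) : ℝ) :=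
      Finset.prod_nonneg fun i _ => (zero_le_one.trans (hone i))
    nlinarith
  rw [hmean, Finset.sum_congr rfl fun x _ => hval x] at key
  rw [hexp, hexp]
  set Sg := ∑ ω ∈ (range N).filter (fun x => (b + W * x).Coprime m),
      vl (fun (i : {l // l ∈ PL m X}) (k : {k // k ∈ S}) (x : ℕ) => xx m i k (b + W * x)) α ω *
      vl (fun (i : {l // l ∈ PL m X}) (k : {k // k ∈ S}) (x : ℕ) => xx m i k (b + W * x)) β ω
    with hSg
  set M := (N : ℝ) * ((m.totient : ℝ) / m) with hMdef
  set G := gram (fun i : {l // l ∈ PL m X} => ((i : ℕ) : ℝ) - 1) α β with hG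
  have h7 : Sg / M - G = (Sg - M * G) / M := by
    field_simp
  rw [h7, abs_div, abs_of_pos hM, div_mul_eq_mul_div]
  apply div_le_div_of_nonneg_right _ hM.le
  refine key.trans ?_
  exact mul_le_mul_of_nonneg_left hDle (by positivity)

end

end Pool.Agent.Lib_helper9.LG
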