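import Mathlib
import Pool.Agent.Lib_helper9.LG.StmtsD
import Pool.Agent.Lib_helper9.LG.Herr

set_option autoImplicit false

/-!
Correlations of configurations and sieve functions over a progression.
-/

namespace Pool.Agent.Lib_helper9.LG

open Finset

noncomputable section

/-- Both factors of a configuration pair at one prime. -/
def pairQ (m : ℕ) (Q S : Finset ℕ) (α β : {l // l ∈ Q} → Option {k // k ∈ S})
    (l c : ℕ) : ℝ :=
  if h : l ∈ Q then
    ((α ⟨l, h⟩).elim 1 (fun k => xx m l k c)) * ((β ⟨l, h⟩).elim 1 (fun k => xx m l k c))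
  else 1

lemma pairQ_coe (m : ℕ) (Q S : Finset ℕ) (α β : {l // l ∈ Q} → Option {k // k ∈ S})
    (i : {l // l ∈ Q}) (c : ℕ) : pairQ m Q S α β i c =
      ((α i).elim 1 (fun k => xx m i k c)) * ((β i).elim 1 (fun k => xx m i k c)) := by
  unfold pairQ
  rw [dif_pos i.2]

theorem herrD (h1 : StmtEXP) (h2 : StmtLOC) (P : ℕ → Finset ℕ) (b : ℕ → ℕ)
    (N m W b₀ M₀ : ℕ) (Q S : Finset ℕ) (α β : {l // l ∈ Q} → Option {k // k ∈ S})
    (A A' : Finset ℕ) (hm : 1 ≤ m) (hW : 1 ≤ W) (hM₀ : 1 ≤ M₀) (hWm : W.Coprime m)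
    (hd : ∀ i < N, ∀ j < N, i ≠ j → Disjoint (P i) (P j))
    (hS1 : ∀ l ∈ SS P N, l.Prime ∧ ¬ l ∣ m ∧ ¬ l ∣ W)
    (hQ1 : ∀ l ∈ Q, l.Prime ∧ ¬ l ∣ m ∧ ¬ l ∣ W) (hdQ : Disjoint (SS P N) Q)
    (hk : ∀ k ∈ S, ∀ l ∈ Q, k < l) :
    |(∑ ω ∈ (range M₀).filter (fun x => (b₀ + W * x).Coprime m),
      (Lm P b N m A (b₀ + W * ω) *
        vl (fun (i : {l // l ∈ Q}) (k : {k // k ∈ S}) (x : ℕ) => xx m i k (b₀ + W * x)) α ω) *
      (Lm P b N m A' (b₀ + W * ω) *
        vl (fun (i : {l // l ∈ Q}) (k : {k // k ∈ S}) (x : ℕ) => xx m i k (b₀ + W * x)) β ω)) /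
      ((M₀ : ℝ) * ((m.totient : ℝ) / m)) -
    vv P b N m ![A, A'] * gram (fun i : {l // l ∈ Q} => ((i : ℕ) : ℝ) - 1) α β| ≤
    (2 ^ m.primeFactors.card * LV P b N ^ 2 / ((M₀ : ℝ) * ((m.totient : ℝ) / m))) *
      (Real.exp (sz (fun i : {l // l ∈ Q} => Real.log ((i : ℕ) : ℝ)) (spp α)) *
       Real.exp (sz (fun i : {l // l ∈ Q} => Real.log ((i : ℕ) : ℝ)) (spp β))) := by
  classical
  set D : Finset {l // l ∈ Q} := spp α ∪ spp β with hD
  set T : Finset ℕ := D.map (Function.Embedding.subtype _) with hT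
  have hTmem : ∀ l ∈ T, l ∈ Q := by
    intro l hl
    rw [hT, mem_map] at hl
    obtain ⟨i, _, rfl⟩ := hl
    exact i.2
  have hM : (0 : ℝ) < (M₀ : ℝ) * ((m.totient : ℝ) / m) := by
    have h3 : 0 < m.totient := Nat.totient_pos.2 (by omega)
    have h4 : (0 : ℝ) < m.totient := by exact_mod_cast h3
    have h5 : (0 : ℝ) < m := by exact_mod_cast (by omega : 0 < m)
    have h6 : (0 : ℝ) < M₀ := by exact_mod_cast (by omega : 0 < M₀)
    positivity
  have hprodT : ∀ f : ℕ → ℝ, ∏ l ∈ T, f l = ∏ i ∈ D, f i := by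
    intro f
    rw [hT, Finset.prod_map]
    rfl
  have hnone : ∀ i : {l // l ∈ Q}, i ∉ D → α i = none ∧ β i = none := by
    intro i hi
    rw [hD, mem_union, not_or, mem_spp, mem_spp, not_not, not_not] at hi
    exact hi
  have key := h1 P b N m W b₀ M₀ 2 ![A, A'] T (pairQ m Q S α β) hm hW hWm hd
    (by
      intro l hl
      rw [mem_union] at hl
      rcases hl with hl | hl
      · exact hS1 l hl
      · exact hQ1 l (hTmem l hl))
    (hdQ.mono_right fun l hl => hTmem l hl)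
    (by
      intro l hl c
      unfold pairQ
      rw [dif_pos (hTmem l hl), dif_pos (hTmem l hl)]
      simp only [xx_periodic])
    (by
      intro l hl c
      unfold pairQ
      rw [dif_pos (hTmem l hl), abs_mul]
      have hlp := (hQ1 l (hTmem l hl)).1
      have h3 : ∀ γ : Option {k // k ∈ S}, |γ.elim 1 (fun k => xx m l k c)| ≤ 1 := by
        intro γ
        cases γ with
        | none => simp
        | some k => exact abs_xx_le m l k c hlp
      exact mul_le_one₀ (h3 _) (abs_nonneg _) (h3 _))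
  -- the product over the primes of `T`
  have hval : ∀ x : ℕ, (∏ i, Lm P b N m ((![A, A'] : Fin 2 → Finset ℕ) i) (b₀ + W * x)) *
      ∏ l ∈ T, pairQ m Q S α β l (b₀ + W * x) =
      (Lm P b N m A (b₀ + W * x) *
        vl (fun (i : {l // l ∈ Q}) (k : {k // k ∈ S}) (x : ℕ) => xx m i k (b₀ + W * x)) α x) *
      (Lm P b N m A' (b₀ + W * x) *
        vl (fun (i : {l // l ∈ Q}) (k : {k // k ∈ S}) (x : ℕ) => xx m i k (b₀ + W * x)) β x) := by
    intro x
    have h3 : ∏ l ∈ T, pairQ m Q S α β l (b₀ + W * x) =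
        vl (fun (i : {l // l ∈ Q}) (k : {k // k ∈ S}) (x : ℕ) => xx m i k (b₀ + W * x)) α x *
        vl (fun (i : {l // l ∈ Q}) (k : {k // k ∈ S}) (x : ℕ) => xx m i k (b₀ + W * x)) β x := by
      rw [hprodT, vl, vl, ← Finset.prod_mul_distrib]
      rw [← Finset.prod_subset (subset_univ D)]
      · apply Finset.prod_congr rfl
        intro i _
        rw [pairQ_coe]
      · intro i _ hi
        obtain ⟨h3, h4⟩ := hnone i hi
        rw [h3, h4]
        simp
    rw [h3, Fin.prod_univ_two]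
    simp only [Matrix.cons_val_zero, Matrix.cons_val_one]
    ring
  have hmean : ∏ l ∈ T, ((∑ y ∈ range l, pairQ m Q S α β l y) / l) =
      gram (fun i : {l // l ∈ Q} => ((i : ℕ) : ℝ) - 1) α β := by
    rw [hprodT, gram]
    rw [← Finset.prod_subset (subset_univ D)]
    · apply Finset.prod_congr rfl
      intro i _
      obtain ⟨h3, h4, h5⟩ := hQ1 i i.2
      rw [← h2 m i S (α i) (β i) h3 h4 (by
        intro k hk'
        exact hk k hk' i i.2)]
      congr 1
      apply Finset.sum_congr rfl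
      intro y _
      rw [pairQ_coe]
    · intro i _ hi
      obtain ⟨h3, h4⟩ := hnone i hi
      rw [h3, h4]
      rfl
  have hexp : ∀ U : Finset {l // l ∈ Q},
      Real.exp (sz (fun i : {l // l ∈ Q} => Real.log ((i : ℕ) : ℝ)) U) =
        ∏ i ∈ U, ((i : ℕ) : ℝ) := by
    intro U
    rw [sz, Real.exp_sum]
    apply Finset.prod_congr rfl
    intro i _
    have := (hQ1 i i.2).1.pos
    rw [Real.exp_log (by exact_mod_cast this)]
  have hone : ∀ i : {l // l ∈ Q}, (1 : ℝ) ≤ ((i : ℕ) : ℝ) := by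
    intro i
    exact_mod_cast (hQ1 i i.2).1.one_le
  have hDle : ∏ l ∈ T, (l : ℝ) ≤ (∏ i ∈ spp α, ((i : ℕ) : ℝ)) * ∏ i ∈ spp β, ((i : ℕ) : ℝ) := by
    rw [hprodT (fun l => (l : ℝ)), hD,
      ← Finset.prod_union_inter (s₁ := spp α) (s₂ := spp β) (f := fun i => ((i : ℕ) : ℝ))]
    have h3 : (1 : ℝ) ≤ ∏ i ∈ spp α ∩ spp β, ((i : ℕ) : ℝ) :=
      Finset.one_le_prod fun i _ => hone i
    have h4 : (0 : ℝ) ≤ ∏ i ∈ spp α ∪ spp β, ((i : ℕ) : ℝ) :=
      Finset.prod_nonneg fun i _ => (zero_le_one.trans (hone i))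
    nlinarith
  rw [hmean, Finset.sum_congr rfl fun x _ => hval x] at key
  rw [hexp, hexp]
  have hLV : 0 ≤ LV P b N := by
    unfold LV
    apply Finset.prod_nonneg
    intro j _
    have : 0 ≤ ∑ l ∈ P j, (l : ℝ) := Finset.sum_nonneg fun l _ => Nat.cast_nonneg l
    positivity
  have h7 : ∀ Sg M G : ℝ, 0 < M → Sg / M - G = (Sg - M * G) / M := by
    intro Sg M G hM
    field_simp
  rw [h7 _ _ _ hM, abs_div, abs_of_pos hM, div_mul_eq_mul_div]
  apply div_le_div_of_nonneg_right _ hM.le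
  refine key.trans ?_
  rw [mul_assoc]
  apply mul_le_mul_of_nonneg_left _ (by positivity)
  exact mul_le_mul_of_nonneg_left hDle (by positivity)

end

end Pool.Agent.Lib_helper9.LG
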