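import Mathlib
import Pool.Agent.Lib_helper9.LG.StmtsD
import Pool.Agent.Lib_helper9.LG.HerrD

set_option autoImplicit false
set_option linter.unusedSectionVars false
set_option linter.unusedSimpArgs false

/-!
Assembly of the positive proportion engine, first part.
-/

namespace Pool.Agent.Lib_helper9.LG

open Finset

noncomputable section

/-- Pointwise bound of `GD`. -/
def StmtGB : Prop := ∀ (Q S : Finset ℕ) (lam : {l // l ∈ Q} → ℝ) (a B B1 : ℝ)
  (x : {l // l ∈ Q} → {k // k ∈ S} → ℕ → ℝ) (Lam : Finset {k // k ∈ S} → ℕ → ℝ) (J ω : ℕ)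
  (G0 : ℝ), (∀ i, 0 < lam i) → 0 ≤ a → (∀ i, a ≤ lam i) →
  (∀ α : {l // l ∈ Q} → Option {k // k ∈ S}, sz lam (spp α) ≤ B → (act α).card ≤ J) →
  (∀ A, 0 ≤ Lam A ω) → 1 ≤ G0 → (∀ k, ∏ i, (1 + |x i k ω|) ≤ G0) →
  |GD lam a B B1 x Lam ω| ≤ G0 ^ J *
    ∑ A ∈ (univ : Finset (Finset {k // k ∈ S})).filter (fun A => A.card ≤ J), Lam A ω

lemma VS_nonneg {S : Finset ℕ} {j : ℕ} (h : ∀ l ∈ S, j ≤ l) : 0 ≤ VS S j := by
  unfold VS
  apply Finset.prod_nonneg
  intro l hl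
  have h1 := h l hl
  rcases Nat.eq_zero_or_pos l with h2 | h2
  · subst h2
    simp
  · have h3 : (j : ℝ) / l ≤ 1 := by
      rw [div_le_one (by exact_mod_cast h2)]
      exact_mod_cast h1
    linarith

lemma VS_le_one {S : Finset ℕ} {j : ℕ} (h : ∀ l ∈ S, j ≤ l) : VS S j ≤ 1 := by
  unfold VS
  apply Finset.prod_le_one
  · intro l hl
    have h1 := h l hl
    rcases Nat.eq_zero_or_pos l with h2 | h2
    · subst h2
      simp
    · have h3 : (j : ℝ) / l ≤ 1 := by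
        rw [div_le_one (by exact_mod_cast h2)]
        exact_mod_cast h1
      linarith
  · intro l _
    have : 0 ≤ (j : ℝ) / l := by positivity
    linarith

lemma VS_succ {S : Finset ℕ} {j : ℕ} (h : ∀ l ∈ S, j + 1 ≤ l) :
    VS S (j + 1) ≤ VS S 1 * VS S j := by
  unfold VS
  rw [← Finset.prod_mul_distrib]
  apply Finset.prod_le_prod
  · intro l hl
    have h1 := h l hl
    have h2 : (0 : ℝ) < l := by exact_mod_cast (by omega : 0 < l)
    have h3 : ((j + 1 : ℕ) : ℝ) / l ≤ 1 := by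
      rw [div_le_one h2]
      exact_mod_cast h1
    linarith
  · intro l hl
    have h1 := h l hl
    have h2 : (0 : ℝ) < l := by exact_mod_cast (by omega : 0 < l)
    have h3 : (1 - ((1 : ℕ) : ℝ) / l) * (1 - (j : ℝ) / l) - (1 - ((j + 1 : ℕ) : ℝ) / l) =
        j / (l : ℝ) ^ 2 := by
      push_cast
      field_simp
      ring
    have h4 : 0 ≤ (j : ℝ) / (l : ℝ) ^ 2 := by positivity
    linarith

lemma sum_subsets (S : Finset ℕ) (J : ℕ) (f : Finset ℕ → ℝ) :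
    ∑ A ∈ (univ : Finset (Finset {k // k ∈ S})).filter (fun A => A.card ≤ J),
      f (A.map (Function.Embedding.subtype _)) =
    ∑ A ∈ S.powerset.filter (fun A => A.card ≤ J), f A := by
  classical
  apply Finset.sum_bij (fun A _ => A.map (Function.Embedding.subtype _))
  · intro A hA
    rw [mem_filter] at hA ⊢
    rw [mem_powerset, card_map]
    refine ⟨?_, hA.2⟩
    intro k hk
    rw [mem_map] at hk
    obtain ⟨i, _, rfl⟩ := hk
    exact i.2
  · intro A _ A' _ h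
    exact map_injective _ h
  · intro A hA
    rw [mem_filter, mem_powerset] at hA
    refine ⟨A.subtype (fun k => k ∈ S), ?_, ?_⟩
    · rw [mem_filter]
      refine ⟨mem_univ _, ?_⟩
      have h1 := subtype_map_of_mem (s := A) (p := fun k => k ∈ S) (fun k hk => hA.1 hk)
      rw [← card_map (Function.Embedding.subtype fun k => k ∈ S), h1]
      exact hA.2
    · exact subtype_map_of_mem (s := A) (p := fun k => k ∈ S) (fun k hk => hA.1 hk)
  · intro A _
    rfl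

/-- Cauchy-Schwarz: a large second moment and a small fourth moment give a large set. -/
lemma card_of_moments {Ω good : Finset ℕ} (hg : good ⊆ Ω) (G Λ : ℕ → ℝ) {M C D : ℝ} (hM : 0 < M)
    (hC : 0 ≤ C) (hD : 0 < C ^ 4 * D) (h1 : 1 / 2 ≤ (∑ ω ∈ good, G ω ^ 2) / M)
    (h2 : ∀ ω ∈ Ω, |G ω| ≤ C * Λ ω) (h3 : (∑ ω ∈ Ω, Λ ω ^ 4) / M ≤ D) :
    M / (4 * (C ^ 4 * D)) ≤ (good.card : ℝ) := by
  have h4 : (∑ ω ∈ good, G ω ^ 2) ^ 2 ≤ good.card * ∑ ω ∈ good, (G ω ^ 2) ^ 2 :=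
    sq_sum_le_card_mul_sum_sq
  have h5 : ∑ ω ∈ good, (G ω ^ 2) ^ 2 ≤ C ^ 4 * ∑ ω ∈ Ω, Λ ω ^ 4 := by
    rw [Finset.mul_sum]
    calc ∑ ω ∈ good, (G ω ^ 2) ^ 2 ≤ ∑ ω ∈ Ω, (G ω ^ 2) ^ 2 :=
          Finset.sum_le_sum_of_subset_of_nonneg hg fun _ _ _ => by positivity
      _ ≤ _ := by
          apply Finset.sum_le_sum
          intro ω hω
          have h6 := h2 ω hω
          have h7 : (G ω ^ 2) ^ 2 = |G ω| ^ 4 := by
            rw [← pow_mul]
            exact (Even.pow_abs (by decide) _).symm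
          rw [h7, ← mul_pow]
          exact pow_le_pow_left₀ (abs_nonneg _) h6 4
  have h6 : ∑ ω ∈ Ω, Λ ω ^ 4 ≤ D * M := (div_le_iff₀ hM).1 h3
  have h7 : 1 / 2 * M ≤ ∑ ω ∈ good, G ω ^ 2 := (le_div_iff₀ hM).1 h1
  have h8 : (1 / 2 * M) ^ 2 ≤ (∑ ω ∈ good, G ω ^ 2) ^ 2 :=
    pow_le_pow_left₀ (by positivity) h7 2
  have h9 : (good.card : ℝ) * ∑ ω ∈ good, (G ω ^ 2) ^ 2 ≤ good.card * (C ^ 4 * (D * M)) := by
    apply mul_le_mul_of_nonneg_left _ (Nat.cast_nonneg _)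
    refine h5.trans ?_
    exact mul_le_mul_of_nonneg_left h6 (by positivity)
  have h10 : (1 / 2 * M) ^ 2 ≤ good.card * (C ^ 4 * (D * M)) := h8.trans (h4.trans h9)
  rw [div_le_iff₀ (by positivity)]
  have h11 : M * M ≤ (good.card * (4 * (C ^ 4 * D))) * M := by nlinarith
  exact le_of_mul_le_mul_right h11 hM

end

end Pool.Agent.Lib_helper9.LG
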