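import Pool.Agent.Lib_helper9.LG.StmtsD

set_option autoImplicit false

/-!
A pointwise bound for the sum `G`.
-/

namespace Pool.Agent.Lib_helper9.LG

open Finset

noncomputable section

namespace GBd

variable {ι κ σ : Type*} [Fintype ι] [DecidableEq ι] [Fintype κ] [DecidableEq κ]

lemma one_add_sum_le (A : Finset κ) (f : κ → ℝ) (hf : ∀ k, 0 ≤ f k) :
    1 + ∑ k ∈ A, f k ≤ ∏ k ∈ A, (1 + f k) := by
  induction A using Finset.induction_on with
  | empty => simp
  | insert k A hk ih =>
    rw [Finset.sum_insert hk, Finset.prod_insert hk]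
    have h1 : 1 ≤ ∏ k ∈ A, (1 + f k) := by
      have h0 : 0 ≤ ∑ k ∈ A, f k := Finset.sum_nonneg fun k _ => hf k
      linarith
    nlinarith [hf k, mul_le_mul_of_nonneg_left h1 (hf k)]

lemma mem_of_act {α : ι → Option κ} {A : Finset κ} (h : act α = A) (i : ι) :
    α i ∈ insert none (A.image some) := by
  cases hα : α i with
  | none => exact mem_insert_self _ _
  | some k =>
    apply mem_insert_of_mem
    apply mem_image_of_mem
    rw [← h, mem_act]
    intro h0
    have : i ∈ blk α k := mem_blk.2 hα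
    rw [h0] at this
    simp at this

lemma sum_vl_le (x : ι → κ → σ → ℝ) (ω : σ) (A : Finset κ) {G0 : ℝ}
    (hG : ∀ k, ∏ i, (1 + |x i k ω|) ≤ G0) :
    ∑ α ∈ univ.filter (fun α : ι → Option κ => act α = A), |vl x α ω| ≤ G0 ^ A.card := by
  have h1 : ∑ α ∈ univ.filter (fun α : ι → Option κ => act α = A), |vl x α ω| ≤
      ∑ α ∈ Fintype.piFinset (fun _ : ι => insert none (A.image some)),
        ∏ i, |(α i).elim 1 (fun k => x i k ω)| := by
    have h2 : ∀ α : ι → Option κ, |vl x α ω| = ∏ i, |(α i).elim 1 (fun k => x i k ω)| := by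
      intro α
      unfold vl
      rw [Finset.abs_prod]
    simp only [h2]
    apply Finset.sum_le_sum_of_subset_of_nonneg
    · intro α hα
      rw [Fintype.mem_piFinset]
      exact mem_of_act (mem_filter.1 hα).2
    · intro α _ _
      exact Finset.prod_nonneg fun i _ => abs_nonneg _
  refine h1.trans ?_
  rw [← Finset.prod_univ_sum (fun _ : ι => insert none (A.image some))
    (fun i o => |o.elim 1 (fun k => x i k ω)|)]
  have h3 : ∀ i : ι, ∑ o ∈ insert none (A.image some), |o.elim 1 (fun k => x i k ω)| =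
      1 + ∑ k ∈ A, |x i k ω| := by
    intro i
    rw [Finset.sum_insert (by simp), Finset.sum_image (by simp)]
    simp
  simp only [h3]
  calc ∏ i, (1 + ∑ k ∈ A, |x i k ω|) ≤ ∏ i, ∏ k ∈ A, (1 + |x i k ω|) := by
        apply Finset.prod_le_prod
        · intro i _
          have : 0 ≤ ∑ k ∈ A, |x i k ω| := Finset.sum_nonneg fun k _ => abs_nonneg _
          linarith
        · intro i _
          exact one_add_sum_le A _ fun k => abs_nonneg _
    _ = ∏ k ∈ A, ∏ i, (1 + |x i k ω|) := Finset.prod_comm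
    _ ≤ ∏ _k ∈ A, G0 := by
        apply Finset.prod_le_prod
        · intro k _
          apply Finset.prod_nonneg
          intro i _
          have := abs_nonneg (x i k ω)
          linarith
        · intro k _
          exact hG k
    _ = G0 ^ A.card := by rw [Finset.prod_const]

end GBd

open GBd in
theorem gb {ι κ σ : Type*} [Fintype ι] [DecidableEq ι] [Fintype κ] [DecidableEq κ]
    {lam : ι → ℝ} (hl : ∀ i, 0 < lam i) {a B B1 : ℝ} (ha : 0 ≤ a) (hal : ∀ i, a ≤ lam i)
    (x : ι → κ → σ → ℝ) (Lam : Finset κ → σ → ℝ) {J : ℕ}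
    (hJ : ∀ α : ι → Option κ, sz lam (spp α) ≤ B → (act α).card ≤ J) (ω : σ)
    (hLam : ∀ A, 0 ≤ Lam A ω) {G0 : ℝ} (hG1 : 1 ≤ G0) (hG : ∀ k, ∏ i, (1 + |x i k ω|) ≤ G0) :
    |GD lam a B B1 x Lam ω| ≤
      G0 ^ J * ∑ A ∈ (univ : Finset (Finset κ)).filter (fun A => A.card ≤ J), Lam A ω := by
  have h1 : |GD lam a B B1 x Lam ω| ≤
      ∑ α : ι → Option κ, if (act α).card ≤ J then Lam (act α) ω * |vl x α ω| else 0 := by
    unfold GD
    refine (Finset.abs_sum_le_sum_abs _ _).trans (Finset.sum_le_sum fun α _ => ?_)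
    rw [abs_mul, abs_mul, abs_of_nonneg (hLam _)]
    have h0 : 0 ≤ Lam (act α) ω * |vl x α ω| := mul_nonneg (hLam _) (abs_nonneg _)
    by_cases hB : sz lam (spp α) ≤ B
    · rw [if_pos (hJ α hB)]
      calc |yy lam a B B1 α| * (Lam (act α) ω * |vl x α ω|) ≤
            1 * (Lam (act α) ω * |vl x α ω|) :=
              mul_le_mul_of_nonneg_right (abs_yy_le hl ha hal α) h0
        _ = _ := one_mul _
    · have h2 : yy lam a B B1 α = 0 := by
        unfold yy wt
        rw [if_neg hB]
      rw [h2, abs_zero, zero_mul]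
      split_ifs
      · exact h0
      · exact le_refl _
  refine h1.trans ?_
  have h2 : (∑ α : ι → Option κ, if (act α).card ≤ J then Lam (act α) ω * |vl x α ω| else 0) =
      ∑ A ∈ (univ : Finset (Finset κ)).filter (fun A => A.card ≤ J),
        ∑ α ∈ univ.filter (fun α : ι → Option κ => act α = A), Lam A ω * |vl x α ω| := by
    rw [← Finset.sum_filter]
    rw [← Finset.sum_fiberwise_of_maps_to (s := univ.filter fun α : ι → Option κ =>
      (act α).card ≤ J) (t := (univ : Finset (Finset κ)).filter (fun A => A.card ≤ J))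
      (g := fun α => act α) (fun α hα => by simpa using hα)]
    refine Finset.sum_congr rfl fun A hA => ?_
    rw [Finset.filter_filter]
    refine Finset.sum_congr ?_ ?_
    · ext α
      simp only [mem_filter, mem_univ, true_and]
      constructor
      · exact fun h => h.2
      · rintro rfl
        exact ⟨(mem_filter.1 hA).2, rfl⟩
    · intro α hα
      rw [(mem_filter.1 hα).2]
  rw [h2, Finset.mul_sum]
  refine Finset.sum_le_sum fun A hA => ?_
  rw [← Finset.mul_sum, mul_comm (G0 ^ J)]
  apply mul_le_mul_of_nonneg_left _ (hLam A)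
  exact (sum_vl_le x ω A hG).trans (pow_le_pow_right₀ hG1 (mem_filter.1 hA).2)

end

end Pool.Agent.Lib_helper9.LG
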