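import Pool.Agent.Lib_helper9.LG.StmtsD

set_option autoImplicit false

/-!
MOM: the fourth moment of the sum of the sieve functions.
-/

namespace Pool.Agent.Lib_helper9.LG.MOMd

open Finset Pool.Agent.Lib_helper9.LG

/-- The number of subsets with at most `J` elements. -/
theorem card_small (S : Finset ℕ) (J : ℕ) :
    (S.powerset.filter (fun A => A.card ≤ J)).card ≤ (S.card + 1) ^ J := by
  have h1 : S.powerset.filter (fun A => A.card ≤ J) ⊆
      (range (J + 1)).biUnion (fun i => S.powersetCard i) := by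
    intro A hA
    rw [mem_filter, mem_powerset] at hA
    rw [mem_biUnion]
    exact ⟨A.card, mem_range.2 (by omega), mem_powersetCard.2 ⟨hA.1, rfl⟩⟩
  refine (card_le_card h1).trans (card_biUnion_le.trans ?_)
  rw [add_pow]
  refine sum_le_sum fun i hi => ?_
  rw [card_powersetCard, one_pow, mul_one]
  have hi2 : i ≤ J := by
    have := mem_range.1 hi
    omega
  have h2 : S.card.choose i ≤ S.card ^ i := Nat.choose_le_pow _ _
  have h3 : 0 < J.choose i := Nat.choose_pos hi2
  exact h2.trans (Nat.le_mul_of_pos_right _ h3)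

/-- Bernoulli for the densities. -/
theorem VS_le (S : Finset ℕ) (j : ℕ) (h : ∀ l ∈ S, 0 < l ∧ j ≤ l) : VS S j ≤ VS S 1 ^ j := by
  unfold VS
  rw [← prod_pow]
  refine prod_le_prod (fun l hl => ?_) (fun l hl => ?_)
  · obtain ⟨h1, h2⟩ := h l hl
    have h3 : (0 : ℝ) < l := by exact_mod_cast h1
    have h4 : (j : ℝ) ≤ l := by exact_mod_cast h2
    rw [sub_nonneg, div_le_one h3]
    exact h4
  · obtain ⟨h1, h2⟩ := h l hl
    have h3 : (1 : ℝ) ≤ l := by exact_mod_cast h1
    have h4 : (1 : ℝ) / l ≤ 1 := by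
      rw [div_le_one (by linarith)]
      exact h3
    have h5 := one_add_mul_le_pow (a := -(1 / (l : ℝ))) (by linarith) j
    have e1 : 1 - (j : ℝ) / l = 1 + (j : ℝ) * -(1 / (l : ℝ)) := by ring
    have e2 : 1 - ((1 : ℕ) : ℝ) / l = 1 + -(1 / (l : ℝ)) := by
      rw [Nat.cast_one]
      ring
    rw [e1, e2]
    exact h5

theorem VS_nonneg (S : Finset ℕ) (h : ∀ l ∈ S, 0 < l) : 0 ≤ VS S 1 := by
  unfold VS
  refine prod_nonneg fun l hl => ?_
  have h1 : (1 : ℝ) ≤ l := by exact_mod_cast h l hl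
  have h4 : (1 : ℝ) / l ≤ 1 := by
    rw [div_le_one (by linarith)]
    exact h1
  rw [Nat.cast_one]
  linarith

/-- The weight of a set of indices. -/
noncomputable def wt (x : ℝ) (E : Finset (Fin 4)) : ℝ := if E = ∅ then 1 else x

theorem wt_sum (x : ℝ) : ∑ E : Finset (Fin 4), wt x E = 1 + 15 * x := by
  have h1 : ∑ E : Finset (Fin 4), wt x E =
      ∑ E : Finset (Fin 4), (x + if E = ∅ then (1 - x) else 0) := by
    refine sum_congr rfl fun E _ => ?_
    unfold wt
    split_ifs <;> ring
  rw [h1, sum_add_distrib, sum_const, sum_ite_eq' univ (∅ : Finset (Fin 4)) (fun _ => 1 - x)]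
  have h2 : (univ : Finset (Finset (Fin 4))).card = 16 := by
    rw [card_univ, Fintype.card_finset, Fintype.card_fin]
    norm_num
  rw [h2, if_pos (mem_univ _), nsmul_eq_mul]
  push_cast
  ring

/-- The sum over quadruples of subsets. -/
theorem quad_sum (S : Finset ℕ) (x : ℝ) (hx : 0 ≤ x) :
    ∑ g ∈ Fintype.piFinset (fun _ : Fin 4 => S.powerset), x ^ (univ.biUnion g).card ≤
      (1 + 15 * x) ^ S.card := by
  have h1 : (1 + 15 * x) ^ S.card =
      ∑ p ∈ S.pi (fun _ => (univ : Finset (Finset (Fin 4)))), ∏ k ∈ S.attach, wt x (p k.1 k.2) := by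
    have h2 := prod_sum S (fun _ => (univ : Finset (Finset (Fin 4)))) (fun _ E => wt x E)
    rw [← h2, prod_const, wt_sum]
  rw [h1]
  have hw : ∀ E, 0 ≤ wt x E := by
    intro E
    unfold wt
    split_ifs
    · exact zero_le_one
    · exact hx
  have key : ∀ g ∈ Fintype.piFinset (fun _ : Fin 4 => S.powerset),
      x ^ (univ.biUnion g).card =
        ∏ k ∈ S.attach, wt x ((fun (k : ℕ) (_ : k ∈ S) => univ.filter (fun i => k ∈ g i)) k.1 k.2)
      := by
    intro g hg
    rw [Fintype.mem_piFinset] at hg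
    have e1 : ∀ k ∈ S.attach,
        wt x ((fun (k : ℕ) (_ : k ∈ S) => univ.filter (fun i => k ∈ g i)) k.1 k.2) =
        (fun k : ℕ => if k ∈ univ.biUnion g then x else 1) k.1 := by
      intro k _
      unfold wt
      by_cases hk : k.1 ∈ univ.biUnion g
      · have h2 : ¬ (univ.filter (fun i => k.1 ∈ g i)) = ∅ := by
          rw [mem_biUnion] at hk
          obtain ⟨i, _, hi⟩ := hk
          intro h3
          have h4 : i ∈ univ.filter (fun i => k.1 ∈ g i) := mem_filter.2 ⟨mem_univ _, hi⟩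
          rw [h3] at h4
          exact absurd h4 (notMem_empty _)
        simp only [if_neg h2, if_pos hk]
      · have h2 : (univ.filter (fun i => k.1 ∈ g i)) = ∅ := by
          rw [filter_eq_empty_iff]
          intro i _ hi
          exact hk (mem_biUnion.2 ⟨i, mem_univ _, hi⟩)
        simp only [if_pos h2, if_neg hk]
    rw [prod_congr rfl e1, prod_attach S (fun k : ℕ => if k ∈ univ.biUnion g then x else 1),
      prod_ite, prod_const, prod_const_one, mul_one]
    congr 2
    ext k
    rw [mem_filter]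
    constructor
    · intro hk
      refine ⟨?_, hk⟩
      rw [mem_biUnion] at hk
      obtain ⟨i, _, hi⟩ := hk
      exact mem_powerset.1 (hg i) hi
    · exact fun hk => hk.2
  rw [sum_congr rfl key]
  refine le_trans (le_of_eq ?_) (sum_le_sum_of_subset_of_nonneg
    (s := (Fintype.piFinset (fun _ : Fin 4 => S.powerset)).image
      (fun g => (fun (k : ℕ) (_ : k ∈ S) => univ.filter (fun i => k ∈ g i))))
    (f := fun p => ∏ k ∈ S.attach, wt x (p k.1 k.2)) ?_ ?_)
  · rw [sum_image]
    intro g hg g' hg' he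
    have hg := Fintype.mem_piFinset.1 (mem_coe.1 hg)
    have hg' := Fintype.mem_piFinset.1 (mem_coe.1 hg')
    funext i
    ext k
    by_cases hk : k ∈ S
    · have h2 := congrFun (congrFun he k) hk
      have h3 : i ∈ univ.filter (fun i => k ∈ g i) ↔ i ∈ univ.filter (fun i => k ∈ g' i) := by
        have h4 : univ.filter (fun i => k ∈ g i) = univ.filter (fun i => k ∈ g' i) := h2
        rw [h4]
      simpa using h3
    · constructor
      · intro h
        exact absurd (mem_powerset.1 (hg i) h) hk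
      · intro h
        exact absurd (mem_powerset.1 (hg' i) h) hk
  · intro p _
    rw [mem_pi]
    exact fun _ _ => mem_univ _
  · intro p _ _
    exact prod_nonneg fun k _ => hw _

theorem mom (_h1 : StmtNN) (h2 : StmtVUP) (h3 : StmtEXP) : StmtMOM := by
  intro P b N m W b₀ M₀ J S hm hW hM hWm hdis hpr hS hsum hb
  set 𝒜 := S.powerset.filter (fun A => A.card ≤ J) with h𝒜
  set D : ℝ := (M₀ : ℝ) * ((m.totient : ℝ) / m) with hD
  set E : ℝ := 2 ^ m.primeFactors.card * LV P b N ^ 4 with hE
  have hD0 : 0 < D := by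
    have a1 : (0 : ℝ) < M₀ := by exact_mod_cast hM
    have a2 : (0 : ℝ) < m := by exact_mod_cast hm
    have a3 : (0 : ℝ) < m.totient := by exact_mod_cast Nat.totient_pos.2 hm
    positivity
  have hE0 : 0 ≤ E := by
    have : 0 ≤ LV P b N ^ 4 := by
      have := sq_nonneg (LV P b N ^ 2)
      calc (0 : ℝ) ≤ (LV P b N ^ 2) ^ 2 := this
        _ = LV P b N ^ 4 := by ring
    positivity
  have hexp : ∀ c : ℕ, (∑ A ∈ 𝒜, Lm P b N m A c) ^ 4 =
      ∑ g ∈ Fintype.piFinset (fun _ : Fin 4 => 𝒜), ∏ i, Lm P b N m (g i) c := by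
    intro c
    have := (prod_univ_sum (fun _ : Fin 4 => 𝒜) (fun _ A => Lm P b N m A c)).symm
    rw [this, prod_const]
    simp
  have hl : ∀ l ∈ SS P N, 0 < l := fun l hl => (hpr l hl).1.pos
  have hx0 : 0 ≤ VS (SS P N) 1 := VS_nonneg _ hl
  have hterm : ∀ g ∈ Fintype.piFinset (fun _ : Fin 4 => 𝒜),
      ∑ x ∈ (range M₀).filter (fun x => (b₀ + W * x).Coprime m),
        ∏ i, Lm P b N m (g i) (b₀ + W * x) ≤
      D * (2 * VS (SS P N) 1 ^ (univ.biUnion g).card) + E := by
    intro g hg
    rw [Fintype.mem_piFinset] at hg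
    have hgS : ∀ i, g i ⊆ S := fun i => mem_powerset.1 (mem_filter.1 (hg i)).1
    have hgJ : ∀ i, (g i).card ≤ J := fun i => (mem_filter.1 (hg i)).2
    have hcard : (univ.biUnion g).card ≤ 4 * J := by
      refine card_biUnion_le.trans ?_
      refine (sum_le_sum (fun i _ => hgJ i)).trans ?_
      simp
    have k1 := h3 P b N m W b₀ M₀ 4 g ∅ (fun _ _ => 0) hm hW hWm hdis
      (by
        intro l hl
        rw [union_empty] at hl
        exact ⟨(hpr l hl).1, (hpr l hl).2.1, (hpr l hl).2.2.1⟩)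
      (disjoint_empty_right _) (by intro l hl; exact absurd hl (notMem_empty _))
      (by intro l hl; exact absurd hl (notMem_empty _))
    simp only [prod_empty, mul_one] at k1
    have k2 := h2 P b N m (4 * J) g hdis
      (by
        intro l hl
        refine ⟨(hpr l hl).1, (hpr l hl).2.1, ?_⟩
        have := (hpr l hl).2.2.2
        omega)
      (by
        intro i k hk l hl
        exact hS k (hgS i hk) l hl)
      hcard hsum hb
    have k3 : VS (SS P N) (univ.biUnion g).card ≤ VS (SS P N) 1 ^ (univ.biUnion g).card := by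
      refine VS_le _ _ fun l hl => ⟨(hpr l hl).1.pos, ?_⟩
      have := (hpr l hl).2.2.2
      omega
    have k4 := (abs_le.1 k1).2
    have k5 : D * vv P b N m g ≤ D * (2 * VS (SS P N) 1 ^ (univ.biUnion g).card) :=
      mul_le_mul_of_nonneg_left (by linarith) hD0.le
    have k6 : (M₀ : ℝ) * ((m.totient : ℝ) / m) * (vv P b N m g) = D * vv P b N m g := by rw [hD]
    linarith
  have hcnt : ((Fintype.piFinset (fun _ : Fin 4 => 𝒜)).card : ℝ) ≤ ((S.card : ℝ) + 1) ^ (4 * J) := by
    rw [Fintype.card_piFinset, prod_const]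
    have a1 : 𝒜.card ≤ (S.card + 1) ^ J := card_small S J
    have a2 : 𝒜.card ^ (univ : Finset (Fin 4)).card ≤ ((S.card + 1) ^ J) ^ 4 := by
      rw [card_univ, Fintype.card_fin]
      exact Nat.pow_le_pow_left a1 4
    calc ((𝒜.card ^ (univ : Finset (Fin 4)).card : ℕ) : ℝ) ≤ ((((S.card + 1) ^ J) ^ 4 : ℕ) : ℝ) := by
          exact_mod_cast a2
      _ = ((S.card : ℝ) + 1) ^ (4 * J) := by
          push_cast
          rw [← pow_mul, mul_comm]
  have hquad : ∑ g ∈ Fintype.piFinset (fun _ : Fin 4 => 𝒜),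
      VS (SS P N) 1 ^ (univ.biUnion g).card ≤ Real.exp (15 * (S.card * VS (SS P N) 1)) := by
    have a1 : ∑ g ∈ Fintype.piFinset (fun _ : Fin 4 => 𝒜),
        VS (SS P N) 1 ^ (univ.biUnion g).card ≤
        ∑ g ∈ Fintype.piFinset (fun _ : Fin 4 => S.powerset),
          VS (SS P N) 1 ^ (univ.biUnion g).card := by
      refine sum_le_sum_of_subset_of_nonneg ?_ (fun g _ _ => pow_nonneg hx0 _)
      intro g hg
      rw [Fintype.mem_piFinset] at hg ⊢
      exact fun i => (mem_filter.1 (hg i)).1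
    refine a1.trans ((quad_sum S _ hx0).trans ?_)
    have a2 : 1 + 15 * VS (SS P N) 1 ≤ Real.exp (15 * VS (SS P N) 1) := by
      have := Real.add_one_le_exp (15 * VS (SS P N) 1)
      linarith
    calc (1 + 15 * VS (SS P N) 1) ^ S.card ≤ Real.exp (15 * VS (SS P N) 1) ^ S.card :=
          pow_le_pow_left₀ (by positivity) a2 _
      _ = Real.exp (15 * (S.card * VS (SS P N) 1)) := by
          rw [← Real.exp_nat_mul]
          congr 1
          ring
  have hmain : ∑ x ∈ (range M₀).filter (fun x => (b₀ + W * x).Coprime m),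
      (∑ A ∈ 𝒜, Lm P b N m A (b₀ + W * x)) ^ 4 ≤
      D * (2 * Real.exp (15 * (S.card * VS (SS P N) 1))) +
        ((S.card : ℝ) + 1) ^ (4 * J) * E := by
    rw [sum_congr rfl (fun x _ => hexp (b₀ + W * x)), sum_comm]
    refine (sum_le_sum hterm).trans ?_
    rw [sum_add_distrib, ← mul_sum, ← mul_sum, sum_const, nsmul_eq_mul]
    refine add_le_add ?_ (mul_le_mul_of_nonneg_right hcnt hE0)
    refine mul_le_mul_of_nonneg_left ?_ hD0.le
    exact mul_le_mul_of_nonneg_left hquad (by norm_num)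
  rw [div_le_iff₀ hD0]
  have e : (2 * Real.exp (15 * (S.card * VS (SS P N) 1)) +
      ((S.card : ℝ) + 1) ^ (4 * J) * (E / D)) * D =
      D * (2 * Real.exp (15 * (S.card * VS (SS P N) 1))) +
        ((S.card : ℝ) + 1) ^ (4 * J) * E := by
    rw [add_mul, mul_assoc (((S.card : ℝ) + 1) ^ (4 * J)), div_mul_cancel₀ _ hD0.ne']
    ring
  rw [e]
  exact hmain

end Pool.Agent.Lib_helper9.LG.MOMd
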