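import Mathlib
import Pool.Agent.Lib_helper9.LG.StmtsD
import Pool.Agent.Lib_helper9.LG.Avg

set_option autoImplicit false

/-!
Lower bound for the mean square of a sieve function.
-/

namespace Pool.Agent.Lib_helper9.LG.VLOd

open Finset Pool.Agent.Lib_helper9.LG

noncomputable section

open Classical in
/-- The indicator of no hit at the prime `l`. -/
def ind (m : ℕ) (A : Finset ℕ) (l c : ℕ) : ℝ := if ∃ k ∈ A, l ∣ c + k * m then 0 else 1

lemma ind_periodic (m : ℕ) (A : Finset ℕ) (l c : ℕ) : ind m A l (c + l) = ind m A l c := by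
  unfold ind
  have h : (∃ k ∈ A, l ∣ c + l + k * m) ↔ ∃ k ∈ A, l ∣ c + k * m := by
    refine exists_congr fun k => and_congr_right fun _ => ?_
    rw [show c + l + k * m = (c + k * m) + l by ring]
    exact (Nat.dvd_add_left (dvd_refl l))
  simp only [h]

lemma ind_nonneg (m : ℕ) (A : Finset ℕ) (l c : ℕ) : 0 ≤ ind m A l c := by
  unfold ind; split_ifs <;> norm_num

lemma ind_sum {m : ℕ} {A : Finset ℕ} {l : ℕ} :
    (l : ℝ) - A.card ≤ ∑ y ∈ range l, ind m A l y := by
  classical
  have h1 : ∀ y ∈ range l, 1 - ∑ k ∈ A, (if l ∣ y + k * m then (1 : ℝ) else 0) ≤ ind m A l y := by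
    intro y _
    unfold ind
    split_ifs with h
    · obtain ⟨k, hk, hd⟩ := h
      have h2 : (if l ∣ y + k * m then (1 : ℝ) else 0) ≤
          ∑ k ∈ A, (if l ∣ y + k * m then (1 : ℝ) else 0) :=
        Finset.single_le_sum (f := fun k => if l ∣ y + k * m then (1 : ℝ) else 0)
          (fun i _ => by split_ifs <;> norm_num) hk
      rw [if_pos hd] at h2
      linarith
    · have h2 : 0 ≤ ∑ k ∈ A, (if l ∣ y + k * m then (1 : ℝ) else 0) :=
        Finset.sum_nonneg fun i _ => by split_ifs <;> norm_num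
      linarith
  refine le_trans ?_ (Finset.sum_le_sum h1)
  rw [Finset.sum_sub_distrib, Finset.sum_comm]
  have h3 : ∑ k ∈ A, ∑ y ∈ range l, (if l ∣ y + k * m then (1 : ℝ) else 0) ≤ A.card := by
    calc ∑ k ∈ A, ∑ y ∈ range l, (if l ∣ y + k * m then (1 : ℝ) else 0)
        ≤ ∑ k ∈ A, (1 : ℝ) := by
          refine Finset.sum_le_sum fun k _ => ?_
          rw [← Finset.sum_filter, Finset.sum_const, nsmul_eq_mul, mul_one]
          have h4 : ((range l).filter (fun y => l ∣ y + k * m)).card ≤ 1 := by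
            rw [Finset.card_le_one]
            intro a ha b hb
            simp only [mem_filter, mem_range] at ha hb
            have h5 : a + k * m ≡ b + k * m [MOD l] :=
              (Nat.modEq_zero_iff_dvd.2 ha.2).trans (Nat.modEq_zero_iff_dvd.2 hb.2).symm
            exact Nat.ModEq.eq_of_lt_of_lt (Nat.ModEq.add_right_cancel' _ h5) ha.1 hb.1
          exact_mod_cast h4
      _ = A.card := by simp
  simp only [Finset.sum_const, card_range, nsmul_eq_mul, mul_one]
  linarith

/-- No hit at all: the sieve function is one. -/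
lemma Lm_one (h : StmtNN) {P : ℕ → Finset ℕ} {b : ℕ → ℕ} {N m : ℕ} {A : Finset ℕ} {c : ℕ}
    (hc : ∀ l ∈ SS P N, ∀ k ∈ A, ¬ l ∣ c + k * m) : Lm P b N m A c = 1 := by
  obtain ⟨-, hF, -⟩ := h
  unfold Lm
  refine Finset.prod_eq_one fun j hj => ?_
  have h1 : om (P j) m A c = 0 := by
    unfold om
    rw [Finset.card_eq_zero, Finset.filter_eq_empty_iff]
    rintro l hl ⟨k, hk, hd⟩
    exact hc l (Finset.mem_biUnion.2 ⟨j, hj, hl⟩) k hk hd
  rw [h1, hF]

theorem vlo (h : StmtNN) : StmtVLO := by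
  classical
  intro P b N m A hP hk
  unfold VS vv
  set Q : ℕ := ∏ l ∈ SS P N, l with hQ
  have hQ0 : 0 < Q := Finset.prod_pos fun l hl => (hP l hl).1.pos
  have hQ0' : (0 : ℝ) < Q := by exact_mod_cast hQ0
  rw [le_div_iff₀ hQ0']
  have h1 : (∏ l ∈ SS P N, (1 - (A.card : ℝ) / l)) * (Q : ℝ) =
      ∏ l ∈ SS P N, ((l : ℝ) - A.card) := by
    rw [hQ, Nat.cast_prod, ← Finset.prod_mul_distrib]
    refine Finset.prod_congr rfl fun l hl => ?_
    have : (l : ℝ) ≠ 0 := by exact_mod_cast (hP l hl).1.ne_zero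
    field_simp
  rw [h1]
  have h2 : ∏ l ∈ SS P N, ((l : ℝ) - A.card) ≤ ∏ l ∈ SS P N, ∑ y ∈ range l, ind m A l y := by
    refine Finset.prod_le_prod (fun l hl => ?_) fun l _ => ind_sum
    have : (A.card : ℝ) ≤ l := by exact_mod_cast (hP l hl).2.2
    linarith
  refine le_trans h2 ?_
  rw [← Avg.full_sum (b := 0) (W := 1) (P := SS P N) (F := fun l c => ind m A l c)
    (fun l hl => ⟨(hP l hl).1, (hP l hl).1.one_lt.not_ge ∘ Nat.le_of_dvd one_pos⟩)
    (fun l _ c => ind_periodic m A l c)]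
  refine Finset.sum_le_sum fun c _ => ?_
  simp only [zero_add, one_mul]
  by_cases hc : ∀ l ∈ SS P N, ∀ k ∈ A, ¬ l ∣ c + k * m
  · have h3 : ∏ l ∈ SS P N, ind m A l c ≤ 1 := by
      refine Finset.prod_le_one (fun l _ => ind_nonneg m A l c) fun l _ => ?_
      unfold ind; split_ifs <;> norm_num
    refine le_trans h3 (le_of_eq ?_)
    symm
    refine Finset.prod_eq_one fun i _ => ?_
    have h4 : (![A, A] : Fin 2 → Finset ℕ) i = A := by
      fin_cases i <;> rfl
    rw [h4]
    exact Lm_one h hc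
  · push Not at hc
    obtain ⟨l, hl, k, hkA, hd⟩ := hc
    have h3 : ∏ l ∈ SS P N, ind m A l c = 0 :=
      Finset.prod_eq_zero hl (by unfold ind; rw [if_pos ⟨k, hkA, hd⟩])
    rw [h3]
    exact Finset.prod_nonneg fun i _ => h.2.2.2.2.1 P b N m _ c

end

end Pool.Agent.Lib_helper9.LG.VLOd
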