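import Mathlib
import Pool.Agent.Lib_helper2.TD.Bridge

set_option autoImplicit false

/-!
Mean values of products of sieve functions.
-/

namespace Pool.Agent.Lib_helper9.LG

open Finset Pool.Agent.Lib_helper2.TD

noncomputable section

namespace VUP

lemma geom (N : ℕ) : ∑ j : Fin N, (1 / 8 : ℝ) ^ (2 * (j : ℕ) + 1) ≤ 1 / 2 := by
  have h1 : ∀ j : ℕ, (1 / 8 : ℝ) ^ (2 * j + 1) ≤ (1 / 4) * (1 / 2) ^ j := by
    intro j
    rw [pow_succ, pow_mul]
    have h2 : ((1 / 8 : ℝ) ^ 2) ^ j ≤ (1 / 2) ^ j :=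
      pow_le_pow_left₀ (by norm_num) (by norm_num) j
    have h3 : (0 : ℝ) ≤ (1 / 2) ^ j := by positivity
    nlinarith
  calc ∑ j : Fin N, (1 / 8 : ℝ) ^ (2 * (j : ℕ) + 1) ≤
      ∑ j : Fin N, (1 / 4) * (1 / 2 : ℝ) ^ (j : ℕ) := Finset.sum_le_sum fun j _ => h1 j
    _ = (1 / 4) * ∑ j ∈ range N, (1 / 2 : ℝ) ^ j := by
        rw [← Finset.mul_sum, Finset.sum_range]
    _ ≤ (1 / 4) * 2 := by
        have := sum_geometric_two_le N
        linarith
    _ = 1 / 2 := by norm_num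

lemma sum_bl {P : ℕ → Finset ℕ} {N : ℕ}
    (hd : ∀ i < N, ∀ j < N, i ≠ j → Disjoint (P i) (P j)) (j : Fin N) (g : ℕ → ℝ) :
    ∑ l ∈ bl (Jx P N) j, g l = ∑ l ∈ P (j : ℕ), g l := by
  have h := Finset.sum_map (bl (Jx P N) j) (Function.Embedding.subtype (· ∈ SS P N)) g
  refine Eq.trans h.symm ?_
  refine Finset.sum_congr ?_ fun _ _ => rfl
  ext l
  simp only [mem_map, mem_bl, Function.Embedding.coe_subtype]
  constructor
  · rintro ⟨l', h, rfl⟩
    exact (Jx_eq hd).1 h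
  · intro h
    have hlS : l ∈ SS P N := mem_biUnion.2 ⟨j, mem_range.2 j.2, h⟩
    exact ⟨⟨l, hlS⟩, (Jx_eq hd).2 h, rfl⟩

lemma un_card {n : ℕ} (A : Fin n → Finset ℕ) :
    (un (fun i => (A i).subtype (· ∈ univ.biUnion A))).card = (univ.biUnion A).card := by
  rw [← Finset.card_map (Function.Embedding.subtype (· ∈ univ.biUnion A))]
  congr 1
  ext k
  simp only [un, mem_map, mem_biUnion, mem_univ, true_and, mem_subtype,
    Function.Embedding.coe_subtype]
  constructor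
  · rintro ⟨k', ⟨i, hi⟩, rfl⟩
    exact ⟨i, hi⟩
  · rintro ⟨i, hi⟩
    exact ⟨⟨k, mem_biUnion.2 ⟨i, mem_univ _, hi⟩⟩, ⟨i, hi⟩, rfl⟩

end VUP

theorem vup : StmtVUP := by
  intro P b N m U A hd hS hA hU hsum hb
  have hS' : ∀ l ∈ SS P N, l.Prime ∧ ¬ l ∣ m := fun l hl => ⟨(hS l hl).1, (hS l hl).2.1⟩
  have hU' : ∀ k ∈ univ.biUnion A, ∀ l ∈ SS P N, k < l := by
    intro k hk l hl
    obtain ⟨i, _, hi⟩ := mem_biUnion.1 hk
    exact hA i k hi l hl
  rw [vv_eq hd (fun i => subset_biUnion_of_mem A (mem_univ i)) hS' hU']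
  set u : ℕ := (univ.biUnion A).card with hu
  have huR : (u : ℝ) ≤ U := by exact_mod_cast hU
  have hl4 : ∀ l : {l // l ∈ SS P N}, 4 * (U : ℝ) + 4 ≤ ((l : ℕ) : ℝ) := by
    intro l
    have := (hS l l.2).2.2
    exact_mod_cast this
  have hl0 : ∀ l : {l // l ∈ SS P N}, (0 : ℝ) < ((l : ℕ) : ℝ) := by
    intro l
    have := hl4 l
    have : (0 : ℝ) ≤ U := Nat.cast_nonneg _
    linarith
  have hup : ∀ l : {l // l ∈ SS P N}, (u : ℝ) * (1 / ((l : ℕ) : ℝ)) ≤ 1 / 4 := by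
    intro l
    rw [mul_one_div, div_le_iff₀ (hl0 l)]
    have := hl4 l
    linarith
  have key := moment_le (κ := {k // k ∈ univ.biUnion A}) (Jx P N) (fun j => b j)
    (fun l : {l // l ∈ SS P N} => 1 / ((l : ℕ) : ℝ))
    (fun l => by have := hl0 l; positivity)
    (by
      intro l
      rw [Fintype.card_coe]
      have := hup l
      linarith)
    (fun i => (A i).subtype (· ∈ univ.biUnion A))
    (by
      intro l
      rw [VUP.un_card]
      have := hup l
      linarith) (δ := 1 / 2)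
    (by
      refine le_trans (Finset.sum_le_sum fun j _ => ?_) (VUP.geom N)
      rw [VUP.un_card, Fintype.card_fin]
      have h1 : ∑ l ∈ bl (Jx P N) j, (u : ℝ) * (1 / ((l : ℕ) : ℝ)) /
          (1 - (u : ℝ) * (1 / ((l : ℕ) : ℝ))) ≤ 4 / 3 * U := by
        calc ∑ l ∈ bl (Jx P N) j, (u : ℝ) * (1 / ((l : ℕ) : ℝ)) /
              (1 - (u : ℝ) * (1 / ((l : ℕ) : ℝ))) ≤
              ∑ l ∈ bl (Jx P N) j, 4 / 3 * U * (1 / ((l : ℕ) : ℝ)) := by
              apply Finset.sum_le_sum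
              intro l _
              have h2 := hup l
              have h3 := hl0 l
              have h4 : (0 : ℝ) ≤ 1 / ((l : ℕ) : ℝ) := by positivity
              rw [div_le_iff₀ (by linarith)]
              have h5 : (0 : ℝ) ≤ u := Nat.cast_nonneg _
              have h6 : 3 / 4 ≤ 1 - (u : ℝ) * (1 / ((l : ℕ) : ℝ)) := by linarith
              have h7 : 0 ≤ 4 / 3 * (U : ℝ) * (1 / ((l : ℕ) : ℝ)) := by positivity
              have h8 : (u : ℝ) * (1 / ((l : ℕ) : ℝ)) ≤ U * (1 / ((l : ℕ) : ℝ)) := by gcongr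
              nlinarith
          _ = 4 / 3 * U * ∑ l ∈ P (j : ℕ), (1 : ℝ) / l := by
              rw [← Finset.mul_sum, VUP.sum_bl hd j (fun l => (1 : ℝ) / l)]
          _ ≤ 4 / 3 * U * 1 := by
              apply mul_le_mul_of_nonneg_left (hsum j j.2)
              positivity
          _ = _ := by ring
      have h2 : Real.exp (8 * 2 ^ 4 * ∑ l ∈ bl (Jx P N) j, (u : ℝ) * (1 / ((l : ℕ) : ℝ)) /
          (1 - (u : ℝ) * (1 / ((l : ℕ) : ℝ)))) ≤ 8 ^ (171 * U) := by
        have h3 : Real.exp (171 * U) ≤ 8 ^ (171 * U) := by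
          have h4 : Real.exp (171 * U) = (Real.exp 1) ^ (171 * U) := by
            rw [← Real.exp_nat_mul]
            congr 1
            push_cast
            ring
          rw [h4]
          apply pow_le_pow_left₀ (Real.exp_pos 1).le
          have := Real.exp_one_lt_d9
          linarith
        refine le_trans (Real.exp_le_exp.2 ?_) h3
        have : (0 : ℝ) ≤ U := Nat.cast_nonneg _
        nlinarith
      have h3 := hb j j.2
      have h4 : 2 * b (j : ℕ) + 1 = 171 * U + ((2 * (j : ℕ) + 1) +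
          (2 * b (j : ℕ) - 171 * U - 2 * (j : ℕ))) := by omega
      calc (1 / 8 : ℝ) ^ (2 * b (j : ℕ) + 1) * Real.exp (8 * 2 ^ 4 *
            ∑ l ∈ bl (Jx P N) j, (u : ℝ) * (1 / ((l : ℕ) : ℝ)) /
            (1 - (u : ℝ) * (1 / ((l : ℕ) : ℝ)))) ≤
            (1 / 8 : ℝ) ^ (2 * b (j : ℕ) + 1) * 8 ^ (171 * U) := by gcongr
        _ = (1 / 8 : ℝ) ^ ((2 * (j : ℕ) + 1) + (2 * b (j : ℕ) - 171 * U - 2 * (j : ℕ))) *
              ((1 / 8) ^ (171 * U) * 8 ^ (171 * U)) := by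
              rw [h4, pow_add]
              ring
        _ = (1 / 8 : ℝ) ^ ((2 * (j : ℕ) + 1) + (2 * b (j : ℕ) - 171 * U - 2 * (j : ℕ))) := by
              rw [← mul_pow]
              norm_num
        _ ≤ _ := pow_le_pow_of_le_one (by norm_num) (by norm_num) (by omega))
  refine key.trans ?_
  rw [VUP.un_card, ← hu]
  have h5 : ∏ l : {l // l ∈ SS P N}, (1 - (u : ℝ) * (1 / ((l : ℕ) : ℝ))) = VS (SS P N) u := by
    rw [VS, ← Finset.prod_coe_sort (SS P N)]
    refine Finset.prod_congr rfl fun l _ => ?_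
    rw [mul_one_div]
  rw [h5]
  have h6 : 0 ≤ VS (SS P N) u := by
    rw [← h5]
    apply Finset.prod_nonneg
    intro l _
    have := hup l
    linarith
  apply mul_le_mul_of_nonneg_right _ h6
  have h7 : Real.exp (1 / 2) * Real.exp (1 / 2) = Real.exp 1 := by
    rw [← Real.exp_add]
    norm_num
  have h8 := Real.exp_one_lt_d9
  have h9 := Real.exp_pos (1 / 2)
  nlinarith

end

end Pool.Agent.Lib_helper9.LG
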