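import Mathlib
import Pool.Agent.Lib_helper9.LG.StmtsD
import Pool.Agent.Lib_helper10.Erdos460.VAsymp

set_option autoImplicit false

/-!
The pointwise bound of the local functions of the large primes, and the choice of parameters.
-/

namespace Pool.Agent.Lib_helper9.LG

open Finset Filter

noncomputable section

lemma mem_BPr {m l : ℕ} {z R : ℝ} (hR : 0 ≤ R) (h : l ∈ BPr m z R) :
    l.Prime ∧ z < (l : ℝ) ∧ ¬ l ∣ m ∧ (l : ℝ) ≤ R := by
  rw [BPr, mem_filter, mem_Icc] at h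
  exact ⟨h.2.1, h.2.2.1, h.2.2.2, (Nat.le_floor_iff hR).1 h.1.2⟩

lemma mem_SPr {m l : ℕ} {L z : ℝ} (hz : 0 ≤ z) (h : l ∈ SPr m L z) :
    l.Prime ∧ L ^ 4 < (l : ℝ) ∧ ¬ l ∣ m ∧ (l : ℝ) ≤ z := by
  rw [SPr, mem_filter, mem_Icc] at h
  exact ⟨h.2.1, h.2.2.1, h.2.2.2, (Nat.le_floor_iff hz).1 h.1.2⟩

/-- Few large primes divide a given number. -/
lemma few_dvd {Q : Finset ℕ} {z : ℝ} (hz : 1 < z) (hQ : ∀ l ∈ Q, l.Prime ∧ z < (l : ℝ)) {n : ℕ}
    (hn : 1 ≤ n) : ((Q.filter (fun l => l ∣ n)).card : ℝ) * Real.log z ≤ Real.log n := by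
  have h1 : ∏ l ∈ Q.filter (fun l => l ∣ n), l ∣ n := by
    apply Finset.prod_primes_dvd
    · intro l hl
      exact (hQ l (mem_filter.1 hl).1).1.prime
    · intro l hl
      exact (mem_filter.1 hl).2
  have h2 : ((∏ l ∈ Q.filter (fun l => l ∣ n), l : ℕ) : ℝ) ≤ n := by
    exact_mod_cast Nat.le_of_dvd hn h1
  have h3 : z ^ (Q.filter (fun l => l ∣ n)).card ≤ ∏ l ∈ Q.filter (fun l => l ∣ n), (l : ℝ) := by
    rw [← Finset.prod_const]
    apply Finset.prod_le_prod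
    · intro l _
      linarith
    · intro l hl
      exact (hQ l (mem_filter.1 hl).1).2.le
  push_cast at h2
  have h4 := Real.log_le_log (by positivity) (h3.trans h2)
  rwa [Real.log_pow] at h4

theorem g0_bound : ∃ C : ℝ, 1 ≤ C ∧ ∀ (m k c : ℕ) (z R : ℝ), 2 ≤ z → z ≤ R →
    ∏ l ∈ BPr m z R, (1 + |xx m l k c|) ≤
      2 ^ ((BPr m z R).filter (fun l => l ∣ c + k * m)).card *
        (C * (Real.log R / Real.log z)) := by
  classical
  obtain ⟨c₁, C₁, hc₁, hC₁, hV⟩ := Pool.Agent.Lib_helper10.Erdos460.V_bounds_succ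
  refine ⟨max 1 (2 * C₁ / c₁), le_max_left _ _, fun m k c z R hz hzR => ?_⟩
  have hR0 : 0 ≤ R := by linarith
  set Q := BPr m z R with hQ
  have hfac : ∀ p : ℕ, p.Prime → 0 < 1 - 1 / (p : ℝ) ∧ 1 - 1 / (p : ℝ) ≤ 1 :=
    fun p hp => Pool.Agent.Lib_helper10.Erdos460.prime_factor_bounds hp
  have hlz : 0 < Real.log z := Real.log_pos (by linarith)
  have hlR : 0 < Real.log R := Real.log_pos (by linarith)
  -- termwise
  have h1 : ∏ l ∈ Q, (1 + |xx m l k c|) ≤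
      ∏ l ∈ Q, ((if l ∣ c + k * m then 2 else 1) * (1 - 1 / (l : ℝ))⁻¹) := by
    apply Finset.prod_le_prod
    · intro l _
      positivity
    · intro l hl
      obtain ⟨hp, _, _, _⟩ := mem_BPr hR0 hl
      obtain ⟨h2, h3⟩ := hfac l hp
      have hl2 : (2 : ℝ) ≤ l := by exact_mod_cast hp.two_le
      have h4 : 1 ≤ (1 - 1 / (l : ℝ))⁻¹ := (one_le_inv₀ h2).2 h3
      unfold xx
      split_ifs with hd
      · norm_num
        have h5 : (1 - (l : ℝ)⁻¹)⁻¹ = (1 - 1 / (l : ℝ))⁻¹ := by rw [one_div]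
        rw [h5]
        linarith
      · rw [abs_of_nonneg (by apply div_nonneg <;> linarith), one_mul]
        apply le_of_eq
        have h5 : (l : ℝ) - 1 ≠ 0 := by linarith
        have h6 : (l : ℝ) ≠ 0 := by linarith
        have h7 : 1 - 1 / (l : ℝ) = ((l : ℝ) - 1) / l := by field_simp
        rw [h7, inv_div]
        field_simp
        ring
  refine h1.trans ?_
  rw [Finset.prod_mul_distrib]
  have h2 : ∏ l ∈ Q, (if l ∣ c + k * m then (2 : ℝ) else 1) =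
      2 ^ (Q.filter (fun l => l ∣ c + k * m)).card := by
    rw [← Finset.prod_filter, Finset.prod_const]
  rw [h2]
  apply mul_le_mul_of_nonneg_left _ (by positivity)
  -- Mertens
  set n : ℕ := ⌊z⌋₊ with hn
  set r : ℕ := ⌊R⌋₊ with hr
  have hn2 : 2 ≤ n := Nat.le_floor (by exact_mod_cast hz)
  have hnr : n ≤ r := Nat.floor_le_floor hzR
  have hr2 : 2 ≤ r := hn2.trans hnr
  have hnz : (n : ℝ) ≤ z := Nat.floor_le (by linarith)
  have hrR : (r : ℝ) ≤ R := Nat.floor_le hR0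
  have hzn : z < n + 1 := Nat.lt_floor_add_one z
  have hn2r : (2 : ℝ) ≤ n := by exact_mod_cast hn2
  have hr2r : (2 : ℝ) ≤ r := by exact_mod_cast hr2
  have hlogn : Real.log z / 2 ≤ Real.log n := by
    have h3 : z ≤ (n : ℝ) ^ 2 := by nlinarith
    have h4 := Real.log_le_log (by linarith) h3
    rw [Real.log_pow] at h4
    push_cast at h4
    linarith
  have hlogr : Real.log r ≤ Real.log R := Real.log_le_log (by linarith) hrR
  have hlogr0 : 0 < Real.log r := Real.log_pos (by linarith)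
  have hlogn0 : 0 < Real.log n := Real.log_pos (by linarith)
  have h3 : ∏ p ∈ Nat.primesBelow (r + 1) \ Nat.primesBelow (n + 1), (1 - 1 / (p : ℝ)) ≤
      ∏ l ∈ Q, (1 - 1 / (l : ℝ)) := by
    have hsub : Q ⊆ Nat.primesBelow (r + 1) \ Nat.primesBelow (n + 1) := by
      intro l hl
      obtain ⟨hp, hl1, _, hl2⟩ := mem_BPr hR0 hl
      rw [Finset.mem_sdiff, Nat.mem_primesBelow, Nat.mem_primesBelow]
      have h4 : l ≤ r := Nat.le_floor hl2
      have h5 : n < l := by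
        have : (n : ℝ) < l := lt_of_le_of_lt hnz hl1
        exact_mod_cast this
      refine ⟨⟨by omega, hp⟩, ?_⟩
      rintro ⟨h6, _⟩
      omega
    rw [← Finset.prod_sdiff hsub]
    have h4 : ∏ p ∈ (Nat.primesBelow (r + 1) \ Nat.primesBelow (n + 1)) \ Q,
        (1 - 1 / (p : ℝ)) ≤ 1 := by
      apply Finset.prod_le_one
      · intro p hp
        exact (hfac p (Nat.mem_primesBelow.1 (Finset.mem_sdiff.1 (Finset.mem_sdiff.1 hp).1).1).2).1.le
      · intro p hp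
        exact (hfac p (Nat.mem_primesBelow.1 (Finset.mem_sdiff.1 (Finset.mem_sdiff.1 hp).1).1).2).2
    have h5 : 0 ≤ ∏ l ∈ Q, (1 - 1 / (l : ℝ)) :=
      Finset.prod_nonneg fun l hl => (hfac l (mem_BPr hR0 hl).1).1.le
    nlinarith
  have h4 : (∏ p ∈ Nat.primesBelow (r + 1) \ Nat.primesBelow (n + 1), (1 - 1 / (p : ℝ))) *
      ∏ p ∈ Nat.primesBelow (n + 1), (1 - 1 / (p : ℝ)) =
      ∏ p ∈ Nat.primesBelow (r + 1), (1 - 1 / (p : ℝ)) := by
    apply Finset.prod_sdiff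
    intro p hp
    rw [Nat.mem_primesBelow] at hp ⊢
    exact ⟨by omega, hp.2⟩
  have h5 : ∏ p ∈ Nat.primesBelow (n + 1), (1 - 1 / (p : ℝ)) ≤ C₁ / Real.log n := (hV n hn2).2
  have h6 : c₁ / Real.log r ≤ ∏ p ∈ Nat.primesBelow (r + 1), (1 - 1 / (p : ℝ)) := (hV r hr2).1
  have h7 : 0 ≤ ∏ p ∈ Nat.primesBelow (r + 1) \ Nat.primesBelow (n + 1), (1 - 1 / (p : ℝ)) :=
    Finset.prod_nonneg fun p hp =>
      (hfac p (Nat.mem_primesBelow.1 (Finset.mem_sdiff.1 hp).1).2).1.le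
  have h8 : c₁ / Real.log R ≤ (∏ l ∈ Q, (1 - 1 / (l : ℝ))) * (C₁ * (2 / Real.log z)) := by
    calc c₁ / Real.log R ≤ c₁ / Real.log r :=
          div_le_div_of_nonneg_left hc₁.le hlogr0 hlogr
      _ ≤ (∏ p ∈ Nat.primesBelow (r + 1) \ Nat.primesBelow (n + 1), (1 - 1 / (p : ℝ))) *
          ∏ p ∈ Nat.primesBelow (n + 1), (1 - 1 / (p : ℝ)) := by
          rw [h4]
          exact h6
      _ ≤ (∏ p ∈ Nat.primesBelow (r + 1) \ Nat.primesBelow (n + 1), (1 - 1 / (p : ℝ))) *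
          (C₁ / Real.log n) := mul_le_mul_of_nonneg_left h5 h7
      _ ≤ (∏ l ∈ Q, (1 - 1 / (l : ℝ))) * (C₁ * (2 / Real.log z)) := by
          apply mul_le_mul h3 _ (by positivity) (h7.trans h3)
          rw [div_eq_mul_inv]
          apply mul_le_mul_of_nonneg_left _ hC₁.le
          rw [← one_div, div_le_div_iff₀ hlogn0 hlz]
          linarith
  have h9 : 0 < ∏ l ∈ Q, (1 - 1 / (l : ℝ)) :=
    Finset.prod_pos fun l hl => (hfac l (mem_BPr hR0 hl).1).1
  rw [Finset.prod_inv_distrib]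
  rw [inv_le_iff_one_le_mul₀ h9]
  have h10 : 1 ≤ (∏ l ∈ Q, (1 - 1 / (l : ℝ))) * (2 * C₁ / c₁ * (Real.log R / Real.log z)) := by
    rw [div_le_iff₀ hlR] at h8
    have h11 : (∏ l ∈ Q, (1 - 1 / (l : ℝ))) * (2 * C₁ / c₁ * (Real.log R / Real.log z)) =
        ((∏ l ∈ Q, (1 - 1 / (l : ℝ))) * (C₁ * (2 / Real.log z)) * Real.log R) / c₁ := by
      field_simp
    rw [h11, le_div_iff₀ hc₁]
    linarith
  refine h10.trans ?_
  rw [mul_comm (max 1 (2 * C₁ / c₁) * (Real.log R / Real.log z))]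
  have h11 : 0 ≤ Real.log R / Real.log z := by positivity
  gcongr
  exact le_max_right _ _

/-- The choice of the parameters. -/
lemma params {C₀ c e : ℝ} (hC₀ : 0 < C₀) (hc : 0 < c) (he : 0 < e) :
    ∃ (η lamb : ℝ) (I : ℕ), 0 < η ∧ η ≤ e ∧ 1 ≤ lamb ∧ 2 ^ I * (η * lamb) ≤ e ∧
      8 * C₀ / e + 1 ≤ c * I - 1 ∧ Real.exp (1 - 3 / 4 * lamb) ≤ η / (64 * C₀) ∧ 1 ≤ I := by
  obtain ⟨I, hI⟩ : ∃ I : ℕ, 1 ≤ I ∧ 8 * C₀ / e + 2 ≤ c * I := by
    obtain ⟨n, hn⟩ := exists_nat_ge ((8 * C₀ / e + 2) / c)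
    refine ⟨n + 1, by omega, ?_⟩
    rw [div_le_iff₀ hc] at hn
    push_cast
    nlinarith
  have h1 : Tendsto (fun u : ℝ => 2 ^ I * (64 * C₀ * (8 * u - 2 * (Real.log u * u))))
      (nhdsWithin 0 (Set.Ioi 0)) (nhds (2 ^ I * (64 * C₀ * (8 * 0 - 2 * 0)))) := by
    have h2 : Tendsto (fun u : ℝ => Real.log u * u) (nhdsWithin 0 (Set.Ioi 0)) (nhds 0) := by
      have h := (Real.continuous_mul_log.tendsto 0).mono_left
        (nhdsWithin_le_nhds (s := Set.Ioi (0 : ℝ)))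
      simp only [zero_mul] at h
      exact h.congr fun u => mul_comm _ _
    have h3 : Tendsto (fun u : ℝ => u) (nhdsWithin 0 (Set.Ioi 0)) (nhds 0) :=
      tendsto_nhdsWithin_of_tendsto_nhds tendsto_id
    exact (((h3.const_mul 8).sub (h2.const_mul 2)).const_mul _).const_mul _
  have h2 : ∀ᶠ u : ℝ in nhdsWithin 0 (Set.Ioi 0),
      2 ^ I * (64 * C₀ * (8 * u - 2 * (Real.log u * u))) ≤ e := by
    apply h1.eventually_le_const
    simpa using he
  have h3 : ∀ᶠ u : ℝ in nhdsWithin 0 (Set.Ioi 0), u ≤ min 1 (e / (64 * C₀)) := by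
    have h3 : Tendsto (fun u : ℝ => u) (nhdsWithin 0 (Set.Ioi 0)) (nhds 0) :=
      tendsto_nhdsWithin_of_tendsto_nhds tendsto_id
    apply h3.eventually_le_const
    positivity
  obtain ⟨u, ⟨h4, h5⟩, h6⟩ := ((h2.and h3).and (self_mem_nhdsWithin (s := Set.Ioi (0 : ℝ)))).exists
  have hu0 : 0 < u := h6
  have hu1 : u ≤ 1 := h5.trans (min_le_left _ _)
  have hu2 : u ≤ e / (64 * C₀) := h5.trans (min_le_right _ _)
  have hlogu : Real.log u ≤ 0 := Real.log_nonpos hu0.le hu1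
  refine ⟨64 * C₀ * u, 4 / 3 * (1 - Real.log u), I, by positivity, ?_, by linarith, ?_,
    by linarith [hI.2], ?_, hI.1⟩
  · rw [le_div_iff₀ (by positivity)] at hu2
    linarith
  · refine le_trans ?_ h4
    apply mul_le_mul_of_nonneg_left _ (by positivity)
    have h7 : 64 * C₀ * u * (4 / 3 * (1 - Real.log u)) =
        64 * C₀ * (4 / 3 * u - 4 / 3 * (Real.log u * u)) := by ring
    rw [h7]
    apply mul_le_mul_of_nonneg_left _ (by positivity)
    have h8 : Real.log u * u ≤ 0 := mul_nonpos_of_nonpos_of_nonneg hlogu hu0.le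
    linarith
  · have h7 : 1 - 3 / 4 * (4 / 3 * (1 - Real.log u)) = Real.log u := by ring
    rw [h7, Real.exp_log hu0, le_div_iff₀ (by positivity)]
    linarith

/-- Polynomials against exponentials. -/
lemma ev_exp (n : ℕ) {c : ℝ} (hc : 0 < c) {K : ℝ} (hK : 0 ≤ K) :
    ∀ᶠ L : ℝ in atTop, K * L ^ n * Real.exp (-(c * L)) ≤ 1 := by
  have h := (isLittleO_pow_exp_pos_mul_atTop n hc).bound
    (show (0 : ℝ) < 1 / (K + 1) by positivity)
  filter_upwards [h, eventually_ge_atTop 0] with u hu hu0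
  rw [Real.norm_of_nonneg (by positivity), Real.norm_of_nonneg (Real.exp_pos _).le] at hu
  rw [Real.exp_neg, ← div_eq_mul_inv, div_le_one (Real.exp_pos _)]
  have h2 : (K + 1) * u ^ n ≤ Real.exp (c * u) := by
    calc (K + 1) * u ^ n ≤ (K + 1) * (1 / (K + 1) * Real.exp (c * u)) := by gcongr
      _ = Real.exp (c * u) := by field_simp
  have h3 : 0 ≤ u ^ n := by positivity
  nlinarith

end

end Pool.Agent.Lib_helper9.LG
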