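import Mathlib
import Pool.Agent.Lib_helper9.LG.G0d
import Pool.Agent.Lib_helper9.LG.Eng

set_option autoImplicit false

/-!
Numerical facts for the positive proportion engine.
-/

namespace Pool.Agent.Lib_helper9.LG

open Finset Filter

noncomputable section

/-- Facts for large `L`. -/
lemma largeD (J : ℕ) {η D : ℝ} (hη : 0 < η) (hD : 0 ≤ D) : ∀ᶠ L : ℝ in atTop,
    200 ≤ L ∧ 16 * (J : ℝ) + 16 ≤ L ∧ L ^ 4 ≤ Real.exp (η * L) ∧
    2 * ((J : ℝ) + 1) * (L ^ 2 + 1) * Real.exp (-(η * L)) ≤ 1 ∧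
    D * Real.exp (-(η * L)) ≤ 1 ∧
    144 * (L ^ 2 + 2) * Real.exp (-(1 / 2 * L)) ≤ 1 ∧
    64 * J * (L ^ 2 + 2) * (L ^ 2 + 1) * L ^ (3 * J) * Real.exp (-(η * L)) ≤ 1 ∧
    2 * (L ^ 2 + 2) ^ (4 * J) * Real.exp (-(1 / 2 * L)) ≤ 1 := by
  have h2 : (0 : ℝ) < 1 / 2 := by norm_num
  filter_upwards [eventually_ge_atTop (200 : ℝ), eventually_ge_atTop (16 * (J : ℝ) + 16),
    ev_exp 4 hη (K := 1) (by norm_num), ev_exp 2 hη (K := 4 * ((J : ℝ) + 1)) (by positivity),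
    ev_exp 0 hη hD, ev_exp 2 h2 (K := 288) (by norm_num),
    ev_exp (3 * J + 4) hη (K := 256 * (J : ℝ)) (by positivity),
    ev_exp (8 * J) h2 (K := 2 * 2 ^ (4 * J)) (by positivity)] with L g1 g2 g3 g4 g5 g6 g7 g8
  have hL2 : 2 ≤ L ^ 2 := by nlinarith
  have hL0 : 0 ≤ L := by linarith
  have hJ0 : (0 : ℝ) ≤ J := Nat.cast_nonneg J
  refine ⟨g1, g2, ?_, ?_, ?_, ?_, ?_, ?_⟩
  · rw [one_mul, Real.exp_neg, ← div_eq_mul_inv, div_le_one (Real.exp_pos _)] at g3
    exact g3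
  · refine le_trans ?_ g4
    apply mul_le_mul_of_nonneg_right _ (Real.exp_nonneg _)
    have : 0 ≤ (J : ℝ) + 1 := by linarith
    nlinarith
  · simpa using g5
  · refine le_trans ?_ g6
    apply mul_le_mul_of_nonneg_right _ (Real.exp_nonneg _)
    linarith
  · refine le_trans ?_ g7
    apply mul_le_mul_of_nonneg_right _ (Real.exp_nonneg _)
    rw [pow_add]
    have h3 : 64 * (J : ℝ) * (L ^ 2 + 2) * (L ^ 2 + 1) ≤ 64 * (J : ℝ) * (2 * L ^ 2) * (2 * L ^ 2) := by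
      gcongr <;> linarith
    calc 64 * (J : ℝ) * (L ^ 2 + 2) * (L ^ 2 + 1) * L ^ (3 * J) ≤
        64 * (J : ℝ) * (2 * L ^ 2) * (2 * L ^ 2) * L ^ (3 * J) := by gcongr
      _ = _ := by ring
  · refine le_trans ?_ g8
    apply mul_le_mul_of_nonneg_right _ (Real.exp_nonneg _)
    have h3 : (L ^ 2 + 2) ^ (4 * J) ≤ (2 * L ^ 2) ^ (4 * J) := by
      gcongr
      linarith
    calc 2 * (L ^ 2 + 2) ^ (4 * J) ≤ 2 * (2 * L ^ 2) ^ (4 * J) := by linarith
      _ = _ := by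
          rw [mul_pow, ← pow_mul]
          ring

lemma num_lv {J : ℕ} {η L : ℝ} (hL : 0 < L) (h3 : η ≤ 1 / 10 ^ 6) (h4 : (J : ℝ) * η ≤ 1 / 10 ^ 6) :
    8 * (((700 * (J + 1) : ℕ) : ℝ) + 2) * (η * L) ≤ L / 80 := by
  push_cast
  have h1 : 8 * (700 * ((J : ℝ) + 1) + 2) * (η * L) = (5600 * (J * η) + 5616 * η) * L := by ring
  rw [h1]
  have h2 : 5600 * (J * η) + 5616 * η ≤ 1 / 80 := by
    norm_num at h3 h4
    linarith
  calc (5600 * (J * η) + 5616 * η) * L ≤ 1 / 80 * L := mul_le_mul_of_nonneg_right h2 hL.le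
    _ = L / 80 := by ring

lemma num_om {m W n : ℕ} {L M : ℝ} (hL : 200 ≤ L) (hm : 1 ≤ m) (hW : 1 ≤ W)
    (hWL : (W : ℝ) ^ 8 ≤ Real.exp L) (hn : n = ⌊Real.exp L / W⌋₊)
    (hω : (4 : ℝ) ^ m.primeFactors.card ≤ Real.exp L ^ (1 / 10 : ℝ))
    (hM : M = (n : ℝ) * ((m.totient : ℝ) / m)) :
    1 ≤ n ∧ Real.exp L / (2 * W) ≤ n ∧ 0 < M ∧
      2 ^ m.primeFactors.card / M ≤ 2 * Real.exp (-(31 / 40 * L)) := by
  have hW0 : (0 : ℝ) < W := by exact_mod_cast hW
  have hWexp : (W : ℝ) ≤ Real.exp (L / 8) := by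
    have h1 : (W : ℝ) ^ 8 ≤ (Real.exp (L / 8)) ^ 8 := by
      rw [← Real.exp_nat_mul]
      refine hWL.trans (le_of_eq ?_)
      congr 1
      push_cast
      ring
    exact le_of_pow_le_pow_left₀ (by norm_num) (Real.exp_nonneg _) h1
  have hWX1 : 2 * (W : ℝ) ≤ Real.exp L := by
    have h1 : (2 : ℝ) ≤ Real.exp (7 / 8 * L) := by
      have := Real.add_one_le_exp (7 / 8 * L)
      linarith
    calc 2 * (W : ℝ) ≤ Real.exp (7 / 8 * L) * Real.exp (L / 8) := by gcongr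
      _ = Real.exp L := by
          rw [← Real.exp_add]
          congr 1
          ring
  have hn1 : Real.exp L / (2 * W) ≤ n := by
    have h1 : Real.exp L / W < n + 1 := by
      rw [hn]
      exact Nat.lt_floor_add_one _
    have h2 : 1 ≤ Real.exp L / (2 * W) := by
      rw [le_div_iff₀ (by positivity)]
      linarith
    have h3 : Real.exp L / W = Real.exp L / (2 * W) + Real.exp L / (2 * W) := by
      field_simp
      ring
    linarith
  have hn0 : 1 ≤ n := by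
    rw [hn, Nat.le_floor_iff (by positivity)]
    rw [le_div_iff₀ hW0]
    push_cast
    linarith
  have hn0r : (0 : ℝ) < n := by exact_mod_cast hn0
  have hm0 : (0 : ℝ) < m := by exact_mod_cast hm
  have htot : (0 : ℝ) < m.totient := by exact_mod_cast Nat.totient_pos.2 hm
  have hM0 : 0 < M := by rw [hM]; positivity
  refine ⟨hn0, hn1, hM0, ?_⟩
  have h1 := two_pow_totient m hm
  have h2 : (4 : ℝ) ^ m.primeFactors.card ≤ Real.exp (L / 10) := by
    refine hω.trans (le_of_eq ?_)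
    rw [← Real.exp_mul]
    congr 1
    ring
  rw [div_le_iff₀ hM0]
  have h3 : Real.exp (7 / 8 * L) / 2 ≤ n := by
    refine le_trans ?_ hn1
    rw [div_le_div_iff₀ (by norm_num) (by positivity)]
    calc Real.exp (7 / 8 * L) * (2 * W) ≤ Real.exp (7 / 8 * L) * (2 * Real.exp (L / 8)) := by
          gcongr
      _ = (Real.exp (7 / 8 * L) * Real.exp (L / 8)) * 2 := by ring
      _ = Real.exp L * 2 := by
          rw [← Real.exp_add]
          congr 2
          ring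
  have h4 : (2 : ℝ) ^ m.primeFactors.card * 2 ^ m.primeFactors.card ≤ Real.exp (L / 10) := by
    rw [← mul_pow]
    norm_num
    exact h2
  have h5 : (0 : ℝ) < 2 ^ m.primeFactors.card := by positivity
  calc (2 : ℝ) ^ m.primeFactors.card =
        (2 ^ m.primeFactors.card * 2 ^ m.primeFactors.card) * (1 / 2 ^ m.primeFactors.card) := by
        field_simp
    _ ≤ Real.exp (L / 10) * ((m.totient : ℝ) / m) := by gcongr
    _ = 2 * Real.exp (-(31 / 40 * L)) * (Real.exp (7 / 8 * L) / 2 * ((m.totient : ℝ) / m)) := by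
        have h6 : Real.exp (L / 10) = Real.exp (-(31 / 40 * L)) * Real.exp (7 / 8 * L) := by
          rw [← Real.exp_add]
          congr 1
          ring
        rw [h6]
        ring
    _ ≤ 2 * Real.exp (-(31 / 40 * L)) * M := by
        rw [hM]
        gcongr

lemma num_h1 {J : ℕ} {VK C₀ η z L a e lamb B1 c : ℝ} {I : ℕ} (hVK0 : 0 ≤ VK)
    (hC₀ : 0 < C₀) (hη : 0 < η)
    (hVK : VK ≤ C₀ / η) (hL : 0 < L) (hz : 1 ≤ z) (hzinv : 1 / z = Real.exp (-(η * L)))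
    (ha : a ≤ η * L / (c * I - 1)) (he : 0 < e) (hlamb : 0 < lamb)
    (hB1 : B1 = e * L / lamb) (hcI : 8 * C₀ / e + 1 ≤ c * I - 1)
    (h3' : Real.exp (1 - 3 / 4 * lamb) ≤ η / (64 * C₀))
    (e5 : 1024 * C₀ / η * (J : ℝ) ^ 2 * Real.exp (-(η * L)) ≤ 1) :
    2 * VK * ((4 * J / z) ^ 2 + Real.exp ((2 * a * VK - (e * L - B1)) / B1)) ≤ 1 / 8 := by
  have hcI0 : 0 < c * I - 1 := by
    have : 0 < 8 * C₀ / e := by positivity
    linarith
  have hB10 : 0 < B1 := by rw [hB1]; positivity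
  have hz0 : 0 < z := by linarith
  have h1 : (2 * a * VK - (e * L - B1)) / B1 ≤ 1 - 3 / 4 * lamb := by
    rw [div_le_iff₀ hB10]
    have h2 : 2 * a * VK ≤ e * L / 4 := by
      calc 2 * a * VK ≤ 2 * (η * L / (c * I - 1)) * VK := by gcongr
        _ ≤ 2 * (η * L / (c * I - 1)) * (C₀ / η) := by gcongr
        _ = (2 * C₀ / (c * I - 1)) * L := by
            field_simp
        _ ≤ (e / 4) * L := by
            apply mul_le_mul_of_nonneg_right _ hL.le
            rw [div_le_iff₀ hcI0]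
            have h3 : 8 * C₀ / e ≤ c * I - 1 := by linarith
            rw [div_le_iff₀ he] at h3
            linarith
        _ = _ := by ring
    have h3 : (1 - 3 / 4 * lamb) * B1 = B1 - 3 / 4 * (e * L) := by
      rw [hB1]
      field_simp
    rw [h3]
    linarith
  have h2 : Real.exp ((2 * a * VK - (e * L - B1)) / B1) ≤ η / (64 * C₀) :=
    (Real.exp_le_exp.2 h1).trans h3'
  have h3 : (4 * (J : ℝ) / z) ^ 2 ≤ 16 * J ^ 2 * Real.exp (-(η * L)) := by
    have h4 : (4 * (J : ℝ) / z) ^ 2 = 16 * J ^ 2 * (1 / z) * (1 / z) := by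
      field_simp
      ring
    rw [h4, ← hzinv]
    have h5 : 1 / z ≤ 1 := by
      rw [div_le_one hz0]
      exact hz
    have h6 : 0 ≤ 16 * (J : ℝ) ^ 2 * (1 / z) := by positivity
    nlinarith
  calc 2 * VK * ((4 * (J : ℝ) / z) ^ 2 + Real.exp ((2 * a * VK - (e * L - B1)) / B1)) ≤
        2 * (C₀ / η) * (16 * J ^ 2 * Real.exp (-(η * L)) + η / (64 * C₀)) := by gcongr
    _ = (1024 * C₀ / η * (J : ℝ) ^ 2 * Real.exp (-(η * L))) / 32 + 1 / 32 := by
        field_simp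
        ring
    _ ≤ 1 / 8 := by linarith

lemma num_h2 {K L M p v e : ℝ} (hK : K ≤ L ^ 2 + 1) (hL : 200 ≤ L) (hM : 0 < M)
    (hp : 0 ≤ p) (hpM : p / M ≤ 2 * Real.exp (-(31 / 40 * L))) (hv0 : 0 ≤ v)
    (hv : v ≤ Real.exp (L / 40)) (he : e = 1 / 10 ^ 6)
    (e6 : 144 * (L ^ 2 + 2) * Real.exp (-(1 / 2 * L)) ≤ 1) :
    (K + 1) * (p * v / M * (Real.exp (3 * (e * L)) * 3) ^ 2) ≤ 1 / 8 := by
  have h1 : (Real.exp (3 * (e * L)) * 3) ^ 2 ≤ 9 * Real.exp (L / 40) := by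
    rw [mul_pow, ← Real.exp_nat_mul]
    have h2 : ((2 : ℕ) : ℝ) * (3 * (e * L)) ≤ L / 40 := by
      rw [he]
      push_cast
      nlinarith
    have h3 := Real.exp_le_exp.2 h2
    linarith
  have h2 : p * v / M ≤ 2 * Real.exp (-(31 / 40 * L)) * Real.exp (L / 40) := by
    rw [mul_div_right_comm]
    gcongr
  calc (K + 1) * (p * v / M * (Real.exp (3 * (e * L)) * 3) ^ 2) ≤ (L ^ 2 + 2) *
        (2 * Real.exp (-(31 / 40 * L)) * Real.exp (L / 40) * (9 * Real.exp (L / 40))) := by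
        apply mul_le_mul (by linarith) _ (by positivity) (by positivity)
        apply mul_le_mul h2 h1 (by positivity) (by positivity)
    _ = 18 * (L ^ 2 + 2) * (Real.exp (-(31 / 40 * L)) * Real.exp (L / 40) *
        Real.exp (L / 40)) := by ring
    _ ≤ 18 * (L ^ 2 + 2) * Real.exp (-(1 / 2 * L)) := by
        rw [← Real.exp_add, ← Real.exp_add]
        gcongr
        linarith
    _ ≤ 1 / 8 := by linarith

lemma num_h3 {J : ℕ} {K L z η : ℝ} (hK0 : 0 ≤ K) (hK : K ≤ L ^ 2 + 1) (hL : 0 < L)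
    (hz : 0 < z)
    (hzinv : 1 / z = Real.exp (-(η * L)))
    (e7 : 64 * J * (L ^ 2 + 2) * (L ^ 2 + 1) * L ^ (3 * J) * Real.exp (-(η * L)) ≤ 1) :
    (K + 1) * (2 * (4 * J * K / z) / (1 / L ^ (3 * J))) ≤ 1 / 8 := by
  have h1 : 2 * (4 * (J : ℝ) * K / z) / (1 / L ^ (3 * J)) =
      8 * J * K * L ^ (3 * J) * (1 / z) := by
    field_simp
    ring
  rw [h1, hzinv]
  calc (K + 1) * (8 * J * K * L ^ (3 * J) * Real.exp (-(η * L))) ≤
        (L ^ 2 + 2) * (8 * J * (L ^ 2 + 1) * L ^ (3 * J) * Real.exp (-(η * L))) := by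
        apply mul_le_mul (by linarith) _ (by positivity) (by positivity)
        gcongr
    _ = (64 * J * (L ^ 2 + 2) * (L ^ 2 + 1) * L ^ (3 * J) * Real.exp (-(η * L))) / 8 := by
        ring
    _ ≤ 1 / 8 := by linarith

lemma num_h4 {J : ℕ} {K L M p v : ℝ} (hK0 : 0 ≤ K) (hK : K ≤ L ^ 2 + 1) (hL : 200 ≤ L)
    (hM : 0 < M) (hp : 0 ≤ p) (hpM : p / M ≤ 2 * Real.exp (-(31 / 40 * L))) (hv0 : 0 ≤ v)
    (hv : v ≤ Real.exp (L / 20))
    (e8 : 2 * (L ^ 2 + 2) ^ (4 * J) * Real.exp (-(1 / 2 * L)) ≤ 1) :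
    (K + 1) ^ (4 * J) * (p * v / M) ≤ 1 := by
  have h2 : p * v / M ≤ 2 * Real.exp (-(31 / 40 * L)) * Real.exp (L / 20) := by
    rw [mul_div_right_comm]
    gcongr
  calc (K + 1) ^ (4 * J) * (p * v / M) ≤
        (L ^ 2 + 2) ^ (4 * J) * (2 * Real.exp (-(31 / 40 * L)) * Real.exp (L / 20)) := by
        apply mul_le_mul _ h2 (by positivity) (by positivity)
        apply pow_le_pow_left₀ (by positivity)
        linarith
    _ = 2 * (L ^ 2 + 2) ^ (4 * J) * (Real.exp (-(31 / 40 * L)) * Real.exp (L / 20)) := by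
        ring
    _ ≤ 2 * (L ^ 2 + 2) ^ (4 * J) * Real.exp (-(1 / 2 * L)) := by
        rw [← Real.exp_add]
        gcongr
        linarith
    _ ≤ 1 := e8

lemma num_log {A b W x k m n : ℕ} {L : ℝ} (hL : 200 ≤ L) (hm : 1 ≤ m) (hW : 1 ≤ W)
    (hmL : Real.log m ≤ A * L) (hb : 1 ≤ b) (hk : (k : ℝ) ≤ L ^ 2)
    (hbL : (b : ℝ) + Real.exp L ≤ Real.exp (A * L)) (hn : n = ⌊Real.exp L / W⌋₊) (hx : x < n) :
    Real.log ((b + W * x + k * m : ℕ) : ℝ) ≤ (A + 1) * L := by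
  have hnn : 1 ≤ b + W * x + k * m := by
    have := Nat.zero_le (W * x + k * m)
    omega
  have hm0 : (0 : ℝ) < m := by exact_mod_cast hm
  have hW0 : (0 : ℝ) < W := by exact_mod_cast hW
  have hL0 : 0 < L := by linarith
  rw [← Real.log_exp ((A + 1) * L)]
  apply Real.log_le_log (by exact_mod_cast hnn)
  push_cast
  have h4 : (W : ℝ) * x ≤ Real.exp L := by
    have h5 : (x : ℝ) ≤ n := by exact_mod_cast hx.le
    have h6 : (n : ℝ) ≤ Real.exp L / W := by
      rw [hn]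
      exact Nat.floor_le (by positivity)
    calc (W : ℝ) * x ≤ W * (Real.exp L / W) := by
          gcongr
          exact h5.trans h6
      _ = Real.exp L := by field_simp
  have h5 : (k : ℝ) * m ≤ L ^ 2 * Real.exp (A * L) := by
    have h6 : (m : ℝ) ≤ Real.exp (A * L) := by
      rw [← Real.exp_log hm0]
      exact Real.exp_le_exp.2 hmL
    gcongr
  have h6 : L ^ 2 + 1 ≤ Real.exp L := by
    have h8 := Real.pow_div_factorial_le_exp L hL0.le 3
    have h9 : ((Nat.factorial 3 : ℕ) : ℝ) = 6 := by norm_num [Nat.factorial]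
    rw [h9] at h8
    have h10 : L ^ 2 + 1 ≤ L ^ 3 / 6 := by nlinarith
    linarith
  calc (b : ℝ) + W * x + k * m ≤ Real.exp (A * L) + L ^ 2 * Real.exp (A * L) := by linarith
    _ = (L ^ 2 + 1) * Real.exp (A * L) := by ring
    _ ≤ Real.exp L * Real.exp (A * L) := by gcongr
    _ = Real.exp ((A + 1) * L) := by
        rw [← Real.exp_add]
        congr 1
        ring

lemma num_fin {J : ℕ} {E W r M G0 C4 X K V1 C : ℝ} (hE : 0 < E) (hW : 0 < W) (hr : 0 < r)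
    (hn : E / (2 * W) ≤ X) (hM : M = X * r) (hG0 : 1 ≤ G0) (hKV : K * V1 ≤ C)
    (hC4 : C4 = (G0 ^ J) ^ 4 * (2 * Real.exp (15 * C) + 1)) :
    1 / (8 * C4) * (E / W * r) ≤
      M / (4 * ((G0 ^ J) ^ 4 * (2 * Real.exp (15 * (K * V1)) + 1))) := by
  have hG00 : 0 < G0 := by linarith
  have hC40 : 0 < C4 := by
    rw [hC4]
    positivity
  have hX : 0 < X := lt_of_lt_of_le (by positivity) hn
  have hM0 : 0 < M := by rw [hM]; positivity
  have h1 : E / W * r / 2 ≤ M := by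
    rw [hM]
    calc E / W * r / 2 = E / (2 * W) * r := by
          field_simp
      _ ≤ _ := by gcongr
  have h2 : (G0 ^ J) ^ 4 * (2 * Real.exp (15 * (K * V1)) + 1) ≤ C4 := by
    rw [hC4]
    gcongr
  calc 1 / (8 * C4) * (E / W * r) = (E / W * r / 2) / (4 * C4) := by
        field_simp
        norm_num
    _ ≤ M / (4 * C4) := by gcongr
    _ ≤ _ := by
        apply div_le_div_of_nonneg_left hM0.le (by positivity)
        linarith

end

end Pool.Agent.Lib_helper9.LG
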