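import Mathlib
import Pool.Agent.Lib_helper9.LG.Stmts

set_option autoImplicit false

/-!
The number of prime factors of `m ≤ X ^ A`.
-/

namespace Pool.Agent.Lib_helper9.LG

open Finset

/-- `K ^ (ω(m) - K) ≤ m` -/
theorem om_aux (m K : ℕ) (hm : 1 ≤ m) (hK : 1 ≤ K) : K ^ (m.primeFactors.card - K) ≤ m := by
  set s := m.primeFactors.filter (fun p => K ≤ p) with hs
  have hcard : m.primeFactors.card - K ≤ s.card := by
    have h1 : s.card + (m.primeFactors.filter (fun p => ¬ K ≤ p)).card = m.primeFactors.card :=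
      Finset.card_filter_add_card_filter_not _
    have h2 : (m.primeFactors.filter (fun p => ¬ K ≤ p)).card ≤ K := by
      calc (m.primeFactors.filter (fun p => ¬ K ≤ p)).card ≤ (range K).card := by
            apply Finset.card_le_card
            intro p hp
            rw [mem_filter] at hp
            rw [mem_range]
            omega
        _ = K := card_range K
    omega
  calc K ^ (m.primeFactors.card - K) ≤ K ^ s.card := Nat.pow_le_pow_right hK hcard
    _ ≤ ∏ p ∈ s, p := by
        apply Finset.pow_card_le_prod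
        intro p hp
        exact (mem_filter.1 hp).2
    _ ≤ ∏ p ∈ m.primeFactors, p := by
        apply Finset.prod_le_prod_of_subset_of_one_le'
        · exact filter_subset _ _
        · intro p hp _
          exact (Nat.prime_of_mem_primeFactors hp).one_lt.le
    _ ≤ m := Nat.le_of_dvd hm (Nat.prod_primeFactors_dvd m)

theorem om : StmtOM := by
  intro A
  set K : ℕ := 4 ^ (20 * A + 1) with hK
  refine ⟨(4 : ℝ) ^ (20 * K), fun X hX m hm hmX => ?_⟩
  have h4 : (1 : ℝ) ≤ (4 : ℝ) ^ (20 * K) := one_le_pow₀ (by norm_num)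
  have hX1 : 1 ≤ X := h4.trans hX
  have hX0 : 0 < X := by linarith
  have hKpos : 1 ≤ K := Nat.one_le_pow _ _ (by norm_num)
  set w := m.primeFactors.card with hw
  have h1 : (K : ℝ) ^ (w - K) ≤ X ^ A := by
    have := om_aux m K hm hKpos
    calc (K : ℝ) ^ (w - K) ≤ (m : ℝ) := by exact_mod_cast this
      _ ≤ X ^ A := hmX
  -- first factor
  have h2 : (4 : ℝ) ^ K ≤ X ^ (1 / 20 : ℝ) := by
    have e : (4 : ℝ) ^ K = ((4 : ℝ) ^ (20 * K)) ^ (1 / 20 : ℝ) := by
      rw [← Real.rpow_natCast (4 : ℝ) (20 * K), ← Real.rpow_mul (by norm_num),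
        ← Real.rpow_natCast (4 : ℝ) K]
      congr 1
      push_cast
      ring
    rw [e]
    exact Real.rpow_le_rpow (by positivity) hX (by norm_num)
  -- second factor
  have h3 : (4 : ℝ) ^ (w - K) ≤ X ^ (1 / 20 : ℝ) := by
    have e1 : ((4 : ℝ) ^ (w - K)) ^ (20 * A + 1) = (K : ℝ) ^ (w - K) := by
      rw [hK]
      push_cast
      rw [← pow_mul, ← pow_mul, mul_comm]
    have e2 : X ^ A ≤ (X ^ (1 / 20 : ℝ)) ^ (20 * A + 1) := by
      rw [← Real.rpow_natCast (X ^ (1 / 20 : ℝ)), ← Real.rpow_mul hX0.le, ← Real.rpow_natCast X A]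
      apply Real.rpow_le_rpow_of_exponent_le hX1
      push_cast
      have : (0 : ℝ) ≤ A := Nat.cast_nonneg A
      linarith
    have e3 : ((4 : ℝ) ^ (w - K)) ^ (20 * A + 1) ≤ (X ^ (1 / 20 : ℝ)) ^ (20 * A + 1) := by
      rw [e1]
      exact h1.trans e2
    exact le_of_pow_le_pow_left₀ (by omega) (by positivity) e3
  calc (4 : ℝ) ^ w ≤ (4 : ℝ) ^ (K + (w - K)) := by
        apply pow_le_pow_right₀ (by norm_num)
        omega
    _ = (4 : ℝ) ^ K * (4 : ℝ) ^ (w - K) := pow_add _ _ _
    _ ≤ X ^ (1 / 20 : ℝ) * X ^ (1 / 20 : ℝ) := by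
        apply mul_le_mul h2 h3 (by positivity) (by positivity)
    _ = X ^ (1 / 10 : ℝ) := by
        rw [← Real.rpow_add hX0]
        norm_num

end Pool.Agent.Lib_helper9.LG
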