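import Mathlib
import Pool.Agent.Lib_helper9.LG.Core

set_option autoImplicit false
set_option linter.unusedSectionVars false

/-!
Dyadic summation: lower bound for the sum of `1 / (phi(r) log r)` by the sums of `1 / phi(r)`.
-/

namespace Pool.Agent.Lib_helper9.LG

open Finset

noncomputable section

variable {ι : Type*} [Fintype ι] [DecidableEq ι]

/-- The sum of `1 / phi(r)` over the sets of size at most `t`. -/
def VV (lam q : ι → ℝ) (t : ℝ) : ℝ := ∑ T : Finset ι, if sz lam T ≤ t then 1 / ph q T else 0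

lemma dyad_one {a u : ℝ} (ha : 0 < a) (hu : 0 < u) (I : ℕ) :
    (u ≤ 2 ^ I * a → ∑ i ∈ range I, (if u ≤ 2 ^ i * a then 1 / (2 * (2 ^ i * a)) else 0) ≤
      1 / u - 1 / (2 ^ I * a)) ∧
    (2 ^ I * a < u → ∑ i ∈ range I, (if u ≤ 2 ^ i * a then 1 / (2 * (2 ^ i * a)) else 0) = 0) := by
  induction I with
  | zero =>
    constructor
    · intro h
      rw [Finset.sum_range_zero, sub_nonneg]
      exact one_div_le_one_div_of_le hu h
    · intro _
      simp
  | succ I ih =>
    have hpos : 0 < (2 : ℝ) ^ I * a := by positivity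
    constructor
    · intro h
      rw [Finset.sum_range_succ]
      by_cases hc : u ≤ 2 ^ I * a
      · rw [if_pos hc]
        have h1 := ih.1 hc
        have h2 : 1 / ((2 : ℝ) ^ (I + 1) * a) = 1 / (2 * (2 ^ I * a)) := by
          congr 1
          ring
        have h3 : 1 / ((2 : ℝ) ^ I * a) = 1 / (2 * (2 ^ I * a)) + 1 / (2 * (2 ^ I * a)) := by
          field_simp
          norm_num
        rw [h2]
        linarith
      · rw [if_neg hc, ih.2 (not_le.1 hc), add_zero, sub_nonneg]
        exact one_div_le_one_div_of_le hu h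
    · intro h
      rw [Finset.sum_range_succ]
      have h1 : (2 : ℝ) ^ I * a < u := by
        refine lt_trans ?_ h
        rw [pow_succ]
        linarith
      rw [ih.2 h1, if_neg (not_le.2 h1), add_zero]

lemma dyad_le {a u : ℝ} (ha : 0 < a) (hu : 0 < u) (I : ℕ) :
    ∑ i ∈ range I, (if u ≤ 2 ^ i * a then 1 / (2 * (2 ^ i * a)) else 0) ≤ 1 / u := by
  rcases le_or_gt u (2 ^ I * a) with h | h
  · have h1 := (dyad_one ha hu I).1 h
    have h2 : 0 < 1 / ((2 : ℝ) ^ I * a) := by positivity
    linarith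
  · rw [(dyad_one ha hu I).2 h]
    positivity

theorem dyad {lam q : ι → ℝ} (hl : ∀ i, 0 < lam i) (hq : ∀ i, 0 < q i) {a B1 : ℝ} (ha : 0 < a)
    (I : ℕ) (hI : ∀ i < I, 2 ^ i * a ≤ B1) :
    ∑ i ∈ range I, (VV lam q (2 ^ i * a) - 1) / (2 * (2 ^ i * a)) ≤
      ∑ T : Finset ι, s0 lam q B1 T := by
  have h1 : ∀ i : ℕ, (VV lam q (2 ^ i * a) - 1) / (2 * (2 ^ i * a)) =
      ∑ T : Finset ι, (if T = ∅ then 0 else if sz lam T ≤ 2 ^ i * a then
        1 / ph q T * (1 / (2 * (2 ^ i * a))) else 0) := by
    intro i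
    have hpos : 0 < (2 : ℝ) ^ i * a := by positivity
    have h2 : VV lam q (2 ^ i * a) - 1 =
        ∑ T : Finset ι, (if T = ∅ then 0 else if sz lam T ≤ 2 ^ i * a then
          1 / ph q T else 0) := by
      unfold VV
      rw [← Finset.add_sum_erase univ _ (mem_univ (∅ : Finset ι)),
        ← Finset.add_sum_erase univ (fun T : Finset ι => if T = ∅ then (0 : ℝ) else
          if sz lam T ≤ 2 ^ i * a then 1 / ph q T else 0) (mem_univ (∅ : Finset ι))]
      rw [sz_empty, if_pos hpos.le, ph_empty, if_pos rfl]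
      rw [show (1 : ℝ) / 1 = 1 by norm_num, add_sub_cancel_left, zero_add]
      apply Finset.sum_congr rfl
      intro T hT
      rw [if_neg (ne_of_mem_erase hT)]
    rw [h2, Finset.sum_div]
    apply Finset.sum_congr rfl
    intro T _
    split_ifs
    · simp
    · rw [div_eq_mul_one_div]
    · simp
  rw [Finset.sum_congr rfl fun i _ => h1 i, Finset.sum_comm]
  apply Finset.sum_le_sum
  intro T _
  by_cases hT : T = ∅
  · simp [hT, s0_empty]
  have hsz := sz_pos hl hT
  have hph := ph_pos hq T
  by_cases hc : sz lam T ≤ B1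
  · rw [s0, if_neg hT, if_pos hc]
    have h3 := dyad_le ha hsz I
    calc ∑ i ∈ range I, (if T = ∅ then 0 else if sz lam T ≤ 2 ^ i * a then
          1 / ph q T * (1 / (2 * (2 ^ i * a))) else 0) =
          1 / ph q T * ∑ i ∈ range I,
            (if sz lam T ≤ 2 ^ i * a then 1 / (2 * (2 ^ i * a)) else 0) := by
          rw [Finset.mul_sum]
          apply Finset.sum_congr rfl
          intro i _
          rw [if_neg hT]
          split_ifs <;> simp
      _ ≤ 1 / ph q T * (1 / sz lam T) := mul_le_mul_of_nonneg_left h3 (by positivity)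
      _ = _ := by rw [one_div_mul_one_div]
  · rw [s0, if_neg hT, if_neg hc]
    apply le_of_eq
    apply Finset.sum_eq_zero
    intro i hi
    rw [if_neg hT, if_neg]
    intro h
    exact hc (h.trans (hI i (mem_range.1 hi)))

end

end Pool.Agent.Lib_helper9.LG
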