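import Mathlib
import Pool.Agent.Lib_helper9.LG.Stmts
import Pool.Agent.Lib_helper10.Erdos460.VAsymp

set_option autoImplicit false

/-!
Mertens: lower bound for the density of the numbers without prime factors `≤ (log X)^4` and without
prime factors dividing `m`.
-/

namespace Pool.Agent.Lib_helper9.LG

open Finset Filter

noncomputable section

namespace RH

lemma one_sub_sum_le {S : Finset ℕ} {f : ℕ → ℝ} (h0 : ∀ l ∈ S, 0 ≤ f l) (h1 : ∀ l ∈ S, f l ≤ 1) :
    1 - ∑ l ∈ S, f l ≤ ∏ l ∈ S, (1 - f l) := by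
  induction S using Finset.induction_on with
  | empty => simp
  | insert a S ha ih =>
    have h2 := ih (fun l hl => h0 l (mem_insert_of_mem hl))
      (fun l hl => h1 l (mem_insert_of_mem hl))
    rw [Finset.sum_insert ha, Finset.prod_insert ha]
    have h3 := h0 a (mem_insert_self a S)
    have h4 := h1 a (mem_insert_self a S)
    have h5 : ∏ l ∈ S, (1 - f l) ≤ 1 := by
      apply Finset.prod_le_one
      · intro l hl
        have := h1 l (mem_insert_of_mem hl)
        linarith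
      · intro l hl
        have := h0 l (mem_insert_of_mem hl)
        linarith
    nlinarith

lemma card_primeFactors_le (m : ℕ) (hm : 1 ≤ m) :
    (m.primeFactors.card : ℝ) * Real.log 2 ≤ Real.log m := by
  have h1 : 2 ^ m.primeFactors.card ≤ m := by
    calc 2 ^ m.primeFactors.card ≤ ∏ p ∈ m.primeFactors, p := by
          apply Finset.pow_card_le_prod
          intro p hp
          exact (Nat.prime_of_mem_primeFactors hp).two_le
      _ ≤ m := Nat.le_of_dvd hm (Nat.prod_primeFactors_dvd m)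
  have h2 : ((2 : ℝ)) ^ m.primeFactors.card ≤ m := by exact_mod_cast h1
  have h3 := Real.log_le_log (by positivity) h2
  rwa [Real.log_pow] at h3

end RH

open RH

theorem rho_lower : ∃ c : ℝ, 0 < c ∧ ∀ A : ℕ, ∀ᶠ L : ℝ in atTop, ∀ X : ℝ, 0 < X →
    Real.log X = L → ∀ m : ℕ, 1 ≤ m → (m : ℝ) ≤ X ^ A → ∀ N : ℕ,
    c / Real.log L ≤ ∏ p ∈ (Icc 1 N).filter
      (fun p : ℕ => p.Prime ∧ ((p : ℝ) ≤ (Real.log X) ^ 4 ∨ p ∣ m)), (1 - 1 / (p : ℝ)) := by
  classical
  obtain ⟨c, C, hc, _, hV⟩ := Pool.Agent.Lib_helper10.Erdos460.V_bounds_succ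
  refine ⟨c / 8, by positivity, fun A => ?_⟩
  filter_upwards [eventually_ge_atTop (3 : ℝ), eventually_ge_atTop (4 * (A : ℝ))] with L hL3 hLA
  intro X hX hXL m hm hmX N
  rw [hXL]
  have hL0 : 0 < L := by linarith
  have hL4 : (81 : ℝ) ≤ L ^ 4 := by
    have : (3 : ℝ) ^ 4 ≤ L ^ 4 := pow_le_pow_left₀ (by norm_num) hL3 4
    norm_num at this
    exact this
  have hlogL : 0 < Real.log L := Real.log_pos (by linarith)
  set n : ℕ := ⌊L ^ 4⌋₊ with hn
  have hn2 : 2 ≤ n := by
    rw [hn]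
    apply Nat.le_floor
    push_cast
    linarith
  have hnL : (n : ℝ) ≤ L ^ 4 := Nat.floor_le (by positivity)
  set A1 : Finset ℕ := Nat.primesBelow (n + 1) with hA1
  set A2 : Finset ℕ := m.primeFactors.filter (fun p : ℕ => L ^ 4 < (p : ℝ)) with hA2
  have hdisj : Disjoint A1 A2 := by
    rw [Finset.disjoint_left]
    intro p h1 h2
    rw [hA1, Nat.mem_primesBelow] at h1
    rw [hA2, mem_filter] at h2
    have h3 : (p : ℝ) ≤ n := by exact_mod_cast (by omega : p ≤ n)
    linarith [h2.2]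
  have hA1p : ∀ p ∈ A1, p.Prime := fun p hp => (Nat.mem_primesBelow.1 hp).2
  have hA2p : ∀ p ∈ A2, p.Prime := fun p hp =>
    Nat.prime_of_mem_primeFactors (mem_filter.1 hp).1
  have hsub : (Icc 1 N).filter (fun p : ℕ => p.Prime ∧ ((p : ℝ) ≤ L ^ 4 ∨ p ∣ m)) ⊆ A1 ∪ A2 := by
    intro p hp
    rw [mem_filter] at hp
    obtain ⟨_, hpp, hor⟩ := hp
    rw [mem_union]
    rcases le_or_gt ((p : ℝ)) (L ^ 4) with h | h
    · left
      rw [hA1, Nat.mem_primesBelow]
      refine ⟨?_, hpp⟩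
      have := Nat.le_floor h
      omega
    · right
      rcases hor with h' | h'
      · linarith
      · rw [hA2, mem_filter, Nat.mem_primeFactors]
        exact ⟨⟨hpp, h', by omega⟩, h⟩
  have hfac : ∀ p : ℕ, p.Prime → 0 < 1 - 1 / (p : ℝ) ∧ 1 - 1 / (p : ℝ) ≤ 1 :=
    fun p hp => Pool.Agent.Lib_helper10.Erdos460.prime_factor_bounds hp
  have h1 : ∏ p ∈ A1 ∪ A2, (1 - 1 / (p : ℝ)) ≤ ∏ p ∈ (Icc 1 N).filter
      (fun p : ℕ => p.Prime ∧ ((p : ℝ) ≤ L ^ 4 ∨ p ∣ m)), (1 - 1 / (p : ℝ)) := by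
    rw [← Finset.prod_sdiff hsub]
    have h2 : ∏ p ∈ (A1 ∪ A2) \ (Icc 1 N).filter
        (fun p : ℕ => p.Prime ∧ ((p : ℝ) ≤ L ^ 4 ∨ p ∣ m)), (1 - 1 / (p : ℝ)) ≤ 1 := by
      apply Finset.prod_le_one
      · intro p hp
        rcases mem_union.1 (mem_sdiff.1 hp).1 with h | h
        · exact (hfac p (hA1p p h)).1.le
        · exact (hfac p (hA2p p h)).1.le
      · intro p hp
        rcases mem_union.1 (mem_sdiff.1 hp).1 with h | h
        · exact (hfac p (hA1p p h)).2
        · exact (hfac p (hA2p p h)).2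
    have h3 : 0 ≤ ∏ p ∈ (Icc 1 N).filter
        (fun p : ℕ => p.Prime ∧ ((p : ℝ) ≤ L ^ 4 ∨ p ∣ m)), (1 - 1 / (p : ℝ)) := by
      apply Finset.prod_nonneg
      intro p hp
      exact (hfac p (mem_filter.1 hp).2.1).1.le
    nlinarith
  refine le_trans ?_ h1
  rw [Finset.prod_union hdisj]
  have h2 : c / (4 * Real.log L) ≤ ∏ p ∈ A1, (1 - 1 / (p : ℝ)) := by
    have h3 := (hV n hn2).1
    have h4 : Real.log n ≤ 4 * Real.log L := by
      have h5 := Real.log_le_log (by
        have : (2 : ℝ) ≤ n := by exact_mod_cast hn2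
        linarith) hnL
      rw [Real.log_pow] at h5
      exact_mod_cast h5
    have h5 : 0 < Real.log n := Real.log_pos (by
      have : (2 : ℝ) ≤ n := by exact_mod_cast hn2
      linarith)
    refine le_trans ?_ h3
    exact div_le_div_of_nonneg_left hc.le h5 h4
  have h3 : (1 : ℝ) / 2 ≤ ∏ p ∈ A2, (1 - 1 / (p : ℝ)) := by
    have h4 := one_sub_sum_le (S := A2) (f := fun p => 1 / (p : ℝ))
      (by intro l _; positivity)
      (by
        intro l hl
        have : (2 : ℝ) ≤ l := by exact_mod_cast (hA2p l hl).two_le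
        rw [div_le_one (by linarith)]
        linarith)
    refine le_trans ?_ h4
    have h5 : ∑ p ∈ A2, 1 / (p : ℝ) ≤ ∑ _p ∈ A2, 1 / L ^ 4 := by
      apply Finset.sum_le_sum
      intro p hp
      exact one_div_le_one_div_of_le (by positivity) (mem_filter.1 hp).2.le
    rw [Finset.sum_const, nsmul_eq_mul] at h5
    have h6 : (A2.card : ℝ) ≤ m.primeFactors.card := by
      exact_mod_cast Finset.card_filter_le _ _
    have h7 := card_primeFactors_le m hm
    have h8 : Real.log m ≤ A * L := by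
      have h9 := Real.log_le_log (by exact_mod_cast hm) hmX
      rw [Real.log_pow, hXL] at h9
      exact h9
    have h9 : (1 : ℝ) / 2 < Real.log 2 := by
      have := Real.log_two_gt_d9
      linarith
    have h10 : (m.primeFactors.card : ℝ) ≤ 2 * (A * L) := by
      have h11 : (0 : ℝ) ≤ m.primeFactors.card := Nat.cast_nonneg _
      nlinarith
    have h11 : (A2.card : ℝ) * (1 / L ^ 4) ≤ 1 / 2 := by
      rw [mul_one_div, div_le_iff₀ (by positivity)]
      have h12 : (2 * ((A : ℝ) * L)) ≤ L * L / 2 := by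
        nlinarith
      have h13 : L * L / 2 ≤ 1 / 2 * L ^ 4 := by
        have h14 : (1 : ℝ) ≤ L ^ 2 := one_le_pow₀ (by linarith)
        nlinarith [sq_nonneg L]
      linarith
    linarith
  have h4 : 0 ≤ c / (4 * Real.log L) := by positivity
  calc c / 8 / Real.log L = c / (4 * Real.log L) * (1 / 2) := by
        field_simp
        norm_num
    _ ≤ _ := mul_le_mul h2 h3 (by norm_num) (h4.trans h2)

end

end Pool.Agent.Lib_helper9.LG
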