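import Mathlib
import Pool.Agent.Lib_helper9.LG.Stmts

set_option autoImplicit false

/-!
Lower bound for the sum of `1 / phi(r)` over the squarefree `r ≤ y` composed of primes of `PL m X`.
-/

namespace Pool.Agent.Lib_helper9.LG

open Finset

noncomputable section

namespace VL

/-- Reciprocals. -/
def fi : ℕ →* ℝ where
  toFun n := ((n : ℝ))⁻¹
  map_one' := by simp
  map_mul' a b := by push_cast; rw [mul_inv]

lemma fi_apply (n : ℕ) : fi n = ((n : ℝ))⁻¹ := rfl

/-- The numbers with a given set of prime factors. -/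
lemma fiber_le (T F : Finset ℕ) (hT : ∀ p ∈ T, p.Prime)
    (hF : ∀ n ∈ F, n ≠ 0 ∧ n.primeFactors = T) :
    ∑ n ∈ F, (1 : ℝ) / n ≤ ∏ p ∈ T, 1 / ((p : ℝ) - 1) := by
  classical
  have hnorm : ∀ {p : ℕ}, p.Prime → ‖fi p‖ < 1 := by
    intro p hp
    have h2 : (2 : ℝ) ≤ p := by exact_mod_cast hp.two_le
    rw [fi_apply, norm_inv, Real.norm_of_nonneg (by linarith)]
    exact inv_lt_one_of_one_lt₀ (by linarith)
  obtain ⟨_, hh⟩ :=
    EulerProduct.summable_and_hasSum_factoredNumbers_prod_filter_prime_geometric (f := fi) hnorm T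
  set R : ℕ := ∏ p ∈ T, p with hRdef
  have hR0 : 0 < R := Finset.prod_pos fun p hp => (hT p hp).pos
  have hR0' : (0 : ℝ) < R := by exact_mod_cast hR0
  have hR : ∀ n ∈ F, R ∣ n := by
    intro n hn
    have := Nat.prod_primeFactors_dvd n
    rwa [(hF n hn).2] at this
  have hmem : ∀ x ∈ F.image (fun n => n / R), x ∈ Nat.factoredNumbers T := by
    intro x hx
    rw [mem_image] at hx
    obtain ⟨n, hn, rfl⟩ := hx
    have h1 : n / R ≠ 0 := by
      intro h
      have h2 := Nat.div_mul_cancel (hR n hn)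
      rw [h, zero_mul] at h2
      exact (hF n hn).1 h2.symm
    rw [Nat.mem_factoredNumbers_iff_primeFactors_subset]
    refine ⟨h1, ?_⟩
    rw [← (hF n hn).2]
    exact Nat.primeFactors_mono (Nat.div_dvd_of_dvd (hR n hn)) (hF n hn).1
  have h1 : ∑ n ∈ F, (1 : ℝ) / n = (1 / R) * ∑ x ∈ F.image (fun n => n / R), fi x := by
    rw [Finset.sum_image]
    · rw [Finset.mul_sum]
      apply Finset.sum_congr rfl
      intro n hn
      rw [fi_apply, Nat.cast_div (hR n hn) hR0'.ne']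
      field_simp
    · intro a ha b hb hab
      have h2 := Nat.div_mul_cancel (hR a ha)
      have h3 := Nat.div_mul_cancel (hR b hb)
      dsimp only at hab
      rw [← h2, ← h3, hab]
  have h2 : ∑ x ∈ F.image (fun n => n / R), fi x ≤ ∏ p ∈ T with p.Prime, (1 - fi p)⁻¹ := by
    rw [← Finset.sum_subtype_of_mem (fun x => fi x) hmem]
    apply sum_le_hasSum _ _ hh
    intro i _
    rw [fi_apply]
    positivity
  have h3 : ∏ p ∈ T with p.Prime, (1 - fi p)⁻¹ = ∏ p ∈ T, (1 - fi p)⁻¹ := by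
    rw [Finset.filter_true_of_mem hT]
  have h4 : (1 / (R : ℝ)) * ∏ p ∈ T, (1 - fi p)⁻¹ = ∏ p ∈ T, 1 / ((p : ℝ) - 1) := by
    rw [hRdef, Nat.cast_prod, one_div, ← Finset.prod_inv_distrib, ← Finset.prod_mul_distrib]
    apply Finset.prod_congr rfl
    intro p hp
    have h5 : (2 : ℝ) ≤ p := by exact_mod_cast (hT p hp).two_le
    have h6 : (p : ℝ) ≠ 0 := by linarith
    have h7 : (p : ℝ) - 1 ≠ 0 := by linarith
    rw [fi_apply]
    field_simp
  rw [h1, ← h4, ← h3]
  exact mul_le_mul_of_nonneg_left h2 (by positivity)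

/-- The sum of `1 / phi(r)` over the squarefree `r ≤ exp t` composed of primes of `Q`. -/
def VQ (Q : Finset ℕ) (t : ℝ) : ℝ :=
  ∑ T ∈ Q.powerset, if ∑ l ∈ T, Real.log l ≤ t then ∏ l ∈ T, 1 / ((l : ℝ) - 1) else 0

lemma term_nonneg {T : Finset ℕ} (hT : ∀ l ∈ T, l.Prime) (t : ℝ) :
    0 ≤ (if ∑ l ∈ T, Real.log l ≤ t then ∏ l ∈ T, 1 / ((l : ℝ) - 1) else 0) := by
  split_ifs
  · apply Finset.prod_nonneg
    intro l hl
    have : (2 : ℝ) ≤ l := by exact_mod_cast (hT l hl).two_le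
    apply div_nonneg <;> linarith
  · exact le_rfl

lemma VQ_nonneg {Q : Finset ℕ} (hQ : ∀ l ∈ Q, l.Prime) (t : ℝ) : 0 ≤ VQ Q t :=
  Finset.sum_nonneg fun _ hT => term_nonneg (fun l hl => hQ l (mem_powerset.1 hT hl)) t

lemma VQ_mono {Q Q' : Finset ℕ} (h : Q ⊆ Q') (hQ : ∀ l ∈ Q', l.Prime) (t : ℝ) :
    VQ Q t ≤ VQ Q' t :=
  Finset.sum_le_sum_of_subset_of_nonneg (powerset_mono.2 h) fun _ hT _ =>
    term_nonneg (fun l hl => hQ l (mem_powerset.1 hT hl)) t

/-- The classical lower bound by the harmonic sum. -/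
lemma harm_le (N : ℕ) (t : ℝ) (ht : Real.log N ≤ t) :
    ∑ n ∈ Icc 1 N, (1 : ℝ) / n ≤ VQ ((Icc 1 N).filter Nat.Prime) t := by
  classical
  have hmaps : ∀ n ∈ Icc 1 N, n.primeFactors ∈ ((Icc 1 N).filter Nat.Prime).powerset := by
    intro n hn
    rw [mem_Icc] at hn
    rw [mem_powerset]
    intro p hp
    rw [Nat.mem_primeFactors] at hp
    rw [mem_filter, mem_Icc]
    exact ⟨⟨hp.1.one_le, (Nat.le_of_dvd (by omega) hp.2.1).trans hn.2⟩, hp.1⟩
  rw [← Finset.sum_fiberwise_of_maps_to hmaps]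
  apply Finset.sum_le_sum
  intro T hT
  have hTp : ∀ p ∈ T, p.Prime := by
    intro p hp
    exact (mem_filter.1 (mem_powerset.1 hT hp)).2
  by_cases he : ((Icc 1 N).filter (fun n => n.primeFactors = T)).Nonempty
  · obtain ⟨n, hn⟩ := he
    rw [mem_filter, mem_Icc] at hn
    obtain ⟨⟨hn1, hnN⟩, hnT⟩ := hn
    have h1 : ∑ l ∈ T, Real.log l ≤ t := by
      rw [← Real.log_prod (fun l hl => by
        have := (hTp l hl).pos
        positivity)]
      refine le_trans ?_ ht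
      apply Real.log_le_log
      · apply Finset.prod_pos
        intro l hl
        exact_mod_cast (hTp l hl).pos
      · rw [← Nat.cast_prod]
        have h2 : ∏ l ∈ T, l ≤ n := by
          rw [← hnT]
          exact Nat.le_of_dvd (by omega) (Nat.prod_primeFactors_dvd n)
        exact_mod_cast h2.trans hnN
    rw [if_pos h1]
    apply fiber_le T _ hTp
    intro k hk
    rw [mem_filter, mem_Icc] at hk
    exact ⟨by omega, hk.2⟩
  · rw [not_nonempty_iff_eq_empty] at he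
    rw [he, Finset.sum_empty]
    exact term_nonneg hTp t

/-- Removing one prime. -/
lemma VQ_insert {Q : Finset ℕ} {p : ℕ} (hQ : ∀ l ∈ Q, l.Prime) (hp : p.Prime) (hpQ : p ∉ Q)
    (t : ℝ) : (1 - 1 / (p : ℝ)) * VQ (insert p Q) t ≤ VQ Q t := by
  have h2 : (2 : ℝ) ≤ p := by exact_mod_cast hp.two_le
  have hlog : 0 ≤ Real.log p := Real.log_nonneg (by linarith)
  have h1 : VQ (insert p Q) t ≤ (1 + 1 / ((p : ℝ) - 1)) * VQ Q t := by
    unfold VQ
    rw [Finset.sum_powerset_insert hpQ, one_add_mul, Finset.mul_sum]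
    apply add_le_add le_rfl
    apply Finset.sum_le_sum
    intro T hT
    have hTQ := mem_powerset.1 hT
    have hpT : p ∉ T := fun h => hpQ (hTQ h)
    rw [Finset.sum_insert hpT, Finset.prod_insert hpT]
    have h3 : (0 : ℝ) ≤ 1 / ((p : ℝ) - 1) := by apply div_nonneg <;> linarith
    have h4 : 0 ≤ ∏ l ∈ T, 1 / ((l : ℝ) - 1) := by
      apply Finset.prod_nonneg
      intro l hl
      have : (2 : ℝ) ≤ l := by exact_mod_cast (hQ l (hTQ hl)).two_le
      apply div_nonneg <;> linarith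
    split_ifs with h5 h6
    · exact le_rfl
    · linarith
    · positivity
    · simp
  have h3 : (0 : ℝ) ≤ 1 - 1 / p := by
    rw [sub_nonneg, div_le_one (by linarith)]
    linarith
  calc (1 - 1 / (p : ℝ)) * VQ (insert p Q) t ≤
        (1 - 1 / (p : ℝ)) * ((1 + 1 / ((p : ℝ) - 1)) * VQ Q t) :=
        mul_le_mul_of_nonneg_left h1 h3
    _ = VQ Q t := by
        have h6 : (p : ℝ) ≠ 0 := by linarith
        have h7 : (p : ℝ) - 1 ≠ 0 := by linarith
        field_simp
        ring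

/-- Removing a set of primes. -/
lemma VQ_union {Q : Finset ℕ} (hQ : ∀ l ∈ Q, l.Prime) (t : ℝ) (P : Finset ℕ)
    (hP : ∀ l ∈ P, l.Prime) (hd : Disjoint P Q) :
    (∏ p ∈ P, (1 - 1 / (p : ℝ))) * VQ (P ∪ Q) t ≤ VQ Q t := by
  induction P using Finset.induction_on with
  | empty => simp
  | insert p P hp ih =>
    have h1 : p.Prime := hP p (mem_insert_self p P)
    have h2 : ∀ l ∈ P, l.Prime := fun l hl => hP l (mem_insert_of_mem hl)
    rw [disjoint_insert_left] at hd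
    have h3 : p ∉ P ∪ Q := by
      rw [mem_union, not_or]
      exact ⟨hp, hd.1⟩
    have h4 : ∀ l ∈ P ∪ Q, l.Prime := by
      intro l hl
      rcases mem_union.1 hl with h | h
      · exact h2 l h
      · exact hQ l h
    rw [Finset.prod_insert hp, insert_union]
    have h5 := VQ_insert h4 h1 h3 t
    have h6 : 0 ≤ ∏ p ∈ P, (1 - 1 / (p : ℝ)) := by
      apply Finset.prod_nonneg
      intro l hl
      have : (2 : ℝ) ≤ l := by exact_mod_cast (h2 l hl).two_le
      rw [sub_nonneg, div_le_one (by linarith)]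
      linarith
    calc (1 - 1 / (p : ℝ)) * (∏ p ∈ P, (1 - 1 / (p : ℝ))) * VQ (insert p (P ∪ Q)) t =
          (∏ p ∈ P, (1 - 1 / (p : ℝ))) * ((1 - 1 / (p : ℝ)) * VQ (insert p (P ∪ Q)) t) := by ring
      _ ≤ (∏ p ∈ P, (1 - 1 / (p : ℝ))) * VQ (P ∪ Q) t := mul_le_mul_of_nonneg_left h5 h6
      _ ≤ _ := ih h2 hd.2

/-- The two forms of the sum. -/
lemma VQ_PL (m : ℕ) (X t : ℝ) : VQ (PL m X) t = ∑ T : Finset {l // l ∈ PL m X},
    if sz (fun i : {l // l ∈ PL m X} => Real.log ((i : ℕ) : ℝ)) T ≤ t then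
      1 / ph (fun i : {l // l ∈ PL m X} => ((i : ℕ) : ℝ) - 1) T else 0 := by
  classical
  unfold VQ
  symm
  refine Finset.sum_nbij' (i := fun T => T.map (Function.Embedding.subtype _))
    (j := fun T => T.subtype (fun l => l ∈ PL m X)) ?_ ?_ ?_ ?_ ?_
  · intro T _
    rw [mem_powerset]
    intro l hl
    rw [mem_map] at hl
    obtain ⟨i, _, rfl⟩ := hl
    exact i.2
  · intro T _
    exact mem_univ _
  · intro T _
    ext i
    simp
  · intro T hT
    rw [mem_powerset] at hT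
    ext l
    simp only [mem_map, mem_subtype, Function.Embedding.subtype_apply, Subtype.exists,
      exists_and_left, exists_prop, exists_eq_right_right]
    constructor
    · intro h
      exact h.1
    · intro h
      exact ⟨h, hT h⟩
  · intro T _
    rw [sz, ph, Finset.sum_map, Finset.prod_map, one_div, ← Finset.prod_inv_distrib]
    simp only [Function.Embedding.subtype_apply, one_div]

end VL

open VL

theorem vlow (m : ℕ) (X y : ℝ) (hm : 1 ≤ m) (hy1 : 1 ≤ y)
    (hy : y ≤ Real.exp (Real.sqrt (Real.log X))) :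
    (∏ p ∈ (Icc 1 ⌊y⌋₊).filter (fun p : ℕ => p.Prime ∧ ((p : ℝ) ≤ (Real.log X) ^ 4 ∨ p ∣ m)),
      (1 - 1 / (p : ℝ))) * Real.log y ≤
    ∑ T : Finset {l // l ∈ PL m X},
      if sz (fun i : {l // l ∈ PL m X} => Real.log ((i : ℕ) : ℝ)) T ≤ Real.log y then
        1 / ph (fun i : {l // l ∈ PL m X} => ((i : ℕ) : ℝ) - 1) T else 0 := by
  classical
  have _ := hm
  rw [← VQ_PL]
  set N : ℕ := ⌊y⌋₊ with hN
  set P0 := (Icc 1 N).filter (fun p : ℕ => p.Prime ∧ ((p : ℝ) ≤ (Real.log X) ^ 4 ∨ p ∣ m)) with hP0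
  set Q1 := (Icc 1 N).filter
    (fun p : ℕ => p.Prime ∧ ¬ ((p : ℝ) ≤ (Real.log X) ^ 4 ∨ p ∣ m)) with hQ1
  have hy0 : 0 ≤ y := by linarith
  have hNy : (N : ℝ) ≤ y := Nat.floor_le hy0
  have hN1 : 1 ≤ N := by
    rw [hN]
    exact Nat.le_floor (by simpa using hy1)
  have hPp : ∀ l ∈ P0, l.Prime := fun l hl => (mem_filter.1 hl).2.1
  have hQp : ∀ l ∈ Q1, l.Prime := fun l hl => (mem_filter.1 hl).2.1
  have hdisj : Disjoint P0 Q1 := by
    rw [Finset.disjoint_left]
    intro l h1 h2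
    exact (mem_filter.1 h2).2.2 (mem_filter.1 h1).2.2
  have hunion : P0 ∪ Q1 = (Icc 1 N).filter Nat.Prime := by
    ext l
    rw [mem_union, hP0, hQ1, mem_filter, mem_filter, mem_filter]
    tauto
  have hsub : Q1 ⊆ PL m X := by
    intro l hl
    rw [hQ1, mem_filter, mem_Icc, not_or, not_le] at hl
    unfold PL
    rw [mem_filter, mem_Icc]
    refine ⟨⟨hl.1.1, ?_⟩, hl.2.1, hl.2.2.1, hl.2.2.2⟩
    exact hl.1.2.trans (Nat.floor_mono hy)
  have hPLp : ∀ l ∈ PL m X, l.Prime := by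
    intro l hl
    unfold PL at hl
    exact (mem_filter.1 hl).2.1
  have h1 := VQ_mono hsub hPLp (Real.log y)
  have h2 := VQ_union hQp (Real.log y) P0 hPp hdisj
  rw [hunion] at h2
  have h3 := harm_le N (Real.log y) (Real.log_le_log (by exact_mod_cast hN1) hNy)
  have h4 : Real.log y ≤ ∑ n ∈ Icc 1 N, (1 : ℝ) / n := by
    have h5 := log_add_one_le_harmonic N
    rw [harmonic_eq_sum_Icc] at h5
    push_cast at h5
    have h6 : y ≤ (N : ℝ) + 1 := (Nat.lt_floor_add_one y).le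
    calc Real.log y ≤ Real.log ((N : ℝ) + 1) := Real.log_le_log (by linarith) h6
      _ ≤ ∑ n ∈ Icc 1 N, ((n : ℝ))⁻¹ := h5
      _ = _ := by
          apply Finset.sum_congr rfl
          intro n _
          rw [one_div]
  have h7 : 0 ≤ ∏ p ∈ P0, (1 - 1 / (p : ℝ)) := by
    apply Finset.prod_nonneg
    intro l hl
    have : (2 : ℝ) ≤ l := by exact_mod_cast (hPp l hl).two_le
    rw [sub_nonneg, div_le_one (by linarith)]
    linarith
  calc (∏ p ∈ P0, (1 - 1 / (p : ℝ))) * Real.log y ≤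
        (∏ p ∈ P0, (1 - 1 / (p : ℝ))) * VQ ((Icc 1 N).filter Nat.Prime) (Real.log y) :=
        mul_le_mul_of_nonneg_left (h4.trans h3) h7
    _ ≤ VQ Q1 (Real.log y) := h2
    _ ≤ _ := h1

end

end Pool.Agent.Lib_helper9.LG
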