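import Mathlib
import Pool.Agent.Lib_helper9.LG.Stmts
import Pool.Agent.Lib_helper9.LG.Vlow
import Pool.Agent.Lib_helper9.LG.Dyad
import Pool.Agent.Lib_helper9.LG.Rho

set_option autoImplicit false

/-!
The cost of a site is bounded: `StmtSIGMA`.
-/

namespace Pool.Agent.Lib_helper9.LG

open Finset Filter

noncomputable section

theorem sigmaH2 : StmtSIGMA := by
  classical
  obtain ⟨c, hc, hrho⟩ := rho_lower
  refine ⟨c / 16, by positivity, fun A => ?_⟩
  have hev : ∀ᶠ L : ℝ in atTop, 3 ≤ L ∧ 4 * Real.log L ≤ L ^ (1 / 4 : ℝ) ∧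
      1 ≤ Real.log L ∧ 4 / c ≤ Real.log L ∧ ∀ X : ℝ, 0 < X →
      Real.log X = L → ∀ m : ℕ, 1 ≤ m → (m : ℝ) ≤ X ^ A → ∀ N : ℕ,
      c / Real.log L ≤ ∏ p ∈ (Icc 1 N).filter
        (fun p : ℕ => p.Prime ∧ ((p : ℝ) ≤ (Real.log X) ^ 4 ∨ p ∣ m)), (1 - 1 / (p : ℝ)) := by
    have h1 : ∀ᶠ L : ℝ in atTop, 4 * Real.log L ≤ L ^ (1 / 4 : ℝ) := by
      have h2 := (isLittleO_log_rpow_atTop (r := (1 / 4 : ℝ)) (by norm_num)).bound
        (c := 1 / 4) (by norm_num)
      filter_upwards [h2, eventually_ge_atTop (1 : ℝ)] with L hL hL1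
      rw [Real.norm_of_nonneg (Real.log_nonneg hL1),
        Real.norm_of_nonneg (Real.rpow_nonneg (by linarith) _)] at hL
      linarith
    filter_upwards [eventually_ge_atTop (3 : ℝ), h1,
      Real.tendsto_log_atTop.eventually (eventually_ge_atTop (1 : ℝ)),
      Real.tendsto_log_atTop.eventually (eventually_ge_atTop (4 / c)), hrho A] with L a1 a2 a3 a4 a5
    exact ⟨a1, a2, a3, a4, a5⟩
  obtain ⟨L₀, hL₀⟩ := eventually_atTop.1 hev
  refine ⟨Real.exp L₀, fun X hX m hm hmX => ?_⟩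
  have hX0 : 0 < X := lt_of_lt_of_le (Real.exp_pos _) hX
  set L := Real.log X with hL
  have hLL : L₀ ≤ L := by
    rw [hL, Real.le_log_iff_exp_le hX0]
    exact hX
  obtain ⟨h3, h4, hlog1, hlogc, hr⟩ := hL₀ L hLL
  have hL0 : 0 < L := by linarith
  set ll := Real.log L with hll
  set B1 := Real.sqrt L with hB1
  set a := 4 * ll with ha
  have ha0 : 0 < a := by rw [ha]; linarith
  set I : ℕ := ⌊ll / 4⌋₊ + 1 with hI
  have hIlow : ll / 4 ≤ I := by
    rw [hI]
    push_cast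
    exact (Nat.lt_floor_add_one _).le
  have hti : ∀ i < I, (2 : ℝ) ^ i * a ≤ B1 := by
    intro i hi
    have h5 : i ≤ ⌊ll / 4⌋₊ := by omega
    have h6 : (i : ℝ) ≤ ll / 4 := by
      calc (i : ℝ) ≤ ⌊ll / 4⌋₊ := by exact_mod_cast h5
        _ ≤ ll / 4 := Nat.floor_le (by linarith)
    have h7 : (2 : ℝ) ^ i ≤ L ^ (1 / 4 : ℝ) := by
      have h8 : (2 : ℝ) ≤ Real.exp 1 := by
        have := Real.add_one_le_exp (1 : ℝ)
        linarith
      calc (2 : ℝ) ^ i ≤ Real.exp 1 ^ i := pow_le_pow_left₀ (by norm_num) h8 i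
        _ = Real.exp i := by rw [← Real.exp_nat_mul, mul_one]
        _ ≤ Real.exp (ll / 4) := Real.exp_le_exp.2 h6
        _ = L ^ (1 / 4 : ℝ) := by
            rw [Real.rpow_def_of_pos hL0]
            congr 1
            ring
    calc (2 : ℝ) ^ i * a ≤ L ^ (1 / 4 : ℝ) * L ^ (1 / 4 : ℝ) :=
          mul_le_mul h7 h4 ha0.le (by positivity)
      _ = B1 := by
          rw [← Real.rpow_add hL0, hB1, Real.sqrt_eq_rpow]
          norm_num
  have hlam : ∀ i : {l // l ∈ PL m X}, 0 < Real.log ((i : ℕ) : ℝ) := by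
    intro i
    have h5 := (Finset.mem_filter.1 i.2).2.1.two_le
    exact Real.log_pos (by exact_mod_cast (by omega : 1 < (i : ℕ)))
  have hq : ∀ i : {l // l ∈ PL m X}, 0 < ((i : ℕ) : ℝ) - 1 := by
    intro i
    have h5 := (Finset.mem_filter.1 i.2).2.1.two_le
    have : (2 : ℝ) ≤ ((i : ℕ) : ℝ) := by exact_mod_cast h5
    linarith
  have hd := dyad hlam hq ha0 I hti
  refine le_trans ?_ hd
  -- lower bound for each term
  have hterm : ∀ i ∈ range I, c / ll / 2 - 1 / (2 * (2 ^ i * a)) ≤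
      (VV (fun i : {l // l ∈ PL m X} => Real.log ((i : ℕ) : ℝ))
        (fun i : {l // l ∈ PL m X} => ((i : ℕ) : ℝ) - 1) (2 ^ i * a) - 1) /
        (2 * (2 ^ i * a)) := by
    intro i hi
    have hi' := mem_range.1 hi
    set t : ℝ := 2 ^ i * a with ht
    have ht0 : 0 < t := by positivity
    have h5 := vlow m X (Real.exp t) hm (Real.one_le_exp ht0.le)
      (Real.exp_le_exp.2 (hti i hi'))
    rw [Real.log_exp] at h5
    have h6 := hr X hX0 rfl m hm hmX ⌊Real.exp t⌋₊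
    have h7 : c / ll * t ≤ VV (fun i : {l // l ∈ PL m X} => Real.log ((i : ℕ) : ℝ))
        (fun i : {l // l ∈ PL m X} => ((i : ℕ) : ℝ) - 1) t :=
      (mul_le_mul_of_nonneg_right h6 ht0.le).trans h5
    rw [le_div_iff₀ (by positivity)]
    have h8 : (c / ll / 2 - 1 / (2 * t)) * (2 * t) = c / ll * t - 1 := by
      field_simp
    rw [h8]
    linarith
  refine le_trans ?_ (Finset.sum_le_sum hterm)
  rw [Finset.sum_sub_distrib, Finset.sum_const, card_range, nsmul_eq_mul]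
  have h9 : ∑ i ∈ range I, 1 / (2 * ((2 : ℝ) ^ i * a)) ≤ 1 / a := by
    have h10 := dyad_le ha0 ha0 I
    have h11 : ∑ i ∈ range I, (if a ≤ 2 ^ i * a then 1 / (2 * ((2 : ℝ) ^ i * a)) else 0) =
        ∑ i ∈ range I, 1 / (2 * ((2 : ℝ) ^ i * a)) := by
      apply Finset.sum_congr rfl
      intro i _
      rw [if_pos]
      have : (1 : ℝ) ≤ 2 ^ i := one_le_pow₀ (by norm_num)
      nlinarith
    rw [← h11]
    exact h10
  have hll0 : 0 < ll := by linarith
  have h12 : (ll / 4) * (c / ll / 2) ≤ I * (c / ll / 2) :=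
    mul_le_mul_of_nonneg_right hIlow (by positivity)
  have h13 : (ll / 4) * (c / ll / 2) = c / 8 := by
    field_simp
    norm_num
  have h14 : 1 / a ≤ c / 16 := by
    rw [ha, div_le_div_iff₀ (by positivity) (by norm_num)]
    rw [div_le_iff₀ hc] at hlogc
    nlinarith
  linarith

end

end Pool.Agent.Lib_helper9.LG
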