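import Pool.Agent.Lib_helper9.LG.StmtsD

set_option autoImplicit false

/-!
Theorem D (positive proportion in every interval of length `m ^ ε`) from the engine.
-/

namespace Pool.Agent.Lib_helper9.LG

open Finset

namespace THDd

theorem dvd_WW {m : ℕ} {L : ℝ} {q : ℕ} (hq : q.Prime) (h : q ∣ WW m L) :
    q ≤ ⌊Real.sqrt L⌋₊ ∧ ¬ q ∣ m := by
  rw [WW, Prime.dvd_finsetProd_iff hq.prime] at h
  obtain ⟨p, hp, hd⟩ := h
  rw [mem_filter, mem_Icc] at hp
  have := (Nat.prime_dvd_prime_iff_eq hq hp.2.1).1 hd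
  rw [this]
  exact ⟨hp.1.2, hp.2.2⟩

theorem WW_pos (m : ℕ) (L : ℝ) : 1 ≤ WW m L := by
  rw [WW]
  apply Nat.one_le_iff_ne_zero.2
  rw [Finset.prod_ne_zero_iff]
  intro p hp
  exact (mem_filter.1 hp).2.1.ne_zero

theorem WW_le (m : ℕ) (L : ℝ) : WW m L ≤ 4 ^ ⌊Real.sqrt L⌋₊ := by
  refine le_trans ?_ (primorial_le_four_pow ⌊Real.sqrt L⌋₊)
  rw [WW, primorial]
  apply Finset.prod_le_prod_of_subset_of_one_le'
  · intro p hp
    rw [mem_filter, mem_Icc] at hp
    rw [mem_filter, mem_range]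
    exact ⟨by omega, hp.2.1⟩
  · intro p hp _
    exact (mem_filter.1 hp).2.pos

theorem WW_coprime (m : ℕ) (L : ℝ) : (WW m L).Coprime m := by
  rw [WW]
  apply Nat.Coprime.prod_left
  intro p hp
  rw [mem_filter] at hp
  exact (Nat.Prime.coprime_iff_not_dvd hp.2.1).2 hp.2.2

theorem VS_nonneg (m : ℕ) (L z : ℝ) : 0 ≤ VS (SPr m L z) 1 := by
  rw [VS]
  apply Finset.prod_nonneg
  intro l hl
  rw [SPr, mem_filter] at hl
  have h1 : (1 : ℝ) ≤ l := by exact_mod_cast hl.2.1.one_lt.le
  have h2 : ((1 : ℕ) : ℝ) / l ≤ 1 := by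
    rw [div_le_one (by linarith)]
    push_cast
    exact h1
  linarith

/-- The first member of a class modulo `W` from `y` on. -/
def fst (W y r : ℕ) : ℕ := y + (r + (W - y % W)) % W

theorem fst_mod {W y r : ℕ} (hW : 1 ≤ W) : fst W y r ≡ r [MOD W] := by
  have h1 : y % W ≤ W := (Nat.mod_lt _ (by omega)).le
  have h2 : fst W y r ≡ y + (r + (W - y % W)) [MOD W] := by
    rw [fst]
    exact Nat.ModEq.add_left _ (Nat.mod_modEq _ _)
  refine h2.trans ?_
  have h3 : y + (r + (W - y % W)) ≡ y % W + (r + (W - y % W)) [MOD W] :=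
    Nat.ModEq.add_right _ (Nat.mod_modEq _ _).symm
  refine h3.trans ?_
  have h4 : y % W + (r + (W - y % W)) = r + W := by omega
  rw [h4]
  exact Nat.add_modEq_right

theorem fst_lt {W y r : ℕ} (hW : 1 ≤ W) : fst W y r < y + W := by
  rw [fst]
  have := Nat.mod_lt (r + (W - y % W)) (show 0 < W by omega)
  omega

theorem le_fst {W y r : ℕ} : y ≤ fst W y r := by
  rw [fst]
  omega

/-- Counting: many classes with many good members each. -/
theorem count (G R : Finset ℕ) (W y : ℕ) (hW : 1 ≤ W) (gr : ℕ → Finset ℕ) (a : ℝ)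
    (hR : ∀ r ∈ R, r < W) (hsub : ∀ r ∈ R, ∀ x ∈ gr r, fst W y r + W * x ∈ G)
    (ha : ∀ r ∈ R, a ≤ ((gr r).card : ℝ)) : (R.card : ℝ) * a ≤ (G.card : ℝ) := by
  classical
  set T : ℕ → Finset ℕ := fun r => (gr r).image (fun x => fst W y r + W * x) with hT
  have hcard : ∀ r, (T r).card = (gr r).card := by
    intro r
    rw [hT]
    apply Finset.card_image_of_injective
    intro x x' h
    have h1 : W * x = W * x' := by
      have h2 : fst W y r + W * x = fst W y r + W * x' := h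
      omega
    exact Nat.eq_of_mul_eq_mul_left (by omega) h1
  have hdisj : ∀ r ∈ R, ∀ r' ∈ R, r ≠ r' → Disjoint (T r) (T r') := by
    intro r hr r' hr' hne
    rw [Finset.disjoint_left]
    intro c hc hc'
    obtain ⟨x, -, rfl⟩ := Finset.mem_image.1 hc
    obtain ⟨x', -, h⟩ := Finset.mem_image.1 hc'
    apply hne
    have h1 : fst W y r + W * x ≡ r [MOD W] := by
      have h2 : fst W y r + W * x ≡ r + 0 [MOD W] :=
        Nat.ModEq.add (fst_mod hW) (Nat.modEq_zero_iff_dvd.2 (dvd_mul_right _ _))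
      exact h2
    have h3 : fst W y r' + W * x' ≡ r' [MOD W] := by
      have h2 : fst W y r' + W * x' ≡ r' + 0 [MOD W] :=
        Nat.ModEq.add (fst_mod hW) (Nat.modEq_zero_iff_dvd.2 (dvd_mul_right _ _))
      exact h2
    have h4 : r ≡ r' [MOD W] := by
      refine h1.symm.trans ?_
      have h5 : fst W y r' + W * x' = fst W y r + W * x := h
      rw [← h5]
      exact h3
    exact Nat.ModEq.eq_of_lt_of_lt h4 (hR r hr) (hR r' hr')
  have hle : (R.biUnion T).card ≤ G.card := by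
    apply Finset.card_le_card
    intro c hc
    obtain ⟨r, hr, hc⟩ := Finset.mem_biUnion.1 hc
    obtain ⟨x, hx, rfl⟩ := Finset.mem_image.1 hc
    exact hsub r hr x hx
  rw [Finset.card_biUnion hdisj] at hle
  have h6 : (R.card : ℝ) * a ≤ ((∑ r ∈ R, (T r).card : ℕ) : ℝ) := by
    rw [Nat.cast_sum, ← nsmul_eq_mul]
    apply Finset.card_nsmul_le_sum
    intro r hr
    rw [hcard]
    exact ha r hr
  exact h6.trans (by exact_mod_cast hle)

end THDd

open THDd in
theorem thd (h1 : StmtED) (h2 : StmtKVB) (h3 : StmtPIGD) : StmtD := by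
  classical
  obtain ⟨C, hC, hKVB⟩ := h2
  intro t ε ht hε hε1
  set A := ⌈2 / ε⌉₊ + 1 with hA
  set t' : ℝ := 2 * t / ε with ht'
  have ht'0 : 0 < t' := by positivity
  have hC₀ : 0 < C * t' := by positivity
  obtain ⟨η, δ, hη, hδ, L₁, hED⟩ := h1 (C * t') hC₀ A
  obtain ⟨L₂, hKVB⟩ := hKVB t' η ht'0 hη A
  refine ⟨δ / 4, by positivity, ?_⟩
  set U : ℝ := 400 / ε + 2 * |L₁| / ε + 2 * |L₂| / ε + 4 * t / ε ^ 2 + 10 with hU
  refine ⟨⌈Real.exp U⌉₊, ?_⟩
  intro m hm y hy hym
  have hmexp : Real.exp U ≤ m := (Nat.le_ceil _).trans (by exact_mod_cast hm)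
  have hm0 : (0 : ℝ) < m := (Real.exp_pos _).trans_le hmexp
  have hmne : m ≠ 0 := by
    rintro rfl
    simp at hm0
  have hm1 : 1 ≤ m := Nat.one_le_iff_ne_zero.2 hmne
  set u := Real.log m with hu
  have hUu : U ≤ u := by
    rw [hu, Real.le_log_iff_exp_le hm0]
    exact hmexp
  have t1 : 0 ≤ 400 / ε := by positivity
  have t2 : 0 ≤ 2 * |L₁| / ε := by positivity
  have t3 : 0 ≤ 2 * |L₂| / ε := by positivity
  have t4 : 0 ≤ 4 * t / ε ^ 2 := by positivity
  have hu10 : 10 ≤ u := by linarith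
  have hu0 : 0 < u := by linarith
  have hu1 : 400 ≤ ε * u := by
    have : 400 / ε ≤ u := by linarith
    rwa [div_le_iff₀' (by positivity)] at this
  have hu2 : 2 * |L₁| ≤ ε * u := by
    have : 2 * |L₁| / ε ≤ u := by linarith
    rwa [div_le_iff₀' (by positivity)] at this
  have hu3 : 2 * |L₂| ≤ ε * u := by
    have : 2 * |L₂| / ε ≤ u := by linarith
    rwa [div_le_iff₀' (by positivity)] at this
  have hu4 : 4 * t ≤ ε ^ 2 * u := by
    have : 4 * t / ε ^ 2 ≤ u := by linarith
    rwa [div_le_iff₀' (by positivity)] at this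
  -- the length of the interval
  have hmε : 0 < (m : ℝ) ^ ε := Real.rpow_pos_of_pos hm0 _
  set X : ℝ := (m : ℝ) ^ ε / 2 with hXdef
  have hXpos : 0 < X := by positivity
  have hlogX : Real.log X = ε * u - Real.log 2 := by
    rw [hXdef, Real.log_div hmε.ne' (by norm_num), Real.log_rpow hm0]
  set L := Real.log X with hL
  have hlog2 : Real.log 2 < 1 := by
    have := Real.log_two_lt_d9
    linarith
  have hlog2p : 0 < Real.log 2 := Real.log_pos (by norm_num)
  have hL1 : ε * u / 2 ≤ L := by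
    rw [hlogX]
    linarith
  have hL200 : 199 ≤ L := by linarith
  have hL0 : 0 < L := by linarith
  have hXexp : X = Real.exp L := by
    rw [hL, Real.exp_log hXpos]
  have hXL : L ≤ X := by
    rw [hXexp]
    have := Real.add_one_le_exp L
    linarith
  have hLL1 : L₁ ≤ L := by
    have := le_abs_self L₁
    linarith
  have hLL2 : L₂ ≤ L := by
    have := le_abs_self L₂
    linarith
  have huL : u ≤ 2 / ε * L := by
    calc u = (2 / ε) * (ε * u / 2) := by field_simp
      _ ≤ 2 / ε * L := mul_le_mul_of_nonneg_left hL1 (by positivity)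
  have hAL : 2 / ε + 1 ≤ (A : ℝ) := by
    rw [hA]
    push_cast
    have := Nat.le_ceil (2 / ε)
    linarith
  have hlogm : Real.log m ≤ A * L := by
    rw [← hu]
    refine huL.trans ?_
    apply mul_le_mul_of_nonneg_right _ hL0.le
    linarith
  -- the modulus
  set z := ⌊Real.sqrt L⌋₊ with hz
  have hsq14 : 14 ≤ Real.sqrt L := by
    apply Real.le_sqrt_of_sq_le
    linarith
  have hsqL : Real.sqrt L ≤ L := by
    have h5 : 1 * Real.sqrt L ≤ Real.sqrt L * Real.sqrt L :=
      mul_le_mul_of_nonneg_right (by linarith) (Real.sqrt_nonneg _)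
    rw [Real.mul_self_sqrt hL0.le] at h5
    linarith
  have hzle : (z : ℝ) ≤ Real.sqrt L := Nat.floor_le (Real.sqrt_nonneg _)
  set W := WW m L with hW
  have hW1 : 1 ≤ W := WW_pos m L
  have hW1' : (1 : ℝ) ≤ W := by exact_mod_cast hW1
  have hW0 : (0 : ℝ) < W := by linarith
  have hWle : (W : ℝ) ≤ 4 ^ z := by exact_mod_cast WW_le m L
  have hlog4 : Real.log 4 < 1.4 := by
    have h1 : Real.log 4 = 2 * Real.log 2 := by
      rw [show (4 : ℝ) = 2 ^ 2 by norm_num, Real.log_pow]
      norm_num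
    have := Real.log_two_lt_d9
    rw [h1]
    linarith
  have hW8 : (W : ℝ) ^ 8 ≤ Real.exp L := by
    have h1 : (W : ℝ) ^ 8 ≤ ((4 : ℝ) ^ z) ^ 8 := pow_le_pow_left₀ (by linarith) hWle 8
    have h2 : ((4 : ℝ) ^ z) ^ 8 = Real.exp (Real.log 4 * (z * 8 : ℕ)) := by
      rw [← pow_mul, ← Real.rpow_natCast, Real.rpow_def_of_pos (by norm_num)]
    rw [h2] at h1
    refine h1.trans ?_
    apply Real.exp_le_exp.2
    push_cast
    have h3 : Real.log 4 * ((z : ℝ) * 8) ≤ 1.4 * (Real.sqrt L * 8) := by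
      apply mul_le_mul hlog4.le (by linarith) (by positivity) (by norm_num)
    have h5 : 14 * Real.sqrt L ≤ Real.sqrt L * Real.sqrt L :=
      mul_le_mul_of_nonneg_right hsq14 (Real.sqrt_nonneg _)
    rw [Real.mul_self_sqrt hL0.le] at h5
    linarith
  have hWX : (W : ℝ) ≤ X := by
    rw [hXexp]
    refine le_trans ?_ hW8
    exact le_self_pow₀ hW1' (by norm_num)
  have hWm : W.Coprime m := WW_coprime m L
  have hWp : ∀ p : ℕ, p.Prime → p ∣ W → (p : ℝ) ≤ L ^ 4 := by
    intro p hp hd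
    have h1 := (dvd_WW hp hd).1
    have h2 : (p : ℝ) ≤ z := by exact_mod_cast h1
    have h4 : L ≤ L ^ 4 := le_self_pow₀ (by linarith) (by norm_num)
    linarith
  -- the number of sites
  set ρ : ℝ := (m.totient : ℝ) / m with hρ
  have hρ0 : 0 ≤ ρ := by positivity
  have hρ1 : ρ ≤ 1 := by
    rw [hρ, div_le_one hm0]
    exact_mod_cast Nat.totient_le m
  set V : ℝ := t * ρ * u with hV
  have hV0 : 0 ≤ V := by positivity
  have hVL : V ≤ t' * ρ * L := by
    calc V = t * ρ * u := hV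
      _ ≤ t * ρ * (2 / ε * L) := mul_le_mul_of_nonneg_left huL (by positivity)
      _ = t' * ρ * L := by
          rw [ht']
          ring
  have hVL2 : V ≤ L ^ 2 := by
    refine hVL.trans ?_
    have h1 : t' * ρ ≤ L := by
      have h2 : t' * ρ ≤ t' * 1 := mul_le_mul_of_nonneg_left hρ1 ht'0.le
      have h3 : t' ≤ ε * u / 2 := by
        rw [ht', div_le_iff₀ hε]
        nlinarith
      linarith
    calc t' * ρ * L ≤ L * L := mul_le_mul_of_nonneg_right h1 hL0.le
      _ = L ^ 2 := by ring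
  set K := ⌊V⌋₊ + 1 with hK
  have hKV : (K : ℝ) ≤ t' * ρ * L + 1 := by
    rw [hK]
    push_cast
    have := Nat.floor_le hV0
    linarith
  have hkvb := hKVB L hLL2 m hm1 hlogm K hKV
  set n := ⌊Real.exp L / W⌋₊ with hn
  set R := (range W).filter (fun b =>
    (((range K).filter (fun k => (b + k * m).Coprime W)).card : ℝ) ≤
      2 * K * ((W.totient : ℝ) / W)) with hR
  have hRcard : (W : ℝ) ≤ 2 * (R.card : ℝ) := h3 m W K hW1 hWm
  set Sr : ℕ → Finset ℕ := fun r => (range K).filter (fun k => (r + k * m).Coprime W) with hSr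
  have hSk : ∀ r, ∀ k ∈ Sr r, (k : ℝ) ≤ L ^ 2 := by
    intro r k hk
    have h1 : k < K := mem_range.1 (mem_filter.1 hk).1
    have h2 : k ≤ ⌊V⌋₊ := by omega
    have h3 : (k : ℝ) ≤ V := (Nat.cast_le.2 h2).trans (Nat.floor_le hV0)
    linarith
  have hScard : ∀ r ∈ R, ((Sr r).card : ℝ) * VS (SPr m L (Real.exp (η * L))) 1 ≤
      C * t' / η := by
    intro r hr
    have h4 := (mem_filter.1 hr).2
    exact (mul_le_mul_of_nonneg_right h4 (VS_nonneg m L _)).trans hkvb
  have hyL : Real.exp L < y := by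
    have h3 : X < (m : ℝ) ^ ε := by
      rw [hXdef]
      linarith
    rw [← hXexp]
    linarith
  have hzy : (z : ℝ) < y := by
    have h1 : L ≤ Real.exp L := by
      have := Real.add_one_le_exp L
      linarith
    linarith
  have hym' : (y : ℝ) ≤ m := by exact_mod_cast hym
  have hbA : ∀ r, ((fst W y r : ℕ) : ℝ) + Real.exp L ≤ Real.exp (A * L) := by
    intro r
    have h4 : ((fst W y r : ℕ) : ℝ) ≤ y + W := by exact_mod_cast (fst_lt hW1).le
    have h5 : (m : ℝ) ≤ Real.exp (2 / ε * L) := by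
      calc (m : ℝ) = Real.exp u := by rw [hu, Real.exp_log hm0]
        _ ≤ _ := Real.exp_le_exp.2 huL
    have h6 : Real.exp ((2 / ε + 1) * L) ≤ Real.exp (A * L) :=
      Real.exp_le_exp.2 (mul_le_mul_of_nonneg_right hAL hL0.le)
    have h7 : Real.exp ((2 / ε + 1) * L) = Real.exp (2 / ε * L) * Real.exp L := by
      rw [← Real.exp_add]
      ring_nf
    have h8 : (3 : ℝ) ≤ Real.exp L := by
      rw [← hXexp]
      linarith
    have h9 : Real.exp L ≤ m := by
      linarith
    have h10 : (W : ℝ) ≤ m := by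
      rw [← hXexp] at h9
      linarith
    have h11 : (3 : ℝ) * m ≤ Real.exp L * Real.exp (2 / ε * L) :=
      mul_le_mul h8 h5 hm0.le (Real.exp_pos _).le
    linarith
  have ha : ∀ r ∈ R, δ * (Real.exp L / W * ρ) ≤
      ((gx m W (fst W y r) n L (Sr r)).card : ℝ) := by
    intro r hr
    have hy1 : 1 ≤ y := by
      have h4 : (0 : ℝ) < y := (Real.exp_pos L).trans hyL
      exact_mod_cast h4
    exact hED L hLL1 m W (fst W y r) hm1 hlogm hW1 (hy1.trans le_fst) hW8 hWm hWp (Sr r) (hSk r)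
      (hScard r hr)
      (hbA r)
  have hsub : ∀ r ∈ R, ∀ x ∈ gx m W (fst W y r) n L (Sr r), fst W y r + W * x ∈
      gc m y ⌊(y : ℝ) + (m : ℝ) ^ ε⌋₊ V := by
    intro r hr x hx
    rw [gx, mem_filter, mem_range] at hx
    obtain ⟨hxn, hcop, hsites⟩ := hx
    rw [gc, mem_filter, mem_Icc]
    have hyb : y ≤ fst W y r := le_fst
    refine ⟨⟨by omega, ?_⟩, hcop, ?_⟩
    · apply Nat.le_floor
      have h4 : ((fst W y r : ℕ) : ℝ) ≤ y + W := by exact_mod_cast (fst_lt hW1).le
      have h5 : (x : ℝ) ≤ Real.exp L / W := by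
        have h6 : (x : ℝ) ≤ n := by exact_mod_cast hxn.le
        exact h6.trans (Nat.floor_le (by positivity))
      have h7 : (W : ℝ) * x ≤ Real.exp L := by
        calc (W : ℝ) * x ≤ W * (Real.exp L / W) := mul_le_mul_of_nonneg_left h5 hW0.le
          _ = Real.exp L := by field_simp
      have h8 : (m : ℝ) ^ ε = X + X := by
        rw [hXdef]
        ring
      push_cast
      rw [h8]
      rw [← hXexp] at h7
      linarith
    · intro k hk hprime
      have hkK : k < K := by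
        have : k ≤ ⌊V⌋₊ := Nat.le_floor hk
        omega
      by_cases hc : (r + k * m).Coprime W
      · obtain ⟨l, hl, -, hl2, hl3⟩ := hsites k (mem_filter.2 ⟨mem_range.2 hkK, hc⟩)
        have h4 := (Nat.prime_dvd_prime_iff_eq hl hprime).1 hl3
        have h5 : y ≤ l := by
          rw [h4]
          omega
        have h6 : (y : ℝ) ≤ l := by exact_mod_cast h5
        have h7 : Real.exp (L / 100) ≤ Real.exp L := Real.exp_le_exp.2 (by linarith)
        linarith
      · obtain ⟨p, hp, hp1, hp2⟩ := Nat.Prime.not_coprime_iff_dvd.1 hc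
        have h4 : fst W y r + W * x + k * m ≡ r + k * m [MOD p] := by
          apply Nat.ModEq.add_right
          have h5 : fst W y r + W * x ≡ r + 0 [MOD W] :=
            Nat.ModEq.add (fst_mod hW1) (Nat.modEq_zero_iff_dvd.2 (dvd_mul_right _ _))
          exact h5.of_dvd hp2
        have h6 : p ∣ fst W y r + W * x + k * m := (h4.dvd_iff dvd_rfl).2 hp1
        have h7 := (Nat.prime_dvd_prime_iff_eq hp hprime).1 h6
        have h8 := (dvd_WW hp hp2).1
        have h9 : y ≤ z := by omega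
        have h10 : (y : ℝ) ≤ z := by exact_mod_cast h9
        linarith
  have hcount := count (gc m y ⌊(y : ℝ) + (m : ℝ) ^ ε⌋₊ V) R W y hW1
    (fun r => gx m W (fst W y r) n L (Sr r)) (δ * (Real.exp L / W * ρ))
    (fun r hr => mem_range.1 (mem_filter.1 hr).1) hsub ha
  refine le_trans ?_ hcount
  have h4 : (W : ℝ) / 2 * (δ * (Real.exp L / W * ρ)) ≤
      (R.card : ℝ) * (δ * (Real.exp L / W * ρ)) :=
    mul_le_mul_of_nonneg_right (by linarith) (by positivity)
  refine le_trans (le_of_eq ?_) h4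
  rw [← hXexp, hXdef]
  field_simp
  ring

end Pool.Agent.Lib_helper9.LG
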