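import Mathlib
import Pool.Agent.Lib_helper9.LG.StmtsD
import Pool.Agent.Lib_helper9.LG.Rho
import Pool.Agent.Lib_helper10.Erdos460.VAsymp

set_option autoImplicit false

/-!
The expected number of rough sites (Mertens both ways).
-/

namespace Pool.Agent.Lib_helper9.LG

open Finset Filter

noncomputable section

namespace KVBd

/-- The primes up to `z`. -/
def pz (z : ℝ) : Finset ℕ := (Icc 1 ⌊z⌋₊).filter (fun p => p.Prime)

/-- The Euler factor. -/
def ff (p : ℕ) : ℝ := 1 - 1 / (p : ℝ)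

lemma ff_pos {p : ℕ} (hp : p.Prime) : 0 < ff p ∧ ff p ≤ 1 := by
  have hp2 : (2 : ℝ) ≤ p := by exact_mod_cast hp.two_le
  unfold ff
  have h1 : 1 / (p : ℝ) ≤ 1 / 2 := one_div_le_one_div_of_le (by norm_num) hp2
  have h2 : 0 < 1 / (p : ℝ) := by positivity
  constructor <;> linarith

lemma tot (n : ℕ) (hn : n ≠ 0) : (n.totient : ℝ) / n = ∏ p ∈ n.primeFactors, ff p := by
  have h := congrArg (Rat.cast : ℚ → ℝ) (Nat.totient_eq_mul_prod_factors n)
  push_cast at h
  have hn0 : (n : ℝ) ≠ 0 := by exact_mod_cast hn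
  rw [h, mul_div_cancel_left₀ _ hn0]
  exact prod_congr rfl fun p _ => by unfold ff; rw [one_div]

lemma prod_subset_le {S T : Finset ℕ} (hST : S ⊆ T) (hT : ∀ p ∈ T, p.Prime) :
    ∏ p ∈ T, ff p ≤ ∏ p ∈ S, ff p := by
  rw [← prod_sdiff hST]
  have h1 : ∏ p ∈ T \ S, ff p ≤ 1 :=
    prod_le_one (fun p hp => (ff_pos (hT p (mem_sdiff.1 hp).1)).1.le)
      (fun p hp => (ff_pos (hT p (mem_sdiff.1 hp).1)).2)
  have h2 : 0 ≤ ∏ p ∈ S, ff p := prod_nonneg fun p hp => (ff_pos (hT p (hST hp))).1.le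
  nlinarith

lemma prod_pz (z : ℝ) : ∏ p ∈ pz z, ff p = Pool.Agent.Lib_helper10.Erdos460.V (⌊z⌋₊ + 1) := by
  unfold pz Pool.Agent.Lib_helper10.Erdos460.V
  have : (Icc 1 ⌊z⌋₊).filter (fun p => p.Prime) = Nat.primesBelow (⌊z⌋₊ + 1) := by
    ext p
    rw [mem_filter, mem_Icc, Nat.mem_primesBelow]
    constructor
    · rintro ⟨⟨_, h⟩, hp⟩
      exact ⟨by omega, hp⟩
    · rintro ⟨h, hp⟩
      exact ⟨⟨hp.one_lt.le, by omega⟩, hp⟩
  rw [this]
  rfl

/-- `log ⌊z⌋ ≥ (log z) / 2` for `z ≥ 4`. -/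
lemma log_floor {z : ℝ} (hz : 4 ≤ z) : Real.log z / 2 ≤ Real.log (⌊z⌋₊ : ℝ) := by
  have h1 : z - 1 < ⌊z⌋₊ := Nat.sub_one_lt_floor z
  have h2 : Real.sqrt z ≤ z - 1 := by
    rw [Real.sqrt_le_left (by linarith)]
    nlinarith
  have h3 : 0 < Real.sqrt z := Real.sqrt_pos.2 (by linarith)
  have h4 : Real.log (Real.sqrt z) ≤ Real.log (⌊z⌋₊ : ℝ) :=
    Real.log_le_log h3 (by linarith)
  rwa [Real.log_sqrt (by linarith)] at h4

/-- Both sides of Mertens for real arguments. -/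
lemma mert : ∃ c C : ℝ, 0 < c ∧ 0 < C ∧ ∀ z : ℝ, 4 ≤ z →
    c / Real.log z ≤ ∏ p ∈ pz z, ff p ∧ ∏ p ∈ pz z, ff p ≤ C / Real.log z := by
  obtain ⟨c, C, hc, hC, h⟩ := Pool.Agent.Lib_helper10.Erdos460.V_bounds_succ
  refine ⟨c, 2 * C, hc, by positivity, fun z hz => ?_⟩
  have h2 : 2 ≤ ⌊z⌋₊ := Nat.le_floor (by push_cast; linarith)
  have hlz : 0 < Real.log z := Real.log_pos (by linarith)
  have hf := log_floor hz
  have hfp : 0 < Real.log (⌊z⌋₊ : ℝ) := by linarith
  have hfl : Real.log (⌊z⌋₊ : ℝ) ≤ Real.log z :=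
    Real.log_le_log (by exact_mod_cast (by omega : 0 < ⌊z⌋₊)) (Nat.floor_le (by linarith))
  rw [prod_pz]
  obtain ⟨h3, h4⟩ := h _ h2
  constructor
  · refine le_trans ?_ h3
    exact div_le_div_of_nonneg_left hc.le hfp hfl
  · refine h4.trans ?_
    rw [div_le_div_iff₀ hfp hlz]
    nlinarith

/-- The primes in `(y, z]`. -/
def pyz (y z : ℝ) : Finset ℕ := (Icc 1 ⌊z⌋₊).filter (fun p => p.Prime ∧ y < (p : ℝ))

lemma prod_pyz {y z : ℝ} (hy : 0 ≤ y) (hyz : y ≤ z) :
    (∏ p ∈ pz y, ff p) * ∏ p ∈ pyz y z, ff p = ∏ p ∈ pz z, ff p := by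
  classical
  rw [← prod_union]
  · refine prod_congr ?_ fun _ _ => rfl
    ext p
    unfold pz pyz
    simp only [mem_union, mem_filter, mem_Icc]
    constructor
    · rintro (⟨⟨h1, h2⟩, h3⟩ | ⟨⟨h1, h2⟩, h3, _⟩)
      · exact ⟨⟨h1, h2.trans (Nat.floor_le_floor hyz)⟩, h3⟩
      · exact ⟨⟨h1, h2⟩, h3⟩
    · rintro ⟨⟨h1, h2⟩, h3⟩
      by_cases h : y < (p : ℝ)
      · exact Or.inr ⟨⟨h1, h2⟩, h3, h⟩
      · exact Or.inl ⟨⟨h1, Nat.le_floor (not_lt.1 h)⟩, h3⟩
  · rw [disjoint_left]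
    intro p h1 h2
    unfold pz at h1
    unfold pyz at h2
    rw [mem_filter, mem_Icc] at h1 h2
    have h3 : (p : ℝ) ≤ y := (Nat.le_floor_iff hy).1 h1.1.2
    linarith [h2.2.2]

/-- Combination of the Euler factors: the primes dividing `m` cancel. -/
lemma comb (m : ℕ) (hm : 1 ≤ m) (Q1 Q2 : Finset ℕ) (h1 : ∀ p ∈ Q1, p.Prime)
    (h2 : ∀ p ∈ Q2, p.Prime) (hd : Disjoint Q1 Q2) :
    (∏ p ∈ m.primeFactors, ff p) * (∏ p ∈ Q1.filter (fun p => ¬ p ∣ m), ff p) *
      ∏ p ∈ Q2.filter (fun p => ¬ p ∣ m), ff p ≤ (∏ p ∈ Q1, ff p) * ∏ p ∈ Q2, ff p := by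
  classical
  have e1 := prod_filter_mul_prod_filter_not Q1 (fun p => p ∣ m) ff
  have e2 := prod_filter_mul_prod_filter_not Q2 (fun p => p ∣ m) ff
  rw [← e1, ← e2]
  have h3 : (Q1.filter (fun p => p ∣ m)) ∪ (Q2.filter (fun p => p ∣ m)) ⊆ m.primeFactors := by
    intro p hp
    rw [mem_union, mem_filter, mem_filter] at hp
    rcases hp with hp | hp
    · exact Nat.mem_primeFactors.2 ⟨h1 p hp.1, hp.2, by omega⟩
    · exact Nat.mem_primeFactors.2 ⟨h2 p hp.1, hp.2, by omega⟩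
  have h4 := prod_subset_le h3 (fun p hp => Nat.prime_of_mem_primeFactors hp)
  rw [prod_union (disjoint_filter_filter hd)] at h4
  have h5 : 0 ≤ (∏ p ∈ Q1.filter (fun p => ¬ p ∣ m), ff p) *
      ∏ p ∈ Q2.filter (fun p => ¬ p ∣ m), ff p := by
    refine mul_nonneg (prod_nonneg fun p hp => ?_) (prod_nonneg fun p hp => ?_)
    · exact (ff_pos (h1 p (mem_filter.1 hp).1)).1.le
    · exact (ff_pos (h2 p (mem_filter.1 hp).1)).1.le
  have h6 := mul_le_mul_of_nonneg_right h4 h5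
  nlinarith [h6]

lemma VS_eq (m : ℕ) (L z : ℝ) :
    VS (SPr m L z) 1 = ∏ p ∈ (pyz (L ^ 4) z).filter (fun p => ¬ p ∣ m), ff p := by
  unfold VS SPr pyz
  rw [filter_filter]
  refine prod_congr ?_ fun p _ => by unfold ff; push_cast; rfl
  ext p
  simp only [mem_filter, and_assoc]

lemma WW_eq (m : ℕ) (L : ℝ) : ((WW m L).totient : ℝ) / (WW m L) =
    ∏ p ∈ (pz (Real.sqrt L)).filter (fun p => ¬ p ∣ m), ff p := by
  have h0 : ∀ p ∈ (Icc 1 ⌊Real.sqrt L⌋₊).filter (fun p => p.Prime ∧ ¬ p ∣ m), p.Prime :=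
    fun p hp => (mem_filter.1 hp).2.1
  have h1 : WW m L ≠ 0 := by
    unfold WW
    exact prod_ne_zero_iff.2 fun p hp => (h0 p hp).ne_zero
  rw [tot _ h1]
  unfold WW pz
  rw [Nat.primeFactors_prod h0, filter_filter]

lemma pyz_prime {y z : ℝ} : ∀ p ∈ pyz y z, p.Prime := fun p hp => (mem_filter.1 hp).2.1

lemma pz_prime {z : ℝ} : ∀ p ∈ pz z, p.Prime := fun p hp => (mem_filter.1 hp).2

/-- Few prime factors of `m` above `L ^ 4`. -/
lemma few (A : ℕ) : ∃ L₁ : ℝ, ∀ L : ℝ, L₁ ≤ L → ∀ m : ℕ, 1 ≤ m → Real.log m ≤ A * L → ∀ z : ℝ,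
    VS (SPr m L z) 1 ≤ 2 * ∏ p ∈ pyz (L ^ 4) z, ff p := by
  classical
  refine ⟨max 1 (4 * A), fun L hL m hm hlm z => ?_⟩
  have hL1 : 1 ≤ L := (le_max_left _ _).trans hL
  have hLA : 4 * (A : ℝ) ≤ L := (le_max_right _ _).trans hL
  rw [VS_eq]
  have e := prod_filter_mul_prod_filter_not (pyz (L ^ 4) z) (fun p => p ∣ m) ff
  rw [← e]
  set Q := (pyz (L ^ 4) z).filter (fun p => p ∣ m) with hQ
  have hQm : Q ⊆ m.primeFactors := by
    intro p hp
    rw [hQ, mem_filter] at hp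
    exact Nat.mem_primeFactors.2 ⟨pyz_prime p hp.1, hp.2, by omega⟩
  have hcard : (Q.card : ℝ) * (1 / 2) ≤ A * L := by
    have h1 := RH.card_primeFactors_le m hm
    have h2 : (Q.card : ℝ) ≤ m.primeFactors.card := by exact_mod_cast card_le_card hQm
    have h3 : (1 : ℝ) / 2 ≤ Real.log 2 := by
      have := Real.log_two_gt_d9
      linarith
    have h4 : (0 : ℝ) ≤ Q.card := Nat.cast_nonneg _
    nlinarith
  have hsum : ∑ p ∈ Q, 1 / (p : ℝ) ≤ 1 / 2 := by
    have h1 : ∀ p ∈ Q, 1 / (p : ℝ) ≤ 1 / L ^ 4 := by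
      intro p hp
      rw [hQ, mem_filter] at hp
      have h2 := (mem_filter.1 hp.1).2.2
      exact one_div_le_one_div_of_le (by positivity) h2.le
    have h2 := sum_le_card_nsmul Q _ _ h1
    rw [nsmul_eq_mul] at h2
    refine h2.trans ?_
    rw [mul_one_div, div_le_iff₀ (by positivity)]
    have h3 : L ^ 4 = L * L * (L * L) := by ring
    have h5 : (1 : ℝ) ≤ L * L := by nlinarith
    have h6 : L * L ≤ L * L * (L * L) := by nlinarith
    rw [h3]
    nlinarith
  have hlow : 1 / 2 ≤ ∏ p ∈ Q, ff p := by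
    have h1 := RH.one_sub_sum_le (S := Q) (f := fun p => 1 / (p : ℝ))
      (fun l _ => by positivity) (fun l hl => by
        have := (Nat.prime_of_mem_primeFactors (hQm hl)).one_lt.le
        rw [div_le_one (by exact_mod_cast (by omega : 0 < l))]
        exact_mod_cast this)
    have h2 : ∏ p ∈ Q, ff p = ∏ p ∈ Q, (1 - 1 / (p : ℝ)) := rfl
    rw [h2]
    linarith
  have hnn : 0 ≤ ∏ p ∈ (pyz (L ^ 4) z).filter (fun p => ¬ p ∣ m), ff p :=
    prod_nonneg fun p hp => (ff_pos (pyz_prime p (mem_filter.1 hp).1)).1.le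
  nlinarith

end KVBd

open KVBd

theorem kvb : StmtKVB := by
  obtain ⟨c, C, hc, hC, hM⟩ := mert
  refine ⟨32 * C ^ 2 / c + 1, by positivity, fun t η ht hη A => ?_⟩
  obtain ⟨L₁, hL₁⟩ := few A
  -- `log L / L` is small
  have hlog : ∀ᶠ L : ℝ in atTop, 16 * (C / c) * Real.log L ≤ t * L := by
    have h1 := Real.isLittleO_log_id_atTop
    have h2 := h1.def (c := t / (16 * (C / c) + 1)) (by positivity)
    filter_upwards [h2, eventually_ge_atTop (1 : ℝ)] with L hL hL1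
    rw [Real.norm_eq_abs, abs_of_nonneg (Real.log_nonneg hL1), id, Real.norm_eq_abs,
      abs_of_nonneg (by linarith)] at hL
    have h3 : 16 * (C / c) * Real.log L ≤ (16 * (C / c) + 1) * Real.log L := by
      nlinarith [Real.log_nonneg hL1]
    have h4 : (16 * (C / c) + 1) * Real.log L ≤
        (16 * (C / c) + 1) * (t / (16 * (C / c) + 1) * L) :=
      mul_le_mul_of_nonneg_left hL (by positivity)
    have h5 : (16 * (C / c) + 1) * (t / (16 * (C / c) + 1) * L) = t * L := by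
      field_simp
    linarith
  have hexp : ∀ᶠ L : ℝ in atTop, L ^ 4 ≤ Real.exp (η * L) := by
    have h1 := isLittleO_pow_exp_pos_mul_atTop (k := 4) hη
    have h2 := h1.def (c := 1) (by norm_num)
    filter_upwards [h2, eventually_ge_atTop (0 : ℝ)] with L hL hL0
    rw [Real.norm_eq_abs, abs_of_nonneg (by positivity), Real.norm_eq_abs,
      abs_of_pos (Real.exp_pos _), one_mul] at hL
    exact hL
  obtain ⟨L₂, hL₂⟩ := (hlog.and hexp).exists_forall_of_atTop
  refine ⟨max (max L₁ L₂) 16, fun L hL m hm hlm K hK => ?_⟩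
  have hLa : L₁ ≤ L := (le_max_left _ _).trans ((le_max_left _ _).trans hL)
  have hLb : L₂ ≤ L := (le_max_right _ _).trans ((le_max_left _ _).trans hL)
  have hLc : 16 ≤ L := (le_max_right _ _).trans hL
  obtain ⟨hl, hx⟩ := hL₂ L hLb
  have hL0 : 0 < L := by linarith
  have hlL : 0 < Real.log L := Real.log_pos (by linarith)
  have hL4 : 4 ≤ L ^ 4 := by nlinarith [pow_le_pow_left₀ (by norm_num : (0 : ℝ) ≤ 16) hLc 4]
  have hsq4 : 4 ≤ Real.sqrt L := by
    rw [show (4 : ℝ) = Real.sqrt 16 by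
      rw [show (16 : ℝ) = 4 ^ 2 by norm_num, Real.sqrt_sq (by norm_num)]]
    exact Real.sqrt_le_sqrt hLc
  have hsqL : Real.sqrt L ≤ L := by
    rw [Real.sqrt_le_left hL0.le]
    nlinarith
  have hLL4 : L ≤ L ^ 4 := by
    calc L = L ^ 1 := (pow_one L).symm
      _ ≤ L ^ 4 := pow_le_pow_right₀ (by linarith) (by norm_num)
  -- the product over the primes in `(L ^ 4, exp (η L)]`
  set z := Real.exp (η * L) with hz
  have hz4 : 4 ≤ z := hL4.trans hx
  have hlz : Real.log z = η * L := Real.log_exp _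
  set P1 := ∏ p ∈ pz (Real.sqrt L), ff p with hP1
  set P2 := ∏ p ∈ pyz (L ^ 4) z, ff p with hP2
  have hP1u : P1 ≤ 2 * C / Real.log L := by
    have h1 := (hM _ hsq4).2
    rw [Real.log_sqrt hL0.le] at h1
    calc P1 ≤ C / (Real.log L / 2) := h1
      _ = 2 * C / Real.log L := by field_simp
  have hP2u : P2 ≤ 4 * (C / c) * Real.log L / (η * L) := by
    have h1 := prod_pyz (y := L ^ 4) (z := z) (by positivity) hx
    have h2 := (hM _ hL4).1
    have h3 := (hM _ hz4).2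
    rw [hlz] at h3
    rw [Real.log_pow] at h2
    push_cast at h2
    have h4 : c / (4 * Real.log L) * P2 ≤ C / (η * L) := by
      refine le_trans ?_ h3
      rw [← h1]
      refine mul_le_mul_of_nonneg_right h2 ?_
      exact prod_nonneg fun p hp => (ff_pos (pyz_prime p hp)).1.le
    have h5 : P2 = (4 * Real.log L / c) * (c / (4 * Real.log L) * P2) := by
      field_simp
    rw [h5]
    calc (4 * Real.log L / c) * (c / (4 * Real.log L) * P2)
        ≤ (4 * Real.log L / c) * (C / (η * L)) :=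
          mul_le_mul_of_nonneg_left h4 (by positivity)
      _ = 4 * (C / c) * Real.log L / (η * L) := by
          field_simp
  have hP1n : 0 ≤ P1 := prod_nonneg fun p hp => (ff_pos (pz_prime p hp)).1.le
  have hP2n : 0 ≤ P2 := prod_nonneg fun p hp => (ff_pos (pyz_prime p hp)).1.le
  have hPP : P1 * P2 ≤ 8 * (C ^ 2 / c) / (η * L) := by
    calc P1 * P2 ≤ (2 * C / Real.log L) * (4 * (C / c) * Real.log L / (η * L)) :=
          mul_le_mul hP1u hP2u hP2n (by positivity)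
      _ = 8 * (C ^ 2 / c) / (η * L) := by
          field_simp
          ring
  have hdis : Disjoint (pz (Real.sqrt L)) (pyz (L ^ 4) z) := by
    rw [disjoint_left]
    intro p h1 h2
    have h3 : (p : ℝ) ≤ Real.sqrt L :=
      (Nat.le_floor_iff (Real.sqrt_nonneg _)).1 (mem_Icc.1 (mem_filter.1 h1).1).2
    have h4 := (mem_filter.1 h2).2.2
    linarith
  have hcomb := comb m hm _ _ pz_prime pyz_prime hdis
  rw [← VS_eq, ← WW_eq, ← tot m (by omega)] at hcomb
  have hVS := hL₁ L hLa m hm hlm z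
  set F := (m.totient : ℝ) / m with hF
  set G := ((WW m L).totient : ℝ) / (WW m L) with hG
  set V := VS (SPr m L z) 1 with hV
  have hG0 : 0 ≤ G := by positivity
  have hG1 : G ≤ 1 := by
    rw [hG, WW_eq]
    exact prod_le_one (fun p hp => (ff_pos (pz_prime p (mem_filter.1 hp).1)).1.le)
      (fun p hp => (ff_pos (pz_prime p (mem_filter.1 hp).1)).2)
  have hV0 : 0 ≤ V := by
    rw [hV, VS_eq]
    exact prod_nonneg fun p hp => (ff_pos (pyz_prime p (mem_filter.1 hp).1)).1.le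
  have hVs : V ≤ 8 * (C / c) * Real.log L / (η * L) := by
    calc V ≤ 2 * P2 := hVS
      _ ≤ 2 * (4 * (C / c) * Real.log L / (η * L)) := by linarith
      _ = 8 * (C / c) * Real.log L / (η * L) := by ring
  have hVt : 2 * V ≤ t / η := by
    calc 2 * V ≤ 2 * (8 * (C / c) * Real.log L / (η * L)) := by linarith
      _ = (16 * (C / c) * Real.log L) / (η * L) := by ring
      _ ≤ (t * L) / (η * L) := div_le_div_of_nonneg_right hl (by positivity)
      _ = t / η := by field_simp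
  have hGV : 0 ≤ G * V := mul_nonneg hG0 hV0
  have hFGV : F * G * V ≤ 8 * (C ^ 2 / c) / (η * L) := hcomb.trans hPP
  have hGV1 : G * V ≤ V := by nlinarith
  calc 2 * (K : ℝ) * G * V = 2 * (K * (G * V)) := by ring
    _ ≤ 2 * ((t * F * L + 1) * (G * V)) := by
        have := mul_le_mul_of_nonneg_right hK hGV
        linarith
    _ = 2 * (t * L) * (F * G * V) + 2 * (G * V) := by ring
    _ ≤ 2 * (t * L) * (8 * (C ^ 2 / c) / (η * L)) + t / η := by
        have h1 : 2 * (t * L) * (F * G * V) ≤ 2 * (t * L) * (8 * (C ^ 2 / c) / (η * L)) :=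
          mul_le_mul_of_nonneg_left hFGV (by positivity)
        linarith
    _ = (16 * C ^ 2 / c + 1) * t / η := by
        field_simp
        ring
    _ ≤ (32 * C ^ 2 / c + 1) * t / η := by
        refine div_le_div_of_nonneg_right ?_ hη.le
        refine mul_le_mul_of_nonneg_right ?_ ht.le
        have : 16 * C ^ 2 / c ≤ 32 * C ^ 2 / c :=
          div_le_div_of_nonneg_right (by nlinarith [sq_nonneg C]) hc.le
        linarith

end

end Pool.Agent.Lib_helper9.LG
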