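import Mathlib
import Pool.Agent.Lib_helper9.LG.StmtsD
import Pool.Agent.Lib_helper10.Erdos460.Mertens2

set_option autoImplicit false

/-!
BLK: the dyadic blocks of the small primes.
-/

namespace Pool.Agent.Lib_helper9.LG.BLKd

open Finset

noncomputable section

/-- The primes in `(x, y]`. -/
def PI (x y : ℝ) : Finset ℕ := (Ioc ⌊x⌋₊ ⌊y⌋₊).filter Nat.Prime

lemma mem_PI {x y : ℝ} (hx : 0 ≤ x) {p : ℕ} :
    p ∈ PI x y ↔ p.Prime ∧ x < p ∧ (p : ℝ) ≤ y := by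
  rw [PI, mem_filter, mem_Ioc, Nat.floor_lt hx]
  constructor
  · rintro ⟨⟨h1, h2⟩, h3⟩
    exact ⟨h3, h1, (Nat.le_floor_iff' h3.ne_zero).1 h2⟩
  · rintro ⟨h1, h2, h3⟩
    exact ⟨⟨h2, (Nat.le_floor_iff' h1.ne_zero).2 h3⟩, h1⟩

lemma log_two_pos' : 0 < Real.log 2 := Real.log_pos (by norm_num)

lemma floor_facts {x : ℝ} (hx : 2 ≤ x) :
    2 ≤ ⌊x⌋₊ ∧ (⌊x⌋₊ : ℝ) ≤ x ∧ x < ⌊x⌋₊ + 1 ∧ 1 / (⌊x⌋₊ : ℝ) ≤ 2 / Real.log x ∧
      Real.log x ≤ 2 * Real.log ⌊x⌋₊ ∧ 0 < Real.log ⌊x⌋₊ ∧ 0 < Real.log x := by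
  have h2 : 2 ≤ ⌊x⌋₊ := Nat.le_floor (by exact_mod_cast hx)
  have h2r : (2 : ℝ) ≤ ⌊x⌋₊ := by exact_mod_cast h2
  have hle : (⌊x⌋₊ : ℝ) ≤ x := Nat.floor_le (by linarith)
  have hlt : x < ⌊x⌋₊ + 1 := Nat.lt_floor_add_one x
  have hlx : 0 < Real.log x := Real.log_pos (by linarith)
  have hlf : 0 < Real.log ⌊x⌋₊ := Real.log_pos (by linarith)
  refine ⟨h2, hle, hlt, ?_, ?_, hlf, hlx⟩
  · have h1 : Real.log x ≤ x := (Real.log_le_sub_one_of_pos (by linarith)).trans (by linarith)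
    rw [div_le_div_iff₀ (by linarith) hlx]
    linarith
  · have h1 : x ≤ (⌊x⌋₊ : ℝ) ^ 2 := by nlinarith
    calc Real.log x ≤ Real.log ((⌊x⌋₊ : ℝ) ^ 2) := Real.log_le_log (by linarith) h1
      _ = 2 * Real.log ⌊x⌋₊ := by rw [Real.log_pow]; norm_num

lemma loglog_floor {x : ℝ} (hx : 2 ≤ x) :
    |Real.log (Real.log ⌊x⌋₊) - Real.log (Real.log x)| ≤ (2 / Real.log 2) / Real.log x := by
  obtain ⟨h2, hle, hlt, hinv, hlog, hlf, hlx⟩ := floor_facts hx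
  have h2r : (2 : ℝ) ≤ ⌊x⌋₊ := by exact_mod_cast h2
  have hmono : Real.log ⌊x⌋₊ ≤ Real.log x := Real.log_le_log (by linarith) hle
  have h1 : Real.log (Real.log ⌊x⌋₊) ≤ Real.log (Real.log x) := Real.log_le_log hlf hmono
  rw [abs_sub_comm, abs_of_nonneg (by linarith)]
  have h3 : Real.log (Real.log x) - Real.log (Real.log ⌊x⌋₊)
      = Real.log (Real.log x / Real.log ⌊x⌋₊) := by
    rw [Real.log_div hlx.ne' hlf.ne']
  have h4 : Real.log (Real.log x / Real.log ⌊x⌋₊) ≤ Real.log x / Real.log ⌊x⌋₊ - 1 :=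
    Real.log_le_sub_one_of_pos (by positivity)
  have h5 : Real.log x - Real.log ⌊x⌋₊ ≤ 1 / ⌊x⌋₊ := by
    rw [← Real.log_div (by linarith) (by linarith)]
    refine (Real.log_le_sub_one_of_pos (by positivity)).trans ?_
    rw [div_sub_one (by linarith : (⌊x⌋₊ : ℝ) ≠ 0)]
    gcongr
    linarith
  have hl2 : Real.log 2 ≤ Real.log ⌊x⌋₊ := Real.log_le_log (by norm_num) h2r
  rw [h3]
  refine h4.trans ?_
  rw [div_sub_one hlf.ne']
  calc (Real.log x - Real.log ⌊x⌋₊) / Real.log ⌊x⌋₊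
      ≤ (2 / Real.log x) / Real.log ⌊x⌋₊ := by
        gcongr
        exact h5.trans hinv
    _ ≤ (2 / Real.log x) / Real.log 2 := by
        have := log_two_pos'
        gcongr
    _ = (2 / Real.log 2) / Real.log x := by ring

lemma PI_sum_eq {x y : ℝ} (hxy : x ≤ y) (f : ℕ → ℝ) :
    ∑ p ∈ PI x y, f p = ∑ p ∈ Nat.primesLE ⌊y⌋₊, f p - ∑ p ∈ Nat.primesLE ⌊x⌋₊, f p := by
  have hfl : ⌊x⌋₊ ≤ ⌊y⌋₊ := Nat.floor_le_floor hxy
  have hsub : Nat.primesLE ⌊x⌋₊ ⊆ Nat.primesLE ⌊y⌋₊ := by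
    intro p hp
    rw [Nat.mem_primesLE] at hp ⊢
    exact ⟨hp.1.trans hfl, hp.2⟩
  have hEq : PI x y = Nat.primesLE ⌊y⌋₊ \ Nat.primesLE ⌊x⌋₊ := by
    ext p
    rw [PI, mem_filter, mem_Ioc, Finset.mem_sdiff, Nat.mem_primesLE, Nat.mem_primesLE]
    constructor
    · rintro ⟨⟨h1, h2⟩, h3⟩
      exact ⟨⟨h2, h3⟩, fun h => by omega⟩
    · rintro ⟨⟨h1, h2⟩, h3⟩
      refine ⟨⟨?_, h1⟩, h2⟩
      by_contra hcon
      exact h3 ⟨by omega, h2⟩
  rw [hEq, eq_sub_iff_add_eq, Finset.sum_sdiff hsub]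

theorem mertens : ∃ C : ℝ, 0 < C ∧ ∀ x y : ℝ, 2 ≤ x → x ≤ y →
    |∑ p ∈ PI x y, (1 : ℝ) / p - (Real.log (Real.log y) - Real.log (Real.log x))| ≤
      C / Real.log x := by
  obtain ⟨M, C, hC0, hM⟩ := Pool.Agent.Lib_helper10.Erdos460.mertens_second
  have hl2 := log_two_pos'
  refine ⟨4 * C + 4 / Real.log 2, by positivity, fun x y hx hxy => ?_⟩
  have hy : 2 ≤ y := hx.trans hxy
  obtain ⟨h2, hle, hlt, hinv, hlog, hlf, hlx⟩ := floor_facts hx
  obtain ⟨h2y, hley, hlty, hinvy, hlogy, hlfy, hly⟩ := floor_facts hy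
  have hmx := hM _ h2
  have hmy := hM _ h2y
  have hxl := loglog_floor hx
  have hyl := loglog_floor hy
  have hll : Real.log x ≤ Real.log y := Real.log_le_log (by linarith) hxy
  have e1 : C / Real.log ⌊x⌋₊ ≤ 2 * C / Real.log x := by
    rw [div_le_div_iff₀ hlf hlx]
    nlinarith
  have e2 : C / Real.log ⌊y⌋₊ ≤ 2 * C / Real.log x := by
    rw [div_le_div_iff₀ hlfy hlx]
    nlinarith
  have e3 : (2 / Real.log 2) / Real.log y ≤ (2 / Real.log 2) / Real.log x := by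
    gcongr
  rw [PI_sum_eq hxy]
  have e4 : (4 * C + 4 / Real.log 2) / Real.log x
      = 2 * C / Real.log x + 2 * C / Real.log x + (2 / Real.log 2) / Real.log x
        + (2 / Real.log 2) / Real.log x := by ring
  rw [e4]
  rw [abs_le] at *
  constructor <;> linarith [hmx.1, hmx.2, hmy.1, hmy.2, hxl.1, hxl.2, hyl.1, hyl.2]

/-- The reciprocal sum of a dyadic block is at most one. -/
lemma block_sum : ∃ Y : ℝ, 1 ≤ Y ∧ ∀ u : ℝ, Y ≤ u →
    ∑ p ∈ PI (Real.exp (u / 2)) (Real.exp u), (1 : ℝ) / p ≤ 1 := by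
  obtain ⟨C, hC, hM⟩ := mertens
  refine ⟨max 2 (8 * C), by simp, fun u hu => ?_⟩
  have hu2 : 2 ≤ u := (le_max_left _ _).trans hu
  have huC : 8 * C ≤ u := (le_max_right _ _).trans hu
  have h2 : (2 : ℝ) ≤ Real.exp (u / 2) := by
    have := Real.add_one_le_exp (u / 2)
    linarith
  have hle : Real.exp (u / 2) ≤ Real.exp u := Real.exp_le_exp.2 (by linarith)
  have h := (abs_le.1 (hM _ _ h2 hle)).2
  rw [Real.log_exp, Real.log_exp] at h
  have hlog : Real.log u - Real.log (u / 2) = Real.log 2 := by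
    rw [Real.log_div (by linarith) (by norm_num)]
    ring
  rw [hlog] at h
  have hl2 : Real.log 2 ≤ 0.7 := by
    have := Real.log_two_lt_d9
    linarith
  have hCu : C / (u / 2) ≤ 1 / 4 := by
    rw [div_le_iff₀ (by linarith)]
    linarith
  linarith

/-- The blocks. -/
def bk (m : ℕ) (L w : ℝ) (j : ℕ) : Finset ℕ :=
  (SPr m L (Real.exp w)).filter (fun l => Real.exp (w / 2 ^ (j + 1)) < (l : ℝ) ∧
    (l : ℝ) ≤ Real.exp (w / 2 ^ j))

lemma mem_SPr {m : ℕ} {L w : ℝ} {l : ℕ} :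
    l ∈ SPr m L (Real.exp w) ↔ l.Prime ∧ L ^ 4 < (l : ℝ) ∧ ¬ l ∣ m ∧ (l : ℝ) ≤ Real.exp w := by
  rw [SPr, mem_filter, mem_Icc]
  constructor
  · rintro ⟨⟨h1, h2⟩, h3, h4, h5⟩
    exact ⟨h3, h4, h5, (Nat.le_floor_iff (Real.exp_pos _).le).1 h2⟩
  · rintro ⟨h1, h2, h3, h4⟩
    exact ⟨⟨h1.one_lt.le, Nat.le_floor h4⟩, h1, h2, h3⟩

lemma pw_mono {w : ℝ} (hw : 0 ≤ w) {i j : ℕ} (hij : i ≤ j) : w / 2 ^ j ≤ w / 2 ^ i := by
  apply div_le_div_of_nonneg_left hw (by positivity)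
  exact pow_le_pow_right₀ (by norm_num) hij

lemma blk_disjoint {m : ℕ} {L w : ℝ} (hw : 0 ≤ w) {i j : ℕ} (hij : i < j) :
    Disjoint (bk m L w i) (bk m L w j) := by
  rw [Finset.disjoint_left]
  intro l h1 h2
  rw [bk, mem_filter] at h1 h2
  have h3 : Real.exp (w / 2 ^ j) ≤ Real.exp (w / 2 ^ (i + 1)) := Real.exp_le_exp.2 (pw_mono hw hij)
  linarith [h1.2.1, h2.2.2]

lemma blk_union {m : ℕ} {L w : ℝ} (hL : 3 ≤ L) (_ : 0 ≤ w) :
    SS (bk m L w) ⌈w⌉₊ = SPr m L (Real.exp w) := by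
  ext l
  rw [SS, mem_biUnion]
  constructor
  · rintro ⟨j, _, hj⟩
    rw [bk, mem_filter] at hj
    exact hj.1
  · intro hl
    have hl' := mem_SPr.1 hl
    -- the first `j` with `exp (w / 2^(j+1)) < l`
    have hex : ∃ j : ℕ, Real.exp (w / 2 ^ (j + 1)) < (l : ℝ) ∧ j < ⌈w⌉₊ + 1 := by
      refine ⟨⌈w⌉₊, ?_, by omega⟩
      have h1 : w / 2 ^ (⌈w⌉₊ + 1) ≤ 1 := by
        rw [div_le_one (by positivity)]
        have h2 : w ≤ (⌈w⌉₊ : ℝ) := Nat.le_ceil w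
        have h3 : ((⌈w⌉₊ + 1 : ℕ) : ℝ) ≤ 2 ^ (⌈w⌉₊ + 1) := by
          exact_mod_cast (Nat.lt_two_pow_self).le
        push_cast at h3
        linarith
      calc Real.exp (w / 2 ^ (⌈w⌉₊ + 1)) ≤ Real.exp 1 := Real.exp_le_exp.2 h1
        _ ≤ 3 := by
            have := Real.exp_one_lt_d9
            linarith
        _ ≤ L ^ 4 := by nlinarith [sq_nonneg (L ^ 2 - 1), sq_nonneg L]
        _ < l := hl'.2.1
    classical
    obtain ⟨hj1, hj2⟩ := Nat.find_spec hex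
    set j := Nat.find hex with hj
    have hup : (l : ℝ) ≤ Real.exp (w / 2 ^ j) := by
      rcases Nat.eq_zero_or_pos j with h0 | h0
      · rw [h0, pow_zero, div_one]
        exact hl'.2.2.2
      · have hmin := Nat.find_min hex (m := j - 1) (by omega)
        by_contra hcon
        push Not at hcon
        apply hmin
        refine ⟨?_, by omega⟩
        have : j - 1 + 1 = j := by omega
        rw [this]
        exact hcon
    refine ⟨j, ?_, ?_⟩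
    · rw [mem_range]
      by_contra hcon
      push Not at hcon
      have h1 : w / 2 ^ j ≤ 1 := by
        rw [div_le_one (by positivity)]
        have h2 : w ≤ (⌈w⌉₊ : ℝ) := Nat.le_ceil w
        have h3 : ((j : ℕ) : ℝ) ≤ 2 ^ j := by
          exact_mod_cast (Nat.lt_two_pow_self).le
        have h4 : (⌈w⌉₊ : ℝ) ≤ j := by exact_mod_cast hcon
        linarith
      have h5 : (l : ℝ) ≤ Real.exp 1 := hup.trans (Real.exp_le_exp.2 h1)
      have h6 : Real.exp 1 ≤ 3 := by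
        have := Real.exp_one_lt_d9
        linarith
      have h7 : (3 : ℝ) ≤ L ^ 4 := by nlinarith [sq_nonneg (L ^ 2 - 1), sq_nonneg L]
      linarith [hl'.2.1]
    · rw [bk, mem_filter]
      exact ⟨hl, hj1, hup⟩

lemma blk_sum {m : ℕ} {L w Y : ℝ} (_ : 1 ≤ Y) (hYL : Real.exp Y ≤ L ^ 4)
    (hbs : ∀ u : ℝ, Y ≤ u → ∑ p ∈ PI (Real.exp (u / 2)) (Real.exp u), (1 : ℝ) / p ≤ 1) (j : ℕ) :
    ∑ l ∈ bk m L w j, (1 : ℝ) / l ≤ 1 := by
  rcases (bk m L w j).eq_empty_or_nonempty with he | ⟨l, hl⟩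
  · rw [he]
    simp
  · rw [bk, mem_filter] at hl
    have hl' := mem_SPr.1 hl.1
    have hu : Y ≤ w / 2 ^ j := by
      have : Real.exp Y ≤ Real.exp (w / 2 ^ j) := by linarith [hl'.2.1, hl.2.2]
      exact Real.exp_le_exp.1 this
    refine le_trans ?_ (hbs _ hu)
    apply Finset.sum_le_sum_of_subset_of_nonneg
    · intro p hp
      rw [bk, mem_filter] at hp
      rw [mem_PI (Real.exp_pos _).le]
      refine ⟨(mem_SPr.1 hp.1).1, ?_, hp.2.2⟩
      have : w / 2 ^ j / 2 = w / 2 ^ (j + 1) := by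
        rw [pow_succ, div_div]
      rw [this]
      exact hp.2.1
    · intro i _ _
      positivity

lemma one_add_sum_le {m : ℕ} {L w : ℝ} (hw : 0 ≤ w) (j : ℕ) :
    1 + ∑ l ∈ bk m L w j, (l : ℝ) ≤ Real.exp (w / 2 ^ j) ^ 2 := by
  have h1 : (1 : ℝ) ≤ Real.exp (w / 2 ^ j) := Real.one_le_exp (by positivity)
  rcases (bk m L w j).eq_empty_or_nonempty with he | ⟨l, hl⟩
  · rw [he]
    simp only [sum_empty, add_zero]
    nlinarith
  · have h2 : (2 : ℝ) ≤ Real.exp (w / 2 ^ j) := by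
      rw [bk, mem_filter] at hl
      have hp := (mem_SPr.1 hl.1).1
      have : (2 : ℝ) ≤ l := by exact_mod_cast hp.two_le
      linarith [hl.2.2]
    set y := Real.exp (w / 2 ^ j) with hy
    have hsub : bk m L w j ⊆ range (⌊y⌋₊ + 1) := by
      intro p hp
      rw [bk, mem_filter] at hp
      rw [mem_range]
      have h9 : p ≤ ⌊y⌋₊ := Nat.le_floor hp.2.2
      omega
    have h3 : ∑ l ∈ bk m L w j, (l : ℝ) ≤ ∑ l ∈ range (⌊y⌋₊ + 1), (l : ℝ) :=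
      Finset.sum_le_sum_of_subset_of_nonneg hsub (fun i _ _ => by positivity)
    have h4 : ∑ l ∈ range (⌊y⌋₊ + 1), (l : ℝ) = (⌊y⌋₊ : ℝ) * (⌊y⌋₊ + 1) / 2 := by
      have := Finset.sum_range_id_mul_two (⌊y⌋₊ + 1)
      have h5 : ((∑ l ∈ range (⌊y⌋₊ + 1), l : ℕ) : ℝ) * 2 = ((⌊y⌋₊ + 1 : ℕ) : ℝ) * ⌊y⌋₊ := by
        exact_mod_cast this
      push_cast at h5
      linarith
    have h5 : (⌊y⌋₊ : ℝ) ≤ y := Nat.floor_le (by linarith)
    have h6 : (0 : ℝ) ≤ ⌊y⌋₊ := by positivity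
    nlinarith

lemma sum_geo (b₀ N : ℕ) : ∑ j ∈ range N, ((b₀ : ℝ) + j) / 2 ^ j ≤ 2 * (b₀ + 1) := by
  have h : ∀ N : ℕ, ∑ j ∈ range N, ((b₀ : ℝ) + j) / 2 ^ j ≤
      2 * (b₀ + 1) - 2 * ((b₀ : ℝ) + N + 1) / 2 ^ N := by
    intro N
    induction N with
    | zero => simp
    | succ N ih =>
      rw [sum_range_succ]
      refine (add_le_add_left ih _).trans (le_of_eq ?_)
      push_cast
      rw [pow_succ]
      field_simp
      ring
  refine (h N).trans ?_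
  have : 0 ≤ 2 * ((b₀ : ℝ) + N + 1) / 2 ^ N := by positivity
  linarith

lemma LV_le {m : ℕ} {L w : ℝ} (hw : 0 ≤ w) (b₀ N : ℕ) :
    LV (bk m L w) (fun j => b₀ + j) N ≤ Real.exp (8 * ((b₀ : ℝ) + 2) * w) := by
  rw [LV]
  calc ∏ j ∈ range N, (1 + ∑ l ∈ bk m L w j, (l : ℝ)) ^ (2 * (b₀ + j))
      ≤ ∏ j ∈ range N, Real.exp (4 * w * (((b₀ : ℝ) + j) / 2 ^ j)) := by
        apply Finset.prod_le_prod
        · intro i _
          have : 0 ≤ ∑ l ∈ bk m L w i, (l : ℝ) := Finset.sum_nonneg (fun _ _ => by positivity)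
          positivity
        · intro j _
          have h0 : 0 ≤ ∑ l ∈ bk m L w j, (l : ℝ) := Finset.sum_nonneg (fun _ _ => by positivity)
          calc (1 + ∑ l ∈ bk m L w j, (l : ℝ)) ^ (2 * (b₀ + j))
              ≤ (Real.exp (w / 2 ^ j) ^ 2) ^ (2 * (b₀ + j)) :=
                pow_le_pow_left₀ (by positivity) (one_add_sum_le hw j) _
            _ = Real.exp (4 * w * (((b₀ : ℝ) + j) / 2 ^ j)) := by
                rw [← pow_mul, ← Real.exp_nat_mul]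
                congr 1
                push_cast
                ring
    _ = Real.exp (4 * w * ∑ j ∈ range N, ((b₀ : ℝ) + j) / 2 ^ j) := by
        rw [← Real.exp_sum, Finset.mul_sum]
    _ ≤ Real.exp (8 * ((b₀ : ℝ) + 2) * w) := by
        apply Real.exp_le_exp.2
        have := sum_geo b₀ N
        nlinarith

theorem blk : StmtBLK := by
  intro η hη b₀
  obtain ⟨Y, hY, hbs⟩ := block_sum
  refine ⟨max 3 (Real.exp Y), fun L hL m _ => ?_⟩
  have hL3 : 3 ≤ L := (le_max_left _ _).trans hL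
  have hLY : Real.exp Y ≤ L := (le_max_right _ _).trans hL
  have hL4 : Real.exp Y ≤ L ^ 4 := by
    have h1 : L ≤ L ^ 4 := le_self_pow₀ (by linarith) (by norm_num)
    linarith
  have hw : 0 ≤ η * L := by positivity
  refine ⟨bk m L (η * L), ⌈η * L⌉₊, ?_, blk_union hL3 hw, fun j _ => blk_sum hY hL4 hbs j,
    LV_le hw b₀ _⟩
  intro i _ j _ hij
  rcases lt_or_gt_of_ne hij with h | h
  · exact blk_disjoint hw h
  · exact (blk_disjoint hw h).symm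

end

end Pool.Agent.Lib_helper9.LG.BLKd
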