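import Mathlib
import Pool.Agent.Lib_helper9.LG.EDa

set_option autoImplicit false
set_option linter.unusedSectionVars false
set_option linter.unusedSimpArgs false

/-!
Assembly of the positive proportion engine: all parameters fixed.
-/

namespace Pool.Agent.Lib_helper9.LG

open Finset

noncomputable section

open Classical in
theorem edcore (hNN : StmtNN) (hEXP : StmtEXP) (hVUP : StmtVUP) (hVLO : StmtVLO)
    (hMOM : StmtMOM) (hLOC : StmtLOC) (hGB : StmtGB)
    (P : ℕ → Finset ℕ) (b : ℕ → ℕ) (N m W b₀ M₀ J : ℕ) (Q S : Finset ℕ)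
    (z a B B1 VJ G0 : ℝ) (lam q : {l // l ∈ Q} → ℝ)
    (hlam : lam = fun i : {l // l ∈ Q} => Real.log ((i : ℕ) : ℝ))
    (hq : q = fun i : {l // l ∈ Q} => ((i : ℕ) : ℝ) - 1)
    (hm : 1 ≤ m) (hW : 1 ≤ W) (hM₀ : 1 ≤ M₀) (hWm : W.Coprime m)
    (hd : ∀ i < N, ∀ j < N, i ≠ j → Disjoint (P i) (P j))
    (hS1 : ∀ l ∈ SS P N, l.Prime ∧ ¬ l ∣ m ∧ ¬ l ∣ W ∧ 16 * J + 16 ≤ l)
    (hkS : ∀ k ∈ S, ∀ l ∈ SS P N, k < l)
    (hQ1 : ∀ l ∈ Q, l.Prime ∧ ¬ l ∣ m ∧ ¬ l ∣ W) (hkQ : ∀ k ∈ S, ∀ l ∈ Q, k < l)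
    (hdQ : Disjoint (SS P N) Q)
    (hsum : ∀ j < N, ∑ l ∈ P j, (1 : ℝ) / l ≤ 1) (hb : ∀ j < N, 700 * (J + 1) + j ≤ b j)
    (hz : 4 ≤ z) (hQz : ∀ l ∈ Q, z < (l : ℝ)) (ha : 0 ≤ a) (haz : a ≤ Real.log z)
    (hB1 : 0 < B1) (hB : 0 ≤ B) (hnorm : a * ∑ T, s0 lam q B1 T = 1)
    (hBJ : B < (J + 1) * Real.log z)
    (hVJ : 0 < VJ) (hVJ2 : ∀ j ≤ J, VJ ≤ VS (SS P N) j)
    (hKz : 2 * ((J : ℝ) + 1) * S.card / z ≤ 1)
    (h1 : 2 * (VS (SS P N) 1 * S.card) * ((4 * J / z) ^ 2 +
      Real.exp ((2 * a * (VS (SS P N) 1 * S.card) - (B - B1)) / B1)) ≤ 1 / 8)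
    (h2 : ((S.card : ℝ) + 1) * ((2 ^ m.primeFactors.card * LV P b N ^ 2 /
      ((M₀ : ℝ) * ((m.totient : ℝ) / m))) * (Real.exp (3 * B) * 3) ^ 2) ≤ 1 / 8)
    (h3 : ((S.card : ℝ) + 1) * (2 * (4 * J * S.card / z) / VJ) ≤ 1 / 8)
    (h4 : ((S.card : ℝ) + 1) ^ (4 * J) * (2 ^ m.primeFactors.card * LV P b N ^ 4 /
        ((M₀ : ℝ) * ((m.totient : ℝ) / m))) ≤ 1)
    (hG0 : 1 ≤ G0)
    (hG : ∀ k ∈ S, ∀ x < M₀, ∏ l ∈ Q, (1 + |xx m l k (b₀ + W * x)|) ≤ G0) :
    ((M₀ : ℝ) * ((m.totient : ℝ) / m)) /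
      (4 * ((G0 ^ J) ^ 4 * (2 * Real.exp (15 * (S.card * VS (SS P N) 1)) + 1))) ≤
    (((range M₀).filter (fun x => (b₀ + W * x).Coprime m ∧
      ∀ k ∈ S, ∃ l ∈ SS P N ∪ Q, l ∣ (b₀ + W * x) + k * m)).card : ℝ) := by
  obtain ⟨hFF0, hFF1, hFF2, hFF3, hL0, hL1, hL2⟩ := hNN
  obtain ⟨M, hMdef⟩ : ∃ M : ℝ, M = (M₀ : ℝ) * ((m.totient : ℝ) / m) := ⟨_, rfl⟩
  have hM : 0 < M := by
    rw [hMdef]
    have h3 : 0 < m.totient := Nat.totient_pos.2 (by omega)
    have h4 : (0 : ℝ) < m.totient := by exact_mod_cast h3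
    have h5 : (0 : ℝ) < m := by exact_mod_cast (by omega : 0 < m)
    have h6 : (0 : ℝ) < M₀ := by exact_mod_cast (by omega : 0 < M₀)
    positivity
  have hcardS : Fintype.card {k // k ∈ S} = S.card := by simp
  obtain ⟨K, hK⟩ : ∃ K : ℝ, K = (S.card : ℝ) := ⟨_, rfl⟩
  have hK' : (Fintype.card {k // k ∈ S} : ℝ) = K := by rw [hcardS, hK]
  have hK0 : 0 ≤ K := by
    rw [hK]
    exact Nat.cast_nonneg _
  have hlz : 1 ≤ Real.log z := by
    have h5 : Real.exp 1 ≤ z := by
      have := Real.exp_one_lt_d9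
      linarith
    have h6 := Real.log_le_log (Real.exp_pos 1) h5
    rwa [Real.log_exp] at h6
  have hlz' : ∀ i, Real.log z ≤ lam i := by
    intro i
    rw [hlam]
    exact Real.log_le_log (by linarith) (hQz i i.2).le
  have hlam0 : ∀ i, 0 < lam i := fun i => by
    have := hlz' i
    linarith
  have hqz : ∀ i, z / 2 ≤ q i := by
    intro i
    have := hQz i i.2
    rw [hq]
    dsimp only
    linarith
  have hq0 : ∀ i, 0 < q i := fun i => by
    have := hqz i
    linarith
  have hal : ∀ i, a ≤ lam i := fun i => haz.trans (hlz' i)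
  have hz0 : 0 < z := by linarith
  -- few primes in a configuration
  have hcard : ∀ T : Finset {l // l ∈ Q}, sz lam T ≤ B → T.card ≤ J := by
    intro T hT
    have h5 : (T.card : ℝ) * Real.log z ≤ sz lam T := by
      rw [sz, ← nsmul_eq_mul, ← Finset.sum_const]
      apply Finset.sum_le_sum
      intro i _
      exact hlz' i
    have h6 : (T.card : ℝ) * Real.log z < ((J : ℝ) + 1) * Real.log z := by linarith
    have h7 : (T.card : ℝ) < (J : ℝ) + 1 := lt_of_mul_lt_mul_right h6 (by linarith)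
    have h8 : T.card < J + 1 := by exact_mod_cast h7
    omega
  have hJ : ∀ α : {l // l ∈ Q} → Option {k // k ∈ S}, sz lam (spp α) ≤ B →
      (act α).card ≤ J := by
    intro α hα
    refine le_trans ?_ (hcard _ hα)
    have h5 : (act α).map Function.Embedding.some ⊆ (spp α).image α := by
      intro o ho
      rw [mem_map] at ho
      obtain ⟨k, hk, rfl⟩ := ho
      rw [mem_act] at hk
      obtain ⟨i, hi⟩ := Finset.nonempty_iff_ne_empty.2 hk
      rw [mem_blk] at hi
      rw [mem_image]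
      refine ⟨i, ?_, hi⟩
      rw [mem_spp, hi]
      simp
    have h6 := (card_le_card h5).trans card_image_le
    rwa [card_map] at h6
  have hsum1 : ∀ T : Finset {l // l ∈ Q}, ∀ c : ℝ, 0 ≤ c → sz lam T ≤ B →
      ∑ i ∈ T, c / q i ≤ 2 * J * c / z := by
    intro T c hc hT
    calc ∑ i ∈ T, c / q i ≤ ∑ i ∈ T, c / (z / 2) := by
          apply Finset.sum_le_sum
          intro i _
          exact div_le_div_of_nonneg_left hc (by positivity) (hqz i)
      _ = T.card * (c / (z / 2)) := by rw [Finset.sum_const, nsmul_eq_mul]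
      _ ≤ J * (c / (z / 2)) := by
          have h5 : (T.card : ℝ) ≤ J := by exact_mod_cast hcard T hT
          gcongr
      _ = _ := by
          field_simp
  have hC : ∑ α : {l // l ∈ Q} → Option {k // k ∈ S}, Real.exp (-2 * sz lam (spp α)) ≤ 3 := by
    refine (sum_exp_neg lam).trans ?_
    rw [hK']
    have h5 : ∑ i : {l // l ∈ Q}, Real.exp (-2 * lam i) ≤ 2 / z := by
      have h6 : ∀ i : {l // l ∈ Q}, Real.exp (-2 * lam i) = (((i : ℕ) : ℝ) ^ 2)⁻¹ := by
        intro i
        have hi : (0 : ℝ) < ((i : ℕ) : ℝ) := by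
          have := hQz i i.2
          linarith
        rw [hlam]
        dsimp only
        rw [show -2 * Real.log ((i : ℕ) : ℝ) = -(Real.log ((i : ℕ) : ℝ) * (2 : ℕ)) by
          push_cast; ring, Real.exp_neg, Real.exp_mul, Real.exp_log hi, Real.rpow_natCast]
      rw [Finset.sum_congr rfl fun i _ => h6 i]
      have h7 : ∑ i : {l // l ∈ Q}, (((i : ℕ) : ℝ) ^ 2)⁻¹ =
          ∑ l ∈ Q, ((l : ℝ) ^ 2)⁻¹ :=
        Finset.sum_coe_sort Q (fun l => ((l : ℝ) ^ 2)⁻¹)
      rw [h7]
      obtain ⟨R, hR⟩ : ∃ R : ℕ, R = Q.sup id + 1 := ⟨_, rfl⟩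
      have h8 : Q ⊆ Ioo ⌊z⌋₊ R := by
        intro l hl
        rw [mem_Ioo]
        refine ⟨?_, ?_⟩
        · rw [Nat.floor_lt (by positivity)]
          exact hQz l hl
        · rw [hR]
          have : l ≤ Q.sup id := Finset.le_sup (f := id) hl
          omega
      calc ∑ l ∈ Q, ((l : ℝ) ^ 2)⁻¹ ≤ ∑ l ∈ Ioo ⌊z⌋₊ R, ((l : ℝ) ^ 2)⁻¹ :=
            Finset.sum_le_sum_of_subset_of_nonneg h8 fun l _ _ => by positivity
        _ ≤ 2 / ((⌊z⌋₊ : ℝ) + 1) := sum_Ioo_inv_sq_le _ _
        _ ≤ 2 / z := by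
            apply div_le_div_of_nonneg_left (by norm_num) (by positivity)
            exact (Nat.lt_floor_add_one _).le
    have h6 : K * ∑ i : {l // l ∈ Q}, Real.exp (-2 * lam i) ≤ 1 := by
      calc K * ∑ i : {l // l ∈ Q}, Real.exp (-2 * lam i) ≤ K * (2 / z) := by gcongr
        _ ≤ 2 * ((J : ℝ) + 1) * K / z := by
            rw [mul_div_assoc', div_le_div_iff_of_pos_right hz0]
            have : (0 : ℝ) ≤ J := Nat.cast_nonneg J
            nlinarith
        _ ≤ 1 := by rwa [hK]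
    calc Real.exp (K * ∑ i : {l // l ∈ Q}, Real.exp (-2 * lam i)) ≤ Real.exp 1 :=
          Real.exp_le_exp.2 h6
      _ ≤ 3 := by
          have := Real.exp_one_lt_d9
          linarith
  have hε : ∀ α : {l // l ∈ Q} → Option {k // k ∈ S}, sz lam (spp α) ≤ B →
      ∏ i ∈ spp α, (1 + ((Fintype.card {k // k ∈ S} : ℝ) - 1) / q i) ≤
        1 + 4 * J * K / z := by
    intro α hα
    rw [hK']
    have h5 := hsum1 (spp α) K hK0 hα
    have h6 : 2 * J * K / z ≤ 1 := by
      refine le_trans ?_ (hK ▸ hKz)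
      rw [div_le_div_iff_of_pos_right hz0]
      nlinarith
    have h6' : 0 ≤ 2 * J * K / z := by positivity
    have h7 : ∏ i ∈ spp α, (1 + (K - 1) / q i) ≤ ∏ i ∈ spp α, Real.exp (K / q i) := by
      apply Finset.prod_le_prod
      · intro i _
        have h4 := hqz i
        have h5 := hq0 i
        have h6 : -1 ≤ (K - 1) / q i := by
          rw [le_div_iff₀ h5]
          linarith
        linarith
      · intro i _
        have h5 := hq0 i
        have h4 := Real.add_one_le_exp (K / q i)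
        have h6 : (K - 1) / q i ≤ K / q i := div_le_div_of_nonneg_right (by linarith) h5.le
        linarith
    refine h7.trans ?_
    rw [← Real.exp_sum]
    have h8 := exp_sub_one_le (u := 2 * J * K / z) h6' h6
    calc Real.exp (∑ i ∈ spp α, K / q i) ≤ Real.exp (2 * J * K / z) := Real.exp_le_exp.2 h5
      _ ≤ 1 + 2 * (2 * J * K / z) := by linarith
      _ = 1 + 4 * J * K / z := by ring
  have hδ : ∀ α : {l // l ∈ Q} → Option {k // k ∈ S}, sz lam (spp α) ≤ B →
      ∑ i ∈ spp α, 2 / q i ≤ 4 * J / z := by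
    intro α hα
    refine (hsum1 (spp α) 2 (by norm_num) hα).trans (le_of_eq ?_)
    ring
  -- the sieve functions
  obtain ⟨em, hem⟩ : ∃ em : Finset {k // k ∈ S} → Finset ℕ,
      em = fun A => A.map (Function.Embedding.subtype _) := ⟨_, rfl⟩
  have hemc : ∀ A, (em A).card = A.card := by
    intro A
    rw [hem]
    exact card_map _
  have hems : ∀ A, ∀ k ∈ em A, k ∈ S := by
    intro A k hk
    rw [hem] at hk
    simp only [mem_map] at hk
    obtain ⟨i, _, rfl⟩ := hk
    exact i.2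
  have hemi : ∀ (k : {k // k ∈ S}) (A : Finset {k // k ∈ S}),
      em (insert k A) = insert (k : ℕ) (em A) := by
    intro k A
    rw [hem]
    dsimp only
    rw [map_insert]
    rfl
  have hvpair : ∀ A A' : Finset ℕ, vv P b N m ![A, A'] = vv P b N m ![A, A', ∅, ∅] := by
    intro A A'
    unfold vv
    congr 1
    apply Finset.sum_congr rfl
    intro c _
    rw [Fin.prod_univ_two, Fin.prod_univ_four]
    simp only [Matrix.cons_val_zero, Matrix.cons_val_one, Matrix.cons_val]
    rw [hL1]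
    ring
  have hvup : ∀ A A' : Finset {k // k ∈ S}, A.card ≤ J + 1 → A'.card ≤ J + 1 →
      vv P b N m ![em A, em A'] ≤ 2 * VS (SS P N) (em A ∪ em A').card ∧
        (em A ∪ em A').card ≤ 2 * J + 2 := by
    intro A A' hA hA'
    have h5 : (em A ∪ em A').card ≤ 2 * J + 2 := by
      refine (card_union_le _ _).trans ?_
      rw [hemc, hemc]
      omega
    refine ⟨?_, h5⟩
    have h6 : univ.biUnion (![em A, em A', ∅, ∅] : Fin 4 → Finset ℕ) = em A ∪ em A' := by
      ext k
      simp only [mem_biUnion, mem_univ, true_and, mem_union]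
      constructor
      · rintro ⟨i, hi⟩
        fin_cases i
        · left; simpa using hi
        · right; simpa using hi
        · simp at hi
        · simp at hi
      · rintro (h | h)
        · exact ⟨0, by simpa using h⟩
        · exact ⟨1, by simpa using h⟩
    rw [hvpair, ← h6]
    apply hVUP P b N m (2 * J + 2) _ hd
    · intro l hl
      obtain ⟨g1, g2, g3, g4⟩ := hS1 l hl
      exact ⟨g1, g2, by omega⟩
    · intro i k hk l hl
      apply hkS k _ l hl
      have h7 : k ∈ em A ∪ em A' := by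
        rw [← h6, mem_biUnion]
        exact ⟨i, mem_univ _, hk⟩
      rw [mem_union] at h7
      rcases h7 with h7 | h7
      · exact hems A k h7
      · exact hems A' k h7
    · rw [h6]
      exact h5
    · exact hsum
    · intro j hj
      have := hb j hj
      omega
  have hvnn : ∀ A A' : Finset ℕ, 0 ≤ vv P b N m ![A, A'] := by
    intro A A'
    unfold vv
    apply div_nonneg _ (Nat.cast_nonneg _)
    apply Finset.sum_nonneg
    intro c _
    apply Finset.prod_nonneg
    intro i _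
    exact hL0 _ _ _ _ _ _
  obtain ⟨V, hV⟩ : ∃ V : ℕ → ℝ, V = fun j => if j ≤ J + 1 then VS (SS P N) j else 0 := ⟨_, rfl⟩
  have hVle : ∀ j, j ≤ J + 1 → V j = VS (SS P N) j := by
    intro j hj
    rw [hV]
    simp [hj]
  have hV0 : V 0 = 1 := by
    rw [hVle 0 (by omega)]
    simp [VS]
  have hVnn : ∀ j, 0 ≤ V j := by
    intro j
    rw [hV]
    dsimp only
    split_ifs with h
    · apply VS_nonneg
      intro l hl
      have := (hS1 l hl).2.2.2
      omega
    · exact le_rfl
  have hV1nn : 0 ≤ VS (SS P N) 1 := by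
    apply VS_nonneg
    intro l hl
    have := (hS1 l hl).2.2.2
    omega
  have hVs : ∀ j, V (j + 1) ≤ VS (SS P N) 1 * V j := by
    intro j
    by_cases h : j + 1 ≤ J + 1
    · rw [hVle (j + 1) h, hVle j (by omega)]
      apply VS_succ
      intro l hl
      have := (hS1 l hl).2.2.2
      omega
    · have h5 : V (j + 1) = 0 := by
        rw [hV]
        simp only [if_neg h]
      rw [h5]
      exact mul_nonneg hV1nn (hVnn j)
  have hcd := coreD (ι := {l // l ∈ Q}) (κ := {k // k ∈ S}) (q := q) (lam := lam)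
    (a := a) (B := B) (B1 := B1) hlam0 hq0 ha hal hB1 hB hnorm
    (fun (i : {l // l ∈ Q}) (k : {k // k ∈ S}) (x : ℕ) => xx m i k (b₀ + W * x))
    ((range M₀).filter (fun x => (b₀ + W * x).Coprime m))
    (fun A x => Lm P b N m (em A) (b₀ + W * x))
    (fun A A' => vv P b N m ![em A, em A'])
    (V := V) (V1 := VS (SS P N) 1) (VJ := VJ) (J := J) hV0 hVnn hV1nn hVs hVJ
    (by
      intro j hj
      rw [hVle j (by omega)]
      exact hVJ2 j hj) hJ
    (by
      intro A hA
      rw [hVle _ (by omega), ← hemc A]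
      apply hVLO P b N m (em A)
      · intro l hl
        obtain ⟨g1, g2, g3, g4⟩ := hS1 l hl
        refine ⟨g1, g2, ?_⟩
        rw [hemc]
        omega
      · intro k hk l hl
        exact hkS k (hems A k hk) l hl)
    (by
      intro A hA
      rw [hVle _ hA]
      have h5 := (hvup A A hA hA).1
      rwa [union_self, hemc] at h5)
    (by
      intro A A' hA hA'
      obtain ⟨h5, h6⟩ := hvup A A' hA hA'
      rw [abs_of_nonneg (hvnn _ _)]
      have h7 : VS (SS P N) (em A ∪ em A').card ≤ 1 := by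
        apply VS_le_one
        intro l hl
        have := (hS1 l hl).2.2.2
        omega
      linarith)
    (M := M) (ε := 4 * J * K / z)
    (η := 2 ^ m.primeFactors.card * LV P b N ^ 2 / M) (C := 3)
    (δ := 4 * J / z) hM (by positivity) (by positivity) hC hε (by positivity) hδ
    (by
      intro α β _ _ A A' _ _
      rw [hq, hlam, hMdef]
      exact herrD hEXP hLOC P b N m W b₀ M₀ Q S α β (em A) (em A') hm hW hM₀ hWm hd
        (fun l hl => ⟨(hS1 l hl).1, (hS1 l hl).2.1, (hS1 l hl).2.2.1⟩) hQ1 hdQ hkQ)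
    (by
      rw [hcardS]
      exact h1)
    (by
      rw [hcardS, hMdef]
      exact h2)
    (by
      rw [hcardS, hK]
      exact h3)
  -- the fourth moment
  have hmom := hMOM P b N m W b₀ M₀ J S hm hW hM₀ hWm hd
    (fun l hl => ⟨(hS1 l hl).1, (hS1 l hl).2.1, (hS1 l hl).2.2.1, by
      have := (hS1 l hl).2.2.2
      omega⟩) hkS hsum
    (by
      intro j hj
      have := hb j hj
      omega)
  have hmom2 : (∑ x ∈ (range M₀).filter (fun x => (b₀ + W * x).Coprime m),
      (∑ A ∈ S.powerset.filter (fun A => A.card ≤ J), Lm P b N m A (b₀ + W * x)) ^ 4) / M ≤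
      2 * Real.exp (15 * (S.card * VS (SS P N) 1)) + 1 := by
    rw [hMdef]
    exact hmom.trans (by linarith)
  have hexp0 : 0 < Real.exp (15 * (S.card * VS (SS P N) 1)) := Real.exp_pos _
  have hG00 : 0 < G0 := by linarith
  have hfin := card_of_moments (filter_subset _ _)
    (GD lam a B B1 (fun (i : {l // l ∈ Q}) (k : {k // k ∈ S}) (x : ℕ) => xx m i k (b₀ + W * x))
      (fun A x => Lm P b N m (em A) (b₀ + W * x)))
    (fun x => ∑ A ∈ S.powerset.filter (fun A => A.card ≤ J), Lm P b N m A (b₀ + W * x))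
    (C := G0 ^ J) hM (by positivity) (by positivity) hcd
    (by
      intro x hx
      rw [mem_filter, mem_range] at hx
      have h5 := hGB Q S lam a B B1
        (fun (i : {l // l ∈ Q}) (k : {k // k ∈ S}) (x : ℕ) => xx m i k (b₀ + W * x))
        (fun A x => Lm P b N m (em A) (b₀ + W * x)) J x G0 hlam0 ha hal hJ
        (fun A => hL0 _ _ _ _ _ _) hG0
        (by
          intro k
          have h6 := hG k k.2 x hx.1
          rw [← Finset.prod_coe_sort] at h6
          exact h6)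
      have h6 := sum_subsets S J (fun A => Lm P b N m A (b₀ + W * x))
      rw [← h6]
      refine h5.trans (le_of_eq ?_)
      rw [hem])
    hmom2
  rw [← hMdef]
  refine hfin.trans ?_
  have hsub : ((range M₀).filter (fun x => (b₀ + W * x).Coprime m)).filter
      (fun ω => ¬ ∃ k : {k // k ∈ S}, (∀ i : {l // l ∈ Q},
        (fun (i : {l // l ∈ Q}) (k : {k // k ∈ S}) (x : ℕ) => xx m i k (b₀ + W * x)) i k ω =
          1 / q i) ∧
        ∀ A, (fun (A : Finset {k // k ∈ S}) (x : ℕ) => Lm P b N m (em A) (b₀ + W * x))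
          (insert k A) ω =
          (fun (A : Finset {k // k ∈ S}) (x : ℕ) => Lm P b N m (em A) (b₀ + W * x)) A ω) ⊆
      (range M₀).filter (fun x => (b₀ + W * x).Coprime m ∧
      ∀ k ∈ S, ∃ l ∈ SS P N ∪ Q, l ∣ (b₀ + W * x) + k * m) := by
    intro x hx
    rw [mem_filter, mem_filter] at hx
    obtain ⟨⟨hx1, hx2⟩, hx3⟩ := hx
    rw [mem_filter]
    refine ⟨hx1, hx2, ?_⟩
    intro k hk
    by_contra hcon
    push Not at hcon
    apply hx3
    refine ⟨⟨k, hk⟩, ?_, ?_⟩
    · intro i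
      have h5 := hcon i (mem_union_right _ i.2)
      rw [hq]
      simp only [xx]
      rw [if_neg h5]
    · intro A
      dsimp only
      rw [hemi]
      apply hL2
      intro l hl
      exact hcon l (mem_union_left _ hl)
  exact_mod_cast card_le_card hsub

end

end Pool.Agent.Lib_helper9.LG
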