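import Mathlib
import Pool.Agent.Lib_helper9.LG.EDb
import Pool.Agent.Lib_helper9.LG.EDn

set_option autoImplicit false
set_option linter.unusedSectionVars false
set_option linter.unusedSimpArgs false

/-!
The positive proportion engine.
-/

namespace Pool.Agent.Lib_helper9.LG

open Finset Filter

noncomputable section

theorem edc (hNN : StmtNN) (hEXP : StmtEXP) (hVUP : StmtVUP) (hVLO : StmtVLO)
    (hMOM : StmtMOM) (hLOC : StmtLOC) (hGB : StmtGB) (hSIG : StmtSIGD) (hBLK : StmtBLK)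
    (hVSL : StmtVSL) (hOM : StmtOM) : StmtED := by
  classical
  intro C₀ hC₀ A
  obtain ⟨c, hc, hSIG⟩ := hSIG
  obtain ⟨C₁, hC₁, hG0⟩ := g0_bound
  obtain ⟨e, he⟩ : ∃ e : ℝ, e = 1 / 10 ^ 6 := ⟨_, rfl⟩
  have he0 : 0 < e := by rw [he]; norm_num
  obtain ⟨η, lamb, I, hη, hηe, hlamb, hI1, hI2, hI3, hI4⟩ := params hC₀ hc he0
  obtain ⟨J, hJ⟩ : ∃ J : ℕ, J = ⌊e / η⌋₊ := ⟨_, rfl⟩
  have hJ1 : (J : ℝ) * η ≤ e := by
    have h1 : (J : ℝ) ≤ e / η := by
      rw [hJ]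
      exact Nat.floor_le (by positivity)
    rwa [le_div_iff₀ hη] at h1
  have hJ2 : e < ((J : ℝ) + 1) * η := by
    have h1 : e / η < (J : ℝ) + 1 := by
      rw [hJ]
      exact Nat.lt_floor_add_one _
    rwa [div_lt_iff₀ hη] at h1
  have hJ0 : (0 : ℝ) ≤ J := Nat.cast_nonneg J
  obtain ⟨E, hE⟩ : ∃ E : ℕ, E = ⌈((A : ℝ) + 1) / η⌉₊ := ⟨_, rfl⟩
  obtain ⟨G0, hG0d⟩ : ∃ G0 : ℝ, G0 = 2 ^ E * (C₁ * (e / lamb / η)) := ⟨_, rfl⟩
  have hlamb0 : 0 < lamb := by linarith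
  have hratio : 1 ≤ e / lamb / η := by
    rw [le_div_iff₀ hη, le_div_iff₀ hlamb0, one_mul]
    have h1 : (1 : ℝ) ≤ 2 ^ I := one_le_pow₀ (by norm_num)
    have h2 : 0 ≤ η * lamb := by positivity
    nlinarith
  have hG01 : 1 ≤ G0 := by
    rw [hG0d]
    have h1 : (1 : ℝ) ≤ 2 ^ E := one_le_pow₀ (by norm_num)
    exact one_le_mul_of_one_le_of_one_le h1 (one_le_mul_of_one_le_of_one_le hC₁ hratio)
  obtain ⟨C4, hC4⟩ : ∃ C4 : ℝ, C4 = (G0 ^ J) ^ 4 * (2 * Real.exp (15 * (C₀ / η)) + 1) := ⟨_, rfl⟩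
  have hC40 : 0 < C4 := by
    have : 0 < G0 := by linarith
    rw [hC4]
    positivity
  refine ⟨η, 1 / (8 * C4), hη, by positivity, ?_⟩
  obtain ⟨L₁, hL₁⟩ := hSIG η hη A I
  obtain ⟨L₂, hL₂⟩ := hBLK η hη (700 * (J + 1))
  obtain ⟨L₃, hL₃⟩ := hVSL η hη J
  obtain ⟨X₄, hX₄⟩ := hOM A
  have hev := largeD J (D := 1024 * C₀ / η * (J : ℝ) ^ 2) hη (by positivity)
  have hX : ∀ᶠ L : ℝ in atTop, X₄ ≤ Real.exp L := Real.tendsto_exp_atTop.eventually_ge_atTop X₄
  obtain ⟨L₀, hL₀⟩ := eventually_atTop.1 (hev.and (hX.and ((eventually_ge_atTop L₁).and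
    ((eventually_ge_atTop L₂).and (eventually_ge_atTop L₃)))))
  refine ⟨L₀, fun L hL m W b hm hmL hW hb hWL hWm hWp S hSk hSV hbL => ?_⟩
  obtain ⟨⟨e1, e2, e3, e4, e5, e6, e7, e8⟩, e9, e10, e11, e12⟩ := hL₀ L hL
  have hL0 : 0 < L := by linarith
  obtain ⟨z, hz⟩ : ∃ z : ℝ, z = Real.exp (η * L) := ⟨_, rfl⟩
  obtain ⟨P, N, hd, hSS, hsum, hLV⟩ := hL₂ L e11 m hm
  have hVSL' := hL₃ L e12 m hm
  have hω := hX₄ (Real.exp L) e9 m hm (by
    have h1 : (m : ℝ) = Real.exp (Real.log m) := (Real.exp_log (by exact_mod_cast hm)).symm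
    rw [h1, ← Real.exp_nat_mul]
    exact Real.exp_le_exp.2 hmL)
  obtain ⟨B1, hB1⟩ : ∃ B1 : ℝ, B1 = e * L / lamb := ⟨_, rfl⟩
  have hB1I : 2 ^ I * (η * L) ≤ B1 := by
    rw [hB1, le_div_iff₀ hlamb0]
    calc 2 ^ I * (η * L) * lamb = (2 ^ I * (η * lamb)) * L := by ring
      _ ≤ e * L := by gcongr
  have hσ := hL₁ L e10 m hm hmL B1 hB1I
  have hlogz : Real.log z = η * L := by rw [hz, Real.log_exp]
  have hz0 : 0 < z := by rw [hz]; exact Real.exp_pos _
  have hzL : L ^ 4 ≤ z := by rw [hz]; exact e3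
  have hL4 : (200 : ℝ) ^ 4 ≤ L ^ 4 := pow_le_pow_left₀ (by norm_num) e1 4
  have hL4L : L ≤ L ^ 4 := le_self_pow₀ (by linarith) (by norm_num)
  have hL24 : L ^ 2 < L ^ 4 := pow_lt_pow_right₀ (by linarith) (by norm_num)
  have hz4 : 4 ≤ z := by
    have : (4 : ℝ) ≤ 200 ^ 4 := by norm_num
    linarith
  rw [← hz] at hSS hVSL' hσ hSV
  obtain ⟨Q, hQ⟩ : ∃ Q : Finset ℕ, Q = BPr m z (Real.exp B1) := ⟨_, rfl⟩
  have hB10 : 0 < B1 := by rw [hB1]; positivity
  have hηB1 : η * L ≤ B1 := by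
    have h1 : (1 : ℝ) ≤ 2 ^ I := one_le_pow₀ (by norm_num)
    have h2 : 0 ≤ η * L := by positivity
    exact (le_mul_of_one_le_left h2 h1).trans hB1I
  have hzR : z ≤ Real.exp B1 := by
    rw [hz]
    exact Real.exp_le_exp.2 hηB1
  have hexpB1 : 0 ≤ Real.exp B1 := Real.exp_nonneg _
  have hSSm : ∀ l ∈ SS P N, l.Prime ∧ L ^ 4 < (l : ℝ) ∧ ¬ l ∣ m ∧ (l : ℝ) ≤ z := by
    intro l hl
    rw [hSS] at hl
    exact mem_SPr hz0.le hl
  have hQm : ∀ l ∈ Q, l.Prime ∧ z < (l : ℝ) ∧ ¬ l ∣ m ∧ (l : ℝ) ≤ Real.exp B1 := by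
    intro l hl
    rw [hQ] at hl
    exact mem_BPr hexpB1 hl
  have hkL4 : ∀ k ∈ S, (k : ℝ) < L ^ 4 := fun k hk => (hSk k hk).trans_lt hL24
  have hcardS : (S.card : ℝ) ≤ L ^ 2 + 1 := by
    have h1 : S ⊆ range (⌊L ^ 2⌋₊ + 1) := by
      intro k hk
      rw [mem_range]
      have := Nat.le_floor (hSk k hk)
      omega
    have h2 := card_le_card h1
    rw [card_range] at h2
    have h3 : (S.card : ℝ) ≤ (⌊L ^ 2⌋₊ : ℝ) + 1 := by exact_mod_cast h2
    have h4 : (⌊L ^ 2⌋₊ : ℝ) ≤ L ^ 2 := Nat.floor_le (by positivity)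
    linarith
  have hS0 : (0 : ℝ) ≤ S.card := Nat.cast_nonneg _
  obtain ⟨lam, hlam⟩ : ∃ lam : {l // l ∈ Q} → ℝ,
      lam = fun i : {l // l ∈ Q} => Real.log ((i : ℕ) : ℝ) := ⟨_, rfl⟩
  obtain ⟨q, hq⟩ : ∃ q : {l // l ∈ Q} → ℝ, q = fun i : {l // l ∈ Q} => ((i : ℕ) : ℝ) - 1 :=
    ⟨_, rfl⟩
  obtain ⟨σ, hσd⟩ : ∃ σ : ℝ, σ = ∑ T, s0 lam q B1 T := ⟨_, rfl⟩
  have hσ2 : (c * I - 1) / (η * L) ≤ σ := by
    rw [hσd, hlam, hq]
    subst hQ
    exact hσ
  have hcI : 0 < c * I - 1 := by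
    have : 0 < 8 * C₀ / e := by positivity
    linarith
  have hcI1 : 1 ≤ c * I - 1 := by
    have : 0 < 8 * C₀ / e := by positivity
    linarith
  have hσ0 : 0 < σ := lt_of_lt_of_le (by positivity) hσ2
  have ha1 : 1 / σ ≤ η * L / (c * I - 1) := by
    rw [div_le_div_iff₀ hσ0 hcI, one_mul]
    rw [div_le_iff₀ (by positivity)] at hσ2
    linarith
  have ha2 : 1 / σ ≤ Real.log z := by
    rw [hlogz]
    refine ha1.trans ?_
    exact div_le_self (by positivity) hcI1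
  -- the range
  obtain ⟨n, hn⟩ : ∃ n : ℕ, n = ⌊Real.exp L / W⌋₊ := ⟨_, rfl⟩
  obtain ⟨M, hM⟩ : ∃ M : ℝ, M = (n : ℝ) * ((m.totient : ℝ) / m) := ⟨_, rfl⟩
  obtain ⟨hn0, hn1, hM0, hωM⟩ := num_om e1 hm hW hWL hn hω hM
  -- the level
  obtain ⟨bb, hbb⟩ : ∃ bb : ℕ → ℕ, bb = fun j => 700 * (J + 1) + j := ⟨_, rfl⟩
  rw [← hbb] at hLV
  have hLV0 : 0 ≤ LV P bb N := by
    unfold LV
    apply Finset.prod_nonneg
    intro j _
    have : 0 ≤ ∑ l ∈ P j, (l : ℝ) := Finset.sum_nonneg fun l _ => Nat.cast_nonneg l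
    positivity
  have hLV1 : LV P bb N ≤ Real.exp (L / 80) := by
    refine hLV.trans (Real.exp_le_exp.2 (num_lv hL0 ?_ ?_))
    · rw [← he]
      exact hηe
    · rw [← he]
      exact hJ1
  have hLV2 : LV P bb N ^ 2 ≤ Real.exp (L / 40) := by
    have h1 := pow_le_pow_left₀ hLV0 hLV1 2
    refine h1.trans (le_of_eq ?_)
    rw [← Real.exp_nat_mul]
    congr 1
    push_cast
    ring
  have hLV4 : LV P bb N ^ 4 ≤ Real.exp (L / 20) := by
    have h1 := pow_le_pow_left₀ hLV0 hLV1 4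
    refine h1.trans (le_of_eq ?_)
    rw [← Real.exp_nat_mul]
    congr 1
    push_cast
    ring
  obtain ⟨V1, hV1⟩ : ∃ V1 : ℝ, V1 = VS (SS P N) 1 := ⟨_, rfl⟩
  have hV10 : 0 ≤ V1 := by
    rw [hV1]
    apply VS_nonneg
    intro l hl
    exact (hSSm l hl).1.one_le
  have hVK : V1 * S.card ≤ C₀ / η := by
    rw [hV1, hSS, mul_comm]
    exact hSV
  have hVK0 : 0 ≤ V1 * S.card := by positivity
  have hz1 : 1 ≤ z := by linarith
  have hzinv : 1 / z = Real.exp (-(η * L)) := by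
    rw [hz, Real.exp_neg, one_div]
  have key := edcore hNN hEXP hVUP hVLO hMOM hLOC hGB P bb N m W b n J Q S z (1 / σ) (e * L) B1
    (1 / L ^ (3 * J)) G0 lam q hlam hq hm hW hn0 hWm hd
    (by
      intro l hl
      obtain ⟨g1, g2, g3, g4⟩ := hSSm l hl
      refine ⟨g1, g3, fun h => absurd (hWp l g1 h) (not_le.2 g2), ?_⟩
      have h1 : ((16 * J + 16 : ℕ) : ℝ) ≤ l := by
        push_cast
        linarith
      exact_mod_cast h1)
    (by
      intro k hk l hl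
      have h1 := (hSSm l hl).2.1
      have h2 : (k : ℝ) < l := (hkL4 k hk).trans h1
      exact_mod_cast h2)
    (by
      intro l hl
      obtain ⟨g1, g2, g3, g4⟩ := hQm l hl
      exact ⟨g1, g3, fun h => absurd (hWp l g1 h) (not_le.2 (hzL.trans_lt g2))⟩)
    (by
      intro k hk l hl
      have h1 := (hQm l hl).2.1
      have h2 : (k : ℝ) < l := (hkL4 k hk).trans (hzL.trans_lt h1)
      exact_mod_cast h2)
    (by
      rw [Finset.disjoint_left]
      intro l h1 h2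
      exact absurd (hSSm l h1).2.2.2 (not_le.2 (hQm l h2).2.1))
    hsum
    (by
      intro j _
      rw [hbb])
    hz4 (fun l hl => (hQm l hl).2.1) (by positivity) ha2 hB10 (by positivity)
    (by
      rw [← hσd]
      field_simp)
    (by
      rw [hlogz]
      calc e * L < (((J : ℝ) + 1) * η) * L := by gcongr
        _ = _ := by ring)
    (by positivity)
    (by
      intro j hj
      rw [hSS]
      exact hVSL' j hj)
    (by
      rw [div_eq_mul_one_div, hzinv]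
      refine le_trans ?_ e4
      gcongr)
    (by
      rw [← hV1]
      exact num_h1 hVK0 hC₀ hη hVK hL0 hz1 hzinv ha1 he0 hlamb0 hB1 hI2 hI3 e5)
    (by
      rw [← hM]
      exact num_h2 hcardS e1 hM0 (by positivity) hωM (by positivity) hLV2 he e6)
    (num_h3 hS0 hcardS hL0 hz0 hzinv e7)
    (by
      rw [← hM]
      exact num_h4 hS0 hcardS e1 hM0 (by positivity) hωM (by positivity) hLV4 e8)
    hG01
    (by
      intro k hk x hx
      rw [hQ]
      refine (hG0 m k (b + W * x) z (Real.exp B1) (by linarith) hzR).trans ?_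
      rw [hG0d, Real.log_exp, hlogz]
      have h1 : B1 / (η * L) = e / lamb / η := by
        rw [hB1]
        field_simp
      rw [h1]
      apply mul_le_mul_of_nonneg_right _ (by positivity)
      apply pow_le_pow_right₀ (by norm_num)
      have hnn : 1 ≤ b + W * x + k * m := by
        have := Nat.zero_le (W * x + k * m)
        omega
      have h2 := few_dvd (Q := BPr m z (Real.exp B1)) (z := z) (by linarith)
        (fun l hl => ⟨(mem_BPr hexpB1 hl).1, (mem_BPr hexpB1 hl).2.1⟩) hnn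
      rw [hlogz] at h2
      have h3 := num_log e1 hm hW hmL hb (hSk k hk) hbL hn hx
      have h4 : (((BPr m z (Real.exp B1)).filter
          (fun l => l ∣ b + W * x + k * m)).card : ℝ) ≤ (A + 1) / η := by
        rw [le_div_iff₀ hη]
        have h5 : (((BPr m z (Real.exp B1)).filter
          (fun l => l ∣ b + W * x + k * m)).card : ℝ) * η * L ≤ (A + 1) * L := by
          calc _ = (((BPr m z (Real.exp B1)).filter
              (fun l => l ∣ b + W * x + k * m)).card : ℝ) * (η * L) := by ring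
            _ ≤ _ := h2.trans h3
        exact le_of_mul_le_mul_right h5 hL0
      have h5 : (((BPr m z (Real.exp B1)).filter
          (fun l => l ∣ b + W * x + k * m)).card : ℝ) ≤ (E : ℝ) := by
        rw [hE]
        exact h4.trans (Nat.le_ceil _)
      exact_mod_cast h5)
  rw [← hM, ← hV1] at key
  have hsub : (range n).filter (fun x => (b + W * x).Coprime m ∧
      ∀ k ∈ S, ∃ l ∈ SS P N ∪ Q, l ∣ (b + W * x) + k * m) ⊆ gx m W b n L S := by
    intro x hx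
    rw [gx, mem_filter]
    rw [mem_filter] at hx
    refine ⟨hx.1, hx.2.1, fun k hk => ?_⟩
    obtain ⟨l, hl, hdvd⟩ := hx.2.2 k hk
    rw [mem_union] at hl
    rcases hl with hl | hl
    · obtain ⟨g1, g2, g3, g4⟩ := hSSm l hl
      refine ⟨l, g1, g3, g4.trans ?_, hdvd⟩
      rw [hz]
      apply Real.exp_le_exp.2
      have h3 : η ≤ 1 / 100 := by
        refine hηe.trans ?_
        rw [he]
        norm_num
      calc η * L ≤ 1 / 100 * L := mul_le_mul_of_nonneg_right h3 hL0.le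
        _ = L / 100 := by ring
    · obtain ⟨g1, g2, g3, g4⟩ := hQm l hl
      refine ⟨l, g1, g3, g4.trans ?_, hdvd⟩
      apply Real.exp_le_exp.2
      have h3 : e ≤ 1 / 100 := by
        rw [he]
        norm_num
      rw [hB1]
      calc e * L / lamb ≤ e * L := div_le_self (by positivity) hlamb
        _ ≤ 1 / 100 * L := mul_le_mul_of_nonneg_right h3 hL0.le
        _ = L / 100 := by ring
  have hcard : (((range n).filter (fun x => (b + W * x).Coprime m ∧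
      ∀ k ∈ S, ∃ l ∈ SS P N ∪ Q, l ∣ (b + W * x) + k * m)).card : ℝ) ≤
      ((gx m W b n L S).card : ℝ) := by
    exact_mod_cast card_le_card hsub
  have hW0 : (0 : ℝ) < W := by exact_mod_cast hW
  have hm0 : (0 : ℝ) < m := by exact_mod_cast hm
  have htot : (0 : ℝ) < m.totient := by exact_mod_cast Nat.totient_pos.2 hm
  have hKV : (S.card : ℝ) * V1 ≤ C₀ / η := by
    rw [mul_comm]
    exact hVK
  have hfin := num_fin (J := J) (Real.exp_pos L) hW0 (r := (m.totient : ℝ) / m) (by positivity)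
    hn1 hM hG01 hKV hC4
  rw [← hn]
  refine hfin.trans (le_trans ?_ hcard)
  exact_mod_cast key

end

end Pool.Agent.Lib_helper9.LG
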