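import Pool.Agent.Lib_helper9.LG.StmtsD

set_option autoImplicit false

/-! At least half of the classes modulo W have few sites. -/

namespace Pool.Agent.Lib_helper9.LG

open Finset

theorem PIGDd.count (m W K : ℕ) :
    ∑ b ∈ range W, ((range K).filter (fun k => (b + k * m).Coprime W)).card =
      K * W.totient := by
  have h1 : ∀ t : ℕ, ((range W).filter (fun b => (b + t).Coprime W)).card = W.totient := by
    intro t
    rw [← Nat.filter_coprime_Ico_eq_totient W t]
    refine Finset.card_bij' (i := fun b _ => b + t) (j := fun x _ => x - t) ?_ ?_ ?_ ?_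
    · intro b hb
      rw [mem_filter, mem_range] at hb
      rw [mem_filter, mem_Ico]
      exact ⟨⟨by omega, by omega⟩, hb.2.symm⟩
    · intro x hx
      rw [mem_filter, mem_Ico] at hx
      rw [mem_filter, mem_range]
      refine ⟨by omega, ?_⟩
      rw [Nat.sub_add_cancel hx.1.1]
      exact hx.2.symm
    · intro b _
      simp
    · intro x hx
      rw [mem_filter, mem_Ico] at hx
      exact Nat.sub_add_cancel hx.1.1
  simp_rw [Finset.card_filter]
  rw [Finset.sum_comm]
  have h3 : ∀ k ∈ range K, ∑ b ∈ range W, (if (b + k * m).Coprime W then 1 else 0) =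
      W.totient := by
    intro k _
    rw [← Finset.card_filter]
    exact h1 (k * m)
  rw [Finset.sum_congr rfl h3, Finset.sum_const, card_range, smul_eq_mul]

theorem pigd : StmtPIGD := by
  intro m W K hW _
  have hW0 : (0 : ℝ) < W := by exact_mod_cast hW
  have hφ : (0 : ℝ) < W.totient := by exact_mod_cast Nat.totient_pos.2 hW
  set f : ℕ → ℝ := fun b => (((range K).filter (fun k => (b + k * m).Coprime W)).card : ℝ)
    with hf
  set Y : ℝ := 2 * K * ((W.totient : ℝ) / W) with hY
  have hsum : ∑ b ∈ range W, f b = K * W.totient := by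
    have h := PIGDd.count m W K
    have h' : ((∑ b ∈ range W, ((range K).filter (fun k => (b + k * m).Coprime W)).card : ℕ) : ℝ) =
        ((K * W.totient : ℕ) : ℝ) := by rw [h]
    push_cast at h'
    exact h'
  have hsplit : ((range W).filter (fun b => f b ≤ Y)).card +
      ((range W).filter (fun b => ¬ f b ≤ Y)).card = W := by
    rw [Finset.card_filter_add_card_filter_not, card_range]
  have hsplit' : (((range W).filter (fun b => f b ≤ Y)).card : ℝ) +
      (((range W).filter (fun b => ¬ f b ≤ Y)).card : ℝ) = W := by exact_mod_cast hsplit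
  have hbad : (((range W).filter (fun b => ¬ f b ≤ Y)).card : ℝ) * Y ≤ K * W.totient := by
    rw [← hsum, ← nsmul_eq_mul]
    calc ((range W).filter (fun b => ¬ f b ≤ Y)).card • Y
        ≤ ∑ b ∈ (range W).filter (fun b => ¬ f b ≤ Y), f b := by
          refine Finset.card_nsmul_le_sum _ _ _ ?_
          intro b hb
          exact le_of_lt (not_le.1 (mem_filter.1 hb).2)
      _ ≤ ∑ b ∈ range W, f b :=
          Finset.sum_le_sum_of_subset_of_nonneg (filter_subset _ _) fun b _ _ =>
            Nat.cast_nonneg _
  have hfin : (((range W).filter (fun b => ¬ f b ≤ Y)).card : ℝ) * 2 ≤ W := by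
    rcases Nat.eq_zero_or_pos K with hK | hK
    · have h0 : (range W).filter (fun b => ¬ f b ≤ Y) = ∅ := by
        rw [Finset.filter_eq_empty_iff]
        intro b _
        rw [not_not, hf, hY, hK]
        simp
      rw [h0]
      simp
    · have hK0 : (0 : ℝ) < K := by exact_mod_cast hK
      rw [hY] at hbad
      have h1 : (((range W).filter (fun b => ¬ f b ≤ Y)).card : ℝ) * 2 * (K * W.totient) ≤
          W * (K * W.totient) := by
        have h2 : (((range W).filter (fun b => ¬ f b ≤ Y)).card : ℝ) * 2 * (K * W.totient) =
            W * ((((range W).filter (fun b => ¬ f b ≤ Y)).card : ℝ) *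
              (2 * K * ((W.totient : ℝ) / W))) := by
          field_simp
        rw [h2]
        exact mul_le_mul_of_nonneg_left hbad hW0.le
      exact le_of_mul_le_mul_right h1 (by positivity)
  have hgoal : (W : ℝ) ≤ 2 * (((range W).filter (fun b => f b ≤ Y)).card : ℝ) := by linarith
  exact hgoal

end Pool.Agent.Lib_helper9.LG
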