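import Mathlib
import Pool.Agent.Lib_helper9.LG.StmtsD
import Pool.Agent.Lib_helper10.Erdos460.VAsymp

set_option autoImplicit false

/-!
Lower bound for the densities of the integers without hits at `j` sites.
-/

namespace Pool.Agent.Lib_helper9.LG.VSLd

open Finset

lemma factor_ge {x : ℝ} {j : ℕ} (hx0 : 0 ≤ x) (hx1 : x ≤ 1) (hj : 2 * (j : ℝ) * x ≤ 1) :
    (1 - x) ^ (2 * j) ≤ 1 - (j : ℝ) * x := by
  have hjx : 0 ≤ (j : ℝ) * x := by positivity
  have h1 : (1 - x) * (1 + x) ≤ 1 := by nlinarith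
  have h2 : (1 - x) ^ (2 * j) * (1 + x) ^ (2 * j) ≤ 1 := by
    rw [← mul_pow]
    exact pow_le_one₀ (mul_nonneg (by linarith) (by linarith)) h1
  have h3 : 1 + ((2 * j : ℕ) : ℝ) * x ≤ (1 + x) ^ (2 * j) :=
    one_add_mul_le_pow (by linarith) _
  have h4 : (0 : ℝ) ≤ (1 - x) ^ (2 * j) := pow_nonneg (by linarith) _
  have h5 : (1 - x) ^ (2 * j) * (1 + 2 * (j : ℝ) * x) ≤ 1 := by
    refine le_trans ?_ h2
    refine mul_le_mul_of_nonneg_left ?_ h4
    push_cast at h3
    linarith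
  have h6 : 1 ≤ (1 - (j : ℝ) * x) * (1 + 2 * (j : ℝ) * x) := by
    nlinarith [mul_nonneg hjx (by linarith : (0 : ℝ) ≤ 1 - 2 * (j : ℝ) * x)]
  have h7 : 0 < 1 + 2 * (j : ℝ) * x := by nlinarith
  exact le_of_mul_le_mul_right (h5.trans h6) h7

theorem vsl : StmtVSL := by
  intro η hη J
  obtain ⟨c, C, hc, _, hV⟩ := Pool.Agent.Lib_helper10.Erdos460.V_bounds_succ
  refine ⟨max (max 1 (1 / η)) (max (max (c / η) (2 * (J : ℝ))) ((η / c) ^ 2)),
    fun L hL m hm j hj => ?_⟩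
  have hL1 : 1 ≤ L := le_trans (le_trans (le_max_left _ _) (le_max_left _ _)) hL
  have hLη : 1 / η ≤ L := le_trans (le_trans (le_max_right _ _) (le_max_left _ _)) hL
  have hLc : c / η ≤ L :=
    le_trans (le_trans (le_trans (le_max_left _ _) (le_max_left _ _)) (le_max_right _ _)) hL
  have hLJ : 2 * (J : ℝ) ≤ L :=
    le_trans (le_trans (le_trans (le_max_right _ _) (le_max_left _ _)) (le_max_right _ _)) hL
  have hL2 : (η / c) ^ 2 ≤ L := le_trans (le_trans (le_max_right _ _) (le_max_right _ _)) hL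
  have hL0 : 0 < L := by linarith
  have hηL : 1 ≤ η * L := by
    rw [div_le_iff₀ hη] at hLη
    linarith
  set z : ℝ := Real.exp (η * L) with hz
  have hz2 : (2 : ℝ) ≤ z := by
    have := Real.add_one_le_exp (η * L)
    linarith
  set n : ℕ := ⌊z⌋₊ with hn
  have hn2 : 2 ≤ n := by
    rw [hn]
    apply Nat.le_floor
    push_cast
    exact hz2
  have hnz : (n : ℝ) ≤ z := Nat.floor_le (by linarith)
  have hn0 : (0 : ℝ) < n := by
    have : (2 : ℝ) ≤ n := by exact_mod_cast hn2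
    linarith
  have hlogn : Real.log n ≤ η * L := by
    have h := Real.log_le_log hn0 hnz
    rwa [hz, Real.log_exp] at h
  have hlogn0 : 0 < Real.log n := Real.log_pos (by
    have : (2 : ℝ) ≤ n := by exact_mod_cast hn2
    linarith)
  -- Mertens
  have hM : c / (η * L) ≤ ∏ p ∈ Nat.primesBelow (n + 1), (1 - 1 / (p : ℝ)) :=
    le_trans (div_le_div_of_nonneg_left hc.le hlogn0 hlogn) (hV n hn2).1
  have hfac : ∀ p : ℕ, p.Prime → 0 < 1 - 1 / (p : ℝ) ∧ 1 - 1 / (p : ℝ) ≤ 1 :=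
    fun p hp => Pool.Agent.Lib_helper10.Erdos460.prime_factor_bounds hp
  have hsub : SPr m L z ⊆ Nat.primesBelow (n + 1) := by
    intro p hp
    unfold SPr at hp
    rw [mem_filter, mem_Icc] at hp
    rw [Nat.mem_primesBelow]
    exact ⟨by omega, hp.2.1⟩
  have hpr : ∀ p ∈ SPr m L z, p.Prime := fun p hp => (Nat.mem_primesBelow.1 (hsub hp)).2
  have hbig : ∀ p ∈ SPr m L z, L ^ 4 < (p : ℝ) := by
    intro p hp
    unfold SPr at hp
    rw [mem_filter] at hp
    exact hp.2.2.1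
  have h1 : c / (η * L) ≤ ∏ p ∈ SPr m L z, (1 - 1 / (p : ℝ)) := by
    refine le_trans hM ?_
    rw [← Finset.prod_sdiff hsub]
    have h2 : ∏ p ∈ Nat.primesBelow (n + 1) \ SPr m L z, (1 - 1 / (p : ℝ)) ≤ 1 := by
      apply Finset.prod_le_one
      · intro p hp
        exact (hfac p (Nat.mem_primesBelow.1 (mem_sdiff.1 hp).1).2).1.le
      · intro p hp
        exact (hfac p (Nat.mem_primesBelow.1 (mem_sdiff.1 hp).1).2).2
    have h3 : 0 ≤ ∏ p ∈ SPr m L z, (1 - 1 / (p : ℝ)) :=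
      Finset.prod_nonneg fun p hp => (hfac p (hpr p hp)).1.le
    nlinarith
  -- comparison of the factors
  have h2 : (∏ p ∈ SPr m L z, (1 - 1 / (p : ℝ))) ^ (2 * j) ≤ VS (SPr m L z) j := by
    unfold VS
    rw [← Finset.prod_pow]
    apply Finset.prod_le_prod
    · intro p hp
      exact pow_nonneg (hfac p (hpr p hp)).1.le _
    · intro p hp
      have hpL : L ^ 4 < (p : ℝ) := hbig p hp
      have hLp : L ≤ (p : ℝ) := by
        have : L ≤ L ^ 4 := le_self_pow₀ hL1 (by norm_num)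
        linarith
      have hp0 : (0 : ℝ) < p := by linarith
      have h3 : 2 * (j : ℝ) * (1 / (p : ℝ)) ≤ 1 := by
        rw [mul_one_div, div_le_one hp0]
        have : (j : ℝ) ≤ J := by exact_mod_cast hj
        linarith
      have h4 := factor_ge (x := 1 / (p : ℝ)) (j := j) (by positivity)
        (by rw [div_le_one hp0]; linarith) h3
      rwa [mul_one_div] at h4
  -- numerical comparison
  have hq0 : 0 < c / (η * L) := by positivity
  have hq1 : c / (η * L) ≤ 1 := by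
    rw [div_le_one (by positivity)]
    rw [div_le_iff₀ hη] at hLc
    linarith
  have h3 : (c / (η * L)) ^ (2 * J) ≤ (c / (η * L)) ^ (2 * j) :=
    pow_le_pow_of_le_one hq0.le hq1 (by omega)
  have h4 : (c / (η * L)) ^ (2 * j) ≤ (∏ p ∈ SPr m L z, (1 - 1 / (p : ℝ))) ^ (2 * j) :=
    pow_le_pow_left₀ hq0.le h1 _
  have h5 : 1 / L ^ (3 * J) ≤ (c / (η * L)) ^ (2 * J) := by
    have h6 : 1 / L ^ 3 ≤ (c / (η * L)) ^ 2 := by
      have e1 : (c / (η * L)) ^ 2 = c ^ 2 / (η ^ 2 * L ^ 2) := by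
        rw [div_pow, mul_pow]
      rw [e1, div_le_div_iff₀ (by positivity) (by positivity)]
      have h7 : η ^ 2 ≤ L * c ^ 2 := by
        rw [div_pow, div_le_iff₀ (by positivity)] at hL2
        exact hL2
      have h8 : (0 : ℝ) ≤ L ^ 2 := by positivity
      calc 1 * (η ^ 2 * L ^ 2) = η ^ 2 * L ^ 2 := by ring
        _ ≤ (L * c ^ 2) * L ^ 2 := mul_le_mul_of_nonneg_right h7 h8
        _ = c ^ 2 * L ^ 3 := by ring
    have h7 := pow_le_pow_left₀ (by positivity : (0 : ℝ) ≤ 1 / L ^ 3) h6 J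
    rw [← pow_mul, div_pow, one_pow, ← pow_mul] at h7
    exact h7
  exact h5.trans (h3.trans (h4.trans h2))

end Pool.Agent.Lib_helper9.LG.VSLd
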