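import Mathlib
import Pool.Agent.Lib_helper9.LG.EDc
import Pool.Agent.Lib_helper9.LG.NNd
import Pool.Agent.Lib_helper9.LG.EXPd
import Pool.Agent.Lib_helper9.LG.VUPd
import Pool.Agent.Lib_helper9.LG.VLOd
import Pool.Agent.Lib_helper9.LG.MOMd
import Pool.Agent.Lib_helper9.LG.SIGDd
import Pool.Agent.Lib_helper9.LG.BLKd
import Pool.Agent.Lib_helper9.LG.VSLd
import Pool.Agent.Lib_helper9.LG.KVBd
import Pool.Agent.Lib_helper9.LG.PIGDd
import Pool.Agent.Lib_helper9.LG.GBd
import Pool.Agent.Lib_helper9.LG.THDd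
import Pool.Agent.Lib_helper9.LG.Loc
import Pool.Agent.Lib_helper9.LG.OmD

set_option autoImplicit false

/-!
Theorem D: positive proportion.
-/

namespace Pool.Agent.Lib_helper9.LG

theorem stmtGB : StmtGB := by
  intro Q S lam a B B1 x Lam J ω G0 hl ha hal hJ hLam hG1 hG
  exact gb hl ha hal x Lam hJ ω hLam hG1 hG

theorem stmtMOM : StmtMOM := MOMd.mom NNd.nn vup expd

theorem stmtED : StmtED :=
  edc NNd.nn expd vup (VLOd.vlo NNd.nn) stmtMOM loc stmtGB SIGDd.sigd BLKd.blk VSLd.vsl OmD.om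

theorem stmtD : StmtD := thd stmtED kvb pigd

end Pool.Agent.Lib_helper9.LG
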