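import Mathlib
import Pool.Agent.Lib_helper9.LG.StmtsD
import Pool.Agent.Lib_helper9.LG.FinA

set_option autoImplicit false

/-!
Positive proportion of residue classes, from intervals.
-/

namespace Pool.Agent.Lib_helper9.LG

open Finset Filter

noncomputable section

open Classical in
/-- The big classes in an interval. -/
def bigIn (m y : ℕ) (x B : ℝ) : Finset ℕ :=
  (bigClasses m B).filter (fun c => y ≤ c ∧ (c : ℝ) ≤ y + x)

lemma finalD1 (hD : StmtD) (t : ℝ) (ht : 0 < t) (ε : ℝ) (hε : 0 < ε) (hε1 : ε ≤ 1) :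
    ∃ δ : ℝ, 0 < δ ∧ ∃ m₀ : ℕ, ∀ m : ℕ, m₀ ≤ m → ∀ y : ℕ, (m : ℝ) ^ ε ≤ y →
      (y : ℝ) + (m : ℝ) ^ ε < m →
      δ * ((m.totient : ℝ) / m * (m : ℝ) ^ ε) ≤
        ((bigIn m y ((m : ℝ) ^ ε) (t * m.totient * Real.log m)).card : ℝ) := by
  classical
  obtain ⟨δ, hδ, m₀, hm₀⟩ := hD t ε ht hε hε1
  refine ⟨δ, hδ, max m₀ 1, fun m hm y hy1 hy2 => ?_⟩
  have hm1 : 1 ≤ m := (le_max_right _ _).trans hm
  have hm0 : (0 : ℝ) < m := by exact_mod_cast hm1
  have hpow : 0 < (m : ℝ) ^ ε := Real.rpow_pos_of_pos hm0 _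
  have hym : y ≤ m := by
    have : (y : ℝ) ≤ m := by linarith
    exact_mod_cast this
  have h1 := hm₀ m ((le_max_left _ _).trans hm) y hy1 hym
  refine h1.trans ?_
  have hsub : gc m y ⌊(y : ℝ) + (m : ℝ) ^ ε⌋₊ (t * ((m.totient : ℝ) / m) * Real.log m) ⊆
      bigIn m y ((m : ℝ) ^ ε) (t * m.totient * Real.log m) := by
    intro c hc
    rw [gc, mem_filter, mem_Icc] at hc
    obtain ⟨⟨hc1, hc2⟩, hc3, hc4⟩ := hc
    have hc5 : (c : ℝ) ≤ y + (m : ℝ) ^ ε := (Nat.le_floor_iff (by positivity)).1 hc2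
    have hcm : c < m := by
      have : (c : ℝ) < m := lt_of_le_of_lt hc5 hy2
      exact_mod_cast this
    rw [bigIn, mem_filter, mem_bigClasses]
    refine ⟨⟨hcm, hc3, fun q hq hqc => ?_⟩, hc1, hc5⟩
    have h2 := prime_gt hm1 hcm hc4 hq hqc
    refine lt_of_le_of_lt (le_of_eq ?_) h2
    field_simp
  exact_mod_cast card_le_card hsub

theorem finalD (hD : StmtD) (t : ℝ) (ht : 0 < t) : ∃ δ : ℝ, 0 < δ ∧ ∃ m₀ : ℕ, ∀ m : ℕ,
    m₀ ≤ m → δ * m.totient ≤ ((bigClasses m (t * m.totient * Real.log m)).card : ℝ) := by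
  classical
  obtain ⟨δ, hδ, m₁, hm₁⟩ := finalD1 hD t ht (1 / 2) (by norm_num) (by norm_num)
  have hev : ∀ᶠ m : ℕ in atTop, (8 : ℝ) ≤ (m : ℝ) ^ (1 / 2 : ℝ) := by
    have h1 : Tendsto (fun m : ℕ => (m : ℝ) ^ (1 / 2 : ℝ)) atTop atTop :=
      (tendsto_rpow_atTop (by norm_num)).comp tendsto_natCast_atTop_atTop
    exact h1.eventually_ge_atTop 8
  obtain ⟨m₂, hm₂⟩ := eventually_atTop.1 hev
  refine ⟨δ / 2, by positivity, max m₁ m₂, fun m hm => ?_⟩
  have hmm₁ : m₁ ≤ m := (le_max_left _ _).trans hm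
  have e1 := hm₂ m ((le_max_right _ _).trans hm)
  obtain ⟨u, hu⟩ : ∃ u : ℝ, u = (m : ℝ) ^ (1 / 2 : ℝ) := ⟨_, rfl⟩
  rw [← hu] at e1
  have huu : u * u = m := by
    rw [hu]
    by_cases hm0 : m = 0
    · subst hm0
      norm_num at hu
      rw [hu] at e1
      norm_num at e1
    · have hm0' : (0 : ℝ) < m := by exact_mod_cast Nat.pos_of_ne_zero hm0
      rw [← Real.rpow_add hm0']
      norm_num
  have hm0 : (0 : ℝ) < m := by
    rw [← huu]
    positivity
  obtain ⟨T, hT⟩ : ∃ T : ℕ, T = ⌊u⌋₊ + 1 := ⟨_, rfl⟩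
  have hTu : u < T := by
    rw [hT]
    push_cast
    exact Nat.lt_floor_add_one u
  have hTu2 : (T : ℝ) ≤ u + 1 := by
    rw [hT]
    push_cast
    have := Nat.floor_le (show 0 ≤ u by linarith)
    linarith
  have hT0 : 0 < T := by omega
  obtain ⟨J, hJ⟩ : ∃ J : ℕ, J = m / T - 1 := ⟨_, rfl⟩
  obtain ⟨B, hB⟩ : ∃ B : ℝ, B = t * m.totient * Real.log m := ⟨_, rfl⟩
  have hwin : ∀ j < J, δ * ((m.totient : ℝ) / m * u) ≤ ((bigIn m ((j + 1) * T) u B).card : ℝ) := by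
    intro j hj
    rw [hu, hB]
    apply hm₁ m hmm₁ ((j + 1) * T)
    · rw [← hu]
      push_cast
      have h1 : (0 : ℝ) ≤ j := Nat.cast_nonneg j
      nlinarith
    · rw [← hu]
      have h1 : j + 2 ≤ m / T := by omega
      have h2 : (j + 2) * T ≤ m := by
        calc (j + 2) * T ≤ m / T * T := Nat.mul_le_mul_right _ h1
          _ ≤ m := Nat.div_mul_le_self _ _
      have h3 : (((j + 2) * T : ℕ) : ℝ) ≤ m := by exact_mod_cast h2
      push_cast at h3 ⊢
      linarith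
  have hdisj : ∀ i ∈ range J, ∀ j ∈ range J, i ≠ j →
      Disjoint (bigIn m ((i + 1) * T) u B) (bigIn m ((j + 1) * T) u B) := by
    have hlt : ∀ i c : ℕ, c ∈ bigIn m ((i + 1) * T) u B → (i + 1) * T ≤ c ∧ c < (i + 2) * T := by
      intro i c hc
      rw [bigIn, mem_filter] at hc
      refine ⟨hc.2.1, ?_⟩
      have h1 : (c : ℝ) < (((i + 2) * T : ℕ) : ℝ) := by
        refine lt_of_le_of_lt hc.2.2 ?_
        push_cast
        linarith
      exact_mod_cast h1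
    intro i _ j _ hne
    rw [Finset.disjoint_left]
    intro c h1 h2
    obtain ⟨g1, g2⟩ := hlt i c h1
    obtain ⟨g3, g4⟩ := hlt j c h2
    rcases Nat.lt_or_gt_of_ne hne with h | h
    · have : (i + 2) * T ≤ (j + 1) * T := Nat.mul_le_mul_right _ (by omega)
      omega
    · have : (j + 2) * T ≤ (i + 1) * T := Nat.mul_le_mul_right _ (by omega)
      omega
  have hcard : ∑ j ∈ range J, (bigIn m ((j + 1) * T) u B).card ≤ (bigClasses m B).card := by
    rw [← card_biUnion hdisj]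
    apply card_le_card
    intro c hc
    rw [mem_biUnion] at hc
    obtain ⟨j, _, hc⟩ := hc
    exact (mem_filter.1 hc).1
  have hcard' : (J : ℝ) * (δ * ((m.totient : ℝ) / m * u)) ≤ ((bigClasses m B).card : ℝ) := by
    calc (J : ℝ) * (δ * ((m.totient : ℝ) / m * u)) =
          ∑ _j ∈ range J, δ * ((m.totient : ℝ) / m * u) := by
          rw [Finset.sum_const, card_range, nsmul_eq_mul]
      _ ≤ ∑ j ∈ range J, ((bigIn m ((j + 1) * T) u B).card : ℝ) :=
          Finset.sum_le_sum fun j hj => hwin j (mem_range.1 hj)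
      _ ≤ _ := by exact_mod_cast hcard
  rw [← hB]
  refine le_trans ?_ hcard'
  have hJ1 : ((m / T : ℕ) : ℝ) - 1 ≤ J := by
    have : m / T ≤ J + 1 := by omega
    have h2 : ((m / T : ℕ) : ℝ) ≤ (J : ℝ) + 1 := by exact_mod_cast this
    linarith
  have hT0r : (0 : ℝ) < T := by exact_mod_cast hT0
  have hJ2 : (m : ℝ) / T - 1 ≤ ((m / T : ℕ) : ℝ) := by
    have h1 := Nat.lt_div_mul_add hT0 (a := m)
    have h2 : (m : ℝ) < ((m / T : ℕ) : ℝ) * T + T := by exact_mod_cast h1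
    rw [sub_le_iff_le_add, div_le_iff₀ hT0r]
    linarith
  have hu0 : 0 < u := by linarith
  have h5 : u - 1 ≤ (m : ℝ) / T := by
    rw [le_div_iff₀ hT0r, ← huu]
    nlinarith
  have h6 : (m : ℝ) / 2 ≤ J * u := by
    rw [← huu]
    have h7 : u - 3 ≤ J := by linarith
    nlinarith
  have htot : 0 ≤ (m.totient : ℝ) / m := by positivity
  calc δ / 2 * (m.totient : ℝ) = δ * ((m.totient : ℝ) / m) * (m / 2) := by
        field_simp
    _ ≤ δ * ((m.totient : ℝ) / m) * (J * u) := by gcongr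
    _ = _ := by ring

end

end Pool.Agent.Lib_helper9.LG
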