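import Mathlib
import Pool.Agent.Lib_helper9.LG.FinD

set_option autoImplicit false

/-!
Positive proportion of the big classes in every interval.
-/

namespace Pool.Agent.Lib_helper9.LG

open Finset Filter

noncomputable section

open Classical in
theorem finalD2 (hD : StmtD) (t : ℝ) (ht : 0 < t) (ε : ℝ) (hε : 0 < ε) (hε1 : ε ≤ 1) :
    ∃ δ : ℝ, 0 < δ ∧ ∃ m₀ : ℕ, ∀ m : ℕ, m₀ ≤ m → ∀ y x : ℕ, (m : ℝ) ^ ε ≤ x → y + x ≤ m →
      δ * ((m.totient : ℝ) / m * x) ≤ (((Finset.Ico y (y + x)).filter (fun c => c.Coprime m ∧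
        ∀ q : ℕ, q.Prime → q ≡ c [MOD m] → t * m.totient * Real.log m < q)).card : ℝ) := by
  obtain ⟨δ, hδ, m₁, hm₁⟩ := finalD1 hD t ht (ε / 2) (by positivity) (by linarith)
  have hev : ∀ᶠ m : ℕ in atTop, (8 : ℝ) ≤ (m : ℝ) ^ (ε / 2) := by
    have h1 : Tendsto (fun m : ℕ => (m : ℝ) ^ (ε / 2)) atTop atTop :=
      (tendsto_rpow_atTop (by positivity)).comp tendsto_natCast_atTop_atTop
    exact h1.eventually_ge_atTop 8
  obtain ⟨m₂, hm₂⟩ := eventually_atTop.1 hev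
  refine ⟨δ / 2, by positivity, max (max m₁ m₂) 1, fun m hm y x hx hyx => ?_⟩
  have hmm₁ : m₁ ≤ m := ((le_max_left _ _).trans (le_max_left _ _)).trans hm
  have e1 := hm₂ m (((le_max_right _ _).trans (le_max_left _ _)).trans hm)
  have hm1 : 1 ≤ m := (le_max_right _ _).trans hm
  obtain ⟨u, hu⟩ : ∃ u : ℝ, u = (m : ℝ) ^ (ε / 2) := ⟨_, rfl⟩
  rw [← hu] at e1
  have hm0 : (0 : ℝ) < m := by exact_mod_cast hm1
  have huu : u * u ≤ x := by
    refine le_trans (le_of_eq ?_) hx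
    rw [hu, ← Real.rpow_add hm0]
    congr 1
    ring
  obtain ⟨T, hT⟩ : ∃ T : ℕ, T = ⌊u⌋₊ + 1 := ⟨_, rfl⟩
  have hTu : u < T := by
    rw [hT]
    push_cast
    exact Nat.lt_floor_add_one u
  have hTu2 : (T : ℝ) ≤ u + 1 := by
    rw [hT]
    push_cast
    have := Nat.floor_le (show 0 ≤ u by linarith)
    linarith
  have hT0 : 0 < T := by omega
  obtain ⟨J, hJ⟩ : ∃ J : ℕ, J = x / T - 1 := ⟨_, rfl⟩
  obtain ⟨B, hB⟩ : ∃ B : ℝ, B = t * m.totient * Real.log m := ⟨_, rfl⟩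
  have hin : ∀ j < J, (j + 2) * T ≤ x := by
    intro j hj
    have h1 : j + 2 ≤ x / T := by omega
    calc (j + 2) * T ≤ x / T * T := Nat.mul_le_mul_right _ h1
      _ ≤ x := Nat.div_mul_le_self _ _
  have hwin : ∀ j < J, δ * ((m.totient : ℝ) / m * u) ≤
      ((bigIn m (y + (j + 1) * T) u B).card : ℝ) := by
    intro j hj
    rw [hu, hB]
    apply hm₁ m hmm₁ (y + (j + 1) * T)
    · rw [← hu]
      push_cast
      have h1 : (0 : ℝ) ≤ j := Nat.cast_nonneg j
      have h2 : (0 : ℝ) ≤ y := Nat.cast_nonneg y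
      nlinarith
    · rw [← hu]
      have h2 := hin j hj
      have h3 : (((y + (j + 2) * T) : ℕ) : ℝ) ≤ m := by exact_mod_cast (by omega)
      push_cast at h3 ⊢
      linarith
  have hlt : ∀ i c : ℕ, c ∈ bigIn m (y + (i + 1) * T) u B →
      y + (i + 1) * T ≤ c ∧ c < y + (i + 2) * T := by
    intro i c hc
    rw [bigIn, mem_filter] at hc
    refine ⟨hc.2.1, ?_⟩
    have h1 : (c : ℝ) < ((y + (i + 2) * T : ℕ) : ℝ) := by
      refine lt_of_le_of_lt hc.2.2 ?_
      push_cast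
      linarith
    exact_mod_cast h1
  have hdisj : ∀ i ∈ range J, ∀ j ∈ range J, i ≠ j →
      Disjoint (bigIn m (y + (i + 1) * T) u B) (bigIn m (y + (j + 1) * T) u B) := by
    intro i _ j _ hne
    rw [Finset.disjoint_left]
    intro c h1 h2
    obtain ⟨g1, g2⟩ := hlt i c h1
    obtain ⟨g3, g4⟩ := hlt j c h2
    rcases Nat.lt_or_gt_of_ne hne with h | h
    · have : (i + 2) * T ≤ (j + 1) * T := Nat.mul_le_mul_right _ (by omega)
      omega
    · have : (j + 2) * T ≤ (i + 1) * T := Nat.mul_le_mul_right _ (by omega)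
      omega
  have hcard : ∑ j ∈ range J, (bigIn m (y + (j + 1) * T) u B).card ≤
      ((Finset.Ico y (y + x)).filter (fun c => c.Coprime m ∧
        ∀ q : ℕ, q.Prime → q ≡ c [MOD m] → B < q)).card := by
    rw [← card_biUnion hdisj]
    apply card_le_card
    intro c hc
    rw [mem_biUnion] at hc
    obtain ⟨j, hj, hc⟩ := hc
    obtain ⟨g1, g2⟩ := hlt j c hc
    have g3 := hin j (mem_range.1 hj)
    rw [bigIn, mem_filter, mem_bigClasses] at hc
    rw [mem_filter, mem_Ico]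
    refine ⟨⟨?_, ?_⟩, hc.1.2.1, hc.1.2.2⟩
    · have := Nat.zero_le ((j + 1) * T)
      omega
    · omega
  have hcard' : (J : ℝ) * (δ * ((m.totient : ℝ) / m * u)) ≤
      (((Finset.Ico y (y + x)).filter (fun c => c.Coprime m ∧
        ∀ q : ℕ, q.Prime → q ≡ c [MOD m] → B < q)).card : ℝ) := by
    calc (J : ℝ) * (δ * ((m.totient : ℝ) / m * u)) =
          ∑ _j ∈ range J, δ * ((m.totient : ℝ) / m * u) := by
          rw [Finset.sum_const, card_range, nsmul_eq_mul]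
      _ ≤ ∑ j ∈ range J, ((bigIn m (y + (j + 1) * T) u B).card : ℝ) :=
          Finset.sum_le_sum fun j hj => hwin j (mem_range.1 hj)
      _ ≤ _ := by exact_mod_cast hcard
  rw [← hB]
  refine le_trans ?_ hcard'
  have hJ1 : ((x / T : ℕ) : ℝ) - 1 ≤ J := by
    have : x / T ≤ J + 1 := by omega
    have h2 : ((x / T : ℕ) : ℝ) ≤ (J : ℝ) + 1 := by exact_mod_cast this
    linarith
  have hT0r : (0 : ℝ) < T := by exact_mod_cast hT0
  have hJ2 : (x : ℝ) / T - 1 ≤ ((x / T : ℕ) : ℝ) := by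
    have h1 := Nat.lt_div_mul_add hT0 (a := x)
    have h2 : (x : ℝ) < ((x / T : ℕ) : ℝ) * T + T := by exact_mod_cast h1
    rw [sub_le_iff_le_add, div_le_iff₀ hT0r]
    linarith
  have hu0 : 0 < u := by linarith
  have hx0 : (0 : ℝ) ≤ x := Nat.cast_nonneg x
  have h6 : (x : ℝ) / 2 ≤ J * u := by
    have h5 : 8 / 9 * (x : ℝ) ≤ (x : ℝ) / T * u := by
      have h7 : 8 / 9 * (T : ℝ) ≤ u := by linarith
      calc 8 / 9 * (x : ℝ) = (x : ℝ) / T * (8 / 9 * T) := by
            field_simp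
        _ ≤ (x : ℝ) / T * u := by gcongr
    have h7 : (x : ℝ) / T - 2 ≤ J := by linarith
    have h8 : ((x : ℝ) / T - 2) * u ≤ J * u := by gcongr
    have h9 : 8 * u ≤ x := by nlinarith
    linarith
  have htot : 0 ≤ (m.totient : ℝ) / m := by positivity
  calc δ / 2 * ((m.totient : ℝ) / m * x) = δ * ((m.totient : ℝ) / m) * (x / 2) := by ring
    _ ≤ δ * ((m.totient : ℝ) / m) * (J * u) := by gcongr
    _ = _ := by ring

end

end Pool.Agent.Lib_helper9.LG
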