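import Mathlib
import Pool.Agent.Lib_helper9.LG.Stmts

set_option autoImplicit false

/-! Choice of the class modulo W. -/

namespace Pool.Agent.Lib_helper9.LG

open Finset

theorem pig : StmtPIG := by
  intro m W K hW _
  have hW0 : (0 : ℝ) < W := by exact_mod_cast hW
  by_contra hcon
  push Not at hcon
  have h1 : ∀ t : ℕ, ((range W).filter (fun b => (b + t).Coprime W)).card = W.totient := by
    intro t
    rw [← Nat.filter_coprime_Ico_eq_totient W t]
    refine Finset.card_bij' (i := fun b _ => b + t) (j := fun x _ => x - t) ?_ ?_ ?_ ?_
    · intro b hb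
      rw [mem_filter, mem_range] at hb
      rw [mem_filter, mem_Ico]
      exact ⟨⟨by omega, by omega⟩, hb.2.symm⟩
    · intro x hx
      rw [mem_filter, mem_Ico] at hx
      rw [mem_filter, mem_range]
      refine ⟨by omega, ?_⟩
      rw [Nat.sub_add_cancel hx.1.1]
      exact hx.2.symm
    · intro b _
      simp
    · intro x hx
      rw [mem_filter, mem_Ico] at hx
      exact Nat.sub_add_cancel hx.1.1
  have h2 : ∑ b ∈ range W, ((range K).filter (fun k => (b + k * m).Coprime W)).card =
      K * W.totient := by
    simp_rw [Finset.card_filter]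
    rw [Finset.sum_comm]
    have h3 : ∀ k ∈ range K, ∑ b ∈ range W, (if (b + k * m).Coprime W then 1 else 0) =
        W.totient := by
      intro k _
      rw [← Finset.card_filter]
      exact h1 (k * m)
    rw [Finset.sum_congr rfl h3, Finset.sum_const, card_range, smul_eq_mul]
  have h3 : (K : ℝ) * W.totient < ∑ b ∈ range W,
      (((range K).filter (fun k => (b + k * m).Coprime W)).card : ℝ) := by
    calc (K : ℝ) * W.totient = ∑ b ∈ range W, (K * ((W.totient : ℝ) / W)) := by
          rw [Finset.sum_const, card_range, nsmul_eq_mul]
          field_simp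
      _ < _ := by
          apply Finset.sum_lt_sum_of_nonempty
          · exact ⟨0, by rw [mem_range]; omega⟩
          · intro b hb
            exact hcon b (mem_range.1 hb)
  have h4 : ((∑ b ∈ range W, ((range K).filter (fun k => (b + k * m).Coprime W)).card : ℕ) : ℝ) =
      (K : ℝ) * W.totient := by
    rw [h2]
    push_cast
    ring
  push_cast at h4
  linarith

end Pool.Agent.Lib_helper9.LG
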