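import Mathlib
import Pool.Agent.Lib_helper9.LG.Stmts
import Pool.Agent.Lib_helper72.AS.LB1

set_option autoImplicit false

/-!
The modulus of Theorem A and its numerics.
-/

namespace Pool.Agent.Lib_helper9.LG

open Finset

noncomputable section

/-- primes up to `z` which do not divide `m` -/
def Wp (z m : ℕ) : Finset ℕ := (BlockSieve.pr z).filter (fun p => ¬ p ∣ m)

/-- the modulus -/
def WW (z m : ℕ) : ℕ := ∏ p ∈ Wp z m, p

lemma mem_Wp {z m p : ℕ} : p ∈ Wp z m ↔ p.Prime ∧ p ≤ z ∧ ¬ p ∣ m := by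
  rw [Wp, mem_filter, BlockSieve.mem_pr]
  tauto

lemma WW_pos (z m : ℕ) : 1 ≤ WW z m :=
  Finset.prod_pos fun _ hp => (mem_Wp.1 hp).1.pos

lemma WW_le (z m : ℕ) : WW z m ≤ 4 ^ z := by
  refine le_trans ?_ (primorial_le_four_pow z)
  rw [WW, primorial]
  apply Finset.prod_le_prod_of_subset_of_one_le'
  · intro p hp
    have := mem_Wp.1 hp
    rw [mem_filter, mem_range]
    exact ⟨by omega, this.1⟩
  · intro p hp _
    exact (mem_filter.1 hp).2.pos

lemma dvd_WW {z m q : ℕ} (hq : q.Prime) (h : q ∣ WW z m) : q ∈ Wp z m := by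
  rw [WW, Prime.dvd_finsetProd_iff hq.prime] at h
  obtain ⟨p, hp, hd⟩ := h
  have := (Nat.prime_dvd_prime_iff_eq hq (mem_Wp.1 hp).1).1 hd
  rw [this]
  exact hp

lemma WW_coprime (z m : ℕ) : (WW z m).Coprime m := by
  rw [WW]
  apply Nat.Coprime.prod_left
  intro p hp
  have := mem_Wp.1 hp
  exact (Nat.Prime.coprime_iff_not_dvd this.1).2 this.2.2

lemma totient_ratio {n : ℕ} (hn : n ≠ 0) :
    (n.totient : ℝ) / n = ∏ p ∈ n.primeFactors, (1 - (1 : ℝ) / p) := by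
  have h := Nat.totient_eq_mul_prod_factors n
  have h2 : (n.totient : ℝ) = n * ∏ p ∈ n.primeFactors, (1 - (1 : ℝ) / p) := by
    have := congrArg (fun x : ℚ => (x : ℝ)) h
    push_cast at this
    simpa [one_div] using this
  have hn' : (n : ℝ) ≠ 0 := by exact_mod_cast hn
  rw [h2]
  field_simp

lemma fac_nonneg {p : ℕ} (hp : p.Prime) : (0 : ℝ) ≤ 1 - (1 : ℝ) / p := by
  have h1 : (1 : ℝ) ≤ p := by exact_mod_cast hp.one_lt.le
  have h2 : (1 : ℝ) / p ≤ 1 := by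
    rw [div_le_one (by linarith)]
    exact h1
  linarith

lemma fac_le_one (p : ℕ) : 1 - (1 : ℝ) / p ≤ 1 := by
  have : (0 : ℝ) ≤ 1 / p := by positivity
  linarith

lemma ratio_le (z m : ℕ) (hz : 1 ≤ z) (hm : m ≠ 0) :
    ((WW z m).totient : ℝ) / (WW z m : ℕ) * ((m.totient : ℝ) / m) ≤
      1 / Real.log ((z : ℝ) + 1) := by
  have hlog : 0 < Real.log ((z : ℝ) + 1) := by
    apply Real.log_pos
    have : (1 : ℝ) ≤ z := by exact_mod_cast hz
    linarith
  have hW : WW z m ≠ 0 := by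
    have := WW_pos z m
    omega
  rw [totient_ratio hW, totient_ratio hm]
  have hpf : (WW z m).primeFactors = Wp z m := by
    rw [WW]
    exact Nat.primeFactors_prod fun p hp => (mem_Wp.1 hp).1
  rw [hpf]
  have h1 : ∏ p ∈ m.primeFactors, (1 - (1 : ℝ) / p) ≤
      ∏ p ∈ (BlockSieve.pr z).filter (fun p => p ∣ m), (1 - (1 : ℝ) / p) := by
    apply Finset.prod_le_prod_of_subset_of_le_one
    · intro p hp
      rw [mem_filter, BlockSieve.mem_pr] at hp
      exact Nat.mem_primeFactors.2 ⟨hp.1.1, hp.2, hm⟩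
    · intro p hp
      exact fac_nonneg (Nat.prime_of_mem_primeFactors hp)
    · intro p _ _
      exact fac_le_one p
  have h2 : (∏ p ∈ Wp z m, (1 - (1 : ℝ) / p)) *
      ∏ p ∈ (BlockSieve.pr z).filter (fun p => p ∣ m), (1 - (1 : ℝ) / p) =
      ∏ p ∈ BlockSieve.pr z, (1 - (1 : ℝ) / p) := by
    rw [Wp, mul_comm]
    exact Finset.prod_filter_mul_prod_filter_not _ _ _
  have h0 : 0 ≤ ∏ p ∈ Wp z m, (1 - (1 : ℝ) / p) :=
    Finset.prod_nonneg fun p hp => fac_nonneg (mem_Wp.1 hp).1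
  have h3 := Pool.Agent.Lib_helper72.AS.log_le_prod z
  rw [Finset.prod_inv_distrib] at h3
  have h4 : 0 < ∏ p ∈ BlockSieve.pr z, (1 - (1 : ℝ) / p) := by
    by_contra hcon
    have : (∏ p ∈ BlockSieve.pr z, (1 - (1 : ℝ) / p))⁻¹ ≤ 0 := by
      apply inv_nonpos.2
      linarith
    linarith
  calc (∏ p ∈ Wp z m, (1 - (1 : ℝ) / p)) * ∏ p ∈ m.primeFactors, (1 - (1 : ℝ) / p)
      ≤ (∏ p ∈ Wp z m, (1 - (1 : ℝ) / p)) *
        ∏ p ∈ (BlockSieve.pr z).filter (fun p => p ∣ m), (1 - (1 : ℝ) / p) :=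
        mul_le_mul_of_nonneg_left h1 h0
    _ = ∏ p ∈ BlockSieve.pr z, (1 - (1 : ℝ) / p) := h2
    _ ≤ 1 / Real.log ((z : ℝ) + 1) := by
        rw [le_div_iff₀ hlog]
        calc _ ≤ (∏ p ∈ BlockSieve.pr z, (1 - (1 : ℝ) / p)) *
            (∏ p ∈ BlockSieve.pr z, (1 - (1 : ℝ) / p))⁻¹ :=
              mul_le_mul_of_nonneg_left h3 h4.le
          _ = 1 := mul_inv_cancel₀ h4.ne'

end

end Pool.Agent.Lib_helper9.LG
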