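import Mathlib
import Pool.Agent.Lib_helper9.LG.Stmts
import Pool.Agent.Lib_helper9.LG.ThAaux

set_option autoImplicit false

/-!
Theorem A from the engine.
-/

namespace Pool.Agent.Lib_helper9.LG

open Finset

noncomputable section

theorem thA (hE : StmtE) (hP : StmtPIG) : StmtA := by
  obtain ⟨c₁, hc₁, hE⟩ := hE
  have hc₀ : 0 < min c₁ 1 / 16 := by positivity
  set c₀ := min c₁ 1 / 16 with hc₀def
  have hc₀a : c₀ ≤ c₁ / 16 := by
    rw [hc₀def]
    have := min_le_left c₁ 1
    linarith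
  have hc₀b : c₀ ≤ 1 / 16 := by
    rw [hc₀def]
    have := min_le_right c₁ 1
    linarith
  refine ⟨c₀, hc₀, ?_⟩
  intro ε hε hε1
  set A := ⌈2 / ε⌉₊ with hA
  obtain ⟨X₀, hX₀⟩ := hE A
  set U : ℝ := 8 / ε ^ 2 + 400 / ε + 4 / (ε * c₁) + 2 * |X₀| / ε + 10 with hU
  refine ⟨⌈Real.exp U⌉₊, ?_⟩
  intro m hm y hy
  have hmexp : Real.exp U ≤ m := (Nat.le_ceil _).trans (by exact_mod_cast hm)
  have hm0 : (0 : ℝ) < m := (Real.exp_pos _).trans_le hmexp
  have hmne : m ≠ 0 := by
    rintro rfl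
    simp at hm0
  set u := Real.log m with hu
  have hUu : U ≤ u := by
    rw [hu, Real.le_log_iff_exp_le hm0]
    exact hmexp
  have t1 : 0 ≤ 8 / ε ^ 2 := by positivity
  have t2 : 0 ≤ 400 / ε := by positivity
  have t3 : 0 ≤ 4 / (ε * c₁) := by positivity
  have t4 : 0 ≤ 2 * |X₀| / ε := by positivity
  have hu10 : 10 ≤ u := by linarith
  have hu1 : 8 ≤ ε ^ 2 * u := by
    have : 8 / ε ^ 2 ≤ u := by linarith
    rwa [div_le_iff₀' (by positivity)] at this
  have hu2 : 400 ≤ ε * u := by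
    have : 400 / ε ≤ u := by linarith
    rwa [div_le_iff₀' (by positivity)] at this
  have hu3 : 4 ≤ ε * c₁ * u := by
    have : 4 / (ε * c₁) ≤ u := by linarith
    rwa [div_le_iff₀' (by positivity)] at this
  have hu5 : 2 * |X₀| ≤ ε * u := by
    have : 2 * |X₀| / ε ≤ u := by linarith
    rwa [div_le_iff₀' (by positivity)] at this
  have hu0 : 0 < u := by linarith
  -- the length of the interval
  have hmε : 0 < (m : ℝ) ^ ε := Real.rpow_pos_of_pos hm0 _
  set X : ℝ := (m : ℝ) ^ ε / 2 with hXdef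
  have hXpos : 0 < X := by positivity
  have hlogX : Real.log X = ε * u - Real.log 2 := by
    rw [hXdef, Real.log_div hmε.ne' (by norm_num), Real.log_rpow hm0]
  set L := Real.log X with hL
  have hlog2 : Real.log 2 < 1 := by
    have := Real.log_two_lt_d9
    linarith
  have hlog2p : 0 < Real.log 2 := Real.log_pos (by norm_num)
  have hL1 : ε * u / 2 ≤ L := by
    rw [hlogX]
    linarith
  have hL200 : 199 ≤ L := by linarith
  have hL0 : 0 < L := by linarith
  have hXexp : X = Real.exp L := by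
    rw [hL, Real.exp_log hXpos]
  have hXL : L ≤ X := by
    rw [hXexp]
    have := Real.add_one_le_exp L
    linarith
  have hX₀X : X₀ ≤ X := by
    have := le_abs_self X₀
    linarith
  have huL : 2 * u ≤ L ^ 2 := by
    have h1 : (ε * u / 2) ^ 2 ≤ L ^ 2 := by
      apply pow_le_pow_left₀ (by positivity) hL1
    have h2 : (ε * u / 2) ^ 2 = (ε ^ 2 * u) * u / 4 := by ring
    have h3 : 8 * u ≤ ε ^ 2 * u * u := mul_le_mul_of_nonneg_right hu1 hu0.le
    linarith
  have hlogL : 0 < Real.log L := Real.log_pos (by linarith)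
  have hlogu : Real.log u ≤ 2 * Real.log L := by
    have h1 : Real.log u ≤ Real.log (L ^ 2) := Real.log_le_log hu0 (by linarith)
    rwa [Real.log_pow] at h1
  have hlogu0 : 0 < Real.log u := Real.log_pos (by linarith)
  have hlogu1 : Real.log u ≤ u := by
    have := Real.log_le_sub_one_of_pos hu0
    linarith
  -- the modulus
  set z := ⌊Real.sqrt L⌋₊ with hz
  have hsq : Real.sqrt L ^ 2 = L := Real.sq_sqrt hL0.le
  have hsq14 : 14 ≤ Real.sqrt L := by
    apply Real.le_sqrt_of_sq_le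
    linarith
  have hsqL : Real.sqrt L ≤ L := by
    have h5 : 1 * Real.sqrt L ≤ Real.sqrt L * Real.sqrt L :=
      mul_le_mul_of_nonneg_right (by linarith) (Real.sqrt_nonneg _)
    rw [Real.mul_self_sqrt hL0.le] at h5
    linarith
  have hzle : (z : ℝ) ≤ Real.sqrt L := Nat.floor_le (Real.sqrt_nonneg _)
  have hzlt : Real.sqrt L < (z : ℝ) + 1 := Nat.lt_floor_add_one _
  have hz1 : 1 ≤ z := by
    rw [hz]
    apply Nat.le_floor
    push_cast
    linarith
  set W := WW z m with hW
  have hW1 : 1 ≤ W := WW_pos z m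
  have hW1' : (1 : ℝ) ≤ W := by exact_mod_cast hW1
  have hWle : (W : ℝ) ≤ 4 ^ z := by exact_mod_cast WW_le z m
  have hlog4 : Real.log 4 < 1.4 := by
    have h1 : Real.log 4 = 2 * Real.log 2 := by
      rw [show (4 : ℝ) = 2 ^ 2 by norm_num, Real.log_pow]
      norm_num
    have := Real.log_two_lt_d9
    rw [h1]
    linarith
  have hW8 : (W : ℝ) ^ 8 ≤ X := by
    have h1 : (W : ℝ) ^ 8 ≤ ((4 : ℝ) ^ z) ^ 8 := pow_le_pow_left₀ (by linarith) hWle 8
    have h2 : ((4 : ℝ) ^ z) ^ 8 = Real.exp (Real.log 4 * (z * 8 : ℕ)) := by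
      rw [← pow_mul, ← Real.rpow_natCast, Real.rpow_def_of_pos (by norm_num)]
    rw [h2] at h1
    refine h1.trans ?_
    rw [hXexp]
    apply Real.exp_le_exp.2
    push_cast
    have h3 : Real.log 4 * ((z : ℝ) * 8) ≤ 1.4 * (Real.sqrt L * 8) := by
      apply mul_le_mul hlog4.le (by linarith) (by positivity) (by norm_num)
    have h5 : 14 * Real.sqrt L ≤ Real.sqrt L * Real.sqrt L :=
      mul_le_mul_of_nonneg_right hsq14 (Real.sqrt_nonneg _)
    rw [Real.mul_self_sqrt hL0.le] at h5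
    linarith
  have hWX : (W : ℝ) ≤ X := by
    refine le_trans ?_ hW8
    exact le_self_pow₀ hW1' (by norm_num)
  have hWm : W.Coprime m := WW_coprime z m
  have hWp : ∀ p : ℕ, p.Prime → p ∣ W → (p : ℝ) ≤ L ^ 4 := by
    intro p hp hd
    have h1 := (mem_Wp.1 (dvd_WW hp hd)).2.1
    have h2 : (p : ℝ) ≤ z := by exact_mod_cast h1
    have h4 : L ≤ L ^ 4 := le_self_pow₀ (by linarith) (by norm_num)
    linarith
  -- the number of sites
  set ρ : ℝ := (m.totient : ℝ) / m with hρ
  have hρ0 : 0 ≤ ρ := by positivity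
  have hρ1 : ρ ≤ 1 := by
    rw [hρ, div_le_one hm0]
    exact_mod_cast Nat.totient_le m
  set V : ℝ := c₀ * ε * ρ * u * Real.log u with hV
  have hV0 : 0 ≤ V := by positivity
  set K := ⌊V⌋₊ + 1 with hK
  obtain ⟨b₀, hb₀, hcard⟩ := hP m W K hW1 hWm
  set S := (range K).filter (fun k => (b₀ + k * m).Coprime W) with hS
  have hVu : V ≤ u ^ 2 := by
    have h1 : c₀ * ε * ρ ≤ 1 := by
      have h2 : c₀ * ε ≤ 1 * 1 := mul_le_mul (by linarith) hε1 hε.le (by norm_num)
      have h3 : c₀ * ε * ρ ≤ (1 * 1) * 1 := mul_le_mul h2 hρ1 hρ0 (by norm_num)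
      linarith
    calc V = c₀ * ε * ρ * (u * Real.log u) := by rw [hV]; ring
      _ ≤ 1 * (u * u) := by
          apply mul_le_mul h1 _ (by positivity) (by norm_num)
          exact mul_le_mul_of_nonneg_left hlogu1 hu0.le
      _ = u ^ 2 := by ring
  have hSk : ∀ k ∈ S, (k : ℝ) ≤ L ^ 4 := by
    intro k hk
    have h1 : k < K := mem_range.1 (mem_filter.1 hk).1
    have h2 : k ≤ ⌊V⌋₊ := by omega
    have h3 : (k : ℝ) ≤ V := (Nat.cast_le.2 h2).trans (Nat.floor_le hV0)
    have h4 : u ^ 2 ≤ L ^ 4 := by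
      have h5 : u ≤ L ^ 2 := by linarith
      calc u ^ 2 ≤ (L ^ 2) ^ 2 := pow_le_pow_left₀ hu0.le h5 2
        _ = L ^ 4 := by ring
    linarith
  have hWr1 : ((W.totient : ℕ) : ℝ) / W ≤ 1 := by
    rw [div_le_one (by linarith)]
    exact_mod_cast Nat.totient_le W
  have hWr0 : 0 ≤ ((W.totient : ℕ) : ℝ) / W := by positivity
  have hratio : ((W.totient : ℕ) : ℝ) / W * ρ ≤ 2 / Real.log L := by
    refine (ratio_le z m hz1 hmne).trans ?_
    have h1 : Real.log L / 2 ≤ Real.log ((z : ℝ) + 1) := by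
      rw [← Real.log_sqrt hL0.le]
      exact Real.log_le_log (by linarith) hzlt.le
    rw [div_le_div_iff₀ (by linarith) hlogL]
    linarith
  have hScard : (S.card : ℝ) ≤ c₁ * L := by
    refine hcard.trans ?_
    have h1 : ((K : ℕ) : ℝ) ≤ V + 1 := by
      rw [hK]
      push_cast
      have := Nat.floor_le hV0
      linarith
    have h2 : ((K : ℕ) : ℝ) * (((W.totient : ℕ) : ℝ) / W) ≤
        (V + 1) * (((W.totient : ℕ) : ℝ) / W) := mul_le_mul_of_nonneg_right h1 hWr0
    have h3 : V * (((W.totient : ℕ) : ℝ) / W) ≤ 8 * c₀ * L := by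
      calc V * (((W.totient : ℕ) : ℝ) / W)
          = c₀ * (ε * u) * Real.log u * (((W.totient : ℕ) : ℝ) / W * ρ) := by rw [hV]; ring
        _ ≤ c₀ * (2 * L) * (2 * Real.log L) * (2 / Real.log L) := by
            apply mul_le_mul _ hratio (by positivity) (by positivity)
            apply mul_le_mul _ hlogu hlogu0.le (by positivity)
            apply mul_le_mul_of_nonneg_left (by linarith) hc₀.le
        _ = 8 * c₀ * L := by
            field_simp
            ring
    have h4 : 8 * c₀ * L ≤ c₁ * L / 2 := by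
      have : c₀ * L ≤ c₁ / 16 * L := mul_le_mul_of_nonneg_right hc₀a hL0.le
      linarith
    have h5 : 2 ≤ c₁ * L := by
      have : c₁ * (ε * u / 2) ≤ c₁ * L := mul_le_mul_of_nonneg_left hL1 hc₁.le
      linarith
    linarith
  -- the start of the progression
  set b := y + (b₀ + (W - y % W)) % W with hb
  have hbmod : b ≡ b₀ [MOD W] := by
    have h1 : y % W ≤ W := (Nat.mod_lt _ (by omega)).le
    have h2 : b ≡ y + (b₀ + (W - y % W)) [MOD W] := by
      rw [hb]
      exact Nat.ModEq.add_left _ (Nat.mod_modEq _ _)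
    refine h2.trans ?_
    have h3 : y + (b₀ + (W - y % W)) ≡ y % W + (b₀ + (W - y % W)) [MOD W] :=
      Nat.ModEq.add_right _ (Nat.mod_modEq _ _).symm
    refine h3.trans ?_
    have h4 : y % W + (b₀ + (W - y % W)) = b₀ + W := by omega
    rw [h4]
    exact Nat.add_modEq_right
  have hblt : b < y + W := by
    rw [hb]
    have := Nat.mod_lt (b₀ + (W - y % W)) (show 0 < W by omega)
    omega
  have hmX : (m : ℝ) ≤ X ^ A := by
    have h1 : u ≤ A * L := by
      have h2 : 2 / ε ≤ A := Nat.le_ceil _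
      calc u = (2 / ε) * (ε * u / 2) := by field_simp
        _ ≤ A * L := mul_le_mul h2 hL1 (by positivity) (by positivity)
    calc (m : ℝ) = Real.exp u := by rw [hu, Real.exp_log hm0]
      _ ≤ Real.exp (A * L) := Real.exp_le_exp.2 h1
      _ = X ^ A := by rw [hXexp, ← Real.exp_nat_mul]
  obtain ⟨x, hx, hcop, hsites⟩ := hX₀ X hX₀X m W b (by omega) hmX hW1 hW8 hWm hWp S hSk hScard
  have hyL : Real.exp (Real.sqrt L) < y := by
    have h2 : Real.exp (Real.sqrt L) ≤ X := by
      rw [hXexp]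
      exact Real.exp_le_exp.2 hsqL
    have h3 : X < (m : ℝ) ^ ε := by
      rw [hXdef]
      linarith
    linarith
  have hzy : (z : ℝ) < y := by
    have h1 : Real.sqrt L ≤ Real.exp (Real.sqrt L) := by
      have := Real.add_one_le_exp (Real.sqrt L)
      linarith
    linarith
  have hyb : y ≤ b := by omega
  refine ⟨b + W * x, by omega, ?_, hcop, ?_⟩
  · have h1 : ((b : ℕ) : ℝ) ≤ y + W := by exact_mod_cast hblt.le
    have h2 : (((b + W * x : ℕ)) : ℝ) = b + ((W * x : ℕ) : ℝ) := by push_cast; ring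
    have h3 : (m : ℝ) ^ ε = X + X := by
      rw [hXdef]
      ring
    rw [h2, h3]
    linarith
  · intro k hk hprime
    have hkV : (k : ℝ) ≤ V := by
      refine hk.trans (le_of_eq ?_)
      rw [hV]
    have hkK : k < K := by
      have : k ≤ ⌊V⌋₊ := Nat.le_floor hkV
      omega
    by_cases hc : (b₀ + k * m).Coprime W
    · obtain ⟨l, hl, -, -, hl2, hl3⟩ := hsites k (mem_filter.2 ⟨mem_range.2 hkK, hc⟩)
      have h1 := (Nat.prime_dvd_prime_iff_eq hl hprime).1 hl3
      have h2 : y ≤ l := by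
        rw [h1]
        omega
      have h3 : (y : ℝ) ≤ l := by exact_mod_cast h2
      linarith
    · obtain ⟨p, hp, hp1, hp2⟩ := Nat.Prime.not_coprime_iff_dvd.1 hc
      have h1 : b + W * x + k * m ≡ b₀ + k * m [MOD p] := by
        apply Nat.ModEq.add_right
        have h2 : b + W * x ≡ b₀ + 0 [MOD W] :=
          Nat.ModEq.add hbmod (Nat.modEq_zero_iff_dvd.2 (dvd_mul_right _ _))
        exact (h2.of_dvd hp2)
      have h2 : p ∣ b + W * x + k * m := (h1.dvd_iff dvd_rfl).2 hp1
      have h3 := (Nat.prime_dvd_prime_iff_eq hp hprime).1 h2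
      have h4 := (mem_Wp.1 (dvd_WW hp hp2)).2.1
      have h5 : y ≤ z := by omega
      have h6 : (y : ℝ) ≤ z := by exact_mod_cast h5
      linarith

end

end Pool.Agent.Lib_helper9.LG
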