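import Mathlib
import Pool.Agent.Lib_helper9.LG.Avg
import Pool.Agent.Lib_helper9.LG.Loc
import Pool.Agent.Lib_helper9.LG.Om
import Pool.Agent.Lib_helper9.LG.Herr
import Pool.Agent.Lib_helper9.LG.Eng
import Pool.Agent.Lib_helper9.LG.ThA
import Pool.Agent.Lib_helper9.LG.FinA
import Pool.Agent.Lib_helper9.LG.SigmaH2
import Pool.Agent.Lib_helper9.LG.Pig

set_option autoImplicit false

/-!
Theorem A.
-/

namespace Pool.Agent.Lib_helper9.LG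

theorem stmtE : StmtE := eng (herr avg loc) sigmaH2 om

theorem stmtA : StmtA := thA stmtE pig

theorem mainA : ∃ c₀ : ℝ, 0 < c₀ ∧ ∀ ε : ℝ, 0 < ε → ε < 1 → ∃ m₀ : ℕ, ∀ m : ℕ, m₀ ≤ m →
    ∀ y : ℕ, (m : ℝ) ^ ε ≤ y → (y : ℝ) + (m : ℝ) ^ ε < m →
      ∃ c : ℕ, (y : ℝ) ≤ c ∧ (c : ℝ) ≤ y + (m : ℝ) ^ ε ∧ c.Coprime m ∧
        ∀ q : ℕ, q.Prime → q ≡ c [MOD m] →
          c₀ * ε * m.totient * Real.log m * Real.log (Real.log m) < q := by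
  obtain ⟨c₀, hc₀, h⟩ := finalA stmtA
  refine ⟨c₀, hc₀, fun ε hε hε1 => ?_⟩
  obtain ⟨m₀, hm₀⟩ := h ε hε hε1.le
  refine ⟨m₀, fun m hm y hy1 hy2 => ?_⟩
  obtain ⟨c, hc, h1, h2⟩ := (hm₀ m hm).1 y hy1 hy2
  obtain ⟨-, h3, h4⟩ := mem_bigClasses.1 hc
  exact ⟨c, h1, h2, h3, h4⟩

end Pool.Agent.Lib_helper9.LG
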